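import Mathlib
import Pool.Agent.TH310.BZ.Max2
set_option autoImplicit false

/-! Functions of a quadratic form as superpositions of complex Gaussians. -/

namespace Pool.Agent.TH292.LS

open Complex MeasureTheory Set Filter Topology
open scoped ENNReal FourierTransform ComplexConjugate RealInnerProductSpace
open Pool.Agent.TH310.BZ

/-- a profile on the half line with its derivative -/
structure Prof (κ κ' : ℝ → ℂ) : Prop where
  cont : Continuous fun w => κ |w|
  der : ∀ w : ℝ, 0 < w → HasDerivAt κ (κ' w) w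
  meas : Measurable κ'
  bd : ∃ K : ℝ, 0 ≤ K ∧ (∀ w : ℝ, 0 ≤ w → ‖κ w‖ ≤ K * (1 + w) ^ (-2 : ℝ)) ∧
    ∀ w : ℝ, 0 < w → ‖κ' w‖ ≤ K * (1 + w) ^ (-2 : ℝ)

/-- even extension -/
noncomputable def ev (κ : ℝ → ℂ) (w : ℝ) : ℂ := κ |w|

/-- odd extension -/
noncomputable def od (κ' : ℝ → ℂ) (w : ℝ) : ℂ :=
  if 0 < w then κ' w else if w < 0 then -κ' (-w) else 0

lemma one_le_fac {w : ℝ} : (1 + |w|) ^ (-2 : ℝ) ≤ 1 :=
  Real.rpow_le_one_of_one_le_of_nonpos (by linarith [abs_nonneg w]) (by norm_num)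

lemma int_fac : Integrable fun w : ℝ => (1 + |w|) ^ (-2 : ℝ) := by
  have := integrable_one_add_norm (E := ℝ) (μ := volume) (r := 2) (by simp)
  simpa using this

lemma ev_GB {κ κ' : ℝ → ℂ} (h : Prof κ κ') : GB (ev κ) := by
  obtain ⟨K, hK, h1, h2⟩ := h.bd
  have hb : ∀ w, ‖ev κ w‖ ≤ K * (1 + |w|) ^ (-2 : ℝ) := fun w => h1 |w| (abs_nonneg w)
  refine ⟨h.cont.measurable, (int_fac.const_mul K).mono' h.cont.aestronglyMeasurable
    (ae_of_all _ hb), K, fun w => (hb w).trans ?_⟩
  exact mul_le_of_le_one_right hK one_le_fac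

lemma od_meas {κ' : ℝ → ℂ} (h : Measurable κ') : Measurable (od κ') := by
  unfold od
  refine Measurable.ite (measurableSet_lt measurable_const measurable_id) h ?_
  refine Measurable.ite (measurableSet_lt measurable_id measurable_const) ?_ measurable_const
  exact (h.comp measurable_neg).neg

lemma od_GB {κ κ' : ℝ → ℂ} (h : Prof κ κ') : GB (od κ') := by
  obtain ⟨K, hK, h1, h2⟩ := h.bd
  have hb : ∀ w, ‖od κ' w‖ ≤ K * (1 + |w|) ^ (-2 : ℝ) := by
    intro w
    unfold od
    split_ifs with h3 h4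
    · rw [abs_of_pos h3]
      exact h2 w h3
    · rw [abs_of_neg h4, norm_neg]
      exact h2 (-w) (by linarith)
    · rw [norm_zero]
      positivity
  refine ⟨od_meas h.meas, (int_fac.const_mul K).mono' (od_meas h.meas).aestronglyMeasurable
    (ae_of_all _ hb), K, fun w => (hb w).trans ?_⟩
  exact mul_le_of_le_one_right hK one_le_fac

/-- the character -/
noncomputable def ch (r w : ℝ) : ℂ := cexp (((-2 * Real.pi * r * w : ℝ) : ℂ) * I)

lemma ch_norm (r w : ℝ) : ‖ch r w‖ = 1 := by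
  unfold ch
  rw [Complex.norm_exp_ofReal_mul_I]

lemma ch_cont (r : ℝ) : Continuous (ch r) := by
  unfold ch
  fun_prop

lemma ch_neg (r w : ℝ) : ch r (-w) = ch (-r) w := by
  unfold ch
  congr 1
  push_cast
  ring

lemma ch_der (r w : ℝ) : HasDerivAt (ch r) ((((-2 * Real.pi * r : ℝ) : ℂ) * I) * ch r w) w := by
  have h1 : HasDerivAt (fun w : ℝ => ((-2 * Real.pi * r * w : ℝ) : ℂ) * I)
      (((-2 * Real.pi * r : ℝ) : ℂ) * I) w := by
    have h2 : HasDerivAt (fun w : ℝ => -2 * Real.pi * r * w) (-2 * Real.pi * r) w := by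
      simpa using (hasDerivAt_id w).const_mul (-2 * Real.pi * r)
    exact h2.ofReal_comp.mul_const I
  have h3 := h1.cexp
  exact h3.congr_deriv (by unfold ch; ring)

lemma four_ev (g : ℝ → ℂ) (r : ℝ) : 𝓕 g r = ∫ w, ch r w * g w := by
  rw [Real.fourier_eq']
  congr 1
  ext w
  rw [smul_eq_mul]
  unfold ch
  congr 3
  simp only [RCLike.inner_apply, conj_trivial]
  push_cast
  ring

lemma split_int {g : ℝ → ℂ} (hg : Integrable g) :
    ∫ w, g w = (∫ w in Ioi (0 : ℝ), g w) + ∫ w in Ioi (0 : ℝ), g (-w) := by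
  have h1 := intervalIntegral.integral_Iic_add_Ioi (b := (0 : ℝ)) hg.integrableOn hg.integrableOn
  rw [← h1, integral_comp_neg_Ioi, neg_zero, add_comm]

lemma ibp {κ κ' : ℝ → ℂ} (h : Prof κ κ') (r : ℝ) :
    ∫ w in Ioi (0 : ℝ), ch r w * κ' w = -κ 0 +
      (((2 * Real.pi * r : ℝ) : ℂ) * I) * ∫ w in Ioi (0 : ℝ), ch r w * κ w := by
  obtain ⟨K, hK, h1, h2⟩ := h.bd
  have hG := od_GB h
  have hE := ev_GB h
  have hcm : AEStronglyMeasurable (ch r) volume := (ch_cont r).aestronglyMeasurable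
  have i1 : IntegrableOn (fun w => ch r w * κ' w) (Ioi 0) := by
    have : Integrable fun w => ch r w * od κ' w :=
      hG.int.bdd_mul (c := 1) hcm (ae_of_all _ fun w => (ch_norm r w).le)
    refine this.integrableOn.congr_fun (fun w hw => ?_) measurableSet_Ioi
    simp only [od]
    rw [if_pos (show 0 < w from hw)]
  have i2 : IntegrableOn (fun w => ch r w * κ w) (Ioi 0) := by
    have : Integrable fun w => ch r w * ev κ w :=
      hE.int.bdd_mul (c := 1) hcm (ae_of_all _ fun w => (ch_norm r w).le)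
    refine this.integrableOn.congr_fun (fun w hw => ?_) measurableSet_Ioi
    simp only [ev]
    rw [abs_of_pos (show 0 < w from hw)]
  have hcκ : ContinuousWithinAt κ (Ici 0) 0 := by
    have h3 : ContinuousWithinAt (fun w => κ |w|) (Ici 0) 0 := h.cont.continuousWithinAt
    refine h3.congr (fun w hw => ?_) (by simp)
    rw [abs_of_nonneg hw]
  have key := integral_Ioi_of_hasDerivAt_of_tendsto (a := (0 : ℝ)) (m := (0 : ℂ))
    (f := fun w => ch r w * κ w)
    (f' := fun w => ((((-2 * Real.pi * r : ℝ) : ℂ) * I) * ch r w) * κ w + ch r w * κ' w)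
    ((ch_cont r).continuousWithinAt.mul hcκ)
    (fun w hw => (ch_der r w).mul (h.der w hw)) ?_ ?_
  · have e1 : ∀ w, ((((-2 * Real.pi * r : ℝ) : ℂ) * I) * ch r w) * κ w + ch r w * κ' w =
        (((-2 * Real.pi * r : ℝ) : ℂ) * I) * (ch r w * κ w) + ch r w * κ' w := fun w => by ring
    simp only [e1] at key
    rw [integral_add (i2.const_mul _) i1, integral_const_mul] at key
    have e2 : ch r 0 = 1 := by simp [ch]
    rw [e2, one_mul, zero_sub] at key
    rw [← key]
    push_cast
    ring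
  · have e1 : ∀ w, ((((-2 * Real.pi * r : ℝ) : ℂ) * I) * ch r w) * κ w + ch r w * κ' w =
        (((-2 * Real.pi * r : ℝ) : ℂ) * I) * (ch r w * κ w) + ch r w * κ' w := fun w => by ring
    simp only [e1]
    exact (i2.const_mul _).add i1
  · rw [tendsto_zero_iff_norm_tendsto_zero]
    have h4 : Tendsto (fun w : ℝ => K * (1 + w) ^ (-2 : ℝ)) atTop (𝓝 (K * 0)) := by
      refine Tendsto.const_mul K ?_
      exact (tendsto_rpow_neg_atTop (by norm_num : (0 : ℝ) < 2)).comp
        (tendsto_atTop_add_const_left _ _ tendsto_id)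
    rw [mul_zero] at h4
    refine squeeze_zero' (Eventually.of_forall fun _ => norm_nonneg _) ?_ h4
    filter_upwards [eventually_ge_atTop (0 : ℝ)] with w hw
    rw [norm_mul, ch_norm, one_mul]
    exact h1 w hw

lemma fourier_od {κ κ' : ℝ → ℂ} (h : Prof κ κ') (r : ℝ) :
    𝓕 (od κ') r = (((2 * Real.pi * r : ℝ) : ℂ) * I) * 𝓕 (ev κ) r := by
  have hG := od_GB h
  have hE := ev_GB h
  have hcm : AEStronglyMeasurable (ch r) volume := (ch_cont r).aestronglyMeasurable
  rw [four_ev, four_ev, split_int, split_int]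
  · have e1 : ∫ w in Ioi (0 : ℝ), ch r w * od κ' w = ∫ w in Ioi (0 : ℝ), ch r w * κ' w := by
      refine setIntegral_congr_fun measurableSet_Ioi fun w hw => ?_
      simp only [od]
      rw [if_pos (show 0 < w from hw)]
    have e2 : ∫ w in Ioi (0 : ℝ), ch r (-w) * od κ' (-w) =
        -∫ w in Ioi (0 : ℝ), ch (-r) w * κ' w := by
      rw [← integral_neg]
      refine setIntegral_congr_fun measurableSet_Ioi fun w hw => ?_
      simp only [od]
      rw [if_neg (not_lt.2 (by have : 0 < w := hw; linarith)),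
        if_pos (by have : 0 < w := hw; linarith), neg_neg, ch_neg]
      ring
    have e3 : ∫ w in Ioi (0 : ℝ), ch r w * ev κ w = ∫ w in Ioi (0 : ℝ), ch r w * κ w := by
      refine setIntegral_congr_fun measurableSet_Ioi fun w hw => ?_
      simp only [ev]
      rw [abs_of_pos (show 0 < w from hw)]
    have e4 : ∫ w in Ioi (0 : ℝ), ch r (-w) * ev κ (-w) = ∫ w in Ioi (0 : ℝ), ch (-r) w * κ w := by
      refine setIntegral_congr_fun measurableSet_Ioi fun w hw => ?_
      simp only [ev]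
      rw [abs_neg, abs_of_pos (show 0 < w from hw), ch_neg]
    rw [e1, e2, e3, e4, ibp h r, ibp h (-r)]
    push_cast
    ring
  · exact hE.int.bdd_mul (c := 1) hcm (ae_of_all _ fun w => (ch_norm r w).le)
  · exact hG.int.bdd_mul (c := 1) hcm (ae_of_all _ fun w => (ch_norm r w).le)

end Pool.Agent.TH292.LS
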