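import Mathlib
import Pool.Agent.TH292.LS.A
set_option autoImplicit false

/-! The basic estimate. -/

namespace Pool.Agent.TH292.LS

open Complex MeasureTheory Set Filter Topology
open scoped ENNReal FourierTransform ComplexConjugate RealInnerProductSpace
open Pool.Agent.TH310.BZ

lemma lsplit {g : ℝ → ℝ≥0∞} :
    ∫⁻ w, g w = (∫⁻ w in Ioi (0 : ℝ), g w) + ∫⁻ w in Ioi (0 : ℝ), g (-w) := by
  have h1 := lintegral_add_compl g (μ := (volume : Measure ℝ)) (A := Ioi (0 : ℝ)) measurableSet_Ioi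
  rw [← h1, compl_Ioi]
  congr 1
  rw [← setLIntegral_congr Iio_ae_eq_Iic, ← lintegral_indicator measurableSet_Iio,
    ← lintegral_indicator measurableSet_Ioi,
    ← lintegral_neg_eq_self (fun w => (Iio (0 : ℝ)).indicator (fun a => g a) w)]
  refine lintegral_congr fun w => ?_
  by_cases h : 0 < w
  · rw [indicator_of_mem (show w ∈ Ioi (0 : ℝ) from h), indicator_of_mem (by simpa using h)]
  · rw [indicator_of_notMem (show w ∉ Ioi (0 : ℝ) from h), indicator_of_notMem (by simpa using h)]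

lemma ev_l2 {κ κ' : ℝ → ℂ} (h : Prof κ κ') :
    ∫⁻ w, ‖ev κ w‖ₑ ^ 2 = 2 * ∫⁻ w in Ioi (0 : ℝ), ‖κ w‖ₑ ^ 2 := by
  rw [lsplit, two_mul]
  congr 1
  · refine setLIntegral_congr_fun measurableSet_Ioi fun w hw => ?_
    simp only [ev]
    rw [abs_of_pos (show 0 < w from hw)]
  · refine setLIntegral_congr_fun measurableSet_Ioi fun w hw => ?_
    simp only [ev]
    rw [abs_neg, abs_of_pos (show 0 < w from hw)]

lemma od_l2 {κ κ' : ℝ → ℂ} (h : Prof κ κ') :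
    ∫⁻ w, ‖od κ' w‖ₑ ^ 2 = 2 * ∫⁻ w in Ioi (0 : ℝ), ‖κ' w‖ₑ ^ 2 := by
  rw [lsplit, two_mul]
  congr 1
  · refine setLIntegral_congr_fun measurableSet_Ioi fun w hw => ?_
    simp only [od]
    rw [if_pos (show 0 < w from hw)]
  · refine setLIntegral_congr_fun measurableSet_Ioi fun w hw => ?_
    have hw' : 0 < w := hw
    simp only [od]
    rw [if_neg (not_lt.2 (by linarith)), if_pos (by linarith), neg_neg, enorm_neg]

lemma wt_le {N δ : ℝ} (hN : 1 ≤ N) (hδ : 0 < δ) (hδ1 : δ ≤ 1) (r : ℝ) :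
    (1 + |r|) ^ (1 + δ) ≤ 2 * N ^ (1 + δ) * (1 + 1 / N ^ 2 * r ^ 2) := by
  have hN0 : 0 < N := by linarith
  have h1 : 1 + |r| ≤ N * (1 + |r| / N) := by
    rw [mul_add, mul_one, mul_div_cancel₀ _ hN0.ne']
    linarith
  have h2 : (1 : ℝ) ≤ 1 + |r| / N := by
    have : 0 ≤ |r| / N := by positivity
    linarith
  calc (1 + |r|) ^ (1 + δ) ≤ (N * (1 + |r| / N)) ^ (1 + δ) :=
        Real.rpow_le_rpow (by positivity) h1 (by linarith)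
    _ = N ^ (1 + δ) * (1 + |r| / N) ^ (1 + δ) := Real.mul_rpow hN0.le (by positivity)
    _ ≤ N ^ (1 + δ) * (1 + |r| / N) ^ (2 : ℝ) := by
        apply mul_le_mul_of_nonneg_left _ (by positivity)
        exact Real.rpow_le_rpow_of_exponent_le h2 (by linarith)
    _ ≤ N ^ (1 + δ) * (2 * (1 + 1 / N ^ 2 * r ^ 2)) := by
        apply mul_le_mul_of_nonneg_left _ (by positivity)
        rw [Real.rpow_two]
        have h3 : 1 / N ^ 2 * r ^ 2 = (|r| / N) ^ 2 := by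
          rw [div_pow, sq_abs]; ring
        rw [h3]
        nlinarith [sq_nonneg (1 - |r| / N)]
    _ = _ := by ring

/-- the weighted norm of the Fourier transform of the even extension -/
lemma ev_weight {κ κ' : ℝ → ℂ} (h : Prof κ κ') {N δ : ℝ} (hN : 1 ≤ N) (hδ : 0 < δ)
    (hδ1 : δ ≤ 1) :
    ∫⁻ r, wt (1 + δ) r * ‖𝓕 (ev κ) r‖ₑ ^ 2 ≤ ENNReal.ofReal (4 * N ^ (1 + δ)) *
      ((∫⁻ w in Ioi (0 : ℝ), ‖κ w‖ₑ ^ 2) + ENNReal.ofReal (1 / N ^ 2) *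
        ∫⁻ w in Ioi (0 : ℝ), ‖κ' w‖ₑ ^ 2) := by
  have hN0 : 0 < N := by linarith
  have hE := ev_GB h
  have hO := od_GB h
  have hFm : Measurable (𝓕 (ev κ)) := meas_F hE.int
  have hOm : Measurable (𝓕 (od κ')) := meas_F hO.int
  have hpt : ∀ r : ℝ, wt (1 + δ) r * ‖𝓕 (ev κ) r‖ₑ ^ 2 ≤ ENNReal.ofReal (2 * N ^ (1 + δ)) *
      (‖𝓕 (ev κ) r‖ₑ ^ 2 + ENNReal.ofReal (1 / N ^ 2) * ‖𝓕 (od κ') r‖ₑ ^ 2) := by
    intro r
    rw [fourier_od h r]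
    have e1 : ‖𝓕 (ev κ) r‖ₑ = ENNReal.ofReal ‖𝓕 (ev κ) r‖ := (ofReal_norm _).symm
    have e2 : ‖(((2 * Real.pi * r : ℝ) : ℂ) * I) * 𝓕 (ev κ) r‖ₑ =
        ENNReal.ofReal (2 * Real.pi * |r| * ‖𝓕 (ev κ) r‖) := by
      rw [← ofReal_norm]
      congr 1
      rw [norm_mul, norm_mul, Complex.norm_I, mul_one, Complex.norm_real, Real.norm_eq_abs,
        abs_mul, abs_of_pos (by positivity : (0 : ℝ) < 2 * Real.pi)]
    rw [e1, e2]
    unfold wt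
    rw [← ENNReal.ofReal_pow (norm_nonneg _), ← ENNReal.ofReal_pow (by positivity),
      ← ENNReal.ofReal_mul (by positivity), ← ENNReal.ofReal_mul (by positivity),
      ← ENNReal.ofReal_add (by positivity) (by positivity), ← ENNReal.ofReal_mul (by positivity)]
    apply ENNReal.ofReal_le_ofReal
    have h1 := wt_le hN hδ hδ1 r
    have h2 : r ^ 2 ≤ (2 * Real.pi * |r|) ^ 2 := by
      rw [mul_pow, sq_abs]
      have : (1 : ℝ) ≤ (2 * Real.pi) ^ 2 := by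
        have := Real.pi_gt_three
        nlinarith
      nlinarith [sq_nonneg r]
    calc (1 + |r|) ^ (1 + δ) * ‖𝓕 (ev κ) r‖ ^ 2
        ≤ 2 * N ^ (1 + δ) * (1 + 1 / N ^ 2 * r ^ 2) * ‖𝓕 (ev κ) r‖ ^ 2 :=
          mul_le_mul_of_nonneg_right h1 (sq_nonneg _)
      _ ≤ 2 * N ^ (1 + δ) * (1 + 1 / N ^ 2 * (2 * Real.pi * |r|) ^ 2) * ‖𝓕 (ev κ) r‖ ^ 2 := by
          gcongr
      _ = _ := by ring
  calc ∫⁻ r, wt (1 + δ) r * ‖𝓕 (ev κ) r‖ₑ ^ 2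
      ≤ ∫⁻ r, ENNReal.ofReal (2 * N ^ (1 + δ)) *
        (‖𝓕 (ev κ) r‖ₑ ^ 2 + ENNReal.ofReal (1 / N ^ 2) * ‖𝓕 (od κ') r‖ₑ ^ 2) :=
        lintegral_mono hpt
    _ = ENNReal.ofReal (2 * N ^ (1 + δ)) * ((∫⁻ r, ‖𝓕 (ev κ) r‖ₑ ^ 2) +
        ENNReal.ofReal (1 / N ^ 2) * ∫⁻ r, ‖𝓕 (od κ') r‖ₑ ^ 2) := by
        rw [lintegral_const_mul' _ _ ENNReal.ofReal_ne_top,
          lintegral_add_left (hFm.enorm.pow_const 2),
          lintegral_const_mul' _ _ ENNReal.ofReal_ne_top]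
    _ = _ := by
        rw [Pool.Agent.H153R4.plancherel _ hE.int hE.memLp,
          Pool.Agent.H153R4.plancherel _ hO.int hO.memLp, ev_l2 h, od_l2 h,
          show (4 : ℝ) * N ^ (1 + δ) = 2 * N ^ (1 + δ) * 2 by ring,
          ENNReal.ofReal_mul (by positivity : (0 : ℝ) ≤ 2 * N ^ (1 + δ))]
        rw [show ENNReal.ofReal 2 = 2 by simp]
        ring

lemma l2_fin {g : ℝ → ℂ} (hg : GB g) : ∫⁻ w, ‖g w‖ₑ ^ 2 < ⊤ := by
  have h := hg.memLp.2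
  rw [eLpNorm_lt_top_iff_lintegral_rpow_enorm_lt_top (by norm_num) (by norm_num)] at h
  simpa using h

lemma ev_F_int {κ κ' : ℝ → ℂ} (h : Prof κ κ') : Integrable (𝓕 (ev κ)) := by
  have hE := ev_GB h
  have hO := od_GB h
  have hFm : Measurable (𝓕 (ev κ)) := meas_F hE.int
  refine ⟨hFm.aestronglyMeasurable, ?_⟩
  have h1 := ev_weight h (N := 1) (δ := 1) le_rfl one_pos le_rfl
  have h2 : ∫⁻ r, wt (1 + 1) r * ‖𝓕 (ev κ) r‖ₑ ^ 2 < ⊤ := by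
    refine h1.trans_lt (ENNReal.mul_lt_top ENNReal.ofReal_lt_top (ENNReal.add_lt_top.2 ⟨?_, ?_⟩))
    · have h3 := l2_fin hE
      rw [ev_l2 h] at h3
      by_contra hcon
      rw [not_lt, top_le_iff] at hcon
      rw [hcon] at h3
      simp at h3
    · refine ENNReal.mul_lt_top ENNReal.ofReal_lt_top ?_
      have h3 := l2_fin hO
      rw [od_l2 h] at h3
      by_contra hcon
      rw [not_lt, top_le_iff] at hcon
      rw [hcon] at h3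
      simp at h3
  have h3 := cs_le (μ := (volume : Measure ℝ)) (f := wt (-2)) (g := fun r => wt 2 r *
    ‖𝓕 (ev κ) r‖ₑ) (wt_meas _) ((wt_meas _).mul hFm.enorm)
  have e1 : ∀ r : ℝ, wt (-2) r * (wt 2 r * ‖𝓕 (ev κ) r‖ₑ) = ‖𝓕 (ev κ) r‖ₑ := by
    intro r
    rw [← mul_assoc, wt_mul, show (-2 : ℝ) + 2 = 0 by norm_num, wt_zero, one_mul]
  have e2 : ∀ r : ℝ, wt (-2) r * (wt 2 r * ‖𝓕 (ev κ) r‖ₑ) ^ 2 =
      wt (1 + 1) r * ‖𝓕 (ev κ) r‖ₑ ^ 2 := by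
    intro r
    rw [mul_pow, ← mul_assoc, wt_sq, wt_mul]
    norm_num
  simp only [e1, e2] at h3
  have h4 : (∫⁻ r, ‖𝓕 (ev κ) r‖ₑ) ^ 2 < ⊤ :=
    h3.trans_lt (ENNReal.mul_lt_top (wt_fin (by norm_num)) h2)
  rw [hasFiniteIntegral_iff_enorm]
  exact (ENNReal.pow_lt_top_iff.1 h4).resolve_right (by norm_num)

variable {n : ℕ}

/-- the operator with symbol `κ (Q_b) exp (- π Q_b)` -/
noncomputable def Jf (κ : ℝ → ℂ) (b : Fin n → ℝ) (f : E n → ℂ) (x : E n) : ℂ :=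
  ∫ ξ : E n, κ (QF b ξ) * Gx b f x ξ

/-- the square function -/
noncomputable def B2 (δ : ℝ) (b : Fin n → ℝ) (g : E n → ℂ) (x : E n) : ℝ≥0∞ :=
  ∫⁻ t : ℝ, wt (-(1 + δ)) t * ‖cv (KK b t) g x‖ₑ ^ 2

lemma rep {κ κ' : ℝ → ℂ} (h : Prof κ κ') {b : Fin n → ℝ} (hb : ∀ j, 0 < b j)
    {f : E n → ℂ} (hf : GB f) (x : E n) :
    Jf κ b f x = ∫ r : ℝ, 𝓕 (ev κ) r * cv (KK b (-r)) f x := by
  have hE := ev_GB h
  have hFi := ev_F_int h
  have hGi := Gx_int hb hf.int x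
  have h1 : ∀ ξ : E n, κ (QF b ξ) * Gx b f x ξ =
      ∫ r : ℝ, (cexp (((2 * Real.pi * (r * QF b ξ) : ℝ) : ℂ) * I) * 𝓕 (ev κ) r) *
        Gx b f x ξ := by
    intro ξ
    rw [integral_mul_const]
    congr 1
    have h2 : κ (QF b ξ) = ev κ (QF b ξ) := by
      unfold ev
      rw [abs_of_nonneg (QF_nonneg hb ξ)]
    rw [h2]
    have h3 : ev κ (QF b ξ) = 𝓕⁻ (𝓕 (ev κ)) (QF b ξ) := by
      rw [(show Continuous (ev κ) from h.cont).fourierInv_fourier_eq hE.int hFi]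
    rw [h3, Real.fourierInv_eq']
    congr 1
    ext r
    rw [smul_eq_mul]
    congr 3
    simp only [RCLike.inner_apply, conj_trivial]
    push_cast
    ring
  unfold Jf
  simp only [h1]
  have hcQ := QF_cont b
  have hm : Measurable fun p : E n × ℝ =>
      (cexp (((2 * Real.pi * (p.2 * QF b p.1) : ℝ) : ℂ) * I) * 𝓕 (ev κ) p.2) * Gx b f x p.1 := by
    refine Measurable.mul (Measurable.mul ?_ ((meas_F hE.int).comp measurable_snd))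
      ((Gx_cont hf.int x).measurable.comp measurable_fst)
    have : Continuous fun p : E n × ℝ =>
      cexp (((2 * Real.pi * (p.2 * QF b p.1) : ℝ) : ℂ) * I) := by fun_prop
    exact this.measurable
  have hi : Integrable (Function.uncurry fun (ξ : E n) (r : ℝ) =>
      (cexp (((2 * Real.pi * (r * QF b ξ) : ℝ) : ℂ) * I) * 𝓕 (ev κ) r) * Gx b f x ξ)
      (volume.prod volume) := by
    have h2 := hGi.norm.mul_prod hFi.norm
    refine h2.mono' hm.aestronglyMeasurable (ae_of_all _ fun p => ?_)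
    simp only [Function.uncurry]
    rw [norm_mul, norm_mul, Complex.norm_exp_ofReal_mul_I, one_mul, mul_comm]
  rw [integral_integral_swap hi]
  congr 1
  ext r
  have e1 : ∀ ξ : E n, (cexp (((2 * Real.pi * (r * QF b ξ) : ℝ) : ℂ) * I) * 𝓕 (ev κ) r) *
      Gx b f x ξ = 𝓕 (ev κ) r *
        (cexp (-((Real.pi * QF b ξ : ℝ) : ℂ) * (1 + 2 * ((-r : ℝ) : ℂ) * I)) * 𝓕 f ξ *
          cexp (((2 * Real.pi * ⟪x, ξ⟫ : ℝ) : ℂ) * I)) := by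
    intro ξ
    unfold Gx
    have e2 : cexp (((2 * Real.pi * (r * QF b ξ) : ℝ) : ℂ) * I) *
        cexp (-((Real.pi * QF b ξ : ℝ) : ℂ)) =
        cexp (-((Real.pi * QF b ξ : ℝ) : ℂ) * (1 + 2 * ((-r : ℝ) : ℂ) * I)) := by
      rw [← Complex.exp_add]
      congr 1
      push_cast
      ring
    rw [← e2]
    ring
  simp only [e1]
  rw [integral_const_mul, HH_eq hb (-r) hf x]

lemma cs2 {X : Type*} [MeasurableSpace X] {μ : Measure X} {f g : X → ℝ≥0∞} (hf : Measurable f)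
    (hg : Measurable g) :
    (∫⁻ x, f x * g x ∂μ) ^ 2 ≤ (∫⁻ x, f x ^ 2 ∂μ) * ∫⁻ x, g x ^ 2 ∂μ := by
  have h := ENNReal.lintegral_mul_le_Lp_mul_Lq μ (p := 2) (q := 2) (by constructor <;> norm_num)
    (f := f) (g := g) hf.aemeasurable hg.aemeasurable
  simp only [Pi.mul_apply, ENNReal.rpow_ofNat] at h
  calc (∫⁻ x, f x * g x ∂μ) ^ 2
      ≤ ((∫⁻ x, f x ^ 2 ∂μ) ^ (1 / 2 : ℝ) * (∫⁻ x, g x ^ 2 ∂μ) ^ (1 / 2 : ℝ)) ^ 2 := by gcongr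
    _ = _ := by
      rw [mul_pow, ← ENNReal.rpow_natCast, ← ENNReal.rpow_natCast, ← ENNReal.rpow_mul,
        ← ENNReal.rpow_mul]
      norm_num

lemma wt_even (s t : ℝ) : wt s (-t) = wt s t := by
  unfold wt
  rw [abs_neg]

/-- **The basic estimate.** -/
theorem est {κ κ' : ℝ → ℂ} (h : Prof κ κ') {b : Fin n → ℝ} (hb : ∀ j, 0 < b j)
    {f : E n → ℂ} (hf : GB f) (x : E n) {N δ : ℝ} (hN : 1 ≤ N) (hδ : 0 < δ) (hδ1 : δ ≤ 1) :
    ‖Jf κ b f x‖ₑ ^ 2 ≤ ENNReal.ofReal (4 * N ^ (1 + δ)) *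
      ((∫⁻ w in Ioi (0 : ℝ), ‖κ w‖ₑ ^ 2) + ENNReal.ofReal (1 / N ^ 2) *
        ∫⁻ w in Ioi (0 : ℝ), ‖κ' w‖ₑ ^ 2) * B2 δ b f x := by
  have hE := ev_GB h
  have hFm : Measurable (𝓕 (ev κ)) := meas_F hE.int
  have hVm : Measurable fun r : ℝ => ‖cv (KK b (-r)) f x‖ₑ :=
    (cv_m1 hf.meas b x).comp measurable_neg
  rw [rep h hb hf x]
  have h1 : ‖∫ r : ℝ, 𝓕 (ev κ) r * cv (KK b (-r)) f x‖ₑ ≤
      ∫⁻ r : ℝ, (wt ((1 + δ) / 2) r * ‖𝓕 (ev κ) r‖ₑ) *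
        (wt (-((1 + δ) / 2)) r * ‖cv (KK b (-r)) f x‖ₑ) := by
    refine (enorm_integral_le_lintegral_enorm _).trans (le_of_eq ?_)
    refine lintegral_congr fun r => ?_
    rw [enorm_mul]
    have : wt ((1 + δ) / 2) r * wt (-((1 + δ) / 2)) r = 1 := by
      rw [wt_mul, add_neg_cancel, wt_zero]
    calc ‖𝓕 (ev κ) r‖ₑ * ‖cv (KK b (-r)) f x‖ₑ =
        (wt ((1 + δ) / 2) r * wt (-((1 + δ) / 2)) r) *
          (‖𝓕 (ev κ) r‖ₑ * ‖cv (KK b (-r)) f x‖ₑ) := by rw [this, one_mul]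
      _ = _ := by ring
  have h2 := cs2 (μ := (volume : Measure ℝ)) (f := fun r => wt ((1 + δ) / 2) r * ‖𝓕 (ev κ) r‖ₑ)
    (g := fun r => wt (-((1 + δ) / 2)) r * ‖cv (KK b (-r)) f x‖ₑ)
    ((wt_meas _).mul hFm.enorm) ((wt_meas _).mul hVm)
  have e1 : ∀ r : ℝ, (wt ((1 + δ) / 2) r * ‖𝓕 (ev κ) r‖ₑ) ^ 2 =
      wt (1 + δ) r * ‖𝓕 (ev κ) r‖ₑ ^ 2 := by
    intro r
    rw [mul_pow, wt_sq]
    congr 2
    ring
  have e2 : ∀ r : ℝ, (wt (-((1 + δ) / 2)) r * ‖cv (KK b (-r)) f x‖ₑ) ^ 2 =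
      wt (-(1 + δ)) (-r) * ‖cv (KK b (-r)) f x‖ₑ ^ 2 := by
    intro r
    rw [mul_pow, wt_sq, wt_even]
    congr 2
    ring
  simp only [e1, e2] at h2
  rw [lintegral_neg_eq_self (fun r : ℝ => wt (-(1 + δ)) r * ‖cv (KK b r) f x‖ₑ ^ 2)] at h2
  calc ‖∫ r : ℝ, 𝓕 (ev κ) r * cv (KK b (-r)) f x‖ₑ ^ 2
      ≤ (∫⁻ r : ℝ, (wt ((1 + δ) / 2) r * ‖𝓕 (ev κ) r‖ₑ) *
        (wt (-((1 + δ) / 2)) r * ‖cv (KK b (-r)) f x‖ₑ)) ^ 2 := by gcongr
    _ ≤ _ := h2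
    _ ≤ _ := mul_le_mul_left (ev_weight h hN hδ hδ1) _

end Pool.Agent.TH292.LS
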