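import Mathlib
import Pool.Agent.TH292.LS.B
set_option autoImplicit false

/-! Averaged bounds for the square function. -/

namespace Pool.Agent.TH292.LS

open Complex MeasureTheory Set Filter Topology
open scoped ENNReal FourierTransform ComplexConjugate RealInnerProductSpace
open Pool.Agent.TH310.BZ

variable {n : ℕ}

lemma B2_meas (δ : ℝ) {g : E n → ℂ} (hg : Measurable g) :
    Measurable fun p : (Fin n → ℝ) × E n => B2 δ p.1 g p.2 := by
  unfold B2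
  have h : Measurable fun q : ((Fin n → ℝ) × E n) × ℝ =>
      wt (-(1 + δ)) q.2 * ‖cv (KK q.1.1 q.2) g q.1.2‖ₑ ^ 2 :=
    ((wt_meas _).comp measurable_snd).mul ((cv_m3 hg).pow_const 2)
  exact h.lintegral_prod_right'

theorem B2_two {δ : ℝ} {b : Fin n → ℝ} (hb : ∀ j, 0 < b j) {g : E n → ℂ} (hg : GB g) :
    ∫⁻ x, B2 δ b g x ≤ (∫⁻ t, wt (-(1 + δ)) t) * ∫⁻ x, ‖g x‖ₑ ^ 2 := by
  have hm : Measurable fun p : E n × ℝ => wt (-(1 + δ)) p.2 * ‖cv (KK b p.2) g p.1‖ₑ ^ 2 :=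
    ((wt_meas _).comp measurable_snd).mul ((cv_m2 hg.meas b).pow_const 2)
  have hmt : ∀ t : ℝ, Measurable fun x : E n => ‖cv (KK b t) g x‖ₑ ^ 2 := by
    intro t
    have h3 : Measurable fun x : E n => (x, t) := measurable_id.prodMk measurable_const
    exact ((cv_m2 hg.meas b).comp h3).pow_const 2
  calc ∫⁻ x, B2 δ b g x
      = ∫⁻ t, ∫⁻ x : E n, wt (-(1 + δ)) t * ‖cv (KK b t) g x‖ₑ ^ 2 := by
        unfold B2
        rw [lintegral_lintegral_swap (f := fun (x : E n) (t : ℝ) =>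
          wt (-(1 + δ)) t * ‖cv (KK b t) g x‖ₑ ^ 2) hm.aemeasurable]
    _ ≤ ∫⁻ t, wt (-(1 + δ)) t * ∫⁻ x : E n, ‖g x‖ₑ ^ 2 := by
        refine lintegral_mono fun t => ?_
        rw [lintegral_const_mul _ (hmt t)]
        exact mul_le_mul_right (cv_two hb t hg) _
    _ = _ := by rw [lintegral_mul_const _ (wt_meas _)]

lemma B2_sq (δ : ℝ) {g : E n → ℂ} (hg : Measurable g) (b : Fin n → ℝ) (x : E n) :
    B2 δ b g x ^ 2 ≤ (∫⁻ t, wt (-(1 + δ)) t) *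
      ∫⁻ t, wt (-(1 + δ)) t * ‖cv (KK b t) g x‖ₑ ^ 4 := by
  have h2 : (∫⁻ t, wt (-(1 + δ)) t * ‖cv (KK b t) g x‖ₑ ^ 2) ^ 2 ≤
      (∫⁻ t, wt (-(1 + δ)) t) * ∫⁻ t, wt (-(1 + δ)) t * (‖cv (KK b t) g x‖ₑ ^ 2) ^ 2 :=
    cs_le (wt_meas _) ((cv_m1 hg b x).pow_const 2)
  have e : ∀ t, (‖cv (KK b t) g x‖ₑ ^ 2) ^ 2 = ‖cv (KK b t) g x‖ₑ ^ 4 := fun t => by
    rw [← pow_mul]
  simp only [e] at h2
  exact h2

theorem B2_four (n : ℕ) (α γ δ : ℝ) (hα : 0 < α) (hαγ : α ≤ γ) (hδ : 0 < δ) :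
    ∃ C : ℝ≥0∞, C ≠ ⊤ ∧ ∀ g : E n → ℂ, GB g →
      ∫⁻ b, ∫⁻ x, B2 δ b g x ^ 2 ∂volume ∂(nu n α γ) ≤ C * ∫⁻ x, ‖g x‖ₑ ^ 4 := by
  obtain ⟨η, hη⟩ : ∃ η, η = min 1 (δ / (4 * (n + 1))) := ⟨_, rfl⟩
  have hη0 : 0 < η := by rw [hη]; positivity
  have hη1 : η ≤ 1 := by rw [hη]; exact min_le_left _ _
  have hη2 : 2 * η * n ≤ δ / 2 := by
    have h1 : η ≤ δ / (4 * (n + 1)) := by rw [hη]; exact min_le_right _ _
    have h2 : (0 : ℝ) < 4 * (n + 1) := by positivity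
    rw [le_div_iff₀ h2] at h1
    nlinarith
  obtain ⟨C, hC, hcore⟩ := core4 n α γ η hα hαγ hη0 hη1
  obtain ⟨W, hW⟩ : ∃ W, W = ∫⁻ t, wt (-(1 + δ)) t := ⟨_, rfl⟩
  have hWt : W ≠ ⊤ := by rw [hW]; exact (wt_fin (by linarith)).ne
  have hW2 : ∫⁻ t, wt (-(1 + δ / 2)) t < ⊤ := wt_fin (by linarith)
  refine ⟨W * ((∫⁻ t, wt (-(1 + δ / 2)) t) * ENNReal.ofReal C),
    ENNReal.mul_ne_top hWt (ENNReal.mul_ne_top hW2.ne
      ENNReal.ofReal_ne_top), fun g hg => ?_⟩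
  have hm : Measurable fun p : ((Fin n → ℝ) × E n) × ℝ =>
      wt (-(1 + δ)) p.2 * ‖cv (KK p.1.1 p.2) g p.1.2‖ₑ ^ 4 :=
    ((wt_meas _).comp measurable_snd).mul ((cv_m3 hg.meas).pow_const 4)
  have hm2 : Measurable fun p : (Fin n → ℝ) × E n =>
      ∫⁻ t, wt (-(1 + δ)) t * ‖cv (KK p.1 t) g p.2‖ₑ ^ 4 := hm.lintegral_prod_right'
  have hmx : ∀ b : Fin n → ℝ, Measurable fun x : E n =>
      ∫⁻ t, wt (-(1 + δ)) t * ‖cv (KK b t) g x‖ₑ ^ 4 := by
    intro b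
    have h1 : Measurable fun p : E n × ℝ => wt (-(1 + δ)) p.2 * ‖cv (KK b p.2) g p.1‖ₑ ^ 4 :=
      ((wt_meas _).comp measurable_snd).mul ((cv_m2 hg.meas b).pow_const 4)
    exact h1.lintegral_prod_right'
  have hmb : Measurable fun b : Fin n → ℝ => ∫⁻ x : E n,
      ∫⁻ t, wt (-(1 + δ)) t * ‖cv (KK b t) g x‖ₑ ^ 4 := hm2.lintegral_prod_right'
  calc ∫⁻ b, ∫⁻ x, B2 δ b g x ^ 2 ∂volume ∂(nu n α γ)
      ≤ ∫⁻ b, ∫⁻ x : E n, W * ∫⁻ t, wt (-(1 + δ)) t * ‖cv (KK b t) g x‖ₑ ^ 4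
          ∂volume ∂volume ∂(nu n α γ) := by
        refine lintegral_mono fun b => lintegral_mono fun x => ?_
        rw [hW]
        exact B2_sq δ hg.meas b x
    _ = W * ∫⁻ b, ∫⁻ x : E n, ∫⁻ t, wt (-(1 + δ)) t * ‖cv (KK b t) g x‖ₑ ^ 4
          ∂volume ∂volume ∂(nu n α γ) := by
        rw [← lintegral_const_mul _ hmb]
        refine lintegral_congr fun b => ?_
        rw [lintegral_const_mul _ (hmx b)]
    _ = W * ∫⁻ t, ∫⁻ b, ∫⁻ x : E n, wt (-(1 + δ)) t * ‖cv (KK b t) g x‖ₑ ^ 4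
          ∂volume ∂(nu n α γ) := by
        congr 1
        have e1 : ∀ b : Fin n → ℝ, ∫⁻ x : E n, ∫⁻ t, wt (-(1 + δ)) t *
            ‖cv (KK b t) g x‖ₑ ^ 4 =
            ∫⁻ t, ∫⁻ x : E n, wt (-(1 + δ)) t * ‖cv (KK b t) g x‖ₑ ^ 4 := by
          intro b
          have h1 : Measurable fun p : E n × ℝ =>
              wt (-(1 + δ)) p.2 * ‖cv (KK b p.2) g p.1‖ₑ ^ 4 :=
            ((wt_meas _).comp measurable_snd).mul ((cv_m2 hg.meas b).pow_const 4)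
          exact lintegral_lintegral_swap (f := fun (x : E n) (t : ℝ) =>
            wt (-(1 + δ)) t * ‖cv (KK b t) g x‖ₑ ^ 4) h1.aemeasurable
        simp only [e1]
        have h2 : Measurable fun p : ((Fin n → ℝ) × ℝ) × E n =>
            wt (-(1 + δ)) p.1.2 * ‖cv (KK p.1.1 p.1.2) g p.2‖ₑ ^ 4 :=
          ((wt_meas _).comp (measurable_snd.comp measurable_fst)).mul
            ((cv_meas3 hg.meas).enorm.pow_const 4)
        exact lintegral_lintegral_swap (f := fun (b : Fin n → ℝ) (t : ℝ) =>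
            ∫⁻ x : E n, wt (-(1 + δ)) t * ‖cv (KK b t) g x‖ₑ ^ 4)
            h2.lintegral_prod_right'.aemeasurable
    _ ≤ W * ∫⁻ t, wt (-(1 + δ / 2)) t * (ENNReal.ofReal C * ∫⁻ x, ‖g x‖ₑ ^ 4) := by
        refine mul_le_mul_right (lintegral_mono fun t => ?_) _
        have hmbx : Measurable fun b : Fin n → ℝ => ∫⁻ x : E n, ‖cv (KK b t) g x‖ₑ ^ 4 :=
          (cv_meas_bx hg.meas t).lintegral_prod_right'
        have e2 : ∫⁻ b, ∫⁻ x : E n, wt (-(1 + δ)) t * ‖cv (KK b t) g x‖ₑ ^ 4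
            ∂volume ∂(nu n α γ) =
            wt (-(1 + δ)) t * ∫⁻ b, ∫⁻ x : E n, ‖cv (KK b t) g x‖ₑ ^ 4
              ∂volume ∂(nu n α γ) := by
          rw [← lintegral_const_mul _ hmbx]
          refine lintegral_congr fun b => ?_
          rw [lintegral_const_mul _ (cv_meas_x hg.meas b t)]
        rw [e2]
        refine (mul_le_mul_right (hcore t g hg) _).trans ?_
        rw [← mul_assoc, ← mul_assoc]
        exact mul_le_mul_left (pow_aux δ η t n hη0.le hη2 C hC.le) _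
    _ = _ := by
        rw [lintegral_mul_const _ (wt_meas _)]
        simp only [mul_assoc]

lemma B2_lt_top (hn : 1 ≤ n) {δ : ℝ} (hδ : 0 < δ) {b : Fin n → ℝ} (hb : ∀ j, 0 < b j)
    {g : E n → ℂ} (hg : GB g) (x : E n) : B2 δ b g x < ⊤ := by
  unfold B2
  have h1 : ∀ t, wt (-(1 + δ)) t * ‖cv (KK b t) g x‖ₑ ^ 2 ≤
      wt (-(1 + δ)) t * ENNReal.ofReal ((∫ y, ‖g y‖) * cb b) ^ 2 := by
    intro t
    refine mul_le_mul_right (pow_le_pow_left' ?_ 2) _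
    rw [← ofReal_norm]
    apply ENNReal.ofReal_le_ofReal
    refine (cv_decay hn hb t hg x).trans ?_
    have h2 : 0 ≤ ∫ y, ‖g y‖ := integral_nonneg fun _ => norm_nonneg _
    have h3 : 0 ≤ cb b := by
      unfold cb
      exact Finset.prod_nonneg fun j _ => by have := hb j; positivity
    have h4 : (1 + |t|) ^ (-(1 / 2) : ℝ) ≤ 1 :=
      Real.rpow_le_one_of_one_le_of_nonpos (by linarith [abs_nonneg t]) (by norm_num)
    refine mul_le_mul_of_nonneg_left ?_ h2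
    calc cb b * (1 + |t|) ^ (-(1 / 2) : ℝ) ≤ cb b * 1 := mul_le_mul_of_nonneg_left h4 h3
      _ = _ := mul_one _
  refine (lintegral_mono h1).trans_lt ?_
  rw [lintegral_mul_const _ (wt_meas _)]
  exact ENNReal.mul_lt_top (wt_fin (by linarith)) (ENNReal.pow_lt_top ENNReal.ofReal_lt_top)

lemma B2_add (δ : ℝ) {b : Fin n → ℝ} (hb : ∀ j, 0 < b j) {g₁ g₂ : E n → ℂ} (h1 : GB g₁)
    (h2 : GB g₂) (x : E n) :
    B2 δ b (fun y => g₁ y + g₂ y) x ^ (1 / 2 : ℝ) ≤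
      B2 δ b g₁ x ^ (1 / 2 : ℝ) + B2 δ b g₂ x ^ (1 / 2 : ℝ) := by
  have hm : ∀ {g : E n → ℂ}, GB g →
      Measurable fun t : ℝ => wt (-((1 + δ) / 2)) t * ‖cv (KK b t) g x‖ₑ :=
    fun hg => (wt_meas _).mul (cv_m1 hg.meas b x)
  have h3 := ENNReal.lintegral_Lp_add_le (μ := (volume : Measure ℝ)) (p := 2)
    (f := fun t : ℝ => wt (-((1 + δ) / 2)) t * ‖cv (KK b t) g₁ x‖ₑ)
    (g := fun t : ℝ => wt (-((1 + δ) / 2)) t * ‖cv (KK b t) g₂ x‖ₑ)
    (hm h1).aemeasurable (hm h2).aemeasurable (by norm_num)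
  have e : ∀ g : E n → ℂ, ∫⁻ t, (wt (-((1 + δ) / 2)) t * ‖cv (KK b t) g x‖ₑ) ^ (2 : ℝ) =
      B2 δ b g x := by
    intro g
    unfold B2
    refine lintegral_congr fun t => ?_
    rw [ENNReal.rpow_ofNat, mul_pow, wt_sq]
    congr 2
    ring
  rw [e, e] at h3
  refine le_trans ?_ h3
  refine ENNReal.rpow_le_rpow ?_ (by norm_num)
  rw [← e]
  refine lintegral_mono fun t => ?_
  refine ENNReal.rpow_le_rpow ?_ (by norm_num)
  simp only [Pi.add_apply]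
  rw [cv_add (KK_GB hb t) h1 h2, ← mul_add]
  exact mul_le_mul_right (enorm_add_le _ _) _

/-- the bound for the square function -/
theorem B2_p (n : ℕ) (hn : 1 ≤ n) (α γ δ p : ℝ) (hα : 0 < α) (hαγ : α ≤ γ) (hδ : 0 < δ)
    (hp : 2 ≤ p) (hp4 : p ≤ 4) :
    ∃ C : ℝ≥0∞, C ≠ ⊤ ∧ ∀ g : E n → ℂ, GB g →
      ∫⁻ b, ∫⁻ x, B2 δ b g x ^ (p / 2) ∂volume ∂(nu n α γ) ≤ C * ∫⁻ x, ‖g x‖ₑ ^ p := by
  have hpos : ∀ᵐ a ∂(nu n α γ), ∀ j, 0 < a j := by
    filter_upwards [nu_ae n α γ] with a ha j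
    exact lt_of_lt_of_le hα (ha j).1
  obtain ⟨W, hW⟩ : ∃ W, W = ∫⁻ t, wt (-(1 + δ)) t := ⟨_, rfl⟩
  have hWt : W ≠ ⊤ := by rw [hW]; exact (wt_fin (by linarith)).ne
  have htwo : ∀ f : E n → ℂ, GB f →
      ∫⁻ a, ∫⁻ x, B2 δ a f x ∂volume ∂(nu n α γ) ≤
        (W * nu n α γ univ) * ∫⁻ x, ‖f x‖ₑ ^ 2 := by
    intro f hf
    calc ∫⁻ a, ∫⁻ x, B2 δ a f x ∂volume ∂(nu n α γ)
        ≤ ∫⁻ _, W * ∫⁻ x, ‖f x‖ₑ ^ 2 ∂volume ∂(nu n α γ) := by
          refine lintegral_mono_ae ?_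
          filter_upwards [hpos] with a ha
          rw [hW]
          exact B2_two ha hf
      _ = _ := by
          rw [lintegral_const]
          ring
  obtain ⟨C4, hC4, h4⟩ := B2_four n α γ δ hα hαγ hδ
  have hC2 : W * nu n α γ univ ≠ ⊤ :=
    ENNReal.mul_ne_top hWt (measure_ne_top _ _)
  rcases hp.eq_or_lt with rfl | hp
  · refine ⟨W * nu n α γ univ, hC2, fun f hf => ?_⟩
    have := htwo f hf
    simpa only [← ENNReal.rpow_natCast, Nat.cast_ofNat, div_self (two_ne_zero' ℝ),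
      ENNReal.rpow_one] using this
  rcases hp4.eq_or_lt with rfl | hp4
  · refine ⟨C4, hC4, fun f hf => ?_⟩
    have := h4 f hf
    rw [show (4 : ℝ) / 2 = 2 by norm_num]
    simpa only [← ENNReal.rpow_natCast, Nat.cast_ofNat] using this
  obtain ⟨C, hC, hM⟩ := Pool.Agent.H438R2.RZ.marc24 p hp hp4
  obtain ⟨M2, hM2⟩ : ∃ M, M = (W * nu n α γ univ).toReal + 1 := ⟨_, rfl⟩
  obtain ⟨M4, hM4⟩ : ∃ M, M = C4.toReal + 1 := ⟨_, rfl⟩
  have hM2' : W * nu n α γ univ ≤ ENNReal.ofReal M2 := by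
    rw [hM2]
    refine (le_of_eq (ENNReal.ofReal_toReal hC2).symm).trans ?_
    exact ENNReal.ofReal_le_ofReal (by linarith)
  have hM4' : C4 ≤ ENNReal.ofReal M4 := by
    rw [hM4]
    refine (le_of_eq (ENNReal.ofReal_toReal hC4).symm).trans ?_
    exact ENNReal.ofReal_le_ofReal (by linarith)
  have hM2p : 0 < M2 := by rw [hM2]; positivity
  have hM4p : 0 < M4 := by rw [hM4]; positivity
  refine ⟨ENNReal.ofReal (C * M2 ^ ((4 - p) / 2) * M4 ^ ((p - 2) / 2)), ENNReal.ofReal_ne_top,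
    fun f hf => ?_⟩
  have hSm : Measurable fun q : (Fin n → ℝ) × E n => (B2 δ q.1 f q.2 ^ (1 / 2 : ℝ)).toReal :=
    ((B2_meas δ hf.meas).pow_const _).ennreal_toReal
  have hfin : ∀ {q : (Fin n → ℝ) × E n}, (∀ j, 0 < q.1 j) →
      B2 δ q.1 f q.2 ^ (1 / 2 : ℝ) ≠ ⊤ := fun hq =>
    ENNReal.rpow_ne_top_of_nonneg (by norm_num) (B2_lt_top hn hδ hq hf _).ne
  have hpos2 : ∀ᵐ q ∂((nu n α γ).prod (volume : Measure (E n))), ∀ j, 0 < q.1 j :=
    Measure.quasiMeasurePreserving_fst.ae hpos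
  have key := hM (X := E n) (Y := (Fin n → ℝ) × E n) volume ((nu n α γ).prod volume)
    (fun q => (B2 δ q.1 f q.2 ^ (1 / 2 : ℝ)).toReal) (fun x => ‖f x‖) hSm hf.meas.norm
    (fun _ => ENNReal.toReal_nonneg)
    (fun _ => norm_nonneg _) M2 M4 hM2p hM4p ?_
  · have e : ∫⁻ q : (Fin n → ℝ) × E n,
        ENNReal.ofReal (B2 δ q.1 f q.2 ^ (1 / 2 : ℝ)).toReal ^ p ∂((nu n α γ).prod volume) =
        ∫⁻ q : (Fin n → ℝ) × E n, B2 δ q.1 f q.2 ^ (p / 2) ∂((nu n α γ).prod volume) := by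
      refine lintegral_congr_ae ?_
      filter_upwards [hpos2] with q hq
      rw [ENNReal.ofReal_toReal (hfin hq), ← ENNReal.rpow_mul]
      congr 1
      ring
    rw [e, lintegral_prod _ ((B2_meas δ hf.meas).pow_const _).aemeasurable] at key
    simpa only [ofReal_norm] using key
  · intro t ht
    have hlo := lo_GB t hf.meas hf.int ht.le
    have hhi := hi_GB t hf
    have hmu : Measurable fun q : (Fin n → ℝ) × E n => B2 δ q.1 (hi t f) q.2 ^ (1 / 2 : ℝ) :=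
      (B2_meas δ hhi.meas).pow_const _
    have hmv : Measurable fun q : (Fin n → ℝ) × E n => B2 δ q.1 (lo t f) q.2 ^ (1 / 2 : ℝ) :=
      (B2_meas δ hlo.meas).pow_const _
    refine ⟨fun q => B2 δ q.1 (hi t f) q.2 ^ (1 / 2 : ℝ),
      fun q => B2 δ q.1 (lo t f) q.2 ^ (1 / 2 : ℝ), hmu, hmv, ?_, ?_, ?_⟩
    · filter_upwards [hpos2] with q hq
      rw [ENNReal.ofReal_toReal (hfin hq)]
      have e : B2 δ q.1 f q.2 = B2 δ q.1 (fun y => hi t f y + lo t f y) q.2 := by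
        congr 1
        ext y
        exact hi_add_lo t f y
      rw [e]
      exact B2_add δ hq hhi hlo q.2
    · have e2 : ∀ q : (Fin n → ℝ) × E n, (B2 δ q.1 (hi t f) q.2 ^ (1 / 2 : ℝ)) ^ 2 =
          B2 δ q.1 (hi t f) q.2 := by
        intro q
        rw [← ENNReal.rpow_natCast, ← ENNReal.rpow_mul]
        norm_num
      simp only [e2]
      rw [lintegral_prod _ (B2_meas δ hhi.meas).aemeasurable]
      refine (htwo _ hhi).trans (mul_le_mul' hM2' (le_of_eq ?_))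
      rw [← lintegral_indicator (measurableSet_lt measurable_const hf.meas.norm)]
      refine lintegral_congr fun x => ?_
      unfold hi
      by_cases h : t < ‖f x‖
      · rw [if_pos h, indicator_of_mem (by exact h), ofReal_norm]
      · rw [if_neg h, indicator_of_notMem (by exact h)]
        simp
    · have e2 : ∀ q : (Fin n → ℝ) × E n, (B2 δ q.1 (lo t f) q.2 ^ (1 / 2 : ℝ)) ^ 4 =
          B2 δ q.1 (lo t f) q.2 ^ 2 := by
        intro q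
        rw [← ENNReal.rpow_natCast, ← ENNReal.rpow_mul, ← ENNReal.rpow_natCast]
        norm_num
      simp only [e2]
      rw [lintegral_prod _ ((B2_meas δ hlo.meas).pow_const 2).aemeasurable]
      refine (h4 _ hlo).trans (mul_le_mul' hM4' (le_of_eq ?_))
      rw [← lintegral_indicator (measurableSet_le hf.meas.norm measurable_const)]
      refine lintegral_congr fun x => ?_
      unfold lo
      by_cases h : ‖f x‖ ≤ t
      · rw [if_pos h, indicator_of_mem (by exact h), ofReal_norm]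
      · rw [if_neg h, indicator_of_notMem (by exact h)]
        simp

end Pool.Agent.TH292.LS
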