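import Mathlib
import Pool.Agent.TH292.LS.C
set_option autoImplicit false

/-! Profiles coming from the wave propagator. -/

namespace Pool.Agent.TH292.LS

open Complex MeasureTheory Set Filter Topology
open scoped ENNReal FourierTransform ComplexConjugate RealInnerProductSpace
open Pool.Agent.TH310.BZ

/-- an amplitude with its derivative -/
structure Amp (A A' : ℝ → ℝ) (K : ℝ) : Prop where
  K0 : 0 ≤ K
  der : ∀ w, HasDerivAt A (A' w) w
  cont' : Continuous A'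
  bd : ∀ w, 0 ≤ w → |A w| ≤ K * (1 + w) ^ (-2 : ℝ)
  bd' : ∀ w, 0 ≤ w → |A' w| ≤ K * (1 + w) ^ (-2 : ℝ)

lemma Amp.cont {A A' : ℝ → ℝ} {K : ℝ} (h : Amp A A' K) : Continuous A :=
  continuous_iff_continuousAt.2 fun w => (h.der w).continuousAt

/-- vanishing at the origin -/
def AmpD (A : ℝ → ℝ) (K : ℝ) : Prop := ∀ w, 0 < w → |A w| ≤ K * (Real.sqrt w * (1 + w) ^ (-2 : ℝ))

/-- a temporal factor with its derivative -/
structure Tmp (c c₁ : ℝ → ℂ) (M : ℝ) : Prop where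
  M0 : 0 ≤ M
  der : ∀ v, HasDerivAt c (c₁ v) v
  meas : Measurable c₁
  bd : ∀ v, ‖c v‖ ≤ M
  bd1 : ∀ v, ‖c₁ v‖ ≤ M * |v|

lemma Tmp.cont {c c₁ : ℝ → ℂ} {M : ℝ} (h : Tmp c c₁ M) : Continuous c :=
  continuous_iff_continuousAt.2 fun w => (h.der w).continuousAt

/-- the profile -/
noncomputable def pk (A : ℝ → ℝ) (c : ℝ → ℂ) (N w : ℝ) : ℂ := (A w : ℂ) * c (N * Real.sqrt w)

/-- its derivative -/
noncomputable def pk' (A A' : ℝ → ℝ) (c c₁ : ℝ → ℂ) (N w : ℝ) : ℂ :=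
  (A' w : ℂ) * c (N * Real.sqrt w) +
    (A w : ℂ) * (((N * (1 / (2 * Real.sqrt w)) : ℝ) : ℂ) * c₁ (N * Real.sqrt w))

lemma pk_prof {A A' : ℝ → ℝ} {K : ℝ} (hA : Amp A A' K) {c c₁ : ℝ → ℂ} {M : ℝ}
    (hc : Tmp c c₁ M) {N : ℝ} (hN : 0 < N) : Prof (pk A c N) (pk' A A' c c₁ N) := by
  have hK := hA.K0
  have hM := hc.M0
  refine ⟨?_, ?_, ?_, K * M + K * (M * N ^ 2), by positivity, ?_, ?_⟩
  · unfold pk
    have h1 := hA.cont
    have h2 := hc.cont
    fun_prop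
  · intro w hw
    unfold pk pk'
    have h1 : HasDerivAt (fun w => ((A w : ℝ) : ℂ)) ((A' w : ℝ) : ℂ) w := (hA.der w).ofReal_comp
    have h2 : HasDerivAt (fun w : ℝ => N * Real.sqrt w) (N * (1 / (2 * Real.sqrt w))) w :=
      (Real.hasDerivAt_sqrt hw.ne').const_mul N
    have h3 : HasDerivAt (fun w : ℝ => c (N * Real.sqrt w))
        ((N * (1 / (2 * Real.sqrt w))) • c₁ (N * Real.sqrt w)) w :=
      (hc.der (N * Real.sqrt w)).scomp w h2
    have h4 := h1.mul h3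
    refine h4.congr_deriv ?_
    rw [Complex.real_smul]
  · unfold pk'
    have m1 := hA.cont'.measurable
    have m2 := hA.cont.measurable
    have m3 := hc.cont.measurable
    have m4 := hc.meas
    fun_prop
  · intro w hw
    unfold pk
    rw [norm_mul, Complex.norm_real, Real.norm_eq_abs]
    have h1 := hA.bd w hw
    have h2 := hc.bd (N * Real.sqrt w)
    have h3 : (0 : ℝ) ≤ (1 + w) ^ (-2 : ℝ) := by positivity
    calc |A w| * ‖c (N * Real.sqrt w)‖ ≤ (K * (1 + w) ^ (-2 : ℝ)) * M := by gcongr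
      _ = K * M * (1 + w) ^ (-2 : ℝ) := by ring
      _ ≤ (K * M + K * (M * N ^ 2)) * (1 + w) ^ (-2 : ℝ) := by
          apply mul_le_mul_of_nonneg_right _ h3
          have : 0 ≤ K * (M * N ^ 2) := by positivity
          linarith
  · intro w hw
    unfold pk'
    have hs : 0 < Real.sqrt w := Real.sqrt_pos.2 hw
    have h1 := hA.bd w hw.le
    have h1' := hA.bd' w hw.le
    have h2 := hc.bd (N * Real.sqrt w)
    have h2' := hc.bd1 (N * Real.sqrt w)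
    have h3 : (0 : ℝ) ≤ (1 + w) ^ (-2 : ℝ) := by positivity
    refine (norm_add_le _ _).trans ?_
    rw [norm_mul, norm_mul, norm_mul, Complex.norm_real, Complex.norm_real, Complex.norm_real,
      Real.norm_eq_abs, Real.norm_eq_abs, Real.norm_eq_abs,
      abs_of_pos (by positivity : 0 < N * (1 / (2 * Real.sqrt w)))]
    rw [abs_of_pos (by positivity : 0 < N * Real.sqrt w)] at h2'
    have h4 : N * (1 / (2 * Real.sqrt w)) * ‖c₁ (N * Real.sqrt w)‖ ≤ M * N ^ 2 := by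
      calc N * (1 / (2 * Real.sqrt w)) * ‖c₁ (N * Real.sqrt w)‖
          ≤ N * (1 / (2 * Real.sqrt w)) * (M * (N * Real.sqrt w)) := by gcongr
        _ = M * N ^ 2 / 2 := by field_simp
        _ ≤ M * N ^ 2 := by
            have : 0 ≤ M * N ^ 2 := by positivity
            linarith
    calc |A' w| * ‖c (N * Real.sqrt w)‖ +
        |A w| * (N * (1 / (2 * Real.sqrt w)) * ‖c₁ (N * Real.sqrt w)‖)
        ≤ (K * (1 + w) ^ (-2 : ℝ)) * M + (K * (1 + w) ^ (-2 : ℝ)) * (M * N ^ 2) := by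
          gcongr
      _ = _ := by ring

lemma lint_fac : ∫⁻ w in Ioi (0 : ℝ), ENNReal.ofReal ((1 + w) ^ (-4 : ℝ)) ≤ 1 := by
  have hint : IntegrableOn (fun w : ℝ => (1 + w) ^ (-4 : ℝ)) (Ioi 0) := by
    have h2 := integrableOn_add_rpow_Ioi_of_lt (a := (-4 : ℝ)) (c := 0) (m := 1)
      (by norm_num) (by norm_num)
    refine h2.congr_fun (fun w hw => ?_) measurableSet_Ioi
    simp only [add_comm]
  have h1 : ∫⁻ w in Ioi (0 : ℝ), ENNReal.ofReal ((1 + w) ^ (-4 : ℝ)) =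
      ENNReal.ofReal (∫ w in Ioi (0 : ℝ), (1 + w) ^ (-4 : ℝ)) := by
    rw [ofReal_integral_eq_lintegral_ofReal hint]
    filter_upwards [ae_restrict_mem measurableSet_Ioi] with w hw
    have : (0 : ℝ) < w := hw
    positivity
  rw [h1]
  have h2 : ∫ w in Ioi (0 : ℝ), (1 + w) ^ (-4 : ℝ) = 0 - (-(1 / 3) * (1 + (0 : ℝ)) ^ (-3 : ℝ)) := by
    refine integral_Ioi_of_hasDerivAt_of_tendsto' (f := fun w : ℝ => -(1 / 3) * (1 + w) ^ (-3 : ℝ))
      (fun w hw => ?_) hint ?_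
    · have hw0 : (0 : ℝ) ≤ w := hw
      have h3 : HasDerivAt (fun w : ℝ => 1 + w) 1 w := by
        simpa using (hasDerivAt_id w).const_add 1
      have h4 := (h3.rpow_const (p := (-3 : ℝ)) (Or.inl (by positivity))).const_mul (-(1 / 3) : ℝ)
      refine h4.congr_deriv ?_
      rw [show (-3 : ℝ) - 1 = -4 by norm_num]
      ring
    · have h4 := ((tendsto_rpow_neg_atTop (by norm_num : (0 : ℝ) < 3)).comp
        (tendsto_atTop_add_const_left atTop (1 : ℝ) tendsto_id)).const_mul (-(1 / 3) : ℝ)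
      rw [mul_zero] at h4
      exact h4
  rw [h2]
  rw [ENNReal.ofReal_le_one]
  norm_num

/-- crude bound -/
lemma l2_crude {g : ℝ → ℂ} {L : ℝ}
    (h : ∀ w, 0 < w → ‖g w‖ ≤ L * (1 + w) ^ (-2 : ℝ)) :
    ∫⁻ w in Ioi (0 : ℝ), ‖g w‖ₑ ^ 2 ≤ ENNReal.ofReal (L ^ 2) := by
  calc ∫⁻ w in Ioi (0 : ℝ), ‖g w‖ₑ ^ 2
      ≤ ∫⁻ w in Ioi (0 : ℝ), ENNReal.ofReal (L ^ 2) * ENNReal.ofReal ((1 + w) ^ (-4 : ℝ)) := by
        refine setLIntegral_mono' measurableSet_Ioi fun w hw => ?_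
        have hw0 : 0 < w := hw
        rw [← ENNReal.ofReal_mul (by positivity), ← ofReal_norm,
          ← ENNReal.ofReal_pow (norm_nonneg _)]
        apply ENNReal.ofReal_le_ofReal
        calc ‖g w‖ ^ 2 ≤ (L * (1 + w) ^ (-2 : ℝ)) ^ 2 := by
              have := h w hw0
              gcongr
          _ = _ := by
              rw [mul_pow, ← Real.rpow_natCast ((1 + w) ^ (-2 : ℝ)), ← Real.rpow_mul (by positivity)]
              norm_num
    _ = ENNReal.ofReal (L ^ 2) * ∫⁻ w in Ioi (0 : ℝ), ENNReal.ofReal ((1 + w) ^ (-4 : ℝ)) :=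
        lintegral_const_mul' _ _ ENNReal.ofReal_ne_top
    _ ≤ ENNReal.ofReal (L ^ 2) * 1 := mul_le_mul_right lint_fac _
    _ = _ := mul_one _

/-- change of variables -/
lemma sqrt_sub {N : ℝ} (hN : 0 < N) (g : ℝ → ℝ≥0∞) :
    ∫⁻ w in Ioi (0 : ℝ), ENNReal.ofReal (1 / Real.sqrt w) * g (N * Real.sqrt w) =
      ENNReal.ofReal (2 / N) * ∫⁻ v in Ioi (0 : ℝ), g v := by
  have himg : (fun w : ℝ => N * Real.sqrt w) '' Ioi 0 = Ioi 0 := by
    ext v
    constructor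
    · rintro ⟨w, hw, rfl⟩
      have : 0 < Real.sqrt w := Real.sqrt_pos.2 hw
      exact mul_pos hN this
    · intro hv
      have hv' : 0 < v := hv
      refine ⟨(v / N) ^ 2, ?_, ?_⟩
      · have : 0 < v / N := by positivity
        exact pow_pos this 2
      · simp only
        rw [Real.sqrt_sq (by positivity)]
        field_simp
  have h1 := lintegral_image_eq_lintegral_abs_deriv_mul (s := Ioi (0 : ℝ))
    (f := fun w : ℝ => N * Real.sqrt w) (f' := fun w => N * (1 / (2 * Real.sqrt w)))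
    measurableSet_Ioi
    (fun w hw => ((Real.hasDerivAt_sqrt (ne_of_gt hw)).const_mul N).hasDerivWithinAt)
    (by
      intro a ha b hb hab
      have ha' : (0 : ℝ) < a := ha
      have hb' : (0 : ℝ) < b := hb
      have : Real.sqrt a = Real.sqrt b := mul_left_cancel₀ hN.ne' hab
      exact (Real.sqrt_inj ha'.le hb'.le).1 this) g
  rw [himg] at h1
  rw [h1, ← lintegral_const_mul' _ _ ENNReal.ofReal_ne_top]
  refine setLIntegral_congr_fun measurableSet_Ioi fun w hw => ?_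
  have hs : 0 < Real.sqrt w := Real.sqrt_pos.2 hw
  rw [← mul_assoc, ← ENNReal.ofReal_mul (by positivity)]
  congr 2
  rw [abs_of_pos (by positivity)]
  field_simp

lemma fac_sqrt {w : ℝ} (hw : 0 < w) : ((1 + w) ^ (-2 : ℝ)) ^ 2 ≤ 1 / Real.sqrt w := by
  have hs : 0 < Real.sqrt w := Real.sqrt_pos.2 hw
  have h1 : ((1 + w) ^ (-2 : ℝ)) ^ 2 = 1 / (1 + w) ^ 4 := by
    rw [← Real.rpow_natCast, ← Real.rpow_mul (by positivity)]
    rw [show (-2 : ℝ) * ((2 : ℕ) : ℝ) = -4 by norm_num, Real.rpow_neg (by positivity),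
      one_div]
    norm_cast
  rw [h1]
  apply one_div_le_one_div_of_le hs
  calc Real.sqrt w ≤ 1 + w := by
        rw [Real.sqrt_le_left (by positivity)]
        nlinarith
    _ ≤ (1 + w) ^ 4 := by
        calc (1 + w) = (1 + w) ^ 1 := (pow_one _).symm
          _ ≤ (1 + w) ^ 4 := pow_le_pow_right₀ (by linarith) (by norm_num)

/-- the finer bounds -/
lemma pk_l2 {A A' : ℝ → ℝ} {K : ℝ} (hA : Amp A A' K) {c : ℝ → ℂ} {N : ℝ} (hN : 0 < N) :
    ∫⁻ w in Ioi (0 : ℝ), ‖pk A c N w‖ₑ ^ 2 ≤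
      ENNReal.ofReal (K ^ 2 * (2 / N)) * ∫⁻ v in Ioi (0 : ℝ), ‖c v‖ₑ ^ 2 := by
  have hK := hA.K0
  calc ∫⁻ w in Ioi (0 : ℝ), ‖pk A c N w‖ₑ ^ 2
      ≤ ∫⁻ w in Ioi (0 : ℝ), ENNReal.ofReal (K ^ 2) *
          (ENNReal.ofReal (1 / Real.sqrt w) * ‖c (N * Real.sqrt w)‖ₑ ^ 2) := by
        refine setLIntegral_mono' measurableSet_Ioi fun w hw => ?_
        have hw0 : 0 < w := hw
        unfold pk
        rw [enorm_mul, mul_pow, ← mul_assoc]
        refine mul_le_mul_left ?_ _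
        rw [← ENNReal.ofReal_mul (by positivity), ← ofReal_norm,
          ← ENNReal.ofReal_pow (norm_nonneg _), Complex.norm_real, Real.norm_eq_abs]
        apply ENNReal.ofReal_le_ofReal
        calc |A w| ^ 2 ≤ (K * (1 + w) ^ (-2 : ℝ)) ^ 2 := by
              have := hA.bd w hw0.le
              gcongr
          _ = K ^ 2 * ((1 + w) ^ (-2 : ℝ)) ^ 2 := by ring
          _ ≤ K ^ 2 * (1 / Real.sqrt w) :=
              mul_le_mul_of_nonneg_left (fac_sqrt hw0) (by positivity)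
    _ = _ := by
        rw [lintegral_const_mul' _ _ ENNReal.ofReal_ne_top,
          sqrt_sub hN (fun v => ‖c v‖ₑ ^ 2), ← mul_assoc, ← ENNReal.ofReal_mul (by positivity)]

lemma pk'_l2 {A A' : ℝ → ℝ} {K : ℝ} (hA : Amp A A' K) (hD : AmpD A K) {c c₁ : ℝ → ℂ} {M : ℝ}
    (hc : Tmp c c₁ M) {N : ℝ} (hN : 0 < N) :
    ∫⁻ w in Ioi (0 : ℝ), ‖pk' A A' c c₁ N w‖ₑ ^ 2 ≤
      ENNReal.ofReal (2 * K ^ 2 * (2 / N)) * (∫⁻ v in Ioi (0 : ℝ), ‖c v‖ₑ ^ 2) +
      ENNReal.ofReal (K ^ 2 * N ^ 2 * (2 / N)) * ∫⁻ v in Ioi (0 : ℝ), ‖c₁ v‖ₑ ^ 2 := by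
  have hK := hA.K0
  have hcm : Measurable c := hc.cont.measurable
  have hpt : ∀ w : ℝ, 0 < w → ‖pk' A A' c c₁ N w‖ₑ ^ 2 ≤
      ENNReal.ofReal (2 * K ^ 2) * (ENNReal.ofReal (1 / Real.sqrt w) *
        ‖c (N * Real.sqrt w)‖ₑ ^ 2) +
      ENNReal.ofReal (K ^ 2 * N ^ 2) * (ENNReal.ofReal (1 / Real.sqrt w) *
        ‖c₁ (N * Real.sqrt w)‖ₑ ^ 2) := by
    intro w hw
    have hs : 0 < Real.sqrt w := Real.sqrt_pos.2 hw
    have e : ∀ z : ℂ, ‖z‖ₑ = ENNReal.ofReal ‖z‖ := fun z => (ofReal_norm z).symm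
    rw [e, e, e, ← ENNReal.ofReal_pow (norm_nonneg _), ← ENNReal.ofReal_pow (norm_nonneg _),
      ← ENNReal.ofReal_pow (norm_nonneg _), ← ENNReal.ofReal_mul (by positivity),
      ← ENNReal.ofReal_mul (by positivity), ← ENNReal.ofReal_mul (by positivity),
      ← ENNReal.ofReal_mul (by positivity), ← ENNReal.ofReal_add (by positivity) (by positivity)]
    apply ENNReal.ofReal_le_ofReal
    have h1 : ‖pk' A A' c c₁ N w‖ ≤ |A' w| * ‖c (N * Real.sqrt w)‖ +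
        |A w| * (N * (1 / (2 * Real.sqrt w)) * ‖c₁ (N * Real.sqrt w)‖) := by
      unfold pk'
      refine (norm_add_le _ _).trans (le_of_eq ?_)
      rw [norm_mul, norm_mul, norm_mul, Complex.norm_real, Complex.norm_real, Complex.norm_real,
        Real.norm_eq_abs, Real.norm_eq_abs, Real.norm_eq_abs,
        abs_of_pos (by positivity : 0 < N * (1 / (2 * Real.sqrt w)))]
    have h2 : (|A' w| * ‖c (N * Real.sqrt w)‖) ^ 2 ≤
        K ^ 2 * (1 / Real.sqrt w * ‖c (N * Real.sqrt w)‖ ^ 2) := by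
      calc (|A' w| * ‖c (N * Real.sqrt w)‖) ^ 2
          ≤ (K * (1 + w) ^ (-2 : ℝ) * ‖c (N * Real.sqrt w)‖) ^ 2 := by
            have := hA.bd' w hw.le
            gcongr
        _ = K ^ 2 * (((1 + w) ^ (-2 : ℝ)) ^ 2 * ‖c (N * Real.sqrt w)‖ ^ 2) := by ring
        _ ≤ _ := by
            have := fac_sqrt hw
            gcongr
    have h3 : (|A w| * (N * (1 / (2 * Real.sqrt w)) * ‖c₁ (N * Real.sqrt w)‖)) ^ 2 ≤
        K ^ 2 * N ^ 2 / 4 * (1 / Real.sqrt w * ‖c₁ (N * Real.sqrt w)‖ ^ 2) := by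
      calc (|A w| * (N * (1 / (2 * Real.sqrt w)) * ‖c₁ (N * Real.sqrt w)‖)) ^ 2
          ≤ (K * (Real.sqrt w * (1 + w) ^ (-2 : ℝ)) *
            (N * (1 / (2 * Real.sqrt w)) * ‖c₁ (N * Real.sqrt w)‖)) ^ 2 := by
            have := hD w hw
            gcongr
        _ = K ^ 2 * N ^ 2 / 4 * (((1 + w) ^ (-2 : ℝ)) ^ 2 * ‖c₁ (N * Real.sqrt w)‖ ^ 2) := by
            field_simp
            ring
        _ ≤ _ := by
            have := fac_sqrt hw
            gcongr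
    have h0 : 0 ≤ ‖pk' A A' c c₁ N w‖ := norm_nonneg _
    calc ‖pk' A A' c c₁ N w‖ ^ 2 ≤ (|A' w| * ‖c (N * Real.sqrt w)‖ +
        |A w| * (N * (1 / (2 * Real.sqrt w)) * ‖c₁ (N * Real.sqrt w)‖)) ^ 2 := by gcongr
      _ ≤ 2 * (|A' w| * ‖c (N * Real.sqrt w)‖) ^ 2 +
          2 * (|A w| * (N * (1 / (2 * Real.sqrt w)) * ‖c₁ (N * Real.sqrt w)‖)) ^ 2 := by
          nlinarith [sq_nonneg (|A' w| * ‖c (N * Real.sqrt w)‖ -
            |A w| * (N * (1 / (2 * Real.sqrt w)) * ‖c₁ (N * Real.sqrt w)‖))]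
      _ ≤ 2 * (K ^ 2 * (1 / Real.sqrt w * ‖c (N * Real.sqrt w)‖ ^ 2)) +
          2 * (K ^ 2 * N ^ 2 / 4 * (1 / Real.sqrt w * ‖c₁ (N * Real.sqrt w)‖ ^ 2)) := by
          gcongr
      _ ≤ _ := by
          have : 0 ≤ K ^ 2 * N ^ 2 * (1 / Real.sqrt w * ‖c₁ (N * Real.sqrt w)‖ ^ 2) := by
            positivity
          nlinarith
  calc ∫⁻ w in Ioi (0 : ℝ), ‖pk' A A' c c₁ N w‖ₑ ^ 2
      ≤ ∫⁻ w in Ioi (0 : ℝ), (ENNReal.ofReal (2 * K ^ 2) * (ENNReal.ofReal (1 / Real.sqrt w) *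
        ‖c (N * Real.sqrt w)‖ₑ ^ 2) +
      ENNReal.ofReal (K ^ 2 * N ^ 2) * (ENNReal.ofReal (1 / Real.sqrt w) *
        ‖c₁ (N * Real.sqrt w)‖ₑ ^ 2)) :=
        setLIntegral_mono' measurableSet_Ioi fun w hw => hpt w hw
    _ = _ := by
        have hm : Measurable fun w : ℝ => ENNReal.ofReal (2 * K ^ 2) *
            (ENNReal.ofReal (1 / Real.sqrt w) * ‖c (N * Real.sqrt w)‖ₑ ^ 2) := by
          fun_prop
        rw [lintegral_add_left hm, lintegral_const_mul' _ _ ENNReal.ofReal_ne_top,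
          lintegral_const_mul' _ _ ENNReal.ofReal_ne_top, sqrt_sub hN (fun v => ‖c v‖ₑ ^ 2),
          sqrt_sub hN (fun v => ‖c₁ v‖ₑ ^ 2), ← mul_assoc, ← mul_assoc,
          ← ENNReal.ofReal_mul (by positivity), ← ENNReal.ofReal_mul (by positivity)]

end Pool.Agent.TH292.LS
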