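import Mathlib
import Pool.Agent.TH292.LS.D
set_option autoImplicit false

/-! The cosine propagator at one scale. -/

namespace Pool.Agent.TH292.LS

open Complex MeasureTheory Set Filter Topology
open scoped ENNReal FourierTransform ComplexConjugate RealInnerProductSpace
open Pool.Agent.TH310.BZ

/-- cosine -/
noncomputable def cs (t v : ℝ) : ℂ := ((Real.cos (2 * Real.pi * t * v) : ℝ) : ℂ)

/-- its derivative in `v` -/
noncomputable def cs' (t v : ℝ) : ℂ :=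
  ((-(2 * Real.pi * t) * Real.sin (2 * Real.pi * t * v) : ℝ) : ℂ)

lemma cs_der (t v : ℝ) : HasDerivAt (cs t) (cs' t v) v := by
  have h1 : HasDerivAt (fun v : ℝ => 2 * Real.pi * t * v) (2 * Real.pi * t) v := by
    simpa using (hasDerivAt_id v).const_mul (2 * Real.pi * t)
  have h2 := (h1.cos).ofReal_comp
  refine h2.congr_deriv ?_
  unfold cs'
  congr 1
  ring

lemma cs_norm (t v : ℝ) : ‖cs t v‖ ≤ 1 := by
  unfold cs
  rw [Complex.norm_real, Real.norm_eq_abs]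
  exact Real.abs_cos_le_one _

lemma cs'_norm {t : ℝ} (h0 : 0 ≤ t) (h2 : t ≤ 2) (v : ℝ) : ‖cs' t v‖ ≤ 4 * Real.pi := by
  unfold cs'
  rw [Complex.norm_real, Real.norm_eq_abs, abs_mul, abs_neg, abs_of_nonneg (by positivity)]
  have h3 := Real.abs_sin_le_one (2 * Real.pi * t * v)
  have hpi := Real.pi_pos
  calc 2 * Real.pi * t * |Real.sin (2 * Real.pi * t * v)| ≤ 2 * Real.pi * 2 * 1 := by gcongr
    _ = _ := by ring

lemma cs'_norm1 {t : ℝ} (h0 : 0 ≤ t) (h2 : t ≤ 2) (v : ℝ) :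
    ‖cs' t v‖ ≤ 16 * Real.pi ^ 2 * |v| := by
  unfold cs'
  rw [Complex.norm_real, Real.norm_eq_abs, abs_mul, abs_neg, abs_of_nonneg (by positivity)]
  have h3 : |Real.sin (2 * Real.pi * t * v)| ≤ |2 * Real.pi * t * v| := Real.abs_sin_le_abs
  rw [abs_mul, abs_of_nonneg (by positivity : 0 ≤ 2 * Real.pi * t)] at h3
  have hpi := Real.pi_pos
  calc 2 * Real.pi * t * |Real.sin (2 * Real.pi * t * v)|
      ≤ 2 * Real.pi * 2 * (2 * Real.pi * 2 * |v|) := by
        have h4 : 2 * Real.pi * t * |v| ≤ 2 * Real.pi * 2 * |v| := by gcongr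
        have h5 := h3.trans h4
        gcongr
    _ = _ := by ring

lemma cs_cont : Continuous fun p : ℝ × ℝ => cs p.1 p.2 := by
  unfold cs
  fun_prop

lemma cs'_cont : Continuous fun p : ℝ × ℝ => cs' p.1 p.2 := by
  unfold cs'
  fun_prop

lemma cs_tmp {t : ℝ} (h0 : 0 ≤ t) (h2 : t ≤ 2) : Tmp (cs t) (cs' t) (16 * Real.pi ^ 2) := by
  refine ⟨by positivity, cs_der t, ?_, fun v => (cs_norm t v).trans ?_, cs'_norm1 h0 h2⟩
  · have : Continuous (cs' t) := cs'_cont.comp (continuous_const.prodMk continuous_id)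
    exact this.measurable
  · have := Real.pi_gt_three
    nlinarith

/-- averages of cosines -/
noncomputable def cph (φ : ℝ → ℂ) (v : ℝ) : ℂ := ∫ t in Icc (1 : ℝ) 2, φ t * cs t v

/-- the derivative -/
noncomputable def cph' (φ : ℝ → ℂ) (v : ℝ) : ℂ := ∫ t in Icc (1 : ℝ) 2, φ t * cs' t v

lemma int_bdd {g : ℝ → ℂ} (hg : Measurable g) {M : ℝ} (hM : ∀ t ∈ Icc (1 : ℝ) 2, ‖g t‖ ≤ M) :
    IntegrableOn g (Icc (1 : ℝ) 2) := by
  refine Integrable.of_bound hg.aestronglyMeasurable M ?_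
  filter_upwards [ae_restrict_mem measurableSet_Icc] with t ht
  exact hM t ht

lemma norm_int_bdd {g : ℝ → ℂ} {M : ℝ} (_ : 0 ≤ M) (hM : ∀ t ∈ Icc (1 : ℝ) 2, ‖g t‖ ≤ M) :
    ‖∫ t in Icc (1 : ℝ) 2, g t‖ ≤ M := by
  refine (norm_setIntegral_le_of_norm_le_const (C := M) (by simp) hM).trans (le_of_eq ?_)
  simp
  norm_num

lemma cph_tmp {φ : ℝ → ℂ} (hφ : Measurable φ) {M : ℝ} (hM0 : 0 ≤ M) (hM : ∀ t, ‖φ t‖ ≤ M) :
    Tmp (cph φ) (cph' φ) (M * (16 * Real.pi ^ 2)) := by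
  have hpi := Real.pi_gt_three
  have m1 : ∀ v, Measurable fun t => φ t * cs t v := fun v => hφ.mul
    (cs_cont.comp (continuous_id.prodMk continuous_const)).measurable
  have m2 : ∀ v, Measurable fun t => φ t * cs' t v := fun v => hφ.mul
    (cs'_cont.comp (continuous_id.prodMk continuous_const)).measurable
  have b1 : ∀ v, ∀ t ∈ Icc (1 : ℝ) 2, ‖φ t * cs t v‖ ≤ M := by
    intro v t ht
    rw [norm_mul]
    calc ‖φ t‖ * ‖cs t v‖ ≤ M * 1 := mul_le_mul (hM t) (cs_norm t v) (norm_nonneg _) hM0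
      _ = M := mul_one _
  have b2 : ∀ v, ∀ t ∈ Icc (1 : ℝ) 2, ‖φ t * cs' t v‖ ≤ M * (4 * Real.pi) := by
    intro v t ht
    rw [norm_mul]
    exact mul_le_mul (hM t) (cs'_norm (by linarith [ht.1]) ht.2 v) (norm_nonneg _) hM0
  have b3 : ∀ v, ∀ t ∈ Icc (1 : ℝ) 2, ‖φ t * cs' t v‖ ≤ M * (16 * Real.pi ^ 2 * |v|) := by
    intro v t ht
    rw [norm_mul]
    exact mul_le_mul (hM t) (cs'_norm1 (by linarith [ht.1]) ht.2 v) (norm_nonneg _) hM0
  refine ⟨by positivity, fun v => ?_, ?_, fun v => ?_, fun v => ?_⟩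
  · have := hasDerivAt_integral_of_dominated_loc_of_deriv_le (𝕜 := ℝ)
      (μ := volume.restrict (Icc (1 : ℝ) 2)) (F := fun v t => φ t * cs t v)
      (F' := fun v t => φ t * cs' t v) (x₀ := v) (s := univ) (bound := fun _ => M * (4 * Real.pi))
      univ_mem (Eventually.of_forall fun u => (m1 u).aestronglyMeasurable)
      (int_bdd (m1 v) (b1 v)) (m2 v).aestronglyMeasurable ?_ ?_ ?_
    · exact this.2
    · filter_upwards [ae_restrict_mem measurableSet_Icc] with t ht u _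
      exact b2 u t ht
    · exact integrable_const _
    · exact ae_of_all _ fun t u _ => (cs_der t u).const_mul (φ t)
  · have hm : Measurable fun p : ℝ × ℝ => φ p.2 * cs' p.2 p.1 :=
      (hφ.comp measurable_snd).mul (cs'_cont.measurable.comp (measurable_snd.prodMk measurable_fst))
    exact (hm.stronglyMeasurable.integral_prod_right'
      (ν := volume.restrict (Icc (1 : ℝ) 2))).measurable
  · refine (norm_int_bdd hM0 (b1 v)).trans ?_
    have h1 : (1 : ℝ) ≤ 16 * Real.pi ^ 2 := by nlinarith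
    calc M = M * 1 := (mul_one _).symm
      _ ≤ M * (16 * Real.pi ^ 2) := mul_le_mul_of_nonneg_left h1 hM0
  · refine (norm_int_bdd (by positivity) (b3 v)).trans (le_of_eq ?_)
    ring

/-- half of Plancherel -/
lemma half_pl {ψ : ℝ → ℂ} (hψ : GB ψ) {z : ℝ → ℂ}
    (hz : ∀ v, ‖z v‖ ≤ (‖𝓕 ψ v‖ + ‖𝓕 ψ (-v)‖) / 2) :
    ∫⁻ v in Ioi (0 : ℝ), ‖z v‖ₑ ^ 2 ≤ ∫⁻ t, ‖ψ t‖ₑ ^ 2 := by
  have hFm : Measurable (𝓕 ψ) := meas_F hψ.int
  rw [← Pool.Agent.H153R4.plancherel _ hψ.int hψ.memLp, lsplit,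
    ← lintegral_add_left (hFm.enorm.pow_const 2)]
  refine lintegral_mono fun v => ?_
  have e : ∀ z : ℂ, ‖z‖ₑ = ENNReal.ofReal ‖z‖ := fun z => (ofReal_norm z).symm
  simp only [e]
  rw [← ENNReal.ofReal_pow (norm_nonneg _), ← ENNReal.ofReal_pow (norm_nonneg _),
    ← ENNReal.ofReal_pow (norm_nonneg _), ← ENNReal.ofReal_add (by positivity) (by positivity)]
  apply ENNReal.ofReal_le_ofReal
  calc ‖z v‖ ^ 2 ≤ ((‖𝓕 ψ v‖ + ‖𝓕 ψ (-v)‖) / 2) ^ 2 := by
        have := hz v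
        gcongr
    _ ≤ _ := by nlinarith [sq_nonneg (‖𝓕 ψ v‖ - ‖𝓕 ψ (-v)‖), sq_nonneg (‖𝓕 ψ v‖),
        sq_nonneg (‖𝓕 ψ (-v)‖)]

lemma ind_GB {φ : ℝ → ℂ} (hφ : Measurable φ) {M : ℝ} (hM0 : 0 ≤ M) (hM : ∀ t, ‖φ t‖ ≤ M) :
    GB ((Icc (1 : ℝ) 2).indicator φ) := by
  refine ⟨hφ.indicator measurableSet_Icc, ?_, M, fun t => ?_⟩
  · rw [integrable_indicator_iff measurableSet_Icc]
    exact int_bdd hφ fun t _ => hM t
  · by_cases h : t ∈ Icc (1 : ℝ) 2
    · rw [indicator_of_mem h]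
      exact hM t
    · rw [indicator_of_notMem h, norm_zero]
      exact hM0

lemma F_ind (φ : ℝ → ℂ) (v : ℝ) :
    𝓕 ((Icc (1 : ℝ) 2).indicator φ) v = ∫ t in Icc (1 : ℝ) 2, φ t * ch v t := by
  rw [four_ev, ← integral_indicator measurableSet_Icc]
  congr 1
  ext t
  by_cases h : t ∈ Icc (1 : ℝ) 2
  · rw [indicator_of_mem h, indicator_of_mem h, mul_comm]
  · rw [indicator_of_notMem h, indicator_of_notMem h, mul_zero]

lemma ch_eq (v t : ℝ) : ch v t = ((Real.cos (2 * Real.pi * t * v) : ℝ) : ℂ) -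
    ((Real.sin (2 * Real.pi * t * v) : ℝ) : ℂ) * I := by
  unfold ch
  rw [Complex.exp_mul_I, ← Complex.ofReal_cos, ← Complex.ofReal_sin]
  rw [show -2 * Real.pi * v * t = -(2 * Real.pi * t * v) by ring, Real.cos_neg, Real.sin_neg]
  push_cast
  ring

lemma cph_l2 {φ : ℝ → ℂ} (hφ : Measurable φ) {M : ℝ} (hM0 : 0 ≤ M) (hM : ∀ t, ‖φ t‖ ≤ M) :
    ∫⁻ v in Ioi (0 : ℝ), ‖cph φ v‖ₑ ^ 2 ≤ ∫⁻ t in Icc (1 : ℝ) 2, ‖φ t‖ₑ ^ 2 := by
  have hG := ind_GB hφ hM0 hM
  refine (half_pl hG fun v => ?_).trans (le_of_eq ?_)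
  · have m : ∀ r, Measurable fun t => φ t * ch r t := fun r => hφ.mul (ch_cont r).measurable
    have bb : ∀ r, ∀ t ∈ Icc (1 : ℝ) 2, ‖φ t * ch r t‖ ≤ M := fun r t _ => by
      rw [norm_mul, ch_norm, mul_one]
      exact hM t
    have e : cph φ v = (𝓕 ((Icc (1 : ℝ) 2).indicator φ) v +
        𝓕 ((Icc (1 : ℝ) 2).indicator φ) (-v)) / 2 := by
      rw [F_ind, F_ind, ← integral_add (int_bdd (m v) (bb v)) (int_bdd (m (-v)) (bb (-v))),
        ← integral_div]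
      unfold cph
      congr 1
      ext t
      rw [ch_eq, ch_eq, show 2 * Real.pi * t * -v = -(2 * Real.pi * t * v) by ring,
        Real.cos_neg, Real.sin_neg]
      unfold cs
      push_cast
      ring
    rw [e, norm_div, Complex.norm_ofNat]
    have := norm_add_le (𝓕 ((Icc (1 : ℝ) 2).indicator φ) v)
      (𝓕 ((Icc (1 : ℝ) 2).indicator φ) (-v))
    gcongr
  · rw [← lintegral_indicator measurableSet_Icc]
    refine lintegral_congr fun t => ?_
    by_cases h : t ∈ Icc (1 : ℝ) 2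
    · rw [indicator_of_mem h, indicator_of_mem h]
    · rw [indicator_of_notMem h, indicator_of_notMem h]
      simp

lemma cph'_l2 {φ : ℝ → ℂ} (hφ : Measurable φ) {M : ℝ} (hM0 : 0 ≤ M) (hM : ∀ t, ‖φ t‖ ≤ M) :
    ∫⁻ v in Ioi (0 : ℝ), ‖cph' φ v‖ₑ ^ 2 ≤
      ENNReal.ofReal (16 * Real.pi ^ 2) * ∫⁻ t in Icc (1 : ℝ) 2, ‖φ t‖ₑ ^ 2 := by
  have hpi := Real.pi_pos
  -- truncated weight
  obtain ⟨w, hw⟩ : ∃ w : ℝ → ℝ, w = fun t => 2 * Real.pi * max 0 (min t 2) := ⟨_, rfl⟩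
  have hw0 : ∀ t, 0 ≤ w t := fun t => by rw [hw]; positivity
  have hw1 : ∀ t, w t ≤ 4 * Real.pi := fun t => by
    rw [hw]
    have : max 0 (min t 2) ≤ (2 : ℝ) := max_le (by norm_num) (min_le_right _ _)
    calc 2 * Real.pi * max 0 (min t 2) ≤ 2 * Real.pi * 2 := by gcongr
      _ = _ := by ring
  have hwe : ∀ t ∈ Icc (1 : ℝ) 2, w t = 2 * Real.pi * t := fun t ht => by
    rw [hw]
    simp only
    rw [min_eq_left ht.2, max_eq_right (by linarith [ht.1])]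
  have hwm : Measurable w := by
    rw [hw]
    fun_prop
  obtain ⟨φ₁, hφ₁⟩ : ∃ φ₁ : ℝ → ℂ, φ₁ = fun t => φ t * ((w t : ℝ) : ℂ) := ⟨_, rfl⟩
  have m1 : Measurable φ₁ := by
    rw [hφ₁]
    exact hφ.mul (Complex.measurable_ofReal.comp hwm)
  have b1 : ∀ t, ‖φ₁ t‖ ≤ M * (4 * Real.pi) := by
    intro t
    rw [hφ₁]
    simp only
    rw [norm_mul, Complex.norm_real, Real.norm_of_nonneg (hw0 t)]
    exact mul_le_mul (hM t) (hw1 t) (hw0 t) hM0
  have hG := ind_GB m1 (by positivity) b1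
  refine (half_pl hG fun v => ?_).trans ?_
  · have m : ∀ r, Measurable fun t => φ₁ t * ch r t := fun r => m1.mul (ch_cont r).measurable
    have bb : ∀ r, ∀ t ∈ Icc (1 : ℝ) 2, ‖φ₁ t * ch r t‖ ≤ M * (4 * Real.pi) := fun r t _ => by
      rw [norm_mul, ch_norm, mul_one]
      exact b1 t
    have e : cph' φ v = (𝓕 ((Icc (1 : ℝ) 2).indicator φ₁) v -
        𝓕 ((Icc (1 : ℝ) 2).indicator φ₁) (-v)) / (2 * I) := by
      rw [F_ind, F_ind, ← integral_sub (int_bdd (m v) (bb v)) (int_bdd (m (-v)) (bb (-v))),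
        ← integral_div]
      unfold cph'
      refine setIntegral_congr_fun measurableSet_Icc fun t ht => ?_
      rw [ch_eq, ch_eq, show 2 * Real.pi * t * -v = -(2 * Real.pi * t * v) by ring,
        Real.cos_neg, Real.sin_neg, hφ₁]
      simp only
      rw [hwe t ht]
      unfold cs'
      push_cast
      field_simp
      ring
    rw [e, norm_div, norm_mul, Complex.norm_ofNat, Complex.norm_I, mul_one]
    have := norm_sub_le (𝓕 ((Icc (1 : ℝ) 2).indicator φ₁) v)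
      (𝓕 ((Icc (1 : ℝ) 2).indicator φ₁) (-v))
    gcongr
  · rw [← lintegral_const_mul' _ _ ENNReal.ofReal_ne_top, ← lintegral_indicator measurableSet_Icc]
    refine lintegral_mono fun t => ?_
    by_cases h : t ∈ Icc (1 : ℝ) 2
    · rw [indicator_of_mem h, indicator_of_mem h, hφ₁]
      simp only
      rw [enorm_mul, mul_pow, mul_comm]
      refine mul_le_mul_left ?_ _
      rw [← ofReal_norm, ← ENNReal.ofReal_pow (norm_nonneg _), Complex.norm_real,
        Real.norm_of_nonneg (hw0 t)]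
      apply ENNReal.ofReal_le_ofReal
      calc w t ^ 2 ≤ (4 * Real.pi) ^ 2 := by
            have := hw1 t
            have := hw0 t
            gcongr
        _ = _ := by ring
    · rw [indicator_of_notMem h, indicator_of_notMem h]
      simp

end Pool.Agent.TH292.LS
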