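import Mathlib
import Pool.Agent.TH292.LS.F
set_option autoImplicit false

/-! Estimates for the propagator at one scale. -/

namespace Pool.Agent.TH292.LS

open Complex MeasureTheory Set Filter Topology
open scoped ENNReal FourierTransform ComplexConjugate RealInnerProductSpace
open Pool.Agent.TH310.BZ

variable {n : ℕ}

/-- the propagator at one scale -/
noncomputable def UU (A : ℝ → ℝ) (N : ℝ) (b : Fin n → ℝ) (f : E n → ℂ) (x : E n) (t : ℝ) : ℂ :=
  Jf (pk A (cs t) N) b f x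

lemma pk_cs_norm {A A' : ℝ → ℝ} {K : ℝ} (hA : Amp A A' K) {N t : ℝ} {w : ℝ} (hw : 0 ≤ w) :
    ‖pk A (cs t) N w‖ ≤ K * (1 + w) ^ (-2 : ℝ) := by
  unfold pk
  rw [norm_mul, Complex.norm_real, Real.norm_eq_abs]
  have hK := hA.K0
  calc |A w| * ‖cs t (N * Real.sqrt w)‖ ≤ (K * (1 + w) ^ (-2 : ℝ)) * 1 :=
        mul_le_mul (hA.bd w hw) (cs_norm _ _) (norm_nonneg _) (by positivity)
    _ = _ := mul_one _

lemma rpow_le_one' {w : ℝ} (hw : 0 ≤ w) : (1 + w) ^ (-2 : ℝ) ≤ 1 :=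
  Real.rpow_le_one_of_one_le_of_nonpos (by linarith) (by norm_num)

lemma UU_bd {A A' : ℝ → ℝ} {K : ℝ} (hA : Amp A A' K) {N t : ℝ} {b : Fin n → ℝ}
    (hb : ∀ j, 0 < b j) {f : E n → ℂ} (hf : Integrable f) (x : E n) :
    ‖UU A N b f x t‖ ≤ K * ∫ ξ, ‖Gx b f x ξ‖ := by
  unfold UU Jf
  have hK := hA.K0
  rw [← integral_const_mul]
  refine norm_integral_le_of_norm_le ((Gx_int hb hf x).norm.const_mul K) (ae_of_all _ fun ξ => ?_)
  rw [norm_mul]
  refine mul_le_mul_of_nonneg_right ?_ (norm_nonneg _)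
  refine (pk_cs_norm hA (QF_nonneg hb ξ)).trans ?_
  calc K * (1 + QF b ξ) ^ (-2 : ℝ) ≤ K * 1 :=
        mul_le_mul_of_nonneg_left (rpow_le_one' (QF_nonneg hb ξ)) hK
    _ = K := mul_one _

/-- the bound for each time, without cancellation at the origin -/
theorem UU_crude {A A' : ℝ → ℝ} {K : ℝ} (hA : Amp A A' K) {N δ : ℝ} (hN : 1 ≤ N) (hδ : 0 < δ)
    (hδ1 : δ ≤ 1) {t : ℝ} (h0 : 0 ≤ t) (h2 : t ≤ 2) {b : Fin n → ℝ} (hb : ∀ j, 0 < b j)
    {f : E n → ℂ} (hf : GB f) (x : E n) :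
    ‖UU A N b f x t‖ₑ ^ 2 ≤ ENNReal.ofReal (4 * N ^ (1 + δ) * (K ^ 2 + 1 / N ^ 2 *
      (K + K * (16 * Real.pi ^ 2 * N ^ 2)) ^ 2)) * B2 δ b f x := by
  have hN0 : 0 < N := by linarith
  have hK := hA.K0
  have h1 := est (pk_prof hA (cs_tmp h0 h2) hN0) hb hf x hN hδ hδ1
  refine h1.trans (mul_le_mul_left ?_ _)
  rw [ENNReal.ofReal_mul (by positivity : (0 : ℝ) ≤ 4 * N ^ (1 + δ)),
    ENNReal.ofReal_add (by positivity) (by positivity),
    ENNReal.ofReal_mul (by positivity : (0 : ℝ) ≤ 1 / N ^ 2)]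
  refine mul_le_mul_right (add_le_add ?_ (mul_le_mul_right ?_ _)) _
  · exact l2_crude fun w hw => pk_cs_norm hA hw.le
  · refine l2_crude fun w hw => ?_
    unfold pk'
    have hs : 0 < Real.sqrt w := Real.sqrt_pos.2 hw
    refine (norm_add_le _ _).trans ?_
    rw [norm_mul, norm_mul, norm_mul, Complex.norm_real, Complex.norm_real, Complex.norm_real,
      Real.norm_eq_abs, Real.norm_eq_abs, Real.norm_eq_abs,
      abs_of_pos (by positivity : 0 < N * (1 / (2 * Real.sqrt w)))]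
    have h3 := cs'_norm1 h0 h2 (N * Real.sqrt w)
    rw [abs_of_pos (by positivity : 0 < N * Real.sqrt w)] at h3
    have h4 : N * (1 / (2 * Real.sqrt w)) * ‖cs' t (N * Real.sqrt w)‖ ≤
        16 * Real.pi ^ 2 * N ^ 2 := by
      calc N * (1 / (2 * Real.sqrt w)) * ‖cs' t (N * Real.sqrt w)‖
          ≤ N * (1 / (2 * Real.sqrt w)) * (16 * Real.pi ^ 2 * (N * Real.sqrt w)) := by gcongr
        _ = 16 * Real.pi ^ 2 * N ^ 2 / 2 := by field_simp
        _ ≤ _ := by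
            have : 0 ≤ 16 * Real.pi ^ 2 * N ^ 2 := by positivity
            linarith
    have h5 := hA.bd w hw.le
    have h6 := hA.bd' w hw.le
    have h7 := cs_norm t (N * Real.sqrt w)
    have h8 : (0 : ℝ) ≤ (1 + w) ^ (-2 : ℝ) := by positivity
    calc |A' w| * ‖cs t (N * Real.sqrt w)‖ +
          |A w| * (N * (1 / (2 * Real.sqrt w)) * ‖cs' t (N * Real.sqrt w)‖)
        ≤ (K * (1 + w) ^ (-2 : ℝ)) * 1 + (K * (1 + w) ^ (-2 : ℝ)) *
          (16 * Real.pi ^ 2 * N ^ 2) := by gcongr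
      _ = _ := by ring

/-- the bound for each time -/
theorem UU_sup {A A' : ℝ → ℝ} {K : ℝ} (hA : Amp A A' K) (hD : AmpD A K) {N δ : ℝ} (hN : 1 ≤ N)
    (hδ : 0 < δ) (hδ1 : δ ≤ 1) {t : ℝ} (h0 : 0 ≤ t) (h2 : t ≤ 2) {b : Fin n → ℝ}
    (hb : ∀ j, 0 < b j) {f : E n → ℂ} (hf : GB f) (x : E n) :
    ‖UU A N b f x t‖ₑ ^ 2 ≤ ENNReal.ofReal (1400 * K ^ 2 * N ^ (1 + δ)) * B2 δ b f x := by
  have hN0 : 0 < N := by linarith
  have hK := hA.K0
  have hpi := Real.pi_pos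
  have h1 := est (pk_prof hA (cs_tmp h0 h2) hN0) hb hf x hN hδ hδ1
  refine h1.trans (mul_le_mul_left ?_ _)
  have h9 : 4 * N ^ (1 + δ) * (K ^ 2 + 1 / N ^ 2 * (K * N * (1 + 4 * Real.pi)) ^ 2) ≤
      1400 * K ^ 2 * N ^ (1 + δ) := by
    have e1 : 1 / N ^ 2 * (K * N * (1 + 4 * Real.pi)) ^ 2 = K ^ 2 * (1 + 4 * Real.pi) ^ 2 := by
      field_simp
    rw [e1]
    have h10 : (1 + 4 * Real.pi) ^ 2 ≤ 200 := by
      have := Real.pi_lt_d2
      nlinarith
    have h11 : 0 ≤ N ^ (1 + δ) * K ^ 2 := by positivity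
    have h12 : N ^ (1 + δ) * K ^ 2 * (1 + 4 * Real.pi) ^ 2 ≤ N ^ (1 + δ) * K ^ 2 * 200 :=
      mul_le_mul_of_nonneg_left h10 h11
    nlinarith
  refine le_trans ?_ (ENNReal.ofReal_le_ofReal h9)
  rw [ENNReal.ofReal_mul (by positivity : (0 : ℝ) ≤ 4 * N ^ (1 + δ)),
    ENNReal.ofReal_add (by positivity) (by positivity),
    ENNReal.ofReal_mul (by positivity : (0 : ℝ) ≤ 1 / N ^ 2)]
  refine mul_le_mul_right (add_le_add ?_ (mul_le_mul_right ?_ _)) _
  · exact l2_crude fun w hw => pk_cs_norm hA hw.le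
  · refine l2_crude fun w hw => ?_
    unfold pk'
    have hs : 0 < Real.sqrt w := Real.sqrt_pos.2 hw
    refine (norm_add_le _ _).trans ?_
    rw [norm_mul, norm_mul, norm_mul, Complex.norm_real, Complex.norm_real, Complex.norm_real,
      Real.norm_eq_abs, Real.norm_eq_abs, Real.norm_eq_abs,
      abs_of_pos (by positivity : 0 < N * (1 / (2 * Real.sqrt w)))]
    have h3 := cs'_norm h0 h2 (N * Real.sqrt w)
    have h5 := hD w hw
    have h6 := hA.bd' w hw.le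
    have h7 := cs_norm t (N * Real.sqrt w)
    have h8 : (0 : ℝ) ≤ (1 + w) ^ (-2 : ℝ) := by positivity
    calc |A' w| * ‖cs t (N * Real.sqrt w)‖ +
          |A w| * (N * (1 / (2 * Real.sqrt w)) * ‖cs' t (N * Real.sqrt w)‖)
        ≤ (K * (1 + w) ^ (-2 : ℝ)) * 1 + (K * (Real.sqrt w * (1 + w) ^ (-2 : ℝ))) *
          (N * (1 / (2 * Real.sqrt w)) * (4 * Real.pi)) := by gcongr
      _ = K * (1 + 2 * Real.pi * N) * (1 + w) ^ (-2 : ℝ) := by
          field_simp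
          ring
      _ ≤ _ := by
          apply mul_le_mul_of_nonneg_right _ h8
          have : K * 1 ≤ K * N := mul_le_mul_of_nonneg_left hN hK
          have h10 : 0 ≤ K * N * Real.pi := by positivity
          nlinarith

lemma QF_prod (b : Fin n → ℝ) : Continuous fun p : ℝ × E n => QF b p.2 :=
  (QF_cont b).comp continuous_snd

lemma UU_int_cont {A A' : ℝ → ℝ} {K : ℝ} (hA : Amp A A' K) (N : ℝ) (b : Fin n → ℝ)
    {f : E n → ℂ} (hf : Integrable f) (x : E n) :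
    Continuous fun p : ℝ × E n => pk A (cs p.1) N (QF b p.2) * Gx b f x p.2 := by
  have h1 := QF_prod b
  have h2 := hA.cont
  have h3 := Gx_cont (b := b) hf x
  have h4 : Continuous fun p : ℝ × E n => cs p.1 (N * Real.sqrt (QF b p.2)) :=
    cs_cont.comp (continuous_fst.prodMk (continuous_const.mul (Real.continuous_sqrt.comp h1)))
  exact ((Complex.continuous_ofReal.comp (h2.comp h1)).mul h4).mul (h3.comp continuous_snd)

lemma UU_meas_t {A A' : ℝ → ℝ} {K : ℝ} (hA : Amp A A' K) (N : ℝ) (b : Fin n → ℝ)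
    {f : E n → ℂ} (hf : Integrable f) (x : E n) : Measurable fun t => UU A N b f x t := by
  unfold UU Jf
  exact ((UU_int_cont hA N b hf x).stronglyMeasurable.integral_prod_right'
    (ν := (volume : Measure (E n)))).measurable

/-- averaging over time -/
lemma UU_avg {A A' : ℝ → ℝ} {K : ℝ} (hA : Amp A A' K) (N : ℝ) {b : Fin n → ℝ}
    (hb : ∀ j, 0 < b j) {f : E n → ℂ} (hf : Integrable f) (x : E n) {φ : ℝ → ℂ}
    (hφ : Measurable φ) {M : ℝ} (hM0 : 0 ≤ M) (hM : ∀ t, ‖φ t‖ ≤ M) :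
    ∫ t in Icc (1 : ℝ) 2, φ t * UU A N b f x t = Jf (pk A (cph φ) N) b f x := by
  have hK := hA.K0
  have h1 : ∀ t : ℝ, φ t * UU A N b f x t =
      ∫ ξ : E n, φ t * (pk A (cs t) N (QF b ξ) * Gx b f x ξ) := by
    intro t
    unfold UU Jf
    rw [integral_const_mul]
  simp only [h1]
  have hm : Measurable fun p : ℝ × E n => φ p.1 * (pk A (cs p.1) N (QF b p.2) * Gx b f x p.2) :=
    (hφ.comp measurable_fst).mul (UU_int_cont hA N b hf x).measurable
  have hi : Integrable (Function.uncurry fun (t : ℝ) (ξ : E n) =>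
      φ t * (pk A (cs t) N (QF b ξ) * Gx b f x ξ))
      ((volume.restrict (Icc (1 : ℝ) 2)).prod volume) := by
    have h2 : Integrable (fun p : ℝ × E n => (M * K : ℝ) * ‖Gx b f x p.2‖)
        ((volume.restrict (Icc (1 : ℝ) 2)).prod volume) :=
      (integrable_const (M * K)).mul_prod (Gx_int hb hf x).norm
    refine h2.mono' hm.aestronglyMeasurable (ae_of_all _ fun p => ?_)
    simp only [Function.uncurry]
    rw [norm_mul, norm_mul, ← mul_assoc]
    refine mul_le_mul_of_nonneg_right ?_ (norm_nonneg _)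
    refine mul_le_mul (hM _) ?_ (norm_nonneg _) hM0
    refine (pk_cs_norm hA (QF_nonneg hb _)).trans ?_
    calc K * (1 + QF b p.2) ^ (-2 : ℝ) ≤ K * 1 :=
          mul_le_mul_of_nonneg_left (rpow_le_one' (QF_nonneg hb _)) hK
      _ = K := mul_one _
  rw [integral_integral_swap hi]
  unfold Jf
  congr 1
  ext ξ
  unfold pk cph
  rw [← integral_const_mul, ← integral_mul_const]
  congr 1
  ext t
  ring

/-- **The square mean over time.** -/
theorem UU_two {A A' : ℝ → ℝ} {K : ℝ} (hA : Amp A A' K) (hD : AmpD A K) {N δ : ℝ} (hN : 1 ≤ N)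
    (hδ : 0 < δ) (hδ1 : δ ≤ 1) {b : Fin n → ℝ}
    (hb : ∀ j, 0 < b j) {f : E n → ℂ} (hf : GB f) (x : E n) :
    ∫⁻ t in Icc (1 : ℝ) 2, ‖UU A N b f x t‖ₑ ^ 2 ≤
      ENNReal.ofReal (1400 * K ^ 2 * N ^ δ) * B2 δ b f x := by
  have hN0 : 0 < N := by linarith
  have hK := hA.K0
  have hpi := Real.pi_pos
  have hUm := UU_meas_t hA N b hf.int x
  obtain ⟨M, hM⟩ : ∃ M, M = K * ∫ ξ, ‖Gx b f x ξ‖ := ⟨_, rfl⟩
  have hM0 : 0 ≤ M := by
    rw [hM]
    have : 0 ≤ ∫ ξ, ‖Gx b f x ξ‖ := integral_nonneg fun _ => norm_nonneg _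
    positivity
  have hUb : ∀ t, ‖UU A N b f x t‖ ≤ M := fun t => by
    rw [hM]
    exact UU_bd hA hb hf.int x
  obtain ⟨φ, hφ⟩ : ∃ φ : ℝ → ℂ, φ = fun t => conj (UU A N b f x t) := ⟨_, rfl⟩
  have hφm : Measurable φ := by
    rw [hφ]
    exact continuous_conj.measurable.comp hUm
  have hφb : ∀ t, ‖φ t‖ ≤ M := fun t => by
    rw [hφ]
    simp only
    rw [RCLike.norm_conj]
    exact hUb t
  have hφn : ∀ t, ‖φ t‖ₑ = ‖UU A N b f x t‖ₑ := fun t => by
    rw [hφ, ← ofReal_norm, ← ofReal_norm, RCLike.norm_conj]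
  obtain ⟨I, hI⟩ : ∃ I, I = ∫⁻ t in Icc (1 : ℝ) 2, ‖UU A N b f x t‖ₑ ^ 2 := ⟨_, rfl⟩
  have hIfin : I ≠ ⊤ := by
    rw [hI]
    have : ∫⁻ t in Icc (1 : ℝ) 2, ‖UU A N b f x t‖ₑ ^ 2 ≤
        ∫⁻ _ in Icc (1 : ℝ) 2, ENNReal.ofReal M ^ 2 := by
      refine lintegral_mono fun t => ?_
      rw [← ofReal_norm]
      gcongr
      exact hUb t
    refine (this.trans_lt ?_).ne
    rw [lintegral_const, Measure.restrict_apply_univ]
    exact ENNReal.mul_lt_top (ENNReal.pow_lt_top ENNReal.ofReal_lt_top) (by simp)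
  -- the pairing
  have h1 : ‖Jf (pk A (cph φ) N) b f x‖ₑ = I := by
    rw [← UU_avg hA N hb hf.int x hφm hM0 hφb]
    have e1 : ∀ t, φ t * UU A N b f x t = ((‖UU A N b f x t‖ ^ 2 : ℝ) : ℂ) := by
      intro t
      rw [hφ]
      simp only
      rw [mul_comm, Complex.mul_conj, Complex.normSq_eq_norm_sq]
    simp only [e1]
    rw [integral_complex_ofReal, ← ofReal_norm, Complex.norm_real, Real.norm_of_nonneg
      (integral_nonneg fun _ => sq_nonneg _), ofReal_integral_eq_lintegral_ofReal, hI]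
    · refine lintegral_congr fun t => ?_
      rw [ENNReal.ofReal_pow (norm_nonneg _), ofReal_norm]
    · refine Integrable.of_bound ((hUm.norm.pow_const 2).aestronglyMeasurable) (M ^ 2)
        (ae_of_all _ fun t => ?_)
      rw [Real.norm_of_nonneg (sq_nonneg _)]
      exact pow_le_pow_left₀ (norm_nonneg _) (hUb t) 2
    · exact ae_of_all _ fun t => sq_nonneg _
  have hT := cph_tmp hφm hM0 hφb
  have h2 := est (pk_prof hA hT hN0) hb hf x hN hδ hδ1
  rw [h1] at h2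
  have h3 : ∫⁻ w in Ioi (0 : ℝ), ‖pk A (cph φ) N w‖ₑ ^ 2 ≤
      ENNReal.ofReal (K ^ 2 * (2 / N)) * I := by
    refine (pk_l2 hA hN0).trans (mul_le_mul_right ?_ _)
    refine (cph_l2 hφm hM0 hφb).trans (le_of_eq ?_)
    rw [hI]
    simp only [hφn]
  have h4 : ∫⁻ w in Ioi (0 : ℝ), ‖pk' A A' (cph φ) (cph' φ) N w‖ₑ ^ 2 ≤
      ENNReal.ofReal (2 * K ^ 2 * (2 / N)) * I +
      ENNReal.ofReal (K ^ 2 * N ^ 2 * (2 / N)) * (ENNReal.ofReal (16 * Real.pi ^ 2) * I) := by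
    refine (pk'_l2 hA hD hT hN0).trans (add_le_add (mul_le_mul_right ?_ _)
      (mul_le_mul_right ?_ _))
    · refine (cph_l2 hφm hM0 hφb).trans (le_of_eq ?_)
      rw [hI]
      simp only [hφn]
    · refine (cph'_l2 hφm hM0 hφb).trans (le_of_eq ?_)
      rw [hI]
      simp only [hφn]
  have h5 : I ^ 2 ≤ (ENNReal.ofReal (1400 * K ^ 2 * N ^ δ) * B2 δ b f x) * I := by
    refine h2.trans ?_
    calc ENNReal.ofReal (4 * N ^ (1 + δ)) * ((∫⁻ w in Ioi (0 : ℝ), ‖pk A (cph φ) N w‖ₑ ^ 2) +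
          ENNReal.ofReal (1 / N ^ 2) *
            ∫⁻ w in Ioi (0 : ℝ), ‖pk' A A' (cph φ) (cph' φ) N w‖ₑ ^ 2) * B2 δ b f x
        ≤ ENNReal.ofReal (4 * N ^ (1 + δ)) * (ENNReal.ofReal (K ^ 2 * (2 / N)) * I +
          ENNReal.ofReal (1 / N ^ 2) * (ENNReal.ofReal (2 * K ^ 2 * (2 / N)) * I +
          ENNReal.ofReal (K ^ 2 * N ^ 2 * (2 / N)) * (ENNReal.ofReal (16 * Real.pi ^ 2) * I))) *
            B2 δ b f x := by gcongr
      _ = (ENNReal.ofReal (4 * N ^ (1 + δ) * (K ^ 2 * (2 / N) + 1 / N ^ 2 *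
          (2 * K ^ 2 * (2 / N) + K ^ 2 * N ^ 2 * (2 / N) * (16 * Real.pi ^ 2)))) * B2 δ b f x) *
            I := by
          rw [ENNReal.ofReal_mul (by positivity : (0 : ℝ) ≤ 4 * N ^ (1 + δ)),
            ENNReal.ofReal_add (by positivity) (by positivity),
            ENNReal.ofReal_mul (by positivity : (0 : ℝ) ≤ 1 / N ^ 2),
            ENNReal.ofReal_add (by positivity) (by positivity),
            ENNReal.ofReal_mul (by positivity : (0 : ℝ) ≤ K ^ 2 * N ^ 2 * (2 / N))]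
          ring
      _ ≤ _ := by
          refine mul_le_mul_left (mul_le_mul_left (ENNReal.ofReal_le_ofReal ?_) _) _
          have e1 : N ^ (1 + δ) = N * N ^ δ := by
            rw [Real.rpow_add hN0, Real.rpow_one]
          rw [e1]
          have e2 : 4 * (N * N ^ δ) * (K ^ 2 * (2 / N) + 1 / N ^ 2 *
              (2 * K ^ 2 * (2 / N) + K ^ 2 * N ^ 2 * (2 / N) * (16 * Real.pi ^ 2))) =
              (K ^ 2 * N ^ δ) * (8 + 16 / N ^ 2 + 128 * Real.pi ^ 2) := by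
            field_simp
            ring
          rw [e2]
          have h6 : 16 / N ^ 2 ≤ 16 := by
            rw [div_le_iff₀ (by positivity)]
            nlinarith
          have h7 : Real.pi ^ 2 ≤ 10 := by
            have := Real.pi_lt_d2
            nlinarith
          have h8 : 0 ≤ K ^ 2 * N ^ δ := by positivity
          calc (K ^ 2 * N ^ δ) * (8 + 16 / N ^ 2 + 128 * Real.pi ^ 2)
              ≤ (K ^ 2 * N ^ δ) * 1400 := by
                apply mul_le_mul_of_nonneg_left _ h8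
                linarith
            _ = _ := by ring
  rw [← hI]
  rcases eq_or_ne I 0 with h0 | h0
  · rw [h0]
    exact bot_le
  · rw [sq] at h5
    exact (ENNReal.mul_le_mul_iff_left h0 hIfin).1 h5

/-- the mean of order `p` over time -/
theorem UU_p {A A' : ℝ → ℝ} {K : ℝ} (hA : Amp A A' K) (hD : AmpD A K) {N δ p : ℝ} (hN : 1 ≤ N)
    (hδ : 0 < δ) (hδ1 : δ ≤ 1) (hp : 2 ≤ p) {b : Fin n → ℝ}
    (hb : ∀ j, 0 < b j) {f : E n → ℂ} (hf : GB f) (x : E n) :
    ∫⁻ t in Icc (1 : ℝ) 2, ‖UU A N b f x t‖ₑ ^ p ≤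
      ENNReal.ofReal ((1400 * K ^ 2) ^ (p / 2) * N ^ ((p - 2) / 2 + δ * p / 2)) *
        B2 δ b f x ^ (p / 2) := by
  have hN0 : 0 < N := by linarith
  have hK := hA.K0
  obtain ⟨c, hc⟩ : ∃ c, c = 1400 * K ^ 2 := ⟨_, rfl⟩
  have hc0 : 0 ≤ c := by rw [hc]; positivity
  have hq : 0 ≤ (p - 2) / 2 := by linarith
  have h1 : ∀ t ∈ Icc (1 : ℝ) 2, ‖UU A N b f x t‖ₑ ^ p ≤
      (ENNReal.ofReal (c * N ^ (1 + δ)) * B2 δ b f x) ^ ((p - 2) / 2) *
        ‖UU A N b f x t‖ₑ ^ 2 := by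
    intro t ht
    have h2 := UU_sup hA hD hN hδ hδ1 (by linarith [ht.1]) ht.2 hb hf x
    rw [← hc] at h2
    have e : ‖UU A N b f x t‖ₑ ^ p = (‖UU A N b f x t‖ₑ ^ 2) ^ ((p - 2) / 2) *
        ‖UU A N b f x t‖ₑ ^ 2 := by
      rw [← ENNReal.rpow_natCast, ← ENNReal.rpow_mul, ← ENNReal.rpow_add_of_nonneg _ _
        (by push_cast; linarith) (by norm_num)]
      congr 1
      push_cast
      ring
    rw [e]
    gcongr
  calc ∫⁻ t in Icc (1 : ℝ) 2, ‖UU A N b f x t‖ₑ ^ p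
      ≤ ∫⁻ t in Icc (1 : ℝ) 2, (ENNReal.ofReal (c * N ^ (1 + δ)) * B2 δ b f x) ^ ((p - 2) / 2) *
        ‖UU A N b f x t‖ₑ ^ 2 := setLIntegral_mono' measurableSet_Icc h1
    _ = (ENNReal.ofReal (c * N ^ (1 + δ)) * B2 δ b f x) ^ ((p - 2) / 2) *
        ∫⁻ t in Icc (1 : ℝ) 2, ‖UU A N b f x t‖ₑ ^ 2 := by
        rw [lintegral_const_mul]
        exact ((UU_meas_t hA N b hf.int x).enorm.pow_const 2)
    _ ≤ (ENNReal.ofReal (c * N ^ (1 + δ)) * B2 δ b f x) ^ ((p - 2) / 2) *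
        (ENNReal.ofReal (c * N ^ δ) * B2 δ b f x) := by
        rw [hc]
        exact mul_le_mul_right (UU_two hA hD hN hδ hδ1 hb hf x) _
    _ = (ENNReal.ofReal (c * N ^ (1 + δ)) ^ ((p - 2) / 2) * ENNReal.ofReal (c * N ^ δ)) *
        (B2 δ b f x ^ ((p - 2) / 2) * B2 δ b f x) := by
        rw [ENNReal.mul_rpow_of_nonneg _ _ hq]
        ring
    _ = _ := by
        congr 1
        · rw [ENNReal.ofReal_rpow_of_nonneg (by positivity) hq, ← ENNReal.ofReal_mul (by positivity),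
            ← hc]
          congr 1
          rw [Real.mul_rpow hc0 (by positivity), ← Real.rpow_mul hN0.le]
          have e1 : c ^ (p / 2) = c ^ ((p - 2) / 2) * c := by
            rcases hc0.eq_or_lt with h | h
            · rw [← h, Real.zero_rpow (by linarith), mul_zero]
            · nth_rewrite 3 [← Real.rpow_one c]
              rw [← Real.rpow_add h]
              congr 1
              ring
          have e2 : N ^ ((p - 2) / 2 + δ * p / 2) = N ^ ((1 + δ) * ((p - 2) / 2)) * N ^ δ := by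
            rw [← Real.rpow_add hN0]
            congr 1
            ring
          rw [e1, e2]
          ring
        · nth_rewrite 2 [← ENNReal.rpow_one (B2 δ b f x)]
          rw [← ENNReal.rpow_add_of_nonneg _ _ hq zero_le_one]
          congr 1
          ring

end Pool.Agent.TH292.LS
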