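import Mathlib
import Pool.Agent.TH310.BZ.Max5
set_option autoImplicit false

/-! Fourier multipliers: measurability, dilations, Gaussian factors, and Minkowski's inequality. -/

namespace Pool.Agent.TH292.LS

open Complex MeasureTheory Set Filter Topology
open scoped ENNReal FourierTransform ComplexConjugate RealInnerProductSpace
open Pool.Agent.TH310.BZ

variable {n : ℕ}

/-- the Fourier multiplier with symbol `m` -/
noncomputable def Mu (m : E n → ℂ) (f : E n → ℂ) (x : E n) : ℂ :=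
  ∫ ξ : E n, m ξ * 𝓕 f ξ * cexp (((2 * Real.pi * ⟪x, ξ⟫ : ℝ) : ℂ) * I)

lemma Mu_meas {Z : Type*} [MeasurableSpace Z] {m : Z → E n → ℂ}
    (hm : Measurable fun q : Z × E n => m q.1 q.2) {f : E n → ℂ} (hf : Integrable f) :
    Measurable fun q : Z × E n => Mu (m q.1) f q.2 := by
  unfold Mu
  have h1 : Measurable fun q : (Z × E n) × E n => m q.1.1 q.2 :=
    hm.comp ((measurable_fst.comp measurable_fst).prodMk measurable_snd)
  have h2 : Measurable fun q : (Z × E n) × E n => 𝓕 f q.2 := (meas_F hf).comp measurable_snd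
  have h3 : Measurable fun q : (Z × E n) × E n =>
      cexp (((2 * Real.pi * ⟪q.1.2, q.2⟫ : ℝ) : ℂ) * I) := by
    have h4 : Measurable fun q : (Z × E n) × E n => (⟪q.1.2, q.2⟫ : ℝ) :=
      (measurable_snd.comp measurable_fst).inner measurable_snd
    exact Complex.measurable_exp.comp ((Complex.measurable_ofReal.comp
      (h4.const_mul _)).mul_const _)
  exact (((h1.mul h2).mul h3).stronglyMeasurable.integral_prod_right'
    (ν := (volume : Measure (E n)))).measurable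

lemma Mu_meas_x {m : E n → ℂ} (hm : Measurable m) {f : E n → ℂ} (hf : Integrable f) :
    Measurable (Mu m f) := by
  unfold Mu
  have h1 : Measurable fun q : E n × E n => m q.2 := hm.comp measurable_snd
  have h2 : Measurable fun q : E n × E n => 𝓕 f q.2 := (meas_F hf).comp measurable_snd
  have h3 : Measurable fun q : E n × E n =>
      cexp (((2 * Real.pi * ⟪q.1, q.2⟫ : ℝ) : ℂ) * I) := by
    have h4 : Measurable fun q : E n × E n => (⟪q.1, q.2⟫ : ℝ) :=
      measurable_fst.inner measurable_snd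
    exact Complex.measurable_exp.comp ((Complex.measurable_ofReal.comp
      (h4.const_mul _)).mul_const _)
  exact (((h1.mul h2).mul h3).stronglyMeasurable.integral_prod_right'
    (ν := (volume : Measure (E n)))).measurable

lemma Mu_dil {ρ : ℝ} (hρ : 0 < ρ) (m : E n → ℂ) (f : E n → ℂ) (x : E n) :
    Mu (fun ξ => m (ρ⁻¹ • ξ)) f x = Mu m (dl ρ f) (ρ • x) := by
  unfold Mu
  have h1 := Measure.integral_comp_smul (volume : Measure (E n))
    (fun ξ : E n => m (ρ⁻¹ • ξ) * 𝓕 f ξ * cexp (((2 * Real.pi * ⟪x, ξ⟫ : ℝ) : ℂ) * I)) ρ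
  rw [fin_E, abs_of_pos (by positivity), Complex.real_smul] at h1
  have h2 : ∀ η : E n, m η * 𝓕 (dl ρ f) η *
      cexp (((2 * Real.pi * ⟪ρ • x, η⟫ : ℝ) : ℂ) * I) =
      ((ρ ^ n : ℝ) : ℂ) * (m (ρ⁻¹ • (ρ • η)) * 𝓕 f (ρ • η) *
        cexp (((2 * Real.pi * ⟪x, ρ • η⟫ : ℝ) : ℂ) * I)) := by
    intro η
    rw [F_dil hρ, inv_smul_smul₀ hρ.ne']
    have hin : (⟪ρ • x, η⟫ : ℝ) = ⟪x, ρ • η⟫ := by
      rw [inner_smul_left, inner_smul_right]
      simp
    rw [hin]
    ring
  simp only [h2]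
  rw [integral_const_mul, h1, ← mul_assoc, ← Complex.ofReal_mul, mul_inv_cancel₀ (by positivity),
    Complex.ofReal_one, one_mul]

/-- the Gaussian symbol -/
noncomputable def gs (c : Fin n → ℝ) (ξ : E n) : ℂ := cexp (-((Real.pi * QF c ξ : ℝ) : ℂ))

lemma gs_cont (c : Fin n → ℝ) : Continuous (gs c) := by
  have := QF_cont c
  unfold gs
  fun_prop

lemma gs_norm (c : Fin n → ℝ) (ξ : E n) : ‖gs c ξ‖ = Real.exp (-(Real.pi * QF c ξ)) := by
  unfold gs
  rw [Complex.norm_exp, ← Complex.ofReal_neg, Complex.ofReal_re]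

lemma Mu_gauss {c : Fin n → ℝ} (hc : ∀ j, 0 < c j) {m : E n → ℂ} {f : E n → ℂ}
    (hm : Integrable fun ξ => m ξ * 𝓕 f ξ) (x : E n) :
    Mu (fun ξ => gs c ξ * m ξ) f x = ∫ y : E n, KK c 0 (x - y) * Mu m f y := by
  have hK := KK_GB hc 0
  have h1 : ∀ y : E n, KK c 0 (x - y) * Mu m f y = ∫ ξ : E n, KK c 0 (x - y) *
      (m ξ * 𝓕 f ξ * cexp (((2 * Real.pi * ⟪y, ξ⟫ : ℝ) : ℂ) * I)) := by
    intro y
    unfold Mu
    rw [integral_const_mul]
  simp only [h1]
  have hKx : Integrable fun y : E n => KK c 0 (x - y) := hK.int.comp_sub_left x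
  have hi : Integrable (Function.uncurry fun (y ξ : E n) => KK c 0 (x - y) *
      (m ξ * 𝓕 f ξ * cexp (((2 * Real.pi * ⟪y, ξ⟫ : ℝ) : ℂ) * I))) (volume.prod volume) := by
    have h2 := hKx.mul_prod hm
    have h3 := h2.mul_bdd (c := 1) (g := fun q : E n × E n =>
      cexp (((2 * Real.pi * ⟪q.1, q.2⟫ : ℝ) : ℂ) * I)) ?_ ?_
    · refine h3.congr (ae_of_all _ fun q => ?_)
      simp only [Function.uncurry]
      ring
    · have : Continuous fun q : E n × E n => cexp (((2 * Real.pi * ⟪q.1, q.2⟫ : ℝ) : ℂ) * I) := by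
        fun_prop
      exact this.aestronglyMeasurable
    · exact ae_of_all _ fun q => e_norm _ _
  rw [integral_integral_swap hi]
  unfold Mu
  congr 1
  ext ξ
  have h4 : ∀ y : E n, KK c 0 (x - y) *
      (m ξ * 𝓕 f ξ * cexp (((2 * Real.pi * ⟪y, ξ⟫ : ℝ) : ℂ) * I)) =
      (m ξ * 𝓕 f ξ) * (KK c 0 (x - y) * cexp (((2 * Real.pi * ⟪y, ξ⟫ : ℝ) : ℂ) * I)) :=
    fun y => by ring
  simp only [h4]
  rw [integral_const_mul, KK0_mod hc]
  unfold gs
  ring

/-- a Gaussian factor does not increase the norm -/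
theorem gauss_p {c : Fin n → ℝ} (hc : ∀ j, 0 < c j) {m : E n → ℂ} (hmm : Measurable m)
    {f : E n → ℂ} (hf : Integrable f) (hm : Integrable fun ξ => m ξ * 𝓕 f ξ) {p : ℝ} (hp : 1 < p) :
    ∫⁻ x, ‖Mu (fun ξ => gs c ξ * m ξ) f x‖ₑ ^ p ≤ ∫⁻ x, ‖Mu m f x‖ₑ ^ p := by
  refine le_trans ?_ (young (KK_cont c 0).measurable.enorm (Mu_meas_x hmm hf).enorm
    (KK0_int hc) hp)
  refine lintegral_mono fun x => ?_
  refine ENNReal.rpow_le_rpow ?_ (by linarith)
  rw [Mu_gauss hc hm x]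
  refine (enorm_integral_le_lintegral_enorm _).trans (le_of_eq ?_)
  simp only [enorm_mul]

/-- Jensen's inequality with a weight -/
lemma jensen {S : Type*} [MeasurableSpace S] (m : Measure S) {v h : S → ℝ≥0∞}
    (hv : Measurable v) (hh : Measurable h) {p : ℝ} (hp : 1 < p) :
    (∫⁻ s, v s * h s ∂m) ^ p ≤ (∫⁻ s, v s ∂m) ^ (p - 1) * ∫⁻ s, v s * h s ^ p ∂m := by
  have hp0 : 0 < p := by linarith
  obtain ⟨q, hpq⟩ : ∃ q, p.HolderConjugate q := ⟨_, Real.HolderConjugate.conjExponent hp⟩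
  have hH := ENNReal.lintegral_mul_le_Lp_mul_Lq m hpq
    (f := fun s => v s ^ (1 / p) * h s) (g := fun s => v s ^ (1 / q))
    ((hv.pow_const _).mul hh).aemeasurable (hv.pow_const _).aemeasurable
  have e1 : ∀ s, ((fun s => v s ^ (1 / p) * h s) * fun s => v s ^ (1 / q)) s = v s * h s := by
    intro s
    simp only [Pi.mul_apply]
    have : v s ^ (1 / p) * v s ^ (1 / q) = v s := by
      rw [← ENNReal.rpow_add_of_nonneg _ _ (by positivity) (by
        have := hpq.symm.pos; positivity)]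
      have h3 : 1 / p + 1 / q = 1 := by
        have := hpq.inv_add_inv_eq_one
        simpa [one_div] using this
      rw [h3, ENNReal.rpow_one]
    calc v s ^ (1 / p) * h s * v s ^ (1 / q) = (v s ^ (1 / p) * v s ^ (1 / q)) * h s := by ring
      _ = _ := by rw [this]
  have e2 : ∀ s, (v s ^ (1 / p) * h s) ^ p = v s * h s ^ p := by
    intro s
    rw [ENNReal.mul_rpow_of_nonneg _ _ hp0.le, ← ENNReal.rpow_mul, one_div_mul_cancel hp0.ne',
      ENNReal.rpow_one]
  have e3 : ∀ s, (v s ^ (1 / q)) ^ q = v s := by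
    intro s
    rw [← ENNReal.rpow_mul, one_div_mul_cancel hpq.symm.pos.ne', ENNReal.rpow_one]
  simp only [e1, e2, e3] at hH
  calc (∫⁻ s, v s * h s ∂m) ^ p
      ≤ ((∫⁻ s, v s * h s ^ p ∂m) ^ (1 / p) * (∫⁻ s, v s ∂m) ^ (1 / q)) ^ p := by gcongr
    _ = _ := by
      rw [ENNReal.mul_rpow_of_nonneg _ _ hp0.le, ← ENNReal.rpow_mul, ← ENNReal.rpow_mul,
        one_div_mul_cancel hp0.ne', ENNReal.rpow_one, mul_comm]
      congr 2
      have h3 := hpq.inv_add_inv_eq_one
      have h4 : q ≠ 0 := hpq.symm.pos.ne'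
      field_simp at h3 ⊢
      linarith

/-- Minkowski's inequality with a weight -/
theorem minkw {S Z : Type*} [MeasurableSpace S] [MeasurableSpace Z] (m : Measure S) [SFinite m]
    (ζ : Measure Z) [SFinite ζ] {v : S → ℝ≥0∞} {h : S → Z → ℝ≥0∞} (hv : Measurable v)
    (hh : Measurable (Function.uncurry h)) {p : ℝ} (hp : 1 < p) (D : ℝ≥0∞)
    (hD : ∀ᵐ s ∂m, ∫⁻ z, h s z ^ p ∂ζ ≤ D) :
    ∫⁻ z, (∫⁻ s, v s * h s z ∂m) ^ p ∂ζ ≤ (∫⁻ s, v s ∂m) ^ p * D := by
  obtain ⟨V, hV⟩ : ∃ V, V = ∫⁻ s, v s ∂m := ⟨_, rfl⟩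
  have hhz : ∀ z, Measurable fun s => h s z := fun z => hh.comp (measurable_id.prodMk measurable_const)
  have hhs : ∀ s, Measurable fun z => h s z := fun s => hh.comp (measurable_const.prodMk measurable_id)
  have hm2 : Measurable fun q : Z × S => v q.2 * h q.2 q.1 ^ p :=
    (hv.comp measurable_snd).mul ((hh.comp measurable_swap).pow_const p)
  calc ∫⁻ z, (∫⁻ s, v s * h s z ∂m) ^ p ∂ζ
      ≤ ∫⁻ z, V ^ (p - 1) * ∫⁻ s, v s * h s z ^ p ∂m ∂ζ := by
        rw [hV]
        exact lintegral_mono fun z => jensen m hv (hhz z) hp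
    _ = V ^ (p - 1) * ∫⁻ z, ∫⁻ s, v s * h s z ^ p ∂m ∂ζ := by
        rw [lintegral_const_mul _ hm2.lintegral_prod_right']
    _ = V ^ (p - 1) * ∫⁻ s, v s * ∫⁻ z, h s z ^ p ∂ζ ∂m := by
        congr 1
        rw [lintegral_lintegral_swap (f := fun (z : Z) (s : S) => v s * h s z ^ p)
          hm2.aemeasurable]
        refine lintegral_congr fun s => ?_
        rw [lintegral_const_mul _ ((hhs s).pow_const p)]
    _ ≤ V ^ (p - 1) * ∫⁻ s, v s * D ∂m := by
        refine mul_le_mul_right (lintegral_mono_ae ?_) _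
        filter_upwards [hD] with s hs
        exact mul_le_mul_right hs _
    _ = V ^ (p - 1) * (V * D) := by
        rw [lintegral_mul_const _ hv, ← hV]
    _ = _ := by
        rw [← mul_assoc, ← hV]
        congr 1
        nth_rewrite 2 [← ENNReal.rpow_one V]
        rw [← ENNReal.rpow_add_of_nonneg _ _ (by linarith) zero_le_one]
        congr 1
        ring

end Pool.Agent.TH292.LS
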