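import Mathlib
import Pool.Agent.TH292.LS.G
import Pool.Agent.TH292.LS.H
set_option autoImplicit false

/-! Amplitudes and pieces at one scale. -/

namespace Pool.Agent.TH292.LS

open Complex MeasureTheory Set Filter Topology
open scoped ENNReal FourierTransform ComplexConjugate RealInnerProductSpace
open Pool.Agent.TH310.BZ

variable {n : ℕ}

/-- the two amplitudes -/
noncomputable def A0 (w : ℝ) : ℝ := Real.exp (-(Real.pi * w))
noncomputable def A0' (w : ℝ) : ℝ := Real.exp (-(Real.pi * w)) * (-Real.pi)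
noncomputable def A1 (w : ℝ) : ℝ := 2 * Real.pi * w * Real.exp (-(Real.pi * w))
noncomputable def A1' (w : ℝ) : ℝ := 2 * Real.pi * Real.exp (-(Real.pi * w)) +
  2 * Real.pi * w * (Real.exp (-(Real.pi * w)) * (-Real.pi))

lemma exp_fac {w : ℝ} (hw : 0 ≤ w) :
    (1 + w) * Real.exp (-(Real.pi * w)) ≤ (1 + w) ^ (-2 : ℝ) := by
  have h1 : 0 < 1 + w := by linarith
  have h2 : (1 + w) ^ (-2 : ℝ) = ((1 + w) ^ 2)⁻¹ := by
    rw [Real.rpow_neg h1.le]
    norm_cast
  rw [h2, Real.exp_neg, ← div_eq_mul_inv, div_le_iff₀ (Real.exp_pos _), inv_mul_eq_div,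
    le_div_iff₀ (by positivity)]
  have h3 : 1 + w ≤ Real.exp w := by linarith [Real.add_one_le_exp w]
  calc (1 + w) * (1 + w) ^ 2 = (1 + w) ^ 3 := by ring
    _ ≤ Real.exp w ^ 3 := pow_le_pow_left₀ h1.le h3 3
    _ = Real.exp (3 * w) := by rw [← Real.exp_nat_mul]; norm_num
    _ ≤ Real.exp (Real.pi * w) := by
        apply Real.exp_le_exp.2
        exact mul_le_mul_of_nonneg_right Real.pi_gt_three.le hw

lemma exp_fac1 {w : ℝ} (hw : 0 ≤ w) :
    Real.exp (-(Real.pi * w)) ≤ (1 + w) ^ (-2 : ℝ) := by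
  refine le_trans ?_ (exp_fac hw)
  have := Real.exp_pos (-(Real.pi * w))
  nlinarith

/-- the common constant -/
noncomputable def Kc : ℝ := 2 * Real.pi ^ 2

lemma Kc_pos : 0 < Kc := by unfold Kc; positivity

lemma hexp_der (w : ℝ) : HasDerivAt (fun w : ℝ => Real.exp (-(Real.pi * w)))
    (Real.exp (-(Real.pi * w)) * (-Real.pi)) w := by
  have h := ((hasDerivAt_id w).const_mul Real.pi).neg.exp
  simpa using h

lemma A0_amp : Amp A0 A0' Kc := by
  have hpi := Real.pi_gt_three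
  refine ⟨Kc_pos.le, fun w => ?_, ?_, fun w hw => ?_, fun w hw => ?_⟩
  · exact hexp_der w
  · unfold A0'; fun_prop
  · unfold A0 Kc
    rw [abs_of_pos (Real.exp_pos _)]
    have h1 := exp_fac1 hw
    have h2 : (0 : ℝ) ≤ (1 + w) ^ (-2 : ℝ) := by positivity
    have h3 : (1 : ℝ) ≤ 2 * Real.pi ^ 2 := by nlinarith
    calc Real.exp (-(Real.pi * w)) ≤ 1 * (1 + w) ^ (-2 : ℝ) := by rw [one_mul]; exact h1
      _ ≤ _ := mul_le_mul_of_nonneg_right h3 h2
  · unfold A0' Kc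
    rw [abs_mul, abs_of_pos (Real.exp_pos _), abs_neg, abs_of_pos Real.pi_pos]
    have h1 := exp_fac1 hw
    have h2 : (0 : ℝ) ≤ (1 + w) ^ (-2 : ℝ) := by positivity
    calc Real.exp (-(Real.pi * w)) * Real.pi ≤ (1 + w) ^ (-2 : ℝ) * (2 * Real.pi ^ 2) := by
          apply mul_le_mul h1 (by nlinarith) Real.pi_pos.le h2
      _ = _ := by ring

lemma A1_amp : Amp A1 A1' Kc := by
  have hpi := Real.pi_gt_three
  refine ⟨Kc_pos.le, fun w => ?_, ?_, fun w hw => ?_, fun w hw => ?_⟩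
  · have h1 : HasDerivAt (fun w : ℝ => 2 * Real.pi * w) (2 * Real.pi) w := by
      simpa using (hasDerivAt_id w).const_mul (2 * Real.pi)
    exact h1.mul (hexp_der w)
  · unfold A1'; fun_prop
  · unfold A1 Kc
    rw [abs_of_nonneg (by positivity)]
    have h1 := exp_fac hw
    have h0 := Real.exp_pos (-(Real.pi * w))
    calc 2 * Real.pi * w * Real.exp (-(Real.pi * w))
        ≤ 2 * Real.pi ^ 2 * ((1 + w) * Real.exp (-(Real.pi * w))) := by
          rw [← mul_assoc]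
          apply mul_le_mul_of_nonneg_right _ h0.le
          nlinarith [mul_nonneg hw (by nlinarith : 0 ≤ Real.pi ^ 2 - Real.pi)]
      _ ≤ _ := mul_le_mul_of_nonneg_left h1 (by positivity)
  · unfold A1' Kc
    have h1 := exp_fac hw
    have h0 := Real.exp_pos (-(Real.pi * w))
    refine (abs_add_le _ _).trans ?_
    have e1 : |2 * Real.pi * Real.exp (-(Real.pi * w))| = 2 * Real.pi * Real.exp (-(Real.pi * w)) :=
      abs_of_pos (by positivity)
    have e2 : |2 * Real.pi * w * (Real.exp (-(Real.pi * w)) * -Real.pi)| =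
        2 * Real.pi * w * (Real.exp (-(Real.pi * w)) * Real.pi) := by
      rw [mul_neg, mul_neg, abs_neg, abs_of_nonneg (by positivity)]
    rw [e1, e2]
    calc 2 * Real.pi * Real.exp (-(Real.pi * w)) +
          2 * Real.pi * w * (Real.exp (-(Real.pi * w)) * Real.pi)
        ≤ 2 * Real.pi ^ 2 * ((1 + w) * Real.exp (-(Real.pi * w))) := by
          have : 2 * Real.pi * Real.exp (-(Real.pi * w)) ≤
              2 * Real.pi ^ 2 * Real.exp (-(Real.pi * w)) := by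
            apply mul_le_mul_of_nonneg_right _ h0.le
            nlinarith
          nlinarith
      _ ≤ _ := mul_le_mul_of_nonneg_left h1 (by positivity)

lemma A1_ampD : AmpD A1 Kc := by
  intro w hw
  have hpi := Real.pi_gt_three
  unfold A1 Kc
  rw [abs_of_nonneg (by positivity)]
  have h1 := exp_fac hw.le
  have h0 := Real.exp_pos (-(Real.pi * w))
  have hs : 0 < Real.sqrt w := Real.sqrt_pos.2 hw
  have hss : Real.sqrt w * Real.sqrt w = w := Real.mul_self_sqrt hw.le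
  have hs1 : Real.sqrt w ≤ 1 + w := by nlinarith [sq_nonneg (Real.sqrt w - 1)]
  calc 2 * Real.pi * w * Real.exp (-(Real.pi * w))
      = 2 * Real.pi * (Real.sqrt w * (Real.sqrt w * Real.exp (-(Real.pi * w)))) := by
        rw [← mul_assoc (Real.sqrt w), hss]; ring
    _ ≤ 2 * Real.pi * (Real.sqrt w * ((1 + w) * Real.exp (-(Real.pi * w)))) := by gcongr
    _ ≤ 2 * Real.pi * (Real.sqrt w * (1 + w) ^ (-2 : ℝ)) := by gcongr
    _ ≤ 2 * Real.pi ^ 2 * (Real.sqrt w * (1 + w) ^ (-2 : ℝ)) := by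
        apply mul_le_mul_of_nonneg_right _ (by positivity)
        nlinarith

/-- the wave symbol with a heat factor -/
noncomputable def ml (μ t : ℝ) (a : Fin n → ℝ) (ξ : E n) : ℂ :=
  ((Real.exp (-(Real.pi * μ * QF a ξ)) * Real.cos (2 * Real.pi * t * Real.sqrt (QF a ξ)) : ℝ) : ℂ)

/-- its scale derivative -/
noncomputable def ms (ν t : ℝ) (a : Fin n → ℝ) (ξ : E n) : ℂ :=
  ((Real.pi * QF a ξ * Real.exp (-(Real.pi * ν * QF a ξ)) *
    Real.cos (2 * Real.pi * t * Real.sqrt (QF a ξ)) : ℝ) : ℂ)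

lemma QF_smul (a : Fin n → ℝ) (c : ℝ) (ξ : E n) : QF a (c • ξ) = c ^ 2 * QF a ξ := by
  unfold QF
  rw [Finset.mul_sum]
  refine Finset.sum_congr rfl fun j _ => ?_
  simp only [PiLp.smul_apply, smul_eq_mul]
  ring

lemma QF_sc {a : Fin n → ℝ} {ν : ℝ} (hν : 0 < ν) (ξ : E n) :
    QF a ((Real.sqrt (2 / ν))⁻¹ • ξ) = ν / 2 * QF a ξ := by
  rw [QF_smul, inv_pow, Real.sq_sqrt (by positivity)]
  congr 1
  field_simp

lemma sqrt_sc {a : Fin n → ℝ} {ν : ℝ} (hν : 0 < ν) (ξ : E n) :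
    Real.sqrt (2 / ν) * Real.sqrt (ν / 2 * QF a ξ) = Real.sqrt (QF a ξ) := by
  rw [← Real.sqrt_mul (by positivity)]
  congr 1
  field_simp

lemma Jf_Mu (κ : ℝ → ℂ) (b : Fin n → ℝ) (f : E n → ℂ) (x : E n) :
    Jf κ b f x = Mu (fun ξ => κ (QF b ξ) * gs b ξ) f x := by
  unfold Jf Mu Gx gs
  congr 1
  ext ξ
  ring

lemma Mu_const (c : ℂ) (m : E n → ℂ) (f : E n → ℂ) (x : E n) :
    Mu (fun ξ => c * m ξ) f x = c * Mu m f x := by
  unfold Mu
  rw [← integral_const_mul]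
  congr 1
  ext ξ
  ring

lemma ms_eq {a : Fin n → ℝ} {ν : ℝ} (hν : 0 < ν) (t : ℝ) (f : E n → ℂ)
    (x : E n) : Mu (ms ν t a) f x = ((ν⁻¹ : ℝ) : ℂ) *
      UU A1 (Real.sqrt (2 / ν)) a (dl (Real.sqrt (2 / ν)) f) (Real.sqrt (2 / ν) • x) t := by
  have hN : 0 < Real.sqrt (2 / ν) := Real.sqrt_pos.2 (by positivity)
  unfold UU
  rw [Jf_Mu, ← Mu_dil hN, ← Mu_const]
  congr 1
  ext ξ
  rw [QF_sc hν]
  unfold ms pk cs gs A1
  rw [sqrt_sc hν, QF_sc hν, ← Complex.ofReal_neg, ← Complex.ofReal_exp, ← Complex.ofReal_mul,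
    ← Complex.ofReal_mul, ← Complex.ofReal_mul]
  congr 1
  have e1 : Real.exp (-(Real.pi * ν * QF a ξ)) =
      Real.exp (-(Real.pi * (ν / 2 * QF a ξ))) * Real.exp (-(Real.pi * (ν / 2 * QF a ξ))) := by
    rw [← Real.exp_add]
    congr 1
    ring
  rw [e1]
  field_simp

lemma ml_eq {a : Fin n → ℝ} {ν : ℝ} (hν : 0 < ν) (t : ℝ) (f : E n → ℂ)
    (x : E n) : Mu (ml ν t a) f x =
      UU A0 (Real.sqrt (2 / ν)) a (dl (Real.sqrt (2 / ν)) f) (Real.sqrt (2 / ν) • x) t := by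
  have hN : 0 < Real.sqrt (2 / ν) := Real.sqrt_pos.2 (by positivity)
  unfold UU
  rw [Jf_Mu, ← Mu_dil hN]
  congr 1
  ext ξ
  rw [QF_sc hν]
  unfold ml pk cs gs A0
  rw [sqrt_sc hν, QF_sc hν, ← Complex.ofReal_neg, ← Complex.ofReal_exp, ← Complex.ofReal_mul,
    ← Complex.ofReal_mul]
  congr 1
  have e1 : Real.exp (-(Real.pi * ν * QF a ξ)) =
      Real.exp (-(Real.pi * (ν / 2 * QF a ξ))) * Real.exp (-(Real.pi * (ν / 2 * QF a ξ))) := by
    rw [← Real.exp_add]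
    congr 1
    ring
  rw [e1]
  ring

end Pool.Agent.TH292.LS
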