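import Mathlib
import Pool.Agent.TH292.LS.K
set_option autoImplicit false

/-! One scale, and the integral over the scales. -/

namespace Pool.Agent.TH292.LS

open Complex MeasureTheory Set Filter Topology
open scoped ENNReal FourierTransform ComplexConjugate RealInnerProductSpace
open Pool.Agent.TH310.BZ

variable {n : ℕ}

/-- the measure on the parameters `(a, t)` and the positions -/
noncomputable abbrev zm (n : ℕ) (α β : ℝ) : Measure (((Fin n → ℝ) × ℝ) × E n) :=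
  ((nu n α β).prod (volume.restrict (Icc (1 : ℝ) 2))).prod volume

lemma QF_c2 : Continuous fun p : (Fin n → ℝ) × E n => QF p.1 p.2 := by
  unfold QF
  fun_prop

lemma ms_c : Continuous fun q : (ℝ × ((Fin n → ℝ) × ℝ)) × E n => ms q.1.1 q.1.2.2 q.1.2.1 q.2 := by
  have h : Continuous fun q : (ℝ × ((Fin n → ℝ) × ℝ)) × E n => QF q.1.2.1 q.2 :=
    QF_c2.comp ((continuous_fst.comp (continuous_snd.comp continuous_fst)).prodMk continuous_snd)
  unfold ms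
  fun_prop

lemma ml_c : Continuous fun q : (ℝ × ((Fin n → ℝ) × ℝ)) × E n => ml q.1.1 q.1.2.2 q.1.2.1 q.2 := by
  have h : Continuous fun q : (ℝ × ((Fin n → ℝ) × ℝ)) × E n => QF q.1.2.1 q.2 :=
    QF_c2.comp ((continuous_fst.comp (continuous_snd.comp continuous_fst)).prodMk continuous_snd)
  unfold ml
  fun_prop

lemma Mu_ms_meas {f : E n → ℂ} (hf : Integrable f) :
    Measurable fun q : ℝ × (((Fin n → ℝ) × ℝ) × E n) => Mu (ms q.1 q.2.1.2 q.2.1.1) f q.2.2 := by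
  have h1 := Mu_meas (Z := ℝ × ((Fin n → ℝ) × ℝ)) (m := fun q => ms q.1 q.2.2 q.2.1)
    ms_c.measurable hf
  have h2 : Measurable fun q : ℝ × (((Fin n → ℝ) × ℝ) × E n) => q.2.1 :=
    measurable_fst.comp measurable_snd
  have h3 : Measurable fun q : ℝ × (((Fin n → ℝ) × ℝ) × E n) => q.2.2 :=
    measurable_snd.comp measurable_snd
  have h4 : Measurable fun q : ℝ × (((Fin n → ℝ) × ℝ) × E n) => (q.1, q.2.1) :=
    measurable_fst.prodMk h2
  have h5 : Measurable fun q : ℝ × (((Fin n → ℝ) × ℝ) × E n) => ((q.1, q.2.1), q.2.2) :=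
    h4.prodMk h3
  have h6 := h1.comp h5
  exact h6

lemma Mu_ml_meas {f : E n → ℂ} (hf : Integrable f) :
    Measurable fun q : ℝ × (((Fin n → ℝ) × ℝ) × E n) => Mu (ml q.1 q.2.1.2 q.2.1.1) f q.2.2 := by
  have h1 := Mu_meas (Z := ℝ × ((Fin n → ℝ) × ℝ)) (m := fun q => ml q.1 q.2.2 q.2.1)
    ml_c.measurable hf
  have h2 : Measurable fun q : ℝ × (((Fin n → ℝ) × ℝ) × E n) => q.2.1 :=
    measurable_fst.comp measurable_snd
  have h3 : Measurable fun q : ℝ × (((Fin n → ℝ) × ℝ) × E n) => q.2.2 :=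
    measurable_snd.comp measurable_snd
  have h4 : Measurable fun q : ℝ × (((Fin n → ℝ) × ℝ) × E n) => (q.1, q.2.1) :=
    measurable_fst.prodMk h2
  have h5 : Measurable fun q : ℝ × (((Fin n → ℝ) × ℝ) × E n) => ((q.1, q.2.1), q.2.2) :=
    h4.prodMk h3
  have h6 := h1.comp h5
  exact h6

lemma pos_ae {α β : ℝ} (hα : 0 < α) : ∀ᵐ a ∂(nu n α β), ∀ j, 0 < a j := by
  filter_upwards [nu_ae n α β] with a ha j
  exact lt_of_lt_of_le hα (ha j).1

theorem transfer (n : ℕ) (hn : 1 ≤ n) {α β δ p : ℝ} (hα : 0 < α) (hαβ : α ≤ β) (hδ : 0 < δ)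
    (hp : 2 ≤ p) (hp4 : p ≤ 4) : ∃ C : ℝ≥0∞, C ≠ ⊤ ∧ ∀ (f : E n → ℂ), GB f → ∀ (N : ℝ), 0 < N →
      ∀ Λ : ℝ≥0∞, ∀ F : ((Fin n → ℝ) × ℝ) × E n → ℝ≥0∞, Measurable F →
      (∀ a : Fin n → ℝ, (∀ j, 0 < a j) → ∀ x, ∫⁻ t in Icc (1 : ℝ) 2, F ((a, t), x) ≤
        Λ * B2 δ a (dl N f) (N • x) ^ (p / 2)) →
      ∫⁻ z, F z ∂(zm n α β) ≤ Λ * C * ∫⁻ x, ‖f x‖ₑ ^ p := by
  obtain ⟨C, hC, h⟩ := B2_p n hn α β δ p hα hαβ hδ hp hp4
  refine ⟨C, hC, fun f hf N hN Λ F hF hb => ?_⟩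
  have hg := dl_GB hN hf
  rw [lintegral_prod _ hF.aemeasurable,
    lintegral_prod (fun q : (Fin n → ℝ) × ℝ => ∫⁻ x, F (q, x)) hF.lintegral_prod_right'.aemeasurable]
  have hFa : ∀ a : Fin n → ℝ, Measurable fun q : ℝ × E n => F ((a, q.1), q.2) := fun a => by
    have h1 : Measurable fun q : ℝ × E n => (a, q.1) := measurable_const.prodMk measurable_fst
    have h2 : Measurable fun q : ℝ × E n => ((a, q.1), q.2) := h1.prodMk measurable_snd
    have h3 := hF.comp h2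
    exact h3
  have hBm := (B2_meas δ hg.meas).pow_const (p / 2)
  have hBa : ∀ a : Fin n → ℝ, Measurable fun y : E n => B2 δ a (dl N f) y ^ (p / 2) := fun a => by
    have h1 : Measurable fun y : E n => (a, y) := measurable_const.prodMk measurable_id
    have h2 := hBm.comp h1
    exact h2
  calc ∫⁻ a, ∫⁻ t in Icc (1 : ℝ) 2, ∫⁻ x, F ((a, t), x) ∂volume ∂volume ∂(nu n α β)
      = ∫⁻ a, ∫⁻ x : E n, ∫⁻ t in Icc (1 : ℝ) 2, F ((a, t), x) ∂volume ∂volume ∂(nu n α β) := by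
        refine lintegral_congr fun a => ?_
        exact lintegral_lintegral_swap (f := fun t x => F ((a, t), x)) (hFa a).aemeasurable
    _ ≤ ∫⁻ a, ∫⁻ x, Λ * B2 δ a (dl N f) (N • x) ^ (p / 2) ∂volume ∂(nu n α β) := by
        refine lintegral_mono_ae ?_
        filter_upwards [pos_ae hα] with a ha
        exact lintegral_mono fun x => hb a ha x
    _ = ∫⁻ a, (Λ * ENNReal.ofReal ((N ^ n)⁻¹)) *
          ∫⁻ y, B2 δ a (dl N f) y ^ (p / 2) ∂volume ∂(nu n α β) := by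
        refine lintegral_congr fun a => ?_
        have h1 : Measurable fun x : E n => B2 δ a (dl N f) (N • x) ^ (p / 2) := by
          have h2 := (hBa a).comp (measurable_const_smul N)
          exact h2
        rw [lintegral_const_mul _ h1, lint_smul hN (hBa a), mul_assoc]
    _ = (Λ * ENNReal.ofReal ((N ^ n)⁻¹)) *
          ∫⁻ a, ∫⁻ y, B2 δ a (dl N f) y ^ (p / 2) ∂volume ∂(nu n α β) :=
        lintegral_const_mul _ hBm.lintegral_prod_right'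
    _ ≤ (Λ * ENNReal.ofReal ((N ^ n)⁻¹)) * (C * ∫⁻ x, ‖dl N f x‖ₑ ^ p) :=
        mul_le_mul_right (h _ hg) _
    _ = (Λ * ENNReal.ofReal ((N ^ n)⁻¹)) * (C * (ENNReal.ofReal (N ^ n) *
          ∫⁻ x, ‖f x‖ₑ ^ p)) := by
        congr 2
        have h1 := lint_smul (n := n) (inv_pos.2 hN) (hf.meas.enorm.pow_const p)
        rw [inv_pow, inv_inv] at h1
        exact h1
    _ = Λ * C * ((ENNReal.ofReal ((N ^ n)⁻¹) * ENNReal.ofReal (N ^ n)) *
          ∫⁻ x, ‖f x‖ₑ ^ p) := by ring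
    _ = _ := by
        rw [← ENNReal.ofReal_mul (by positivity), inv_mul_cancel₀ (by positivity),
          ENNReal.ofReal_one, one_mul]

/-- one scale -/
theorem scale_p (n : ℕ) (hn : 1 ≤ n) {α β δ p κ : ℝ} (hα : 0 < α) (hαβ : α ≤ β) (hδ : 0 < δ)
    (hδ1 : δ ≤ 1) (hp : 2 ≤ p) (hp4 : p ≤ 4) (hκ : κ * p = (p - 2) / 2 + δ * p / 2) :
    ∃ C : ℝ≥0∞, C ≠ ⊤ ∧ ∀ (f : E n → ℂ), GB f → ∀ ν : ℝ, 0 < ν → ν ≤ 2 →
      ∫⁻ z, (ENNReal.ofReal (ν ^ (1 + κ / 2)) * ‖Mu (ms ν z.1.2 z.1.1) f z.2‖ₑ) ^ p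
        ∂(zm n α β) ≤ C * ∫⁻ x, ‖f x‖ₑ ^ p := by
  obtain ⟨C, hC, h⟩ := transfer n hn hα hαβ hδ hp hp4
  have hp0 : 0 < p := by linarith
  refine ⟨ENNReal.ofReal ((1400 * Kc ^ 2) ^ (p / 2) * 2 ^ (κ * p / 2)) * C,
    ENNReal.mul_ne_top ENNReal.ofReal_ne_top hC, fun f hf ν hν hν2 => ?_⟩
  obtain ⟨N, hN⟩ : ∃ N, N = Real.sqrt (2 / ν) := ⟨_, rfl⟩
  have hN0 : 0 < N := by rw [hN]; exact Real.sqrt_pos.2 (by positivity)
  have hN1 : 1 ≤ N := by
    rw [hN, Real.one_le_sqrt, le_div_iff₀ hν]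
    linarith
  have hNp : N ^ (κ * p) = 2 ^ (κ * p / 2) * ν ^ (-(κ * p / 2)) := by
    have e1 : N = (2 / ν) ^ (1 / 2 : ℝ) := by rw [hN, Real.sqrt_eq_rpow]
    rw [e1, ← Real.rpow_mul (by positivity), show 1 / 2 * (κ * p) = κ * p / 2 by ring,
      Real.div_rpow (by norm_num) hν.le, Real.rpow_neg hν.le, div_eq_mul_inv]
  have hg := dl_GB hN0 hf
  refine h f hf N hN0 _ _ ?_ fun a ha x => ?_
  · have h1 : Measurable fun z : ((Fin n → ℝ) × ℝ) × E n => (ν, z) :=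
      measurable_const.prodMk measurable_id
    have h2 := (Mu_ms_meas hf.int).comp h1
    exact (h2.enorm.const_mul _).pow_const p
  · simp only [ms_eq hν, ← hN]
    have e2 : ∀ t, (ENNReal.ofReal (ν ^ (1 + κ / 2)) *
        ‖((ν⁻¹ : ℝ) : ℂ) * UU A1 N a (dl N f) (N • x) t‖ₑ) ^ p =
        ENNReal.ofReal (ν ^ (κ * p / 2)) * ‖UU A1 N a (dl N f) (N • x) t‖ₑ ^ p := by
      intro t
      have e3 : ‖((ν⁻¹ : ℝ) : ℂ)‖ₑ = ENNReal.ofReal (ν⁻¹) := by
        rw [← ofReal_norm, Complex.norm_real, Real.norm_of_nonneg (by positivity)]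
      rw [enorm_mul, e3, ← mul_assoc, ← ENNReal.ofReal_mul (by positivity),
        ENNReal.mul_rpow_of_nonneg _ _ hp0.le, ENNReal.ofReal_rpow_of_nonneg (by positivity) hp0.le]
      congr 2
      rw [← Real.rpow_neg_one, ← Real.rpow_add hν, ← Real.rpow_mul hν.le]
      congr 1
      ring
    simp only [e2]
    rw [lintegral_const_mul _ ((UU_meas_t A1_amp N a hg.int (N • x)).enorm.pow_const p)]
    have h3 := UU_p A1_amp A1_ampD hN1 hδ hδ1 hp ha hg (N • x)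
    calc ENNReal.ofReal (ν ^ (κ * p / 2)) *
          ∫⁻ t in Icc (1 : ℝ) 2, ‖UU A1 N a (dl N f) (N • x) t‖ₑ ^ p
        ≤ ENNReal.ofReal (ν ^ (κ * p / 2)) * (ENNReal.ofReal ((1400 * Kc ^ 2) ^ (p / 2) *
          N ^ ((p - 2) / 2 + δ * p / 2)) * B2 δ a (dl N f) (N • x) ^ (p / 2)) :=
          mul_le_mul_right h3 _
      _ = _ := by
          rw [← hκ, hNp, ← mul_assoc, ← ENNReal.ofReal_mul (by positivity)]
          congr 2
          have e4 : ν ^ (κ * p / 2) * ν ^ (-(κ * p / 2)) = 1 := by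
            rw [← Real.rpow_add hν]
            simp
          calc ν ^ (κ * p / 2) * ((1400 * Kc ^ 2) ^ (p / 2) * (2 ^ (κ * p / 2) *
                ν ^ (-(κ * p / 2)))) = (1400 * Kc ^ 2) ^ (p / 2) * 2 ^ (κ * p / 2) *
                (ν ^ (κ * p / 2) * ν ^ (-(κ * p / 2))) := by ring
            _ = _ := by rw [e4, mul_one]

/-- the low frequencies -/
theorem low_p (n : ℕ) (hn : 1 ≤ n) {α β p c₁ : ℝ} (hα : 0 < α) (hαβ : α ≤ β)
    (hp : 2 ≤ p) (hp4 : p ≤ 4) (hc : 0 < c₁) (hc1 : c₁ ≤ 1) :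
    ∃ C : ℝ≥0∞, C ≠ ⊤ ∧ ∀ (f : E n → ℂ), GB f →
      ∫⁻ z, ‖Mu (ml c₁ z.1.2 z.1.1) f z.2‖ₑ ^ p ∂(zm n α β) ≤ C * ∫⁻ x, ‖f x‖ₑ ^ p := by
  obtain ⟨C, hC, h⟩ := transfer n hn hα hαβ zero_lt_one hp hp4
  have hp0 : 0 < p := by linarith
  obtain ⟨N, hN⟩ : ∃ N, N = Real.sqrt (2 / c₁) := ⟨_, rfl⟩
  have hN0 : 0 < N := by rw [hN]; exact Real.sqrt_pos.2 (by positivity)
  have hN1 : 1 ≤ N := by
    rw [hN, Real.one_le_sqrt, le_div_iff₀ hc]
    linarith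
  obtain ⟨L, hL⟩ : ∃ L, L = 4 * N ^ (1 + 1 : ℝ) * (Kc ^ 2 + 1 / N ^ 2 *
      (Kc + Kc * (16 * Real.pi ^ 2 * N ^ 2)) ^ 2) := ⟨_, rfl⟩
  refine ⟨ENNReal.ofReal L ^ (p / 2) * C,
    ENNReal.mul_ne_top (ENNReal.rpow_ne_top_of_nonneg (by positivity) ENNReal.ofReal_ne_top) hC,
    fun f hf => ?_⟩
  have hg := dl_GB hN0 hf
  refine h f hf N hN0 _ _ ?_ fun a ha x => ?_
  · have h1 : Measurable fun z : ((Fin n → ℝ) × ℝ) × E n => (c₁, z) :=
      measurable_const.prodMk measurable_id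
    have h2 := (Mu_ml_meas hf.int).comp h1
    exact h2.enorm.pow_const p
  · simp only [ml_eq hc, ← hN]
    have h1 : ∀ t ∈ Icc (1 : ℝ) 2, ‖UU A0 N a (dl N f) (N • x) t‖ₑ ^ p ≤
        ENNReal.ofReal L ^ (p / 2) * B2 1 a (dl N f) (N • x) ^ (p / 2) := by
      intro t ht
      have h2 := UU_crude A0_amp hN1 zero_lt_one le_rfl (by linarith [ht.1] : (0 : ℝ) ≤ t) ht.2
        ha hg (N • x)
      rw [← hL] at h2
      rw [← ENNReal.mul_rpow_of_nonneg _ _ (by positivity : 0 ≤ p / 2)]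
      have e : ‖UU A0 N a (dl N f) (N • x) t‖ₑ ^ p =
          (‖UU A0 N a (dl N f) (N • x) t‖ₑ ^ 2) ^ (p / 2) := by
        rw [← ENNReal.rpow_natCast, ← ENNReal.rpow_mul]
        congr 1
        push_cast
        ring
      rw [e]
      exact ENNReal.rpow_le_rpow h2 (by positivity)
    refine (setLIntegral_mono' measurableSet_Icc h1).trans ?_
    rw [lintegral_const, Measure.restrict_apply_univ, Real.volume_Icc]
    norm_num

end Pool.Agent.TH292.LS
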