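import Mathlib
import Pool.Agent.TH292.LS.L
set_option autoImplicit false

/-! The integral over the scales. -/

namespace Pool.Agent.TH292.LS

open Complex MeasureTheory Set Filter Topology
open scoped ENNReal FourierTransform ComplexConjugate RealInnerProductSpace
open Pool.Agent.TH310.BZ

variable {n : ℕ}

lemma QF_mulc (a : Fin n → ℝ) (c : ℝ) (ξ : E n) : QF (fun j => c * a j) ξ = c * QF a ξ := by
  unfold QF
  rw [Finset.mul_sum]
  refine Finset.sum_congr rfl fun j _ => ?_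
  ring

lemma gauss_int' {a : Fin n → ℝ} (ha : ∀ j, 0 < a j) {μ : ℝ} (hμ : 0 < μ) :
    Integrable fun ξ : E n => Real.exp (-(Real.pi * μ * QF a ξ)) := by
  refine (gauss_int (b := fun j => μ * a j) fun j => mul_pos hμ (ha j)).congr
    (ae_of_all _ fun ξ => ?_)
  simp only [QF_mulc]
  congr 1
  ring

lemma ml_bd (μ t : ℝ) (a : Fin n → ℝ) (ξ : E n) :
    ‖ml μ t a ξ‖ ≤ Real.exp (-(Real.pi * μ * QF a ξ)) := by
  unfold ml
  rw [Complex.norm_real, Real.norm_eq_abs, abs_mul, abs_of_pos (Real.exp_pos _)]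
  exact mul_le_of_le_one_right (Real.exp_pos _).le (Real.abs_cos_le_one _)

lemma ms_bd {μ ν : ℝ} (t : ℝ) {a : Fin n → ℝ} (ha : ∀ j, 0 < a j) (hμ : 0 < μ) (hν : μ ≤ ν)
    (ξ : E n) : ‖ms ν t a ξ‖ ≤ 2 / μ * Real.exp (-(Real.pi * (μ / 2) * QF a ξ)) := by
  unfold ms
  have hQ := QF_nonneg ha ξ
  rw [Complex.norm_real, Real.norm_eq_abs, abs_mul, abs_mul, abs_mul, abs_of_pos (Real.exp_pos _),
    abs_of_nonneg hQ, abs_of_pos Real.pi_pos]
  obtain ⟨x, hx⟩ : ∃ x, x = Real.pi * (μ / 2) * QF a ξ := ⟨_, rfl⟩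
  have h1 : Real.pi * QF a ξ = 2 / μ * x := by rw [hx]; field_simp
  have h2 : x ≤ Real.exp x := by linarith [Real.add_one_le_exp x]
  have h3 : Real.exp (-(Real.pi * ν * QF a ξ)) ≤ Real.exp (-x) * Real.exp (-x) := by
    rw [← Real.exp_add]
    apply Real.exp_le_exp.2
    have h4 : Real.pi * μ * QF a ξ ≤ Real.pi * ν * QF a ξ := by gcongr
    have h5 : Real.pi * μ * QF a ξ = x + x := by rw [hx]; ring
    linarith
  rw [← hx]
  calc Real.pi * QF a ξ * Real.exp (-(Real.pi * ν * QF a ξ)) *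
        |Real.cos (2 * Real.pi * t * Real.sqrt (QF a ξ))|
      ≤ Real.pi * QF a ξ * Real.exp (-(Real.pi * ν * QF a ξ)) * 1 := by
        gcongr
        exact Real.abs_cos_le_one _
    _ ≤ (2 / μ * Real.exp x) * (Real.exp (-x) * Real.exp (-x)) := by
        rw [mul_one, h1]
        gcongr
    _ = 2 / μ * (Real.exp x * Real.exp (-x)) * Real.exp (-x) := by ring
    _ = _ := by rw [← Real.exp_add, add_neg_cancel, Real.exp_zero, mul_one]

lemma ml_cξ (μ t : ℝ) (a : Fin n → ℝ) : Continuous (ml μ t a) := by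
  have := QF_cont a
  unfold ml
  fun_prop

lemma ms_cξ (a : Fin n → ℝ) (t : ℝ) : Continuous fun p : ℝ × E n => ms p.1 t a p.2 := by
  have : Continuous fun p : ℝ × E n => QF a p.2 := (QF_cont a).comp continuous_snd
  unfold ms
  fun_prop

lemma Mu_int {m : E n → ℂ} (hm : Measurable m) {G : E n → ℝ} (hG : Integrable G)
    (hb : ∀ ξ, ‖m ξ‖ ≤ G ξ) {f : E n → ℂ} (hf : Integrable f) :
    Integrable fun ξ => m ξ * 𝓕 f ξ := by
  refine (hG.mul_const (∫ y, ‖f y‖)).mono' (hm.mul (meas_F hf)).aestronglyMeasurable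
    (ae_of_all _ fun ξ => ?_)
  rw [norm_mul]
  exact mul_le_mul (hb ξ) (F_bd ξ) (norm_nonneg _) ((norm_nonneg _).trans (hb ξ))

lemma Mu_int2 {m : E n → ℂ} {f : E n → ℂ} (h : Integrable fun ξ => m ξ * 𝓕 f ξ) (x : E n) :
    Integrable fun ξ => m ξ * 𝓕 f ξ * cexp (((2 * Real.pi * ⟪x, ξ⟫ : ℝ) : ℂ) * I) :=
  h.mul_bdd (c := 1) (e_meas x) (ae_of_all _ fun ξ => e_norm x ξ)

/-- decomposition into scales -/
lemma ml_split_pt {μ c₁ : ℝ} (hμc : μ ≤ c₁) (t : ℝ) (a : Fin n → ℝ) (ξ : E n) :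
    ml μ t a ξ = ml c₁ t a ξ + ∫ ν in Ioc μ c₁, ms ν t a ξ := by
  have h1 : ∀ ν ∈ uIcc μ c₁, HasDerivAt (fun ν : ℝ => -ml ν t a ξ) (ms ν t a ξ) ν := by
    intro ν _
    unfold ml ms
    have h2 : HasDerivAt (fun ν : ℝ => -(Real.pi * ν * QF a ξ)) (-(Real.pi * 1 * QF a ξ)) ν :=
      (((hasDerivAt_id ν).const_mul Real.pi).mul_const (QF a ξ)).neg
    have h3 : HasDerivAt (fun ν : ℝ => -(Real.exp (-(Real.pi * ν * QF a ξ)) *
        Real.cos (2 * Real.pi * t * Real.sqrt (QF a ξ)))) (Real.pi * QF a ξ *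
        Real.exp (-(Real.pi * ν * QF a ξ)) * Real.cos (2 * Real.pi * t * Real.sqrt (QF a ξ))) ν := by
      refine ((h2.exp.mul_const (Real.cos (2 * Real.pi * t * Real.sqrt (QF a ξ)))).neg).congr_deriv ?_
      ring
    have h4 := h3.ofReal_comp
    simpa only [Complex.ofReal_neg] using h4
  have h2 : Continuous fun ν : ℝ => ms ν t a ξ := by
    have h3 : Continuous fun ν : ℝ => (ν, ξ) := continuous_id.prodMk continuous_const
    have h4 := (ms_cξ a t).comp h3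
    exact h4
  have h3 := intervalIntegral.integral_eq_sub_of_hasDerivAt h1 (h2.intervalIntegrable _ _)
  rw [intervalIntegral.integral_of_le hμc] at h3
  rw [h3]
  ring

lemma ml_split {a : Fin n → ℝ} (ha : ∀ j, 0 < a j) {μ c₁ : ℝ} (hμ : 0 < μ) (hμc : μ ≤ c₁) (t : ℝ)
    {f : E n → ℂ} (hf : Integrable f) (x : E n) :
    Mu (ml μ t a) f x = Mu (ml c₁ t a) f x + ∫ ν in Ioc μ c₁, Mu (ms ν t a) f x := by
  have hc : 0 < c₁ := lt_of_lt_of_le hμ hμc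
  have hG : Integrable fun ξ : E n => 2 / μ * Real.exp (-(Real.pi * (μ / 2) * QF a ξ)) :=
    (gauss_int' ha (by linarith)).const_mul _
  have hi : Integrable (Function.uncurry fun (ν : ℝ) (ξ : E n) => ms ν t a ξ * 𝓕 f ξ *
      cexp (((2 * Real.pi * ⟪x, ξ⟫ : ℝ) : ℂ) * I))
      ((volume.restrict (Ioc μ c₁)).prod volume) := by
    have h1 : Integrable (fun q : ℝ × E n => (1 : ℝ) *
        (2 / μ * Real.exp (-(Real.pi * (μ / 2) * QF a q.2)) * ∫ y, ‖f y‖))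
        ((volume.restrict (Ioc μ c₁)).prod volume) :=
      (integrable_const (1 : ℝ)).mul_prod (hG.mul_const _)
    have hmem : ∀ᵐ q ∂((volume.restrict (Ioc μ c₁)).prod (volume : Measure (E n))),
        q.1 ∈ Ioc μ c₁ :=
      Measure.quasiMeasurePreserving_fst.ae (ae_restrict_mem measurableSet_Ioc)
    have hmm : Measurable (Function.uncurry fun (ν : ℝ) (ξ : E n) => ms ν t a ξ * 𝓕 f ξ *
        cexp (((2 * Real.pi * ⟪x, ξ⟫ : ℝ) : ℂ) * I)) := by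
      have h2 : Measurable fun q : ℝ × E n => 𝓕 f q.2 := (meas_F hf).comp measurable_snd
      have h3 : Continuous fun q : ℝ × E n => cexp (((2 * Real.pi * ⟪x, q.2⟫ : ℝ) : ℂ) * I) := by
        fun_prop
      exact ((ms_cξ a t).measurable.mul h2).mul h3.measurable
    refine h1.mono' hmm.aestronglyMeasurable ?_
    filter_upwards [hmem] with q hq
    simp only [Function.uncurry]
    rw [norm_mul, norm_mul, one_mul]
    calc ‖ms q.1 t a q.2‖ * ‖𝓕 f q.2‖ * ‖cexp (((2 * Real.pi * ⟪x, q.2⟫ : ℝ) : ℂ) * I)‖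
        ≤ ‖ms q.1 t a q.2‖ * ‖𝓕 f q.2‖ * 1 := by
          gcongr
          exact e_norm _ _
      _ ≤ _ := by
          rw [mul_one]
          exact mul_le_mul (ms_bd t ha hμ hq.1.le _) (F_bd _) (norm_nonneg _) (by positivity)
  have h1 := Mu_int2 (Mu_int (ml_cξ c₁ t a).measurable (gauss_int' ha hc) (ml_bd c₁ t a) hf) x
  have e1 : ∫ ν in Ioc μ c₁, Mu (ms ν t a) f x = ∫ ξ : E n, ∫ ν in Ioc μ c₁,
      ms ν t a ξ * 𝓕 f ξ * cexp (((2 * Real.pi * ⟪x, ξ⟫ : ℝ) : ℂ) * I) := by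
    unfold Mu
    exact integral_integral_swap hi
  have h2 := hi.integral_prod_right
  rw [e1]
  unfold Mu
  simp only [Function.uncurry] at h2
  rw [← integral_add h1 h2]
  congr 1
  ext ξ
  rw [ml_split_pt hμc]
  have e2 : ∀ ν : ℝ, ms ν t a ξ * 𝓕 f ξ * cexp (((2 * Real.pi * ⟪x, ξ⟫ : ℝ) : ℂ) * I) =
      ms ν t a ξ * (𝓕 f ξ * cexp (((2 * Real.pi * ⟪x, ξ⟫ : ℝ) : ℂ) * I)) := fun ν => by ring
  simp only [e2]
  rw [integral_mul_const]
  ring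

/-- the integral of the weight -/
lemma wt_int {κ μ c₁ : ℝ} (hκ : 0 < κ) (hμ : 0 < μ) (hμc : μ ≤ c₁) :
    ENNReal.ofReal (μ ^ (κ / 2)) * ∫⁻ ν in Ioc μ c₁, ENNReal.ofReal (ν ^ (-(1 + κ / 2))) ≤
      ENNReal.ofReal (2 / κ) := by
  have hc : 0 < c₁ := lt_of_lt_of_le hμ hμc
  have hn0 : (0 : ℝ) ∉ uIcc μ c₁ := by
    rw [uIcc_of_le hμc]
    intro h
    linarith [h.1]
  have hii : IntervalIntegrable (fun ν : ℝ => ν ^ (-(1 + κ / 2))) volume μ c₁ :=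
    intervalIntegral.intervalIntegrable_rpow (Or.inr hn0)
  have h1 : ∫⁻ ν in Ioc μ c₁, ENNReal.ofReal (ν ^ (-(1 + κ / 2))) =
      ENNReal.ofReal (∫ ν in Ioc μ c₁, ν ^ (-(1 + κ / 2))) := by
    rw [ofReal_integral_eq_lintegral_ofReal]
    · exact (intervalIntegrable_iff_integrableOn_Ioc_of_le hμc).1 hii
    · filter_upwards [ae_restrict_mem measurableSet_Ioc] with ν hν
      have : 0 < ν := lt_trans hμ hν.1
      positivity
  rw [h1, ← intervalIntegral.integral_of_le hμc, integral_rpow (Or.inr ⟨by linarith, hn0⟩),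
    ← ENNReal.ofReal_mul (by positivity)]
  apply ENNReal.ofReal_le_ofReal
  have e1 : -(1 + κ / 2) + 1 = -(κ / 2) := by ring
  rw [e1]
  have e2 : μ ^ (κ / 2) * μ ^ (-(κ / 2)) = 1 := by
    rw [← Real.rpow_add hμ]
    simp
  have h3 : 0 < c₁ ^ (-(κ / 2)) := by positivity
  have h4 : 0 < μ ^ (κ / 2) := by positivity
  calc μ ^ (κ / 2) * ((c₁ ^ (-(κ / 2)) - μ ^ (-(κ / 2))) / -(κ / 2))
      = (2 / κ) * (μ ^ (κ / 2) * μ ^ (-(κ / 2)) - μ ^ (κ / 2) * c₁ ^ (-(κ / 2))) := by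
        field_simp
        ring
    _ ≤ (2 / κ) * (1 - 0) := by
        rw [e2]
        have : 0 ≤ μ ^ (κ / 2) * c₁ ^ (-(κ / 2)) := by positivity
        gcongr
    _ = _ := by ring

/-- the integral over the scales -/
theorem stepI (n : ℕ) (hn : 1 ≤ n) {α β δ p κ c₁ : ℝ} (hα : 0 < α) (hαβ : α ≤ β) (hδ : 0 < δ)
    (hδ1 : δ ≤ 1) (hp : 2 ≤ p) (hp4 : p ≤ 4) (hκ : κ * p = (p - 2) / 2 + δ * p / 2)
    (hc : 0 < c₁) (hc1 : c₁ ≤ 1) :
    ∃ C : ℝ≥0∞, C ≠ ⊤ ∧ ∀ (f : E n → ℂ), GB f → ∀ μ : ℝ, 0 < μ → μ ≤ c₁ →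
      ∫⁻ z, (ENNReal.ofReal (μ ^ (κ / 2)) * ‖Mu (ml μ z.1.2 z.1.1) f z.2‖ₑ) ^ p
        ∂(zm n α β) ≤ C * ∫⁻ x, ‖f x‖ₑ ^ p := by
  obtain ⟨C1, hC1, hS⟩ := scale_p n hn hα hαβ hδ hδ1 hp hp4 hκ
  obtain ⟨C2, hC2, hL⟩ := low_p n hn hα hαβ hp hp4 hc hc1
  have hp0 : 0 < p := by linarith
  have hκ0 : 0 < κ := by
    have : 0 < κ * p := by rw [hκ]; nlinarith
    exact (pos_iff_pos_of_mul_pos this).2 hp0
  refine ⟨2 ^ (p - 1) * (C2 + ENNReal.ofReal (2 / κ) ^ p * C1), ?_, fun f hf μ hμ hμc => ?_⟩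
  · refine ENNReal.mul_ne_top (ENNReal.rpow_ne_top_of_nonneg (by linarith) (by norm_num))
      (ENNReal.add_ne_top.2 ⟨hC2, ENNReal.mul_ne_top
        (ENNReal.rpow_ne_top_of_nonneg hp0.le ENNReal.ofReal_ne_top) hC1⟩)
  obtain ⟨v, hv⟩ : ∃ v : ℝ → ℝ≥0∞, v = fun ν => ENNReal.ofReal (ν ^ (-(1 + κ / 2))) := ⟨_, rfl⟩
  have hvm : Measurable v := by
    rw [hv]
    exact (measurable_id.pow_const _).ennreal_ofReal
  obtain ⟨h, hh⟩ : ∃ h : ℝ → ((Fin n → ℝ) × ℝ) × E n → ℝ≥0∞, h = fun ν z =>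
      ENNReal.ofReal (ν ^ (1 + κ / 2)) * ‖Mu (ms ν z.1.2 z.1.1) f z.2‖ₑ := ⟨_, rfl⟩
  have hhm : Measurable (Function.uncurry h) := by
    rw [hh]
    have h1 : Measurable fun q : ℝ × (((Fin n → ℝ) × ℝ) × E n) =>
        ENNReal.ofReal (q.1 ^ (1 + κ / 2)) := (measurable_fst.pow_const _).ennreal_ofReal
    have h2 := h1.mul (Mu_ms_meas hf.int).enorm
    exact h2
  have hM := minkw (volume.restrict (Ioc μ c₁)) (zm n α β) hvm hhm (p := p) (by linarith)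
    (C1 * ∫⁻ x, ‖f x‖ₑ ^ p) (by
      filter_upwards [ae_restrict_mem measurableSet_Ioc] with ν hν
      have hν0 : 0 < ν := lt_trans hμ hν.1
      have h1 := hS f hf ν hν0 (by linarith [hν.2])
      rw [hh]
      exact h1)
  have hmlm : Measurable fun z : ((Fin n → ℝ) × ℝ) × E n => Mu (ml c₁ z.1.2 z.1.1) f z.2 := by
    have h1 : Measurable fun z : ((Fin n → ℝ) × ℝ) × E n => (c₁, z) :=
      measurable_const.prodMk measurable_id
    have h2 := (Mu_ml_meas hf.int).comp h1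
    exact h2
  have hpt : ∀ᵐ z ∂(zm n α β),
      (ENNReal.ofReal (μ ^ (κ / 2)) * ‖Mu (ml μ z.1.2 z.1.1) f z.2‖ₑ) ^ p ≤
      2 ^ (p - 1) * (‖Mu (ml c₁ z.1.2 z.1.1) f z.2‖ₑ ^ p + ENNReal.ofReal (μ ^ (κ / 2)) ^ p *
        (∫⁻ ν in Ioc μ c₁, v ν * h ν z) ^ p) := by
    have hpos : ∀ᵐ z ∂(zm n α β), ∀ j, 0 < z.1.1 j :=
      Measure.quasiMeasurePreserving_fst.ae
        (Measure.quasiMeasurePreserving_fst.ae (pos_ae hα))
    filter_upwards [hpos] with z hz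
    rw [← ENNReal.mul_rpow_of_nonneg _ _ hp0.le]
    refine le_trans ?_ (ENNReal.rpow_add_le_mul_rpow_add_rpow _ _ (by linarith))
    refine ENNReal.rpow_le_rpow ?_ hp0.le
    rw [ml_split hz hμ hμc z.1.2 hf.int z.2]
    refine (mul_le_mul_right (enorm_add_le _ _) _).trans ?_
    rw [mul_add]
    refine add_le_add ?_ ?_
    · refine mul_le_of_le_one_left bot_le ?_
      rw [ENNReal.ofReal_le_one]
      exact Real.rpow_le_one hμ.le (by linarith) (by positivity)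
    · refine mul_le_mul_right ((enorm_integral_le_lintegral_enorm _).trans (le_of_eq ?_)) _
      refine setLIntegral_congr_fun measurableSet_Ioc fun ν hν => ?_
      have hν0 : 0 < ν := lt_trans hμ hν.1
      rw [hv, hh]
      simp only
      rw [← mul_assoc, ← ENNReal.ofReal_mul (by positivity), ← Real.rpow_add hν0]
      simp
  have hLf := hL f hf
  obtain ⟨F, hF⟩ : ∃ F, F = ∫⁻ x, ‖f x‖ₑ ^ p := ⟨_, rfl⟩
  rw [← hF] at hM hLf ⊢
  calc ∫⁻ z, (ENNReal.ofReal (μ ^ (κ / 2)) * ‖Mu (ml μ z.1.2 z.1.1) f z.2‖ₑ) ^ p ∂(zm n α β)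
      ≤ ∫⁻ z, 2 ^ (p - 1) * (‖Mu (ml c₁ z.1.2 z.1.1) f z.2‖ₑ ^ p +
          ENNReal.ofReal (μ ^ (κ / 2)) ^ p * (∫⁻ ν in Ioc μ c₁, v ν * h ν z) ^ p)
          ∂(zm n α β) := lintegral_mono_ae hpt
    _ = 2 ^ (p - 1) * ((∫⁻ z, ‖Mu (ml c₁ z.1.2 z.1.1) f z.2‖ₑ ^ p ∂(zm n α β)) +
          ENNReal.ofReal (μ ^ (κ / 2)) ^ p *
            ∫⁻ z, (∫⁻ ν in Ioc μ c₁, v ν * h ν z) ^ p ∂(zm n α β)) := by
        have hne : (2 : ℝ≥0∞) ^ (p - 1) ≠ ⊤ :=
          ENNReal.rpow_ne_top_of_nonneg (by linarith) (by norm_num)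
        rw [lintegral_const_mul' _ _ hne, lintegral_add_left (hmlm.enorm.pow_const p),
          lintegral_const_mul' _ _ (ENNReal.rpow_ne_top_of_nonneg hp0.le ENNReal.ofReal_ne_top)]
    _ ≤ 2 ^ (p - 1) * (C2 * F +
          ENNReal.ofReal (μ ^ (κ / 2)) ^ p * ((∫⁻ ν in Ioc μ c₁, v ν) ^ p * (C1 * F))) := by
        gcongr
    _ = 2 ^ (p - 1) * (C2 * F +
          (ENNReal.ofReal (μ ^ (κ / 2)) * (∫⁻ ν in Ioc μ c₁, v ν)) ^ p * (C1 * F)) := by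
        rw [ENNReal.mul_rpow_of_nonneg _ _ hp0.le]
        ring
    _ ≤ 2 ^ (p - 1) * (C2 * F + (ENNReal.ofReal (2 / κ)) ^ p * (C1 * F)) := by
        gcongr
        rw [hv]
        exact wt_int hκ0 hμ hμc
    _ = _ := by ring

end Pool.Agent.TH292.LS
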