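import Mathlib
import Pool.Agent.TH292.LS.M
set_option autoImplicit false

/-! The Bessel potential. -/

namespace Pool.Agent.TH292.LS

open Complex MeasureTheory Set Filter Topology
open scoped ENNReal FourierTransform ComplexConjugate RealInnerProductSpace
open Pool.Agent.TH310.BZ

variable {n : ℕ}

/-- the wave symbol with an isotropic heat factor -/
noncomputable def mh (σ t : ℝ) (a : Fin n → ℝ) (ξ : E n) : ℂ :=
  ((Real.exp (-(σ * ‖ξ‖ ^ 2)) * Real.cos (2 * Real.pi * t * Real.sqrt (QF a ξ)) : ℝ) : ℂ)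

/-- the wave symbol with heat factor and Bessel potential -/
noncomputable def ws (s τ t : ℝ) (a : Fin n → ℝ) (ξ : E n) : ℂ :=
  ((Real.exp (-(τ * ‖ξ‖ ^ 2)) * Real.cos (2 * Real.pi * t * Real.sqrt (QF a ξ)) *
    (1 + 4 * Real.pi ^ 2 * ‖ξ‖ ^ 2) ^ (-(s / 2)) : ℝ) : ℂ)

lemma mh_eq (σ μ t : ℝ) (a : Fin n → ℝ) (ξ : E n) :
    mh σ t a ξ = gs (fun j => (σ - Real.pi * μ * a j) / Real.pi) ξ * ml μ t a ξ := by
  unfold mh gs ml
  rw [← Complex.ofReal_neg, ← Complex.ofReal_exp, ← Complex.ofReal_mul]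
  congr 1
  rw [← mul_assoc, ← Real.exp_add]
  congr 2
  have h1 : Real.pi * QF (fun j => (σ - Real.pi * μ * a j) / Real.pi) ξ =
      σ * ‖ξ‖ ^ 2 - Real.pi * μ * QF a ξ := by
    rw [EuclideanSpace.real_norm_sq_eq]
    unfold QF
    rw [Finset.mul_sum, Finset.mul_sum, Finset.mul_sum, ← Finset.sum_sub_distrib]
    refine Finset.sum_congr rfl fun j _ => ?_
    field_simp
  rw [h1]
  ring

lemma mh_c : Continuous fun q : (ℝ × ((Fin n → ℝ) × ℝ)) × E n => mh q.1.1 q.1.2.2 q.1.2.1 q.2 := by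
  have h : Continuous fun q : (ℝ × ((Fin n → ℝ) × ℝ)) × E n => QF q.1.2.1 q.2 :=
    QF_c2.comp ((continuous_fst.comp (continuous_snd.comp continuous_fst)).prodMk continuous_snd)
  unfold mh
  fun_prop

lemma ws_c (s τ : ℝ) : Continuous fun q : ((Fin n → ℝ) × ℝ) × E n => ws s τ q.1.2 q.1.1 q.2 := by
  have h : Continuous fun q : ((Fin n → ℝ) × ℝ) × E n => QF q.1.1 q.2 :=
    QF_c2.comp ((continuous_fst.comp continuous_fst).prodMk continuous_snd)
  unfold ws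
  have h2 : Continuous fun q : ((Fin n → ℝ) × ℝ) × E n =>
      (1 + 4 * Real.pi ^ 2 * ‖q.2‖ ^ 2) ^ (-(s / 2)) := by
    refine Continuous.rpow_const (by fun_prop) fun q => Or.inl ?_
    positivity
  fun_prop

lemma Mu_mh_meas {f : E n → ℂ} (hf : Integrable f) :
    Measurable fun q : ℝ × (((Fin n → ℝ) × ℝ) × E n) => Mu (mh q.1 q.2.1.2 q.2.1.1) f q.2.2 := by
  have h1 := Mu_meas (Z := ℝ × ((Fin n → ℝ) × ℝ)) (m := fun q => mh q.1 q.2.2 q.2.1)
    mh_c.measurable hf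
  have h2 : Measurable fun q : ℝ × (((Fin n → ℝ) × ℝ) × E n) => q.2.1 :=
    measurable_fst.comp measurable_snd
  have h3 : Measurable fun q : ℝ × (((Fin n → ℝ) × ℝ) × E n) => q.2.2 :=
    measurable_snd.comp measurable_snd
  have h4 : Measurable fun q : ℝ × (((Fin n → ℝ) × ℝ) × E n) => (q.1, q.2.1) :=
    measurable_fst.prodMk h2
  have h5 : Measurable fun q : ℝ × (((Fin n → ℝ) × ℝ) × E n) => ((q.1, q.2.1), q.2.2) :=
    h4.prodMk h3
  have h6 := h1.comp h5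
  exact h6

lemma Mu_ws_meas (s τ : ℝ) {f : E n → ℂ} (hf : Integrable f) :
    Measurable fun z : ((Fin n → ℝ) × ℝ) × E n => Mu (ws s τ z.1.2 z.1.1) f z.2 :=
  Mu_meas (Z := (Fin n → ℝ) × ℝ) (m := fun q => ws s τ q.2 q.1) (ws_c s τ).measurable hf

/-- an isotropic heat factor costs nothing -/
lemma mh_le {α β : ℝ} (hα : 0 < α) {μ σ : ℝ} (hμ : 0 < μ) (hσ : Real.pi * μ * β < σ)
    {p : ℝ} (hp : 1 < p) (w : ℝ≥0∞) {f : E n → ℂ} (hf : Integrable f) :
    ∫⁻ z, (w * ‖Mu (mh σ z.1.2 z.1.1) f z.2‖ₑ) ^ p ∂(zm n α β) ≤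
      ∫⁻ z, (w * ‖Mu (ml μ z.1.2 z.1.1) f z.2‖ₑ) ^ p ∂(zm n α β) := by
  have hp0 : 0 < p := by linarith
  have hm1 : Measurable fun z : ((Fin n → ℝ) × ℝ) × E n =>
      (w * ‖Mu (mh σ z.1.2 z.1.1) f z.2‖ₑ) ^ p := by
    have h1 : Measurable fun z : ((Fin n → ℝ) × ℝ) × E n => (σ, z) :=
      measurable_const.prodMk measurable_id
    have h2 := (Mu_mh_meas hf).comp h1
    exact (h2.enorm.const_mul _).pow_const p
  have hm2 : Measurable fun z : ((Fin n → ℝ) × ℝ) × E n =>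
      (w * ‖Mu (ml μ z.1.2 z.1.1) f z.2‖ₑ) ^ p := by
    have h1 : Measurable fun z : ((Fin n → ℝ) × ℝ) × E n => (μ, z) :=
      measurable_const.prodMk measurable_id
    have h2 := (Mu_ml_meas hf).comp h1
    exact (h2.enorm.const_mul _).pow_const p
  rw [lintegral_prod _ hm1.aemeasurable, lintegral_prod _ hm2.aemeasurable]
  have hbox : ∀ᵐ q ∂((nu n α β).prod (volume.restrict (Icc (1 : ℝ) 2))), ∀ j, q.1 j ∈ Icc α β :=
    Measure.quasiMeasurePreserving_fst.ae (nu_ae n α β)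
  refine lintegral_mono_ae ?_
  filter_upwards [hbox] with q hq
  have ha : ∀ j, 0 < q.1 j := fun j => lt_of_lt_of_le hα (hq j).1
  have hc : ∀ j, 0 < (σ - Real.pi * μ * q.1 j) / Real.pi := by
    intro j
    have h1 : Real.pi * μ * q.1 j ≤ Real.pi * μ * β :=
      mul_le_mul_of_nonneg_left (hq j).2 (by positivity)
    exact div_pos (by linarith) Real.pi_pos
  have h1 := gauss_p hc (m := ml μ q.2 q.1) (ml_cξ μ q.2 q.1).measurable hf
    (Mu_int (ml_cξ μ q.2 q.1).measurable (gauss_int' ha hμ) (ml_bd μ q.2 q.1) hf) hp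
  have h2 : (fun ξ => gs (fun j => (σ - Real.pi * μ * q.1 j) / Real.pi) ξ * ml μ q.2 q.1 ξ) =
      mh σ q.2 q.1 := by
    ext ξ
    rw [mh_eq σ μ]
  rw [h2] at h1
  simp only [ENNReal.mul_rpow_of_nonneg _ _ hp0.le]
  have hmx1 : Measurable fun x => ‖Mu (mh σ q.2 q.1) f x‖ₑ ^ p := by
    have h3 : Continuous (mh σ q.2 q.1) := by
      have := QF_cont q.1
      unfold mh
      fun_prop
    exact (Mu_meas_x h3.measurable hf).enorm.pow_const p
  have hmx2 : Measurable fun x => ‖Mu (ml μ q.2 q.1) f x‖ₑ ^ p :=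
    (Mu_meas_x (ml_cξ μ q.2 q.1).measurable hf).enorm.pow_const p
  rw [lintegral_const_mul _ hmx1, lintegral_const_mul _ hmx2]
  exact mul_le_mul_right h1 _

/-- the Gamma integral for the Bessel potential -/
lemma bes {s : ℝ} (hs : 0 < s) {y : ℝ} (hy : 0 ≤ y) :
    (1 + y) ^ (-(s / 2)) = (Real.Gamma (s / 2))⁻¹ *
      ∫ lam in Ioi (0 : ℝ), lam ^ (s / 2 - 1) * Real.exp (-lam) * Real.exp (-(y * lam)) := by
  have h1 := Real.integral_rpow_mul_exp_neg_mul_Ioi (a := s / 2) (r := 1 + y) (by linarith)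
    (by linarith)
  have h2 : ∀ lam : ℝ, lam ^ (s / 2 - 1) * Real.exp (-lam) * Real.exp (-(y * lam)) =
      lam ^ (s / 2 - 1) * Real.exp (-((1 + y) * lam)) := by
    intro lam
    rw [mul_assoc, ← Real.exp_add]
    congr 2
    ring
  simp only [h2]
  rw [h1]
  have hG : Real.Gamma (s / 2) ≠ 0 := (Real.Gamma_pos_of_pos (by linarith)).ne'
  rw [one_div, Real.inv_rpow (by linarith), Real.rpow_neg (by linarith)]
  field_simp

lemma ws_pt {s : ℝ} (hs : 0 < s) (τ t : ℝ) (a : Fin n → ℝ) (ξ : E n) :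
    ws s τ t a ξ = (((Real.Gamma (s / 2))⁻¹ : ℝ) : ℂ) * ∫ lam in Ioi (0 : ℝ),
      ((lam ^ (s / 2 - 1) * Real.exp (-lam) : ℝ) : ℂ) *
        mh (4 * Real.pi ^ 2 * lam + τ) t a ξ := by
  have h1 : ∀ lam : ℝ, ((lam ^ (s / 2 - 1) * Real.exp (-lam) : ℝ) : ℂ) *
      mh (4 * Real.pi ^ 2 * lam + τ) t a ξ =
      ((Real.exp (-(τ * ‖ξ‖ ^ 2)) * Real.cos (2 * Real.pi * t * Real.sqrt (QF a ξ)) *
        (lam ^ (s / 2 - 1) * Real.exp (-lam) *
          Real.exp (-(4 * Real.pi ^ 2 * ‖ξ‖ ^ 2 * lam))) : ℝ) : ℂ) := by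
    intro lam
    unfold mh
    rw [← Complex.ofReal_mul]
    congr 1
    have e : Real.exp (-((4 * Real.pi ^ 2 * lam + τ) * ‖ξ‖ ^ 2)) =
        Real.exp (-(τ * ‖ξ‖ ^ 2)) * Real.exp (-(4 * Real.pi ^ 2 * ‖ξ‖ ^ 2 * lam)) := by
      rw [← Real.exp_add]
      congr 1
      ring
    rw [e]
    ring
  simp only [h1]
  rw [integral_complex_ofReal, integral_const_mul]
  unfold ws
  rw [bes hs (by positivity), ← Complex.ofReal_mul]
  congr 1
  ring

lemma gam_int {s : ℝ} (hs : 0 < s) :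
    IntegrableOn (fun lam : ℝ => lam ^ (s / 2 - 1) * Real.exp (-lam)) (Ioi 0) := by
  have h := Real.GammaIntegral_convergent (s := s / 2) (by linarith)
  exact h.congr_fun (fun x _ => mul_comm _ _) measurableSet_Ioi

lemma mh_bd {σ τ : ℝ} (h : τ ≤ σ) (t : ℝ) (a : Fin n → ℝ) (ξ : E n) :
    ‖mh σ t a ξ‖ ≤ Real.exp (-(τ * ‖ξ‖ ^ 2)) := by
  unfold mh
  rw [Complex.norm_real, Real.norm_eq_abs, abs_mul, abs_of_pos (Real.exp_pos _)]
  refine (mul_le_of_le_one_right (Real.exp_pos _).le (Real.abs_cos_le_one _)).trans ?_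
  apply Real.exp_le_exp.2
  have : τ * ‖ξ‖ ^ 2 ≤ σ * ‖ξ‖ ^ 2 := by gcongr
  linarith

lemma exp_int {τ : ℝ} (hτ : 0 < τ) : Integrable fun ξ : E n => Real.exp (-(τ * ‖ξ‖ ^ 2)) := by
  have h := gauss_int (n := n) (b := fun _ => τ / Real.pi) fun _ => by positivity
  refine h.congr (ae_of_all _ fun ξ => ?_)
  simp only
  congr 2
  unfold QF
  rw [EuclideanSpace.real_norm_sq_eq, Finset.mul_sum, Finset.mul_sum]
  refine Finset.sum_congr rfl fun j _ => ?_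
  field_simp

lemma Mu_ws {s : ℝ} (hs : 0 < s) {τ : ℝ} (hτ : 0 < τ) (t : ℝ) (a : Fin n → ℝ)
    {f : E n → ℂ} (hf : Integrable f) (x : E n) :
    Mu (ws s τ t a) f x = (((Real.Gamma (s / 2))⁻¹ : ℝ) : ℂ) * ∫ lam in Ioi (0 : ℝ),
      ((lam ^ (s / 2 - 1) * Real.exp (-lam) : ℝ) : ℂ) *
        Mu (mh (4 * Real.pi ^ 2 * lam + τ) t a) f x := by
  have hi : Integrable (Function.uncurry fun (lam : ℝ) (ξ : E n) =>
      ((lam ^ (s / 2 - 1) * Real.exp (-lam) : ℝ) : ℂ) * (mh (4 * Real.pi ^ 2 * lam + τ) t a ξ *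
        𝓕 f ξ * cexp (((2 * Real.pi * ⟪x, ξ⟫ : ℝ) : ℂ) * I)))
      ((volume.restrict (Ioi (0 : ℝ))).prod volume) := by
    have h1 : Integrable (fun q : ℝ × E n => (q.1 ^ (s / 2 - 1) * Real.exp (-q.1)) *
        (Real.exp (-(τ * ‖q.2‖ ^ 2)) * ∫ y, ‖f y‖))
        ((volume.restrict (Ioi (0 : ℝ))).prod volume) :=
      (gam_int hs).mul_prod ((exp_int hτ).mul_const _)
    have hmem : ∀ᵐ q ∂((volume.restrict (Ioi (0 : ℝ))).prod (volume : Measure (E n))),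
        q.1 ∈ Ioi (0 : ℝ) :=
      Measure.quasiMeasurePreserving_fst.ae (ae_restrict_mem measurableSet_Ioi)
    have hmm : Measurable (Function.uncurry fun (lam : ℝ) (ξ : E n) =>
        ((lam ^ (s / 2 - 1) * Real.exp (-lam) : ℝ) : ℂ) * (mh (4 * Real.pi ^ 2 * lam + τ) t a ξ *
        𝓕 f ξ * cexp (((2 * Real.pi * ⟪x, ξ⟫ : ℝ) : ℂ) * I))) := by
      have h2 : Measurable fun q : ℝ × E n => 𝓕 f q.2 := (meas_F hf).comp measurable_snd
      have h3 : Continuous fun q : ℝ × E n => cexp (((2 * Real.pi * ⟪x, q.2⟫ : ℝ) : ℂ) * I) := by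
        fun_prop
      have h4 : Measurable fun q : ℝ × E n =>
          ((q.1 ^ (s / 2 - 1) * Real.exp (-q.1) : ℝ) : ℂ) := by
        have h5 : Measurable fun q : ℝ × E n => q.1 ^ (s / 2 - 1) := measurable_fst.pow_const _
        have h6 : Measurable fun q : ℝ × E n => Real.exp (-q.1) := by fun_prop
        exact Complex.measurable_ofReal.comp (h5.mul h6)
      have h5 : Continuous fun q : ℝ × E n => mh (4 * Real.pi ^ 2 * q.1 + τ) t a q.2 := by
        have h6 : Continuous fun q : ℝ × E n => QF a q.2 := (QF_cont a).comp continuous_snd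
        unfold mh
        fun_prop
      exact h4.mul ((h5.measurable.mul h2).mul h3.measurable)
    refine h1.mono' hmm.aestronglyMeasurable ?_
    filter_upwards [hmem] with q hq
    have hq0 : 0 < q.1 := hq
    simp only [Function.uncurry]
    rw [norm_mul, norm_mul, norm_mul, Complex.norm_real, Real.norm_of_nonneg (by positivity)]
    refine mul_le_mul_of_nonneg_left ?_ (by positivity)
    calc ‖mh (4 * Real.pi ^ 2 * q.1 + τ) t a q.2‖ * ‖𝓕 f q.2‖ *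
          ‖cexp (((2 * Real.pi * ⟪x, q.2⟫ : ℝ) : ℂ) * I)‖
        ≤ ‖mh (4 * Real.pi ^ 2 * q.1 + τ) t a q.2‖ * ‖𝓕 f q.2‖ * 1 := by
          gcongr
          exact e_norm _ _
      _ ≤ _ := by
          rw [mul_one]
          refine mul_le_mul (mh_bd ?_ t a _) (F_bd _) (norm_nonneg _) (Real.exp_pos _).le
          have : 0 ≤ 4 * Real.pi ^ 2 * q.1 := by positivity
          linarith
  have e1 : ∫ lam in Ioi (0 : ℝ), ((lam ^ (s / 2 - 1) * Real.exp (-lam) : ℝ) : ℂ) *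
        Mu (mh (4 * Real.pi ^ 2 * lam + τ) t a) f x = ∫ ξ : E n, ∫ lam in Ioi (0 : ℝ),
      ((lam ^ (s / 2 - 1) * Real.exp (-lam) : ℝ) : ℂ) * (mh (4 * Real.pi ^ 2 * lam + τ) t a ξ *
        𝓕 f ξ * cexp (((2 * Real.pi * ⟪x, ξ⟫ : ℝ) : ℂ) * I)) := by
    unfold Mu
    simp only [← integral_const_mul]
    exact integral_integral_swap hi
  rw [e1, ← integral_const_mul]
  unfold Mu
  congr 1
  ext ξ
  have e2 : ∀ lam : ℝ, ((lam ^ (s / 2 - 1) * Real.exp (-lam) : ℝ) : ℂ) *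
      (mh (4 * Real.pi ^ 2 * lam + τ) t a ξ * 𝓕 f ξ *
        cexp (((2 * Real.pi * ⟪x, ξ⟫ : ℝ) : ℂ) * I)) =
      (((lam ^ (s / 2 - 1) * Real.exp (-lam) : ℝ) : ℂ) *
        mh (4 * Real.pi ^ 2 * lam + τ) t a ξ) * (𝓕 f ξ *
        cexp (((2 * Real.pi * ⟪x, ξ⟫ : ℝ) : ℂ) * I)) := fun lam => by ring
  simp only [e2]
  rw [integral_mul_const, ws_pt hs]
  ring

end Pool.Agent.TH292.LS
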