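import Mathlib
import Pool.Agent.TH292.LS.P
import Pool.Agent.TH310.BZ.Fin
set_option autoImplicit false

/-! The averaged estimate with a heat factor. -/

namespace Pool.Agent.TH292.LS

open Complex MeasureTheory Set Filter Topology
open scoped ENNReal FourierTransform ComplexConjugate RealInnerProductSpace
open Pool.Agent.TH310.BZ

variable {n : ℕ}

/-- the cut-off scale -/
noncomputable def mc (c₁ lam : ℝ) : ℝ := c₁ * min 1 lam

lemma mc_pos {c₁ lam : ℝ} (hc : 0 < c₁) (hl : 0 < lam) : 0 < mc c₁ lam := by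
  unfold mc
  positivity

lemma mc_le {c₁ lam : ℝ} (hc : 0 < c₁) : mc c₁ lam ≤ c₁ := by
  unfold mc
  exact mul_le_of_le_one_right hc.le (min_le_left _ _)

lemma mc_neg {c₁ lam κ : ℝ} (hc : 0 < c₁) (hl : 0 < lam) :
    mc c₁ lam ^ (-(κ / 2)) ≤ c₁ ^ (-(κ / 2)) * (1 + lam ^ (-(κ / 2))) := by
  unfold mc
  have h0 : 0 < lam ^ (-(κ / 2)) := Real.rpow_pos_of_pos hl _
  have h1 : 0 < c₁ ^ (-(κ / 2)) := Real.rpow_pos_of_pos hc _
  rw [Real.mul_rpow hc.le (by positivity)]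
  refine mul_le_mul_of_nonneg_left ?_ h1.le
  rcases le_total 1 lam with h | h
  · rw [min_eq_left h, Real.one_rpow]
    linarith
  · rw [min_eq_right h]
    linarith

lemma v_fin {s κ c₁ : ℝ} (hs : 0 < s) (hκs : κ < s) (hc : 0 < c₁) :
    ∫⁻ lam in Ioi (0 : ℝ), ENNReal.ofReal (lam ^ (s / 2 - 1) * Real.exp (-lam) *
      mc c₁ lam ^ (-(κ / 2))) < ⊤ := by
  have h1 := gam_int hs
  have h2 := gam_int (s := s - κ) (by linarith)
  have h3 : IntegrableOn (fun lam : ℝ => c₁ ^ (-(κ / 2)) *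
      (lam ^ (s / 2 - 1) * Real.exp (-lam) + lam ^ ((s - κ) / 2 - 1) * Real.exp (-lam))) (Ioi 0) :=
    (h1.add h2).const_mul _
  refine lt_of_le_of_lt (setLIntegral_mono' measurableSet_Ioi fun lam hl => ?_) h3.lintegral_lt_top
  have hl0 : 0 < lam := hl
  apply ENNReal.ofReal_le_ofReal
  have h4 := mc_neg (κ := κ) hc hl0
  calc lam ^ (s / 2 - 1) * Real.exp (-lam) * mc c₁ lam ^ (-(κ / 2))
      ≤ lam ^ (s / 2 - 1) * Real.exp (-lam) * (c₁ ^ (-(κ / 2)) * (1 + lam ^ (-(κ / 2)))) :=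
        mul_le_mul_of_nonneg_left h4 (by positivity)
    _ = _ := by
        have e : lam ^ ((s - κ) / 2 - 1) = lam ^ (s / 2 - 1) * lam ^ (-(κ / 2)) := by
          rw [← Real.rpow_add hl0]
          congr 1
          ring
        rw [e]
        ring

/-- **The averaged estimate** for bounded integrable data, with a heat factor. -/
theorem stepII (n : ℕ) (hn : 1 ≤ n) {α β p s : ℝ} (hα : 0 < α) (hαβ : α ≤ β)
    (hp : 2 ≤ p) (hp4 : p ≤ 4) (hs : 1 / 2 - 1 / p < s) :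
    ∃ C : ℝ≥0∞, C ≠ ⊤ ∧ ∀ (f : E n → ℂ), GB f → ∀ τ : ℝ, 0 < τ →
      ∫⁻ z, ‖Mu (ws s τ z.1.2 z.1.1) f z.2‖ₑ ^ p ∂(zm n α β) ≤ C * ∫⁻ x, ‖f x‖ₑ ^ p := by
  have hp0 : 0 < p := by linarith
  have hβ : 0 < β := lt_of_lt_of_le hα hαβ
  have hp2 : 1 / p ≤ 1 / 2 := one_div_le_one_div_of_le (by norm_num) hp
  have hs0 : 0 < s := by linarith
  obtain ⟨δ, hδ⟩ : ∃ δ, δ = min 1 (s - (1 / 2 - 1 / p)) := ⟨_, rfl⟩
  have hδ0 : 0 < δ := by rw [hδ]; exact lt_min one_pos (by linarith)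
  have hδ1 : δ ≤ 1 := by rw [hδ]; exact min_le_left _ _
  have hδ2 : δ ≤ s - (1 / 2 - 1 / p) := by rw [hδ]; exact min_le_right _ _
  obtain ⟨κ, hκ⟩ : ∃ κ, κ = (1 / 2 - 1 / p) + δ / 2 := ⟨_, rfl⟩
  have hκp : κ * p = (p - 2) / 2 + δ * p / 2 := by
    rw [hκ]
    field_simp
  have hκs : κ < s := by rw [hκ]; linarith
  have hκ0 : 0 < κ := by rw [hκ]; linarith
  obtain ⟨c₁, hc₁⟩ : ∃ c₁, c₁ = min 1 (1 / β) := ⟨_, rfl⟩
  have hc0 : 0 < c₁ := by rw [hc₁]; exact lt_min one_pos (by positivity)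
  have hc1 : c₁ ≤ 1 := by rw [hc₁]; exact min_le_left _ _
  have hcβ : c₁ * β ≤ 1 := by
    have : c₁ ≤ 1 / β := by rw [hc₁]; exact min_le_right _ _
    rwa [le_div_iff₀ hβ] at this
  obtain ⟨C, hC, hI⟩ := stepI n hn hα hαβ hδ0 hδ1 hp hp4 hκp hc0 hc1
  obtain ⟨v, hv⟩ : ∃ v : ℝ → ℝ≥0∞, v = fun lam => ENNReal.ofReal (lam ^ (s / 2 - 1) *
      Real.exp (-lam) * mc c₁ lam ^ (-(κ / 2))) := ⟨_, rfl⟩
  have hmcm : Measurable (mc c₁) := by
    unfold mc
    exact (measurable_const.min measurable_id).const_mul _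
  have hvm : Measurable v := by
    rw [hv]
    have h1 : Measurable fun lam : ℝ => lam ^ (s / 2 - 1) := measurable_id.pow_const _
    have h2 : Measurable fun lam : ℝ => Real.exp (-lam) := by fun_prop
    exact ((h1.mul h2).mul (hmcm.pow_const _)).ennreal_ofReal
  have hvf : ∫⁻ lam in Ioi (0 : ℝ), v lam ≠ ⊤ := by
    rw [hv]
    exact (v_fin hs0 hκs hc0).ne
  have hG : 0 < Real.Gamma (s / 2) := Real.Gamma_pos_of_pos (by linarith)
  refine ⟨ENNReal.ofReal ((Real.Gamma (s / 2))⁻¹) ^ p * ((∫⁻ lam in Ioi (0 : ℝ), v lam) ^ p * C),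
    ENNReal.mul_ne_top (ENNReal.rpow_ne_top_of_nonneg hp0.le ENNReal.ofReal_ne_top)
      (ENNReal.mul_ne_top (ENNReal.rpow_ne_top_of_nonneg hp0.le hvf) hC), fun f hf τ hτ => ?_⟩
  obtain ⟨h, hh⟩ : ∃ h : ℝ → ((Fin n → ℝ) × ℝ) × E n → ℝ≥0∞, h = fun lam z =>
      ENNReal.ofReal (mc c₁ lam ^ (κ / 2)) *
        ‖Mu (mh (4 * Real.pi ^ 2 * lam + τ) z.1.2 z.1.1) f z.2‖ₑ := ⟨_, rfl⟩
  have hhm : Measurable (Function.uncurry h) := by
    rw [hh]
    have h1 : Measurable fun q : ℝ × (((Fin n → ℝ) × ℝ) × E n) =>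
        ENNReal.ofReal (mc c₁ q.1 ^ (κ / 2)) :=
      ((hmcm.comp measurable_fst).pow_const _).ennreal_ofReal
    have h2 : Measurable fun q : ℝ × (((Fin n → ℝ) × ℝ) × E n) =>
        (4 * Real.pi ^ 2 * q.1 + τ, q.2) :=
      ((measurable_fst.const_mul _).add_const _).prodMk measurable_snd
    have h3 := (Mu_mh_meas hf.int).comp h2
    have h4 := h1.mul h3.enorm
    exact h4
  have hM := minkw (volume.restrict (Ioi (0 : ℝ))) (zm n α β) hvm hhm (p := p) (by linarith)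
    (C * ∫⁻ x, ‖f x‖ₑ ^ p) (by
      filter_upwards [ae_restrict_mem measurableSet_Ioi] with lam hl
      have hl0 : 0 < lam := hl
      rw [hh]
      have h1 : Real.pi * mc c₁ lam * β < 4 * Real.pi ^ 2 * lam + τ := by
        have h2 : mc c₁ lam * β ≤ lam := by
          unfold mc
          have h3 : min 1 lam ≤ lam := min_le_right _ _
          have h4 : 0 < min 1 lam := lt_min one_pos hl0
          calc c₁ * min 1 lam * β = (c₁ * β) * min 1 lam := by ring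
            _ ≤ 1 * lam := mul_le_mul hcβ h3 h4.le zero_le_one
            _ = lam := one_mul _
        have h3 := Real.pi_gt_three
        calc Real.pi * mc c₁ lam * β = Real.pi * (mc c₁ lam * β) := by ring
          _ ≤ Real.pi * lam := by gcongr
          _ ≤ 4 * Real.pi ^ 2 * lam := by
              apply mul_le_mul_of_nonneg_right _ hl0.le
              nlinarith
          _ < _ := by linarith
      exact (mh_le hα (mc_pos hc0 hl0) h1 (by linarith) _ hf.int).trans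
        (hI f hf _ (mc_pos hc0 hl0) (mc_le hc0)))
  have hpt : ∀ z : ((Fin n → ℝ) × ℝ) × E n, ‖Mu (ws s τ z.1.2 z.1.1) f z.2‖ₑ ^ p ≤
      ENNReal.ofReal ((Real.Gamma (s / 2))⁻¹) ^ p *
        (∫⁻ lam in Ioi (0 : ℝ), v lam * h lam z) ^ p := by
    intro z
    rw [← ENNReal.mul_rpow_of_nonneg _ _ hp0.le]
    refine ENNReal.rpow_le_rpow ?_ hp0.le
    rw [Mu_ws hs0 hτ z.1.2 z.1.1 hf.int z.2, enorm_mul]
    refine mul_le_mul' (le_of_eq ?_) ?_
    · rw [← ofReal_norm, Complex.norm_real, Real.norm_of_nonneg (by positivity)]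
    · refine (enorm_integral_le_lintegral_enorm _).trans (le_of_eq ?_)
      refine setLIntegral_congr_fun measurableSet_Ioi fun lam hl => ?_
      have hl0 : 0 < lam := hl
      have hm0 := mc_pos hc0 hl0
      rw [hv, hh]
      simp only
      rw [enorm_mul, ← mul_assoc, ← ENNReal.ofReal_mul (by positivity), mul_assoc
        (lam ^ (s / 2 - 1) * Real.exp (-lam)), ← Real.rpow_add hm0, neg_add_cancel,
        Real.rpow_zero, mul_one]
      congr 1
      rw [← ofReal_norm, Complex.norm_real, Real.norm_of_nonneg (by positivity)]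
  calc ∫⁻ z, ‖Mu (ws s τ z.1.2 z.1.1) f z.2‖ₑ ^ p ∂(zm n α β)
      ≤ ∫⁻ z, ENNReal.ofReal ((Real.Gamma (s / 2))⁻¹) ^ p *
        (∫⁻ lam in Ioi (0 : ℝ), v lam * h lam z) ^ p ∂(zm n α β) := lintegral_mono hpt
    _ = ENNReal.ofReal ((Real.Gamma (s / 2))⁻¹) ^ p *
        ∫⁻ z, (∫⁻ lam in Ioi (0 : ℝ), v lam * h lam z) ^ p ∂(zm n α β) :=
        lintegral_const_mul' _ _ (ENNReal.rpow_ne_top_of_nonneg hp0.le ENNReal.ofReal_ne_top)
    _ ≤ ENNReal.ofReal ((Real.Gamma (s / 2))⁻¹) ^ p *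
        ((∫⁻ lam in Ioi (0 : ℝ), v lam) ^ p * (C * ∫⁻ x, ‖f x‖ₑ ^ p)) :=
        mul_le_mul_right hM _
    _ = _ := by ring

end Pool.Agent.TH292.LS
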