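import Mathlib
import Pool.Agent.TH292.LS.H
import Pool.Agent.TH292.LS.L
import Pool.Agent.TH310.BZ.Fin
set_option autoImplicit false

/-! Limits: from bounded data to integrable data, and from a positive heat factor to none. -/

namespace Pool.Agent.TH292.LS

open Complex MeasureTheory Set Filter Topology
open scoped ENNReal FourierTransform ComplexConjugate RealInnerProductSpace
open Pool.Agent.TH310.BZ

variable {n : ℕ}

/-- a family of symbols of polynomial growth -/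
structure Sym (W : (Fin n → ℝ) × ℝ → E n → ℂ) (B : ℝ) : Prop where
  meas : Measurable fun q : ((Fin n → ℝ) × ℝ) × E n => W q.1 q.2
  B0 : 0 ≤ B
  bd : ∀ q ξ, ‖W q ξ‖ ≤ (1 + |q.2|) * (B * (1 + ‖ξ‖ ^ 2))

/-- the heat factor -/
noncomputable def hW (W : (Fin n → ℝ) × ℝ → E n → ℂ) (τ : ℝ) (q : (Fin n → ℝ) × ℝ) (ξ : E n) : ℂ :=
  ((Real.exp (-(τ * ‖ξ‖ ^ 2)) : ℝ) : ℂ) * W q ξ

lemma exp_int' {τ : ℝ} (hτ : 0 < τ) : Integrable fun ξ : E n => Real.exp (-(τ * ‖ξ‖ ^ 2)) := by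
  have h := gauss_int (n := n) (b := fun _ => τ / Real.pi) fun _ => by positivity
  refine h.congr (ae_of_all _ fun ξ => ?_)
  simp only
  congr 2
  unfold QF
  rw [EuclideanSpace.real_norm_sq_eq, Finset.mul_sum, Finset.mul_sum]
  refine Finset.sum_congr rfl fun j _ => ?_
  field_simp

lemma poly_int {τ : ℝ} (hτ : 0 < τ) :
    Integrable fun ξ : E n => Real.exp (-(τ * ‖ξ‖ ^ 2)) * (1 + ‖ξ‖ ^ 2) := by
  have hc : Continuous fun ξ : E n => Real.exp (-(τ * ‖ξ‖ ^ 2)) * (1 + ‖ξ‖ ^ 2) := by fun_prop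
  refine ((exp_int' (n := n) (half_pos hτ)).const_mul (1 + 2 / τ)).mono' hc.aestronglyMeasurable
    (ae_of_all _ fun ξ => ?_)
  rw [Real.norm_of_nonneg (by positivity)]
  obtain ⟨r, hr⟩ : ∃ r, r = ‖ξ‖ ^ 2 := ⟨_, rfl⟩
  have hr0 : 0 ≤ r := by rw [hr]; positivity
  rw [← hr]
  have h1 : τ / 2 * r + 1 ≤ Real.exp (τ / 2 * r) := Real.add_one_le_exp _
  have h2 : 1 + r ≤ (1 + 2 / τ) * Real.exp (τ / 2 * r) := by
    have h3 : r = 2 / τ * (τ / 2 * r) := by field_simp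
    have h4 : 0 ≤ τ / 2 * r := by positivity
    calc 1 + r = 1 + 2 / τ * (τ / 2 * r) := by rw [← h3]
      _ ≤ 1 * Real.exp (τ / 2 * r) + 2 / τ * Real.exp (τ / 2 * r) := by
          gcongr
          · linarith
          · linarith
      _ = _ := by ring
  have e : Real.exp (-(τ * r)) = Real.exp (-(τ / 2 * r)) * Real.exp (-(τ / 2 * r)) := by
    rw [← Real.exp_add]
    congr 1
    ring
  have e2 : Real.exp (-(τ / 2 * r)) * Real.exp (τ / 2 * r) = 1 := by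
    rw [← Real.exp_add, neg_add_cancel, Real.exp_zero]
  calc Real.exp (-(τ * r)) * (1 + r)
      ≤ Real.exp (-(τ / 2 * r)) * Real.exp (-(τ / 2 * r)) *
        ((1 + 2 / τ) * Real.exp (τ / 2 * r)) := by
        rw [e]
        gcongr
    _ = (1 + 2 / τ) * (Real.exp (-(τ / 2 * r)) * Real.exp (τ / 2 * r)) *
        Real.exp (-(τ / 2 * r)) := by ring
    _ = _ := by rw [e2, mul_one]

lemma hW_meas {W : (Fin n → ℝ) × ℝ → E n → ℂ} {B : ℝ} (hW' : Sym W B) (τ : ℝ) :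
    Measurable fun q : ((Fin n → ℝ) × ℝ) × E n => hW W τ q.1 q.2 := by
  unfold hW
  have h1 : Continuous fun q : ((Fin n → ℝ) × ℝ) × E n =>
      ((Real.exp (-(τ * ‖q.2‖ ^ 2)) : ℝ) : ℂ) := by fun_prop
  exact h1.measurable.mul hW'.meas

lemma hW_measξ {W : (Fin n → ℝ) × ℝ → E n → ℂ} {B : ℝ} (hW' : Sym W B) (τ : ℝ)
    (q : (Fin n → ℝ) × ℝ) : Measurable (hW W τ q) := by
  have h1 : Measurable fun ξ : E n => (q, ξ) := measurable_const.prodMk measurable_id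
  have h2 := (hW_meas hW' τ).comp h1
  exact h2

lemma W_measξ {W : (Fin n → ℝ) × ℝ → E n → ℂ} {B : ℝ} (hW' : Sym W B)
    (q : (Fin n → ℝ) × ℝ) : Measurable (W q) := by
  have h1 : Measurable fun ξ : E n => (q, ξ) := measurable_const.prodMk measurable_id
  have h2 := hW'.meas.comp h1
  exact h2

lemma hW_bd {W : (Fin n → ℝ) × ℝ → E n → ℂ} {B : ℝ} (hW' : Sym W B) (τ : ℝ)
    (q : (Fin n → ℝ) × ℝ) (ξ : E n) :
    ‖hW W τ q ξ‖ ≤ ((1 + |q.2|) * B) * (Real.exp (-(τ * ‖ξ‖ ^ 2)) * (1 + ‖ξ‖ ^ 2)) := by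
  unfold hW
  rw [norm_mul, Complex.norm_real, Real.norm_of_nonneg (Real.exp_pos _).le]
  calc Real.exp (-(τ * ‖ξ‖ ^ 2)) * ‖W q ξ‖
      ≤ Real.exp (-(τ * ‖ξ‖ ^ 2)) * ((1 + |q.2|) * (B * (1 + ‖ξ‖ ^ 2))) := by
        gcongr
        exact hW'.bd q ξ
    _ = _ := by ring

lemma hW_int0 {W : (Fin n → ℝ) × ℝ → E n → ℂ} {B : ℝ} (hW' : Sym W B) {τ : ℝ} (hτ : 0 < τ)
    (q : (Fin n → ℝ) × ℝ) : Integrable fun ξ => ‖hW W τ q ξ‖ :=
  ((poly_int hτ).const_mul ((1 + |q.2|) * B)).mono' (hW_measξ hW' τ q).norm.aestronglyMeasurable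
    (ae_of_all _ fun ξ => by
      rw [norm_norm]
      exact hW_bd hW' τ q ξ)

lemma hW_int {W : (Fin n → ℝ) × ℝ → E n → ℂ} {B : ℝ} (hW' : Sym W B) {τ : ℝ} (hτ : 0 < τ)
    (q : (Fin n → ℝ) × ℝ) {f : E n → ℂ} (hf : Integrable f) :
    Integrable fun ξ => hW W τ q ξ * 𝓕 f ξ := by
  refine ((hW_int0 hW' hτ q).mul_const (∫ y, ‖f y‖)).mono'
    ((hW_measξ hW' τ q).mul (meas_F hf)).aestronglyMeasurable (ae_of_all _ fun ξ => ?_)
  rw [norm_mul]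
  exact mul_le_mul_of_nonneg_left (F_bd ξ) (norm_nonneg _)

lemma Mu_hW_meas {W : (Fin n → ℝ) × ℝ → E n → ℂ} {B : ℝ} (hW' : Sym W B) (τ : ℝ)
    {f : E n → ℂ} (hf : Integrable f) :
    Measurable fun z : ((Fin n → ℝ) × ℝ) × E n => Mu (hW W τ z.1) f z.2 :=
  Mu_meas (Z := (Fin n → ℝ) × ℝ) (m := fun q => hW W τ q) (hW_meas hW' τ) hf

lemma Mu_W_meas {W : (Fin n → ℝ) × ℝ → E n → ℂ} {B : ℝ} (hW' : Sym W B)
    {f : E n → ℂ} (hf : Integrable f) :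
    Measurable fun z : ((Fin n → ℝ) × ℝ) × E n => Mu (W z.1) f z.2 :=
  Mu_meas (Z := (Fin n → ℝ) × ℝ) (m := fun q => W q) hW'.meas hf

lemma hW_sub {W : (Fin n → ℝ) × ℝ → E n → ℂ} {B : ℝ} (hW' : Sym W B) {τ : ℝ} (hτ : 0 < τ)
    (q : (Fin n → ℝ) × ℝ) {f g : E n → ℂ} (hf : Integrable f) (hg : Integrable g) (x : E n) :
    ‖Mu (hW W τ q) f x - Mu (hW W τ q) g x‖ ≤ (∫ ξ, ‖hW W τ q ξ‖) * ∫ y, ‖f y - g y‖ := by
  have hu : ∀ {u : E n → ℂ}, Integrable u → Integrable fun ξ : E n =>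
      hW W τ q ξ * 𝓕 u ξ * cexp (((2 * Real.pi * ⟪x, ξ⟫ : ℝ) : ℂ) * I) := fun hu =>
    (hW_int hW' hτ q hu).mul_bdd (c := 1) (e_meas x) (ae_of_all _ fun ξ => e_norm x ξ)
  unfold Mu
  rw [← integral_sub (hu hf) (hu hg), ← integral_mul_const]
  refine norm_integral_le_of_norm_le ((hW_int0 hW' hτ q).mul_const _) (ae_of_all _ fun ξ => ?_)
  have e : hW W τ q ξ * 𝓕 f ξ * cexp (((2 * Real.pi * ⟪x, ξ⟫ : ℝ) : ℂ) * I) -
      hW W τ q ξ * 𝓕 g ξ * cexp (((2 * Real.pi * ⟪x, ξ⟫ : ℝ) : ℂ) * I) =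
      hW W τ q ξ * (𝓕 f ξ - 𝓕 g ξ) * cexp (((2 * Real.pi * ⟪x, ξ⟫ : ℝ) : ℂ) * I) := by ring
  rw [e, norm_mul, norm_mul, Complex.norm_exp_ofReal_mul_I, mul_one]
  exact mul_le_mul_of_nonneg_left (F_sub_bd hf hg ξ) (norm_nonneg _)

/-- from bounded data to integrable data -/
theorem ext_int {W : (Fin n → ℝ) × ℝ → E n → ℂ} {B : ℝ} (hW' : Sym W B) {α β p τ : ℝ}
    (hp : 1 < p) (hτ : 0 < τ) {C : ℝ≥0∞}
    (hC : ∀ f : E n → ℂ, GB f → ∫⁻ z, ‖Mu (hW W τ z.1) f z.2‖ₑ ^ p ∂(zm n α β) ≤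
      C * ∫⁻ x, ‖f x‖ₑ ^ p) (f : E n → ℂ) (hf : Integrable f) :
    ∫⁻ z, ‖Mu (hW W τ z.1) f z.2‖ₑ ^ p ∂(zm n α β) ≤ C * ∫⁻ x, ‖f x‖ₑ ^ p := by
  have hp0 : 0 ≤ p := by linarith
  have main : ∀ f : E n → ℂ, Measurable f → Integrable f →
      ∫⁻ z, ‖Mu (hW W τ z.1) f z.2‖ₑ ^ p ∂(zm n α β) ≤ C * ∫⁻ x, ‖f x‖ₑ ^ p := by
    intro f hf hi'
    have hm : ∀ k : ℕ, Measurable fun z : ((Fin n → ℝ) × ℝ) × E n =>
        ‖Mu (hW W τ z.1) (lo k f) z.2‖ₑ ^ p :=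
      fun k => (Mu_hW_meas hW' τ (lo_int k hf hi')).enorm.pow_const p
    calc ∫⁻ z, ‖Mu (hW W τ z.1) f z.2‖ₑ ^ p ∂(zm n α β)
        ≤ ∫⁻ z, liminf (fun k : ℕ => ‖Mu (hW W τ z.1) (lo k f) z.2‖ₑ ^ p) atTop
            ∂(zm n α β) := by
          refine lintegral_mono fun z => ?_
          have h0 : Tendsto (fun k : ℕ => Mu (hW W τ z.1) (lo k f) z.2) atTop
              (𝓝 (Mu (hW W τ z.1) f z.2)) := by
            rw [tendsto_iff_norm_sub_tendsto_zero]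
            have h1 := (lo_tendsto hf hi').const_mul (∫ ξ, ‖hW W τ z.1 ξ‖)
            rw [mul_zero] at h1
            exact squeeze_zero (fun _ => norm_nonneg _)
              (fun k => hW_sub hW' hτ z.1 (lo_int k hf hi') hi' z.2) h1
          have h1 : Tendsto (fun k : ℕ => ‖Mu (hW W τ z.1) (lo k f) z.2‖ₑ ^ p) atTop
              (𝓝 (‖Mu (hW W τ z.1) f z.2‖ₑ ^ p)) :=
            ((ENNReal.continuous_rpow_const (y := p)).tendsto _).comp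
              ((continuous_enorm.tendsto _).comp h0)
          exact le_of_eq h1.liminf_eq.symm
      _ ≤ liminf (fun k : ℕ => ∫⁻ z, ‖Mu (hW W τ z.1) (lo k f) z.2‖ₑ ^ p ∂(zm n α β)) atTop :=
          lintegral_liminf_le hm
      _ ≤ liminf (fun _ : ℕ => C * ∫⁻ x, ‖f x‖ₑ ^ p) atTop := by
          refine liminf_le_liminf (Eventually.of_forall fun k => ?_)
          refine (hC _ (lo_GB k hf hi' (by positivity))).trans ?_
          gcongr with x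
          rw [← ofReal_norm, ← ofReal_norm]
          exact ENNReal.ofReal_le_ofReal (lo_le k f x)
      _ = _ := by simp
  have hf1 : Measurable (hf.1.mk f) := hf.1.stronglyMeasurable_mk.measurable
  have hf2 : f =ᵐ[volume] hf.1.mk f := hf.1.ae_eq_mk
  have hf3 : Integrable (hf.1.mk f) := hf.congr hf2
  have e1 : 𝓕 f = 𝓕 (hf.1.mk f) := by
    ext ξ
    rw [Real.fourier_eq, Real.fourier_eq]
    refine integral_congr_ae ?_
    filter_upwards [hf2] with y hy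
    rw [hy]
  have e2 : ∀ q x, Mu (hW W τ q) f x = Mu (hW W τ q) (hf.1.mk f) x := by
    intro q x
    unfold Mu
    rw [e1]
  simp only [e2]
  refine (main _ hf1 hf3).trans (mul_le_mul_right (le_of_eq ?_) _)
  refine lintegral_congr_ae ?_
  filter_upwards [hf2] with y hy
  rw [hy]

lemma tendsto_hW {W : (Fin n → ℝ) × ℝ → E n → ℂ} {B : ℝ} (hW' : Sym W B)
    (q : (Fin n → ℝ) × ℝ) {f : E n → ℂ} (hf : Integrable f)
    (hi' : Integrable fun ξ => W q ξ * 𝓕 f ξ) (x : E n) :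
    Tendsto (fun k : ℕ => Mu (hW W (1 / ((k : ℝ) + 1)) q) f x) atTop (𝓝 (Mu (W q) f x)) := by
  unfold Mu
  have hem : Measurable fun ξ : E n => cexp (((2 * Real.pi * ⟪x, ξ⟫ : ℝ) : ℂ) * I) := by
    have : Continuous fun ξ : E n => cexp (((2 * Real.pi * ⟪x, ξ⟫ : ℝ) : ℂ) * I) := by fun_prop
    exact this.measurable
  refine tendsto_integral_of_dominated_convergence (fun ξ => ‖W q ξ * 𝓕 f ξ‖) (fun k => ?_)
    hi'.norm (fun k => ae_of_all _ fun ξ => ?_) (ae_of_all _ fun ξ => ?_)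
  · exact (((hW_measξ hW' _ q).mul (meas_F hf)).mul hem).aestronglyMeasurable
  · rw [norm_mul, Complex.norm_exp_ofReal_mul_I, mul_one]
    unfold hW
    rw [mul_assoc, norm_mul, Complex.norm_real, Real.norm_of_nonneg (Real.exp_pos _).le]
    refine mul_le_of_le_one_left (norm_nonneg _) ?_
    rw [Real.exp_le_one_iff]
    have : 0 ≤ 1 / ((k : ℝ) + 1) * ‖ξ‖ ^ 2 := by positivity
    linarith
  · refine Tendsto.mul_const _ (Tendsto.mul_const _ ?_)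
    unfold hW
    have h1 : Tendsto (fun k : ℕ => ((Real.exp (-(1 / ((k : ℝ) + 1) * ‖ξ‖ ^ 2)) : ℝ) : ℂ)) atTop
        (𝓝 ((Real.exp (-(0 * ‖ξ‖ ^ 2)) : ℝ) : ℂ)) := by
      refine (Complex.continuous_ofReal.tendsto _).comp ((Real.continuous_exp.tendsto _).comp ?_)
      exact ((tendsto_one_div_add_atTop_nhds_zero_nat (𝕜 := ℝ)).mul_const _).neg
    have h2 := h1.mul_const (W q ξ)
    simpa using h2

/-- without the heat factor -/
theorem ext_zero {W : (Fin n → ℝ) × ℝ → E n → ℂ} {B : ℝ} (hW' : Sym W B) {α β p : ℝ}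
    {C : ℝ≥0∞} {f : E n → ℂ} (hf : Integrable f)
    (hC : ∀ τ : ℝ, 0 < τ → ∫⁻ z, ‖Mu (hW W τ z.1) f z.2‖ₑ ^ p ∂(zm n α β) ≤
      C * ∫⁻ x, ‖f x‖ₑ ^ p)
    (hi' : ∀ᵐ q ∂((nu n α β).prod (volume.restrict (Icc (1 : ℝ) 2))),
      Integrable fun ξ => W q ξ * 𝓕 f ξ) :
    ∫⁻ z, ‖Mu (W z.1) f z.2‖ₑ ^ p ∂(zm n α β) ≤ C * ∫⁻ x, ‖f x‖ₑ ^ p := by
  have hm : ∀ k : ℕ, Measurable fun z : ((Fin n → ℝ) × ℝ) × E n =>
      ‖Mu (hW W (1 / ((k : ℝ) + 1)) z.1) f z.2‖ₑ ^ p :=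
    fun k => (Mu_hW_meas hW' _ hf).enorm.pow_const p
  calc ∫⁻ z, ‖Mu (W z.1) f z.2‖ₑ ^ p ∂(zm n α β)
      ≤ ∫⁻ z, liminf (fun k : ℕ => ‖Mu (hW W (1 / ((k : ℝ) + 1)) z.1) f z.2‖ₑ ^ p) atTop
          ∂(zm n α β) := by
        have h0 : ∀ᵐ z ∂(zm n α β), Integrable fun ξ => W z.1 ξ * 𝓕 f ξ :=
          Measure.quasiMeasurePreserving_fst.ae hi'
        refine lintegral_mono_ae ?_
        filter_upwards [h0] with z hz
        have h1 : Tendsto (fun k : ℕ => ‖Mu (hW W (1 / ((k : ℝ) + 1)) z.1) f z.2‖ₑ ^ p) atTop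
            (𝓝 (‖Mu (W z.1) f z.2‖ₑ ^ p)) :=
          ((ENNReal.continuous_rpow_const (y := p)).tendsto _).comp
            ((continuous_enorm.tendsto _).comp (tendsto_hW hW' z.1 hf hz z.2))
        exact le_of_eq h1.liminf_eq.symm
    _ ≤ liminf (fun k : ℕ => ∫⁻ z, ‖Mu (hW W (1 / ((k : ℝ) + 1)) z.1) f z.2‖ₑ ^ p
          ∂(zm n α β)) atTop := lintegral_liminf_le hm
    _ ≤ liminf (fun _ : ℕ => C * ∫⁻ x, ‖f x‖ₑ ^ p) atTop :=
        liminf_le_liminf (Eventually.of_forall fun k => hC _ (by positivity))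
    _ = _ := by simp

/-- the mean at one `a` -/
noncomputable def Ph (W : (Fin n → ℝ) × ℝ → E n → ℂ) (p τ : ℝ) (f : E n → ℂ) (a : Fin n → ℝ) :
    ℝ≥0∞ := ∫⁻ t in Icc (1 : ℝ) 2, ∫⁻ x, ‖Mu (hW W τ (a, t)) f x‖ₑ ^ p

lemma Ph_meas {W : (Fin n → ℝ) × ℝ → E n → ℂ} {B : ℝ} (hW' : Sym W B) (p τ : ℝ)
    {f : E n → ℂ} (hf : Integrable f) : Measurable (Ph W p τ f) := by
  unfold Ph
  have h1 : Measurable fun q : (Fin n → ℝ) × ℝ => ∫⁻ x, ‖Mu (hW W τ q) f x‖ₑ ^ p :=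
    ((Mu_hW_meas hW' τ hf).enorm.pow_const p).lintegral_prod_right'
  exact h1.lintegral_prod_right'

lemma Ph_anti {W : (Fin n → ℝ) × ℝ → E n → ℂ} {B : ℝ} (hW' : Sym W B) {p τ τ' : ℝ} (hp : 1 < p)
    (hτ : 0 < τ) (h : τ ≤ τ') {f : E n → ℂ} (hf : Integrable f) (a : Fin n → ℝ) :
    Ph W p τ' f a ≤ Ph W p τ f a := by
  rcases h.eq_or_lt with rfl | h
  · exact le_rfl
  unfold Ph
  refine lintegral_mono fun t => ?_
  have hc : ∀ _ : Fin n, 0 < (τ' - τ) / Real.pi := fun _ => div_pos (by linarith) Real.pi_pos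
  have h1 := gauss_p hc (hW_measξ hW' τ (a, t)) hf (hW_int hW' hτ (a, t) hf) hp
  have e : (fun ξ => gs (fun _ => (τ' - τ) / Real.pi) ξ * hW W τ (a, t) ξ) = hW W τ' (a, t) := by
    ext ξ
    unfold gs hW
    rw [← mul_assoc, ← Complex.ofReal_neg, ← Complex.ofReal_exp, ← Complex.ofReal_mul,
      ← Real.exp_add]
    congr 3
    have h2 : Real.pi * QF (fun _ => (τ' - τ) / Real.pi) ξ = (τ' - τ) * ‖ξ‖ ^ 2 := by
      rw [EuclideanSpace.real_norm_sq_eq]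
      unfold QF
      rw [Finset.mul_sum, Finset.mul_sum]
      refine Finset.sum_congr rfl fun j _ => ?_
      field_simp
    rw [h2]
    ring
  rw [e] at h1
  exact h1

/-- almost every `a` -/
theorem ae_sup {W : (Fin n → ℝ) × ℝ → E n → ℂ} {B : ℝ} (hW' : Sym W B) {α β p : ℝ}
    (hp : 1 < p) {C : ℝ≥0∞} (hCt : C ≠ ⊤) {f : E n → ℂ} (hf : Integrable f)
    (hfp : ∫⁻ x, ‖f x‖ₑ ^ p ≠ ⊤)
    (hC : ∀ τ : ℝ, 0 < τ → ∫⁻ z, ‖Mu (hW W τ z.1) f z.2‖ₑ ^ p ∂(zm n α β) ≤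
      C * ∫⁻ x, ‖f x‖ₑ ^ p) :
    ∀ᵐ a ∂(nu n α β), ∃ M : ℝ≥0∞, M ≠ ⊤ ∧ ∀ τ : ℝ, 0 < τ → Ph W p τ f a ≤ M := by
  have h1 : ∀ k : ℕ, ∫⁻ a, Ph W p (1 / ((k : ℝ) + 1)) f a ∂(nu n α β) ≤
      C * ∫⁻ x, ‖f x‖ₑ ^ p := by
    intro k
    refine le_trans (le_of_eq ?_) (hC (1 / ((k : ℝ) + 1)) (by positivity))
    have hm := (Mu_hW_meas hW' (1 / ((k : ℝ) + 1)) hf).enorm.pow_const p
    rw [lintegral_prod _ hm.aemeasurable, lintegral_prod (fun q : (Fin n → ℝ) × ℝ =>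
      ∫⁻ x, ‖Mu (hW W (1 / ((k : ℝ) + 1)) q) f x‖ₑ ^ p) hm.lintegral_prod_right'.aemeasurable]
    rfl
  have hmono : Monotone fun (k : ℕ) a => Ph W p (1 / ((k : ℝ) + 1)) f a := by
    intro k l hkl a
    refine Ph_anti hW' hp (by positivity) ?_ hf a
    apply one_div_le_one_div_of_le (by positivity)
    have : (k : ℝ) ≤ l := by exact_mod_cast hkl
    linarith
  have h2 : ∫⁻ a, ⨆ k : ℕ, Ph W p (1 / ((k : ℝ) + 1)) f a ∂(nu n α β) ≤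
      C * ∫⁻ x, ‖f x‖ₑ ^ p := by
    rw [lintegral_iSup (fun k => Ph_meas hW' p _ hf) hmono]
    exact iSup_le h1
  have h3 := ae_lt_top (Measurable.iSup fun k : ℕ => Ph_meas hW' p (1 / ((k : ℝ) + 1)) hf)
    (h2.trans_lt (ENNReal.mul_lt_top hCt.lt_top hfp.lt_top)).ne
  filter_upwards [h3] with a ha
  refine ⟨_, ha.ne, fun τ hτ => ?_⟩
  obtain ⟨k, hk⟩ := exists_nat_one_div_lt hτ
  exact (Ph_anti hW' hp (by positivity) hk.le hf a).trans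
    (le_iSup (fun k : ℕ => Ph W p (1 / ((k : ℝ) + 1)) f a) k)

end Pool.Agent.TH292.LS
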