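import Mathlib
import Pool.Agent.TH292.LS.R
import Pool.Agent.TH292.LS.S
set_option autoImplicit false

/-! From one scale to the Bessel potential, for a general symbol. -/

namespace Pool.Agent.TH292.LS

open Complex MeasureTheory Set Filter Topology
open scoped ENNReal FourierTransform ComplexConjugate RealInnerProductSpace
open Pool.Agent.TH310.BZ

variable {n : ℕ}

/-- a symbol with the heat factor of the metric -/
noncomputable def el (R : (Fin n → ℝ) × ℝ → E n → ℂ) (μ : ℝ) (q : (Fin n → ℝ) × ℝ) (ξ : E n) : ℂ :=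
  ((Real.exp (-(Real.pi * μ * QF q.1 ξ)) : ℝ) : ℂ) * R q ξ

/-- its derivative in the scale -/
noncomputable def es (R : (Fin n → ℝ) × ℝ → E n → ℂ) (ν : ℝ) (q : (Fin n → ℝ) × ℝ) (ξ : E n) : ℂ :=
  ((Real.pi * QF q.1 ξ * Real.exp (-(Real.pi * ν * QF q.1 ξ)) : ℝ) : ℂ) * R q ξ

/-- a symbol with a Bessel potential -/
noncomputable def bW (s : ℝ) (R : (Fin n → ℝ) × ℝ → E n → ℂ) (q : (Fin n → ℝ) × ℝ) (ξ : E n) : ℂ :=
  (((1 + 4 * Real.pi ^ 2 * ‖ξ‖ ^ 2) ^ (-(s / 2)) : ℝ) : ℂ) * R q ξ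

lemma QF_ge {a : Fin n → ℝ} {α : ℝ} (h : ∀ j, α ≤ a j) (ξ : E n) : α * ‖ξ‖ ^ 2 ≤ QF a ξ := by
  rw [EuclideanSpace.real_norm_sq_eq]
  unfold QF
  rw [Finset.mul_sum]
  exact Finset.sum_le_sum fun j _ => mul_le_mul_of_nonneg_right (h j) (sq_nonneg _)

lemma QE {Q μ ν : ℝ} (hQ : 0 ≤ Q) (hμ : 0 < μ) (hν : μ ≤ ν) :
    Real.pi * Q * Real.exp (-(Real.pi * ν * Q)) ≤
      2 / μ * Real.exp (-(Real.pi * (μ / 2) * Q)) := by
  obtain ⟨x, hx⟩ : ∃ x, x = Real.pi * (μ / 2) * Q := ⟨_, rfl⟩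
  have h1 : Real.pi * Q = 2 / μ * x := by rw [hx]; field_simp
  have h2 : x ≤ Real.exp x := by linarith [Real.add_one_le_exp x]
  have h3 : Real.exp (-(Real.pi * ν * Q)) ≤ Real.exp (-x) * Real.exp (-x) := by
    rw [← Real.exp_add]
    apply Real.exp_le_exp.2
    have h4 : Real.pi * μ * Q ≤ Real.pi * ν * Q := by gcongr
    have h5 : Real.pi * μ * Q = x + x := by rw [hx]; ring
    linarith
  rw [← hx]
  calc Real.pi * Q * Real.exp (-(Real.pi * ν * Q))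
      ≤ (2 / μ * Real.exp x) * (Real.exp (-x) * Real.exp (-x)) := by
        rw [h1]
        gcongr
    _ = 2 / μ * (Real.exp x * Real.exp (-x)) * Real.exp (-x) := by ring
    _ = _ := by rw [← Real.exp_add, add_neg_cancel, Real.exp_zero, mul_one]

lemma el_bd {R : (Fin n → ℝ) × ℝ → E n → ℂ} {B : ℝ} (hR : Sym R B) {α μ : ℝ} (hμ : 0 < μ)
    {q : (Fin n → ℝ) × ℝ} (hq : ∀ j, α ≤ q.1 j) (ξ : E n) :
    ‖el R μ q ξ‖ ≤ ((1 + |q.2|) * B) *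
      (Real.exp (-(Real.pi * μ * α * ‖ξ‖ ^ 2)) * (1 + ‖ξ‖ ^ 2)) := by
  unfold el
  have hB := hR.B0
  rw [norm_mul, Complex.norm_real, Real.norm_of_nonneg (Real.exp_pos _).le]
  have h1 : Real.exp (-(Real.pi * μ * QF q.1 ξ)) ≤ Real.exp (-(Real.pi * μ * α * ‖ξ‖ ^ 2)) := by
    apply Real.exp_le_exp.2
    have h2 := QF_ge hq ξ
    have h3 : Real.pi * μ * (α * ‖ξ‖ ^ 2) ≤ Real.pi * μ * QF q.1 ξ := by gcongr
    linarith
  calc Real.exp (-(Real.pi * μ * QF q.1 ξ)) * ‖R q ξ‖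
      ≤ Real.exp (-(Real.pi * μ * α * ‖ξ‖ ^ 2)) * ((1 + |q.2|) * (B * (1 + ‖ξ‖ ^ 2))) :=
        mul_le_mul h1 (hR.bd q ξ) (norm_nonneg _) (Real.exp_pos _).le
    _ = _ := by ring

lemma es_bd {R : (Fin n → ℝ) × ℝ → E n → ℂ} {B : ℝ} (hR : Sym R B) {α μ ν : ℝ} (hα : 0 < α)
    (hμ : 0 < μ) (hν : μ ≤ ν) {q : (Fin n → ℝ) × ℝ} (hq : ∀ j, α ≤ q.1 j) (ξ : E n) :
    ‖es R ν q ξ‖ ≤ (2 / μ * ((1 + |q.2|) * B)) *
      (Real.exp (-(Real.pi * (μ / 2) * α * ‖ξ‖ ^ 2)) * (1 + ‖ξ‖ ^ 2)) := by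
  unfold es
  have hB := hR.B0
  have hQ : 0 ≤ QF q.1 ξ := le_trans (by positivity) (QF_ge hq ξ)
  rw [norm_mul, Complex.norm_real, Real.norm_of_nonneg (by positivity)]
  have h0 := QE hQ hμ hν
  have h1 : Real.exp (-(Real.pi * (μ / 2) * QF q.1 ξ)) ≤
      Real.exp (-(Real.pi * (μ / 2) * α * ‖ξ‖ ^ 2)) := by
    apply Real.exp_le_exp.2
    have h2 := QF_ge hq ξ
    have h3 : Real.pi * (μ / 2) * (α * ‖ξ‖ ^ 2) ≤ Real.pi * (μ / 2) * QF q.1 ξ := by gcongr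
    linarith
  calc Real.pi * QF q.1 ξ * Real.exp (-(Real.pi * ν * QF q.1 ξ)) * ‖R q ξ‖
      ≤ (2 / μ * Real.exp (-(Real.pi * (μ / 2) * α * ‖ξ‖ ^ 2))) *
        ((1 + |q.2|) * (B * (1 + ‖ξ‖ ^ 2))) :=
        mul_le_mul (h0.trans (mul_le_mul_of_nonneg_left h1 (by positivity))) (hR.bd q ξ)
          (norm_nonneg _) (by positivity)
    _ = _ := by ring

lemma el_m3 {R : (Fin n → ℝ) × ℝ → E n → ℂ} {B : ℝ} (hR : Sym R B) :
    Measurable fun p : (ℝ × ((Fin n → ℝ) × ℝ)) × E n => el R p.1.1 p.1.2 p.2 := by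
  have h : Continuous fun p : (ℝ × ((Fin n → ℝ) × ℝ)) × E n => QF p.1.2.1 p.2 :=
    QF_c2.comp ((continuous_fst.comp (continuous_snd.comp continuous_fst)).prodMk continuous_snd)
  have h1 : Continuous fun p : (ℝ × ((Fin n → ℝ) × ℝ)) × E n =>
      ((Real.exp (-(Real.pi * p.1.1 * QF p.1.2.1 p.2)) : ℝ) : ℂ) := by fun_prop
  have h2 : Measurable fun p : (ℝ × ((Fin n → ℝ) × ℝ)) × E n => (p.1.2, p.2) :=
    (measurable_snd.comp measurable_fst).prodMk measurable_snd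
  have h3 := hR.meas.comp h2
  have h4 := h1.measurable.mul h3
  exact h4

lemma es_m3 {R : (Fin n → ℝ) × ℝ → E n → ℂ} {B : ℝ} (hR : Sym R B) :
    Measurable fun p : (ℝ × ((Fin n → ℝ) × ℝ)) × E n => es R p.1.1 p.1.2 p.2 := by
  have h : Continuous fun p : (ℝ × ((Fin n → ℝ) × ℝ)) × E n => QF p.1.2.1 p.2 :=
    QF_c2.comp ((continuous_fst.comp (continuous_snd.comp continuous_fst)).prodMk continuous_snd)
  have h1 : Continuous fun p : (ℝ × ((Fin n → ℝ) × ℝ)) × E n =>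
      ((Real.pi * QF p.1.2.1 p.2 * Real.exp (-(Real.pi * p.1.1 * QF p.1.2.1 p.2)) : ℝ) : ℂ) := by
    fun_prop
  have h2 : Measurable fun p : (ℝ × ((Fin n → ℝ) × ℝ)) × E n => (p.1.2, p.2) :=
    (measurable_snd.comp measurable_fst).prodMk measurable_snd
  have h3 := hR.meas.comp h2
  have h4 := h1.measurable.mul h3
  exact h4

lemma hW_m3 {R : (Fin n → ℝ) × ℝ → E n → ℂ} {B : ℝ} (hR : Sym R B) :
    Measurable fun p : (ℝ × ((Fin n → ℝ) × ℝ)) × E n => hW R p.1.1 p.1.2 p.2 := by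
  have h1 : Continuous fun p : (ℝ × ((Fin n → ℝ) × ℝ)) × E n =>
      ((Real.exp (-(p.1.1 * ‖p.2‖ ^ 2)) : ℝ) : ℂ) := by
    fun_prop
  have h2 : Measurable fun p : (ℝ × ((Fin n → ℝ) × ℝ)) × E n => (p.1.2, p.2) :=
    (measurable_snd.comp measurable_fst).prodMk measurable_snd
  have h3 := hR.meas.comp h2
  have h4 := h1.measurable.mul h3
  exact h4

/-- joint measurability -/
lemma Mu_m3 {m : ℝ → (Fin n → ℝ) × ℝ → E n → ℂ}
    (hm : Measurable fun p : (ℝ × ((Fin n → ℝ) × ℝ)) × E n => m p.1.1 p.1.2 p.2)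
    {f : E n → ℂ} (hf : Integrable f) :
    Measurable fun q : ℝ × (((Fin n → ℝ) × ℝ) × E n) => Mu (m q.1 q.2.1) f q.2.2 := by
  have h1 := Mu_meas (Z := ℝ × ((Fin n → ℝ) × ℝ)) (m := fun q => m q.1 q.2) hm hf
  have h2 : Measurable fun q : ℝ × (((Fin n → ℝ) × ℝ) × E n) => q.2.1 :=
    measurable_fst.comp measurable_snd
  have h3 : Measurable fun q : ℝ × (((Fin n → ℝ) × ℝ) × E n) => q.2.2 :=
    measurable_snd.comp measurable_snd
  have h4 : Measurable fun q : ℝ × (((Fin n → ℝ) × ℝ) × E n) => (q.1, q.2.1) :=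
    measurable_fst.prodMk h2
  have h5 : Measurable fun q : ℝ × (((Fin n → ℝ) × ℝ) × E n) => ((q.1, q.2.1), q.2.2) :=
    h4.prodMk h3
  have h6 := h1.comp h5
  exact h6

lemma Mu_m2 {m : ℝ → (Fin n → ℝ) × ℝ → E n → ℂ}
    (hm : Measurable fun p : (ℝ × ((Fin n → ℝ) × ℝ)) × E n => m p.1.1 p.1.2 p.2)
    {f : E n → ℂ} (hf : Integrable f) (μ : ℝ) :
    Measurable fun z : ((Fin n → ℝ) × ℝ) × E n => Mu (m μ z.1) f z.2 := by
  have h1 : Measurable fun z : ((Fin n → ℝ) × ℝ) × E n => (μ, z) :=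
    measurable_const.prodMk measurable_id
  have h2 := (Mu_m3 hm hf).comp h1
  exact h2

lemma m_ξ {m : ℝ → (Fin n → ℝ) × ℝ → E n → ℂ}
    (hm : Measurable fun p : (ℝ × ((Fin n → ℝ) × ℝ)) × E n => m p.1.1 p.1.2 p.2)
    (μ : ℝ) (q : (Fin n → ℝ) × ℝ) : Measurable (m μ q) := by
  have h1 : Measurable fun ξ : E n => ((μ, q), ξ) := measurable_const.prodMk measurable_id
  have h2 := hm.comp h1
  exact h2

lemma m_νξ {m : ℝ → (Fin n → ℝ) × ℝ → E n → ℂ}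
    (hm : Measurable fun p : (ℝ × ((Fin n → ℝ) × ℝ)) × E n => m p.1.1 p.1.2 p.2)
    (q : (Fin n → ℝ) × ℝ) : Measurable fun p : ℝ × E n => m p.1 q p.2 := by
  have h1 : Measurable fun p : ℝ × E n => (p.1, q) := measurable_fst.prodMk measurable_const
  have h2 : Measurable fun p : ℝ × E n => ((p.1, q), p.2) := h1.prodMk measurable_snd
  have h3 := hm.comp h2
  exact h3

lemma el_split_pt (R : (Fin n → ℝ) × ℝ → E n → ℂ) {μ c₁ : ℝ} (hμc : μ ≤ c₁)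
    (q : (Fin n → ℝ) × ℝ) (ξ : E n) :
    el R μ q ξ = el R c₁ q ξ + ∫ ν in Ioc μ c₁, es R ν q ξ := by
  have h1 : ∀ ν ∈ uIcc μ c₁, HasDerivAt
      (fun ν : ℝ => -((Real.exp (-(Real.pi * ν * QF q.1 ξ)) : ℝ) : ℂ))
      ((Real.pi * QF q.1 ξ * Real.exp (-(Real.pi * ν * QF q.1 ξ)) : ℝ) : ℂ) ν := by
    intro ν _
    have h2 : HasDerivAt (fun ν : ℝ => -(Real.pi * ν * QF q.1 ξ)) (-(Real.pi * 1 * QF q.1 ξ)) ν :=
      (((hasDerivAt_id ν).const_mul Real.pi).mul_const (QF q.1 ξ)).neg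
    have h3 : HasDerivAt (fun ν : ℝ => -Real.exp (-(Real.pi * ν * QF q.1 ξ)))
        (Real.pi * QF q.1 ξ * Real.exp (-(Real.pi * ν * QF q.1 ξ))) ν := by
      refine (h2.exp.neg).congr_deriv ?_
      ring
    have h4 := h3.ofReal_comp
    simpa only [Complex.ofReal_neg] using h4
  have h2 : Continuous fun ν : ℝ =>
      ((Real.pi * QF q.1 ξ * Real.exp (-(Real.pi * ν * QF q.1 ξ)) : ℝ) : ℂ) := by fun_prop
  have h3 := intervalIntegral.integral_eq_sub_of_hasDerivAt h1 (h2.intervalIntegrable _ _)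
  rw [intervalIntegral.integral_of_le hμc] at h3
  unfold el es
  rw [integral_mul_const, h3]
  ring

lemma el_split {R : (Fin n → ℝ) × ℝ → E n → ℂ} {B : ℝ} (hR : Sym R B) {α μ c₁ : ℝ} (hα : 0 < α)
    (hμ : 0 < μ) (hμc : μ ≤ c₁) {q : (Fin n → ℝ) × ℝ} (hq : ∀ j, α ≤ q.1 j)
    {f : E n → ℂ} (hf : Integrable f) (x : E n) :
    Mu (el R μ q) f x = Mu (el R c₁ q) f x + ∫ ν in Ioc μ c₁, Mu (es R ν q) f x := by
  have hc : 0 < c₁ := lt_of_lt_of_le hμ hμc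
  have hB := hR.B0
  have hG : Integrable fun ξ : E n => (2 / μ * ((1 + |q.2|) * B)) *
      (Real.exp (-(Real.pi * (μ / 2) * α * ‖ξ‖ ^ 2)) * (1 + ‖ξ‖ ^ 2)) :=
    (poly_int (by positivity)).const_mul _
  have hi : Integrable (Function.uncurry fun (ν : ℝ) (ξ : E n) => es R ν q ξ * 𝓕 f ξ *
      cexp (((2 * Real.pi * ⟪x, ξ⟫ : ℝ) : ℂ) * I))
      ((volume.restrict (Ioc μ c₁)).prod volume) := by
    have h1 : Integrable (fun p : ℝ × E n => (1 : ℝ) *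
        ((2 / μ * ((1 + |q.2|) * B)) *
      (Real.exp (-(Real.pi * (μ / 2) * α * ‖p.2‖ ^ 2)) * (1 + ‖p.2‖ ^ 2)) * ∫ y, ‖f y‖))
        ((volume.restrict (Ioc μ c₁)).prod volume) :=
      (integrable_const (1 : ℝ)).mul_prod (hG.mul_const _)
    have hmem : ∀ᵐ p ∂((volume.restrict (Ioc μ c₁)).prod (volume : Measure (E n))),
        p.1 ∈ Ioc μ c₁ :=
      Measure.quasiMeasurePreserving_fst.ae (ae_restrict_mem measurableSet_Ioc)
    have hmm : Measurable (Function.uncurry fun (ν : ℝ) (ξ : E n) => es R ν q ξ * 𝓕 f ξ *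
        cexp (((2 * Real.pi * ⟪x, ξ⟫ : ℝ) : ℂ) * I)) := by
      have h2 : Measurable fun q : ℝ × E n => 𝓕 f q.2 := (meas_F hf).comp measurable_snd
      have h3 : Continuous fun q : ℝ × E n => cexp (((2 * Real.pi * ⟪x, q.2⟫ : ℝ) : ℂ) * I) := by
        fun_prop
      exact ((m_νξ (es_m3 hR) q).mul h2).mul h3.measurable
    refine h1.mono' hmm.aestronglyMeasurable ?_
    filter_upwards [hmem] with p hp
    simp only [Function.uncurry]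
    rw [norm_mul, norm_mul, one_mul]
    calc ‖es R p.1 q p.2‖ * ‖𝓕 f p.2‖ * ‖cexp (((2 * Real.pi * ⟪x, p.2⟫ : ℝ) : ℂ) * I)‖
        ≤ ‖es R p.1 q p.2‖ * ‖𝓕 f p.2‖ * 1 := by
          gcongr
          exact e_norm _ _
      _ ≤ _ := by
          rw [mul_one]
          exact mul_le_mul (es_bd hR hα hμ hp.1.le hq _) (F_bd _) (norm_nonneg _) (by positivity)
  have h1 := Mu_int2 (Mu_int (m_ξ (el_m3 hR) c₁ q)
    ((poly_int (n := n) (τ := Real.pi * c₁ * α) (by positivity)).const_mul _)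
    (el_bd hR hc hq) hf) x
  have e1 : ∫ ν in Ioc μ c₁, Mu (es R ν q) f x = ∫ ξ : E n, ∫ ν in Ioc μ c₁,
      es R ν q ξ * 𝓕 f ξ * cexp (((2 * Real.pi * ⟪x, ξ⟫ : ℝ) : ℂ) * I) := by
    unfold Mu
    exact integral_integral_swap hi
  have h2 := hi.integral_prod_right
  rw [e1]
  unfold Mu
  simp only [Function.uncurry] at h2
  rw [← integral_add h1 h2]
  congr 1
  ext ξ
  rw [el_split_pt R hμc]
  have e2 : ∀ ν : ℝ, es R ν q ξ * 𝓕 f ξ * cexp (((2 * Real.pi * ⟪x, ξ⟫ : ℝ) : ℂ) * I) =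
      es R ν q ξ * (𝓕 f ξ * cexp (((2 * Real.pi * ⟪x, ξ⟫ : ℝ) : ℂ) * I)) := fun ν => by ring
  simp only [e2]
  rw [integral_mul_const]
  ring

lemma box_z {α β : ℝ} : ∀ᵐ z ∂(zm n α β), ∀ j, z.1.1 j ∈ Icc α β :=
  Measure.quasiMeasurePreserving_fst.ae
    (Measure.quasiMeasurePreserving_fst.ae (nu_ae n α β))

/-- the integral over the scales, general symbol -/
theorem genI {R : (Fin n → ℝ) × ℝ → E n → ℂ} {B : ℝ} (hR : Sym R B) {α β p κ c₁ : ℝ}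
    (hα : 0 < α) (hp : 1 < p) (hκ0 : 0 < κ) (hc1 : c₁ ≤ 1)
    {C1 C2 : ℝ≥0∞} (hC1 : C1 ≠ ⊤) (hC2 : C2 ≠ ⊤)
    (hS : ∀ f : E n → ℂ, GB f → ∀ ν : ℝ, 0 < ν → ν ≤ c₁ →
      ∫⁻ z, (ENNReal.ofReal (ν ^ (1 + κ / 2)) * ‖Mu (es R ν z.1) f z.2‖ₑ) ^ p
        ∂(zm n α β) ≤ C1 * ∫⁻ x, ‖f x‖ₑ ^ p)
    (hL : ∀ f : E n → ℂ, GB f → ∫⁻ z, ‖Mu (el R c₁ z.1) f z.2‖ₑ ^ p ∂(zm n α β) ≤
      C2 * ∫⁻ x, ‖f x‖ₑ ^ p) :
    ∃ C : ℝ≥0∞, C ≠ ⊤ ∧ ∀ (f : E n → ℂ), GB f → ∀ μ : ℝ, 0 < μ → μ ≤ c₁ →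
      ∫⁻ z, (ENNReal.ofReal (μ ^ (κ / 2)) * ‖Mu (el R μ z.1) f z.2‖ₑ) ^ p
        ∂(zm n α β) ≤ C * ∫⁻ x, ‖f x‖ₑ ^ p := by
  have hp0 : 0 < p := by linarith
  refine ⟨2 ^ (p - 1) * (C2 + ENNReal.ofReal (2 / κ) ^ p * C1), ?_, fun f hf μ hμ hμc => ?_⟩
  · refine ENNReal.mul_ne_top (ENNReal.rpow_ne_top_of_nonneg (by linarith) (by norm_num))
      (ENNReal.add_ne_top.2 ⟨hC2, ENNReal.mul_ne_top
        (ENNReal.rpow_ne_top_of_nonneg hp0.le ENNReal.ofReal_ne_top) hC1⟩)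
  obtain ⟨v, hv⟩ : ∃ v : ℝ → ℝ≥0∞, v = fun ν => ENNReal.ofReal (ν ^ (-(1 + κ / 2))) := ⟨_, rfl⟩
  have hvm : Measurable v := by
    rw [hv]
    exact (measurable_id.pow_const _).ennreal_ofReal
  obtain ⟨h, hh⟩ : ∃ h : ℝ → ((Fin n → ℝ) × ℝ) × E n → ℝ≥0∞, h = fun ν z =>
      ENNReal.ofReal (ν ^ (1 + κ / 2)) * ‖Mu (es R ν z.1) f z.2‖ₑ := ⟨_, rfl⟩
  have hhm : Measurable (Function.uncurry h) := by
    rw [hh]
    have h1 : Measurable fun q : ℝ × (((Fin n → ℝ) × ℝ) × E n) =>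
        ENNReal.ofReal (q.1 ^ (1 + κ / 2)) := (measurable_fst.pow_const _).ennreal_ofReal
    have h2 := h1.mul (Mu_m3 (es_m3 hR) hf.int).enorm
    exact h2
  have hM := minkw (volume.restrict (Ioc μ c₁)) (zm n α β) hvm hhm (p := p) (by linarith)
    (C1 * ∫⁻ x, ‖f x‖ₑ ^ p) (by
      filter_upwards [ae_restrict_mem measurableSet_Ioc] with ν hν
      have hν0 : 0 < ν := lt_trans hμ hν.1
      have h1 := hS f hf ν hν0 hν.2
      rw [hh]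
      exact h1)
  have hmlm := Mu_m2 (el_m3 hR) hf.int c₁
  have hpt : ∀ᵐ z ∂(zm n α β),
      (ENNReal.ofReal (μ ^ (κ / 2)) * ‖Mu (el R μ z.1) f z.2‖ₑ) ^ p ≤
      2 ^ (p - 1) * (‖Mu (el R c₁ z.1) f z.2‖ₑ ^ p + ENNReal.ofReal (μ ^ (κ / 2)) ^ p *
        (∫⁻ ν in Ioc μ c₁, v ν * h ν z) ^ p) := by
    filter_upwards [box_z (n := n) (α := α) (β := β)] with z hz
    rw [← ENNReal.mul_rpow_of_nonneg _ _ hp0.le]
    refine le_trans ?_ (ENNReal.rpow_add_le_mul_rpow_add_rpow _ _ (by linarith))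
    refine ENNReal.rpow_le_rpow ?_ hp0.le
    rw [el_split hR hα hμ hμc (fun j => (hz j).1) hf.int z.2]
    refine (mul_le_mul_right (enorm_add_le _ _) _).trans ?_
    rw [mul_add]
    refine add_le_add ?_ ?_
    · refine mul_le_of_le_one_left bot_le ?_
      rw [ENNReal.ofReal_le_one]
      exact Real.rpow_le_one hμ.le (by linarith) (by positivity)
    · refine mul_le_mul_right ((enorm_integral_le_lintegral_enorm _).trans (le_of_eq ?_)) _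
      refine setLIntegral_congr_fun measurableSet_Ioc fun ν hν => ?_
      have hν0 : 0 < ν := lt_trans hμ hν.1
      rw [hv, hh]
      simp only
      rw [← mul_assoc, ← ENNReal.ofReal_mul (by positivity), ← Real.rpow_add hν0]
      simp
  have hLf := hL f hf
  obtain ⟨F, hF⟩ : ∃ F, F = ∫⁻ x, ‖f x‖ₑ ^ p := ⟨_, rfl⟩
  rw [← hF] at hM hLf ⊢
  calc ∫⁻ z, (ENNReal.ofReal (μ ^ (κ / 2)) * ‖Mu (el R μ z.1) f z.2‖ₑ) ^ p ∂(zm n α β)
      ≤ ∫⁻ z, 2 ^ (p - 1) * (‖Mu (el R c₁ z.1) f z.2‖ₑ ^ p +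
          ENNReal.ofReal (μ ^ (κ / 2)) ^ p * (∫⁻ ν in Ioc μ c₁, v ν * h ν z) ^ p)
          ∂(zm n α β) := lintegral_mono_ae hpt
    _ = 2 ^ (p - 1) * ((∫⁻ z, ‖Mu (el R c₁ z.1) f z.2‖ₑ ^ p ∂(zm n α β)) +
          ENNReal.ofReal (μ ^ (κ / 2)) ^ p *
            ∫⁻ z, (∫⁻ ν in Ioc μ c₁, v ν * h ν z) ^ p ∂(zm n α β)) := by
        have hne : (2 : ℝ≥0∞) ^ (p - 1) ≠ ⊤ :=
          ENNReal.rpow_ne_top_of_nonneg (by linarith) (by norm_num)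
        rw [lintegral_const_mul' _ _ hne, lintegral_add_left (hmlm.enorm.pow_const p),
          lintegral_const_mul' _ _ (ENNReal.rpow_ne_top_of_nonneg hp0.le ENNReal.ofReal_ne_top)]
    _ ≤ 2 ^ (p - 1) * (C2 * F +
          ENNReal.ofReal (μ ^ (κ / 2)) ^ p * ((∫⁻ ν in Ioc μ c₁, v ν) ^ p * (C1 * F))) := by
        gcongr
    _ = 2 ^ (p - 1) * (C2 * F +
          (ENNReal.ofReal (μ ^ (κ / 2)) * (∫⁻ ν in Ioc μ c₁, v ν)) ^ p * (C1 * F)) := by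
        rw [ENNReal.mul_rpow_of_nonneg _ _ hp0.le]
        ring
    _ ≤ 2 ^ (p - 1) * (C2 * F + (ENNReal.ofReal (2 / κ)) ^ p * (C1 * F)) := by
        gcongr
        rw [hv]
        exact wt_int hκ0 hμ hμc
    _ = _ := by ring

end Pool.Agent.TH292.LS
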