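import Mathlib
import Pool.Agent.TH292.LS.T
set_option autoImplicit false

/-! The Bessel potential, for a general symbol. -/

namespace Pool.Agent.TH292.LS

open Complex MeasureTheory Set Filter Topology
open scoped ENNReal FourierTransform ComplexConjugate RealInnerProductSpace
open Pool.Agent.TH310.BZ

variable {n : ℕ}

lemma bW_sym {R : (Fin n → ℝ) × ℝ → E n → ℂ} {B : ℝ} (hR : Sym R B) {s : ℝ} (hs : 0 ≤ s) :
    Sym (bW s R) B := by
  refine ⟨?_, hR.B0, fun q ξ => ?_⟩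
  · unfold bW
    have h2 : Continuous fun q : ((Fin n → ℝ) × ℝ) × E n =>
        (((1 + 4 * Real.pi ^ 2 * ‖q.2‖ ^ 2) ^ (-(s / 2)) : ℝ) : ℂ) := by
      refine Complex.continuous_ofReal.comp (Continuous.rpow_const (by fun_prop) fun q => Or.inl ?_)
      positivity
    exact h2.measurable.mul hR.meas
  · unfold bW
    rw [norm_mul, Complex.norm_real, Real.norm_of_nonneg (by positivity)]
    refine le_trans (mul_le_of_le_one_left (norm_nonneg _) ?_) (hR.bd q ξ)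
    refine Real.rpow_le_one_of_one_le_of_nonpos ?_ (by linarith)
    have : 0 ≤ 4 * Real.pi ^ 2 * ‖ξ‖ ^ 2 := by positivity
    linarith

lemma hW_el (R : (Fin n → ℝ) × ℝ → E n → ℂ) (σ μ : ℝ) (q : (Fin n → ℝ) × ℝ) (ξ : E n) :
    hW R σ q ξ = gs (fun j => (σ - Real.pi * μ * q.1 j) / Real.pi) ξ * el R μ q ξ := by
  unfold hW gs el
  rw [← mul_assoc, ← Complex.ofReal_neg, ← Complex.ofReal_exp, ← Complex.ofReal_mul,
    ← Real.exp_add]
  congr 3
  have h1 : Real.pi * QF (fun j => (σ - Real.pi * μ * q.1 j) / Real.pi) ξ =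
      σ * ‖ξ‖ ^ 2 - Real.pi * μ * QF q.1 ξ := by
    rw [EuclideanSpace.real_norm_sq_eq]
    unfold QF
    rw [Finset.mul_sum, Finset.mul_sum, Finset.mul_sum, ← Finset.sum_sub_distrib]
    refine Finset.sum_congr rfl fun j _ => ?_
    field_simp
  rw [h1]
  ring

lemma el_int {R : (Fin n → ℝ) × ℝ → E n → ℂ} {B : ℝ} (hR : Sym R B) {α μ : ℝ} (hα : 0 < α)
    (hμ : 0 < μ) {q : (Fin n → ℝ) × ℝ} (hq : ∀ j, α ≤ q.1 j) {f : E n → ℂ} (hf : Integrable f) :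
    Integrable fun ξ => el R μ q ξ * 𝓕 f ξ :=
  Mu_int (m_ξ (el_m3 hR) μ q)
    ((poly_int (n := n) (τ := Real.pi * μ * α) (by positivity)).const_mul _) (el_bd hR hμ hq) hf

/-- an isotropic heat factor costs nothing -/
lemma hW_le {R : (Fin n → ℝ) × ℝ → E n → ℂ} {B : ℝ} (hR : Sym R B) {α β : ℝ} (hα : 0 < α)
    {μ σ : ℝ} (hμ : 0 < μ) (hσ : Real.pi * μ * β < σ)
    {p : ℝ} (hp : 1 < p) (w : ℝ≥0∞) {f : E n → ℂ} (hf : Integrable f) :
    ∫⁻ z, (w * ‖Mu (hW R σ z.1) f z.2‖ₑ) ^ p ∂(zm n α β) ≤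
      ∫⁻ z, (w * ‖Mu (el R μ z.1) f z.2‖ₑ) ^ p ∂(zm n α β) := by
  have hp0 : 0 < p := by linarith
  have hm1 : Measurable fun z : ((Fin n → ℝ) × ℝ) × E n => (w * ‖Mu (hW R σ z.1) f z.2‖ₑ) ^ p :=
    ((Mu_m2 (hW_m3 hR) hf σ).enorm.const_mul _).pow_const p
  have hm2 : Measurable fun z : ((Fin n → ℝ) × ℝ) × E n => (w * ‖Mu (el R μ z.1) f z.2‖ₑ) ^ p :=
    ((Mu_m2 (el_m3 hR) hf μ).enorm.const_mul _).pow_const p
  rw [lintegral_prod _ hm1.aemeasurable, lintegral_prod _ hm2.aemeasurable]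
  have hbox : ∀ᵐ q ∂((nu n α β).prod (volume.restrict (Icc (1 : ℝ) 2))), ∀ j, q.1 j ∈ Icc α β :=
    Measure.quasiMeasurePreserving_fst.ae (nu_ae n α β)
  refine lintegral_mono_ae ?_
  filter_upwards [hbox] with q hq
  have hc : ∀ j, 0 < (σ - Real.pi * μ * q.1 j) / Real.pi := by
    intro j
    have h1 : Real.pi * μ * q.1 j ≤ Real.pi * μ * β :=
      mul_le_mul_of_nonneg_left (hq j).2 (by positivity)
    exact div_pos (by linarith) Real.pi_pos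
  have h1 := gauss_p hc (m := el R μ q) (m_ξ (el_m3 hR) μ q) hf
    (el_int hR hα hμ (fun j => (hq j).1) hf) hp
  have h2 : (fun ξ => gs (fun j => (σ - Real.pi * μ * q.1 j) / Real.pi) ξ * el R μ q ξ) =
      hW R σ q := by
    ext ξ
    rw [hW_el R σ μ]
  rw [h2] at h1
  simp only [ENNReal.mul_rpow_of_nonneg _ _ hp0.le]
  have hmx1 : Measurable fun x => ‖Mu (hW R σ q) f x‖ₑ ^ p :=
    (Mu_meas_x (m_ξ (hW_m3 hR) σ q) hf).enorm.pow_const p
  have hmx2 : Measurable fun x => ‖Mu (el R μ q) f x‖ₑ ^ p :=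
    (Mu_meas_x (m_ξ (el_m3 hR) μ q) hf).enorm.pow_const p
  rw [lintegral_const_mul _ hmx1, lintegral_const_mul _ hmx2]
  exact mul_le_mul_right h1 _

lemma hbW_pt (R : (Fin n → ℝ) × ℝ → E n → ℂ) {s : ℝ} (hs : 0 < s) (τ : ℝ)
    (q : (Fin n → ℝ) × ℝ) (ξ : E n) :
    hW (bW s R) τ q ξ = (((Real.Gamma (s / 2))⁻¹ : ℝ) : ℂ) * ∫ lam in Ioi (0 : ℝ),
      ((lam ^ (s / 2 - 1) * Real.exp (-lam) : ℝ) : ℂ) *
        hW R (4 * Real.pi ^ 2 * lam + τ) q ξ := by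
  have h1 : ∀ lam : ℝ, ((lam ^ (s / 2 - 1) * Real.exp (-lam) : ℝ) : ℂ) *
      hW R (4 * Real.pi ^ 2 * lam + τ) q ξ =
      ((Real.exp (-(τ * ‖ξ‖ ^ 2)) * (lam ^ (s / 2 - 1) * Real.exp (-lam) *
          Real.exp (-(4 * Real.pi ^ 2 * ‖ξ‖ ^ 2 * lam))) : ℝ) : ℂ) * R q ξ := by
    intro lam
    unfold hW
    rw [← mul_assoc, ← Complex.ofReal_mul]
    congr 2
    have e : Real.exp (-((4 * Real.pi ^ 2 * lam + τ) * ‖ξ‖ ^ 2)) =
        Real.exp (-(τ * ‖ξ‖ ^ 2)) * Real.exp (-(4 * Real.pi ^ 2 * ‖ξ‖ ^ 2 * lam)) := by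
      rw [← Real.exp_add]
      congr 1
      ring
    rw [e]
    ring
  simp only [h1]
  rw [integral_mul_const, integral_complex_ofReal, integral_const_mul]
  unfold hW bW
  rw [bes hs (by positivity), ← mul_assoc, ← mul_assoc, ← Complex.ofReal_mul,
    ← Complex.ofReal_mul]
  congr 2
  ring

lemma Mu_hbW {R : (Fin n → ℝ) × ℝ → E n → ℂ} {B : ℝ} (hR : Sym R B) {s : ℝ} (hs : 0 < s)
    {τ : ℝ} (hτ : 0 < τ) (q : (Fin n → ℝ) × ℝ) {f : E n → ℂ} (hf : Integrable f) (x : E n) :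
    Mu (hW (bW s R) τ q) f x = (((Real.Gamma (s / 2))⁻¹ : ℝ) : ℂ) * ∫ lam in Ioi (0 : ℝ),
      ((lam ^ (s / 2 - 1) * Real.exp (-lam) : ℝ) : ℂ) *
        Mu (hW R (4 * Real.pi ^ 2 * lam + τ) q) f x := by
  have hB := hR.B0
  have hi : Integrable (Function.uncurry fun (lam : ℝ) (ξ : E n) =>
      ((lam ^ (s / 2 - 1) * Real.exp (-lam) : ℝ) : ℂ) * (hW R (4 * Real.pi ^ 2 * lam + τ) q ξ *
        𝓕 f ξ * cexp (((2 * Real.pi * ⟪x, ξ⟫ : ℝ) : ℂ) * I)))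
      ((volume.restrict (Ioi (0 : ℝ))).prod volume) := by
    have h1 : Integrable (fun p : ℝ × E n => (p.1 ^ (s / 2 - 1) * Real.exp (-p.1)) *
        (((1 + |q.2|) * B) * (Real.exp (-(τ * ‖p.2‖ ^ 2)) * (1 + ‖p.2‖ ^ 2)) * ∫ y, ‖f y‖))
        ((volume.restrict (Ioi (0 : ℝ))).prod volume) :=
      (gam_int hs).mul_prod (((poly_int hτ).const_mul _).mul_const _)
    have hmem : ∀ᵐ p ∂((volume.restrict (Ioi (0 : ℝ))).prod (volume : Measure (E n))),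
        p.1 ∈ Ioi (0 : ℝ) :=
      Measure.quasiMeasurePreserving_fst.ae (ae_restrict_mem measurableSet_Ioi)
    have hmm : Measurable (Function.uncurry fun (lam : ℝ) (ξ : E n) =>
        ((lam ^ (s / 2 - 1) * Real.exp (-lam) : ℝ) : ℂ) * (hW R (4 * Real.pi ^ 2 * lam + τ) q ξ *
        𝓕 f ξ * cexp (((2 * Real.pi * ⟪x, ξ⟫ : ℝ) : ℂ) * I))) := by
      have h2 : Measurable fun q : ℝ × E n => 𝓕 f q.2 := (meas_F hf).comp measurable_snd
      have h3 : Continuous fun q : ℝ × E n => cexp (((2 * Real.pi * ⟪x, q.2⟫ : ℝ) : ℂ) * I) := by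
        fun_prop
      have h4 : Measurable fun q : ℝ × E n =>
          ((q.1 ^ (s / 2 - 1) * Real.exp (-q.1) : ℝ) : ℂ) := by
        have h5 : Measurable fun q : ℝ × E n => q.1 ^ (s / 2 - 1) := measurable_fst.pow_const _
        have h6 : Measurable fun q : ℝ × E n => Real.exp (-q.1) := by fun_prop
        exact Complex.measurable_ofReal.comp (h5.mul h6)
      have h5 : Measurable fun p : ℝ × E n => hW R (4 * Real.pi ^ 2 * p.1 + τ) q p.2 := by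
        have h6 : Measurable fun p : ℝ × E n => (4 * Real.pi ^ 2 * p.1 + τ, p.2) :=
          ((measurable_fst.const_mul _).add_const _).prodMk measurable_snd
        have h7 := (m_νξ (hW_m3 hR) q).comp h6
        exact h7
      exact h4.mul ((h5.mul h2).mul h3.measurable)
    refine h1.mono' hmm.aestronglyMeasurable ?_
    filter_upwards [hmem] with p hp
    have hp0 : 0 < p.1 := hp
    simp only [Function.uncurry]
    rw [norm_mul, norm_mul, norm_mul, Complex.norm_real, Real.norm_of_nonneg (by positivity)]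
    refine mul_le_mul_of_nonneg_left ?_ (by positivity)
    calc ‖hW R (4 * Real.pi ^ 2 * p.1 + τ) q p.2‖ * ‖𝓕 f p.2‖ *
          ‖cexp (((2 * Real.pi * ⟪x, p.2⟫ : ℝ) : ℂ) * I)‖
        ≤ ‖hW R (4 * Real.pi ^ 2 * p.1 + τ) q p.2‖ * ‖𝓕 f p.2‖ * 1 := by
          gcongr
          exact e_norm _ _
      _ ≤ _ := by
          rw [mul_one]
          refine mul_le_mul ((hW_bd hR _ q _).trans ?_) (F_bd _) (norm_nonneg _) (by positivity)
          have h2 : Real.exp (-((4 * Real.pi ^ 2 * p.1 + τ) * ‖p.2‖ ^ 2)) ≤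
              Real.exp (-(τ * ‖p.2‖ ^ 2)) := by
            apply Real.exp_le_exp.2
            have : 0 ≤ 4 * Real.pi ^ 2 * p.1 * ‖p.2‖ ^ 2 := by positivity
            nlinarith
          gcongr
  have e1 : ∫ lam in Ioi (0 : ℝ), ((lam ^ (s / 2 - 1) * Real.exp (-lam) : ℝ) : ℂ) *
        Mu (hW R (4 * Real.pi ^ 2 * lam + τ) q) f x = ∫ ξ : E n, ∫ lam in Ioi (0 : ℝ),
      ((lam ^ (s / 2 - 1) * Real.exp (-lam) : ℝ) : ℂ) * (hW R (4 * Real.pi ^ 2 * lam + τ) q ξ *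
        𝓕 f ξ * cexp (((2 * Real.pi * ⟪x, ξ⟫ : ℝ) : ℂ) * I)) := by
    unfold Mu
    simp only [← integral_const_mul]
    exact integral_integral_swap hi
  rw [e1, ← integral_const_mul]
  unfold Mu
  congr 1
  ext ξ
  have e2 : ∀ lam : ℝ, ((lam ^ (s / 2 - 1) * Real.exp (-lam) : ℝ) : ℂ) *
      (hW R (4 * Real.pi ^ 2 * lam + τ) q ξ * 𝓕 f ξ *
        cexp (((2 * Real.pi * ⟪x, ξ⟫ : ℝ) : ℂ) * I)) =
      (((lam ^ (s / 2 - 1) * Real.exp (-lam) : ℝ) : ℂ) *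
        hW R (4 * Real.pi ^ 2 * lam + τ) q ξ) * (𝓕 f ξ *
        cexp (((2 * Real.pi * ⟪x, ξ⟫ : ℝ) : ℂ) * I)) := fun lam => by ring
  simp only [e2]
  rw [integral_mul_const, hbW_pt R hs]
  ring

/-- the Bessel potential, general symbol -/
theorem genII {R : (Fin n → ℝ) × ℝ → E n → ℂ} {B : ℝ} (hR : Sym R B) {α β p κ c₁ s : ℝ}
    (hα : 0 < α) (hp : 1 < p) (hκs : κ < s) (hs0 : 0 < s) (hc0 : 0 < c₁) (hcβ : c₁ * β ≤ 1)
    {C : ℝ≥0∞} (hC : C ≠ ⊤)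
    (hI : ∀ (f : E n → ℂ), GB f → ∀ μ : ℝ, 0 < μ → μ ≤ c₁ →
      ∫⁻ z, (ENNReal.ofReal (μ ^ (κ / 2)) * ‖Mu (el R μ z.1) f z.2‖ₑ) ^ p
        ∂(zm n α β) ≤ C * ∫⁻ x, ‖f x‖ₑ ^ p) :
    ∃ C' : ℝ≥0∞, C' ≠ ⊤ ∧ ∀ (f : E n → ℂ), GB f → ∀ τ : ℝ, 0 < τ →
      ∫⁻ z, ‖Mu (hW (bW s R) τ z.1) f z.2‖ₑ ^ p ∂(zm n α β) ≤ C' * ∫⁻ x, ‖f x‖ₑ ^ p := by
  have hp0 : 0 < p := by linarith
  obtain ⟨v, hv⟩ : ∃ v : ℝ → ℝ≥0∞, v = fun lam => ENNReal.ofReal (lam ^ (s / 2 - 1) *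
      Real.exp (-lam) * mc c₁ lam ^ (-(κ / 2))) := ⟨_, rfl⟩
  have hmcm : Measurable (mc c₁) := by
    unfold mc
    exact (measurable_const.min measurable_id).const_mul _
  have hvm : Measurable v := by
    rw [hv]
    have h1 : Measurable fun lam : ℝ => lam ^ (s / 2 - 1) := measurable_id.pow_const _
    have h2 : Measurable fun lam : ℝ => Real.exp (-lam) := by fun_prop
    exact ((h1.mul h2).mul (hmcm.pow_const _)).ennreal_ofReal
  have hvf : ∫⁻ lam in Ioi (0 : ℝ), v lam ≠ ⊤ := by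
    rw [hv]
    exact (v_fin hs0 hκs hc0).ne
  have hG : 0 < Real.Gamma (s / 2) := Real.Gamma_pos_of_pos (by linarith)
  refine ⟨ENNReal.ofReal ((Real.Gamma (s / 2))⁻¹) ^ p * ((∫⁻ lam in Ioi (0 : ℝ), v lam) ^ p * C),
    ENNReal.mul_ne_top (ENNReal.rpow_ne_top_of_nonneg hp0.le ENNReal.ofReal_ne_top)
      (ENNReal.mul_ne_top (ENNReal.rpow_ne_top_of_nonneg hp0.le hvf) hC), fun f hf τ hτ => ?_⟩
  obtain ⟨h, hh⟩ : ∃ h : ℝ → ((Fin n → ℝ) × ℝ) × E n → ℝ≥0∞, h = fun lam z =>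
      ENNReal.ofReal (mc c₁ lam ^ (κ / 2)) *
        ‖Mu (hW R (4 * Real.pi ^ 2 * lam + τ) z.1) f z.2‖ₑ := ⟨_, rfl⟩
  have hhm : Measurable (Function.uncurry h) := by
    rw [hh]
    have h1 : Measurable fun q : ℝ × (((Fin n → ℝ) × ℝ) × E n) =>
        ENNReal.ofReal (mc c₁ q.1 ^ (κ / 2)) :=
      ((hmcm.comp measurable_fst).pow_const _).ennreal_ofReal
    have h2 : Measurable fun q : ℝ × (((Fin n → ℝ) × ℝ) × E n) =>
        (4 * Real.pi ^ 2 * q.1 + τ, q.2) :=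
      ((measurable_fst.const_mul _).add_const _).prodMk measurable_snd
    have h3 := (Mu_m3 (hW_m3 hR) hf.int).comp h2
    have h4 := h1.mul h3.enorm
    exact h4
  have hM := minkw (volume.restrict (Ioi (0 : ℝ))) (zm n α β) hvm hhm (p := p) (by linarith)
    (C * ∫⁻ x, ‖f x‖ₑ ^ p) (by
      filter_upwards [ae_restrict_mem measurableSet_Ioi] with lam hl
      have hl0 : 0 < lam := hl
      rw [hh]
      have h1 : Real.pi * mc c₁ lam * β < 4 * Real.pi ^ 2 * lam + τ := by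
        have h2 : mc c₁ lam * β ≤ lam := by
          unfold mc
          have h3 : min 1 lam ≤ lam := min_le_right _ _
          have h4 : 0 < min 1 lam := lt_min one_pos hl0
          calc c₁ * min 1 lam * β = (c₁ * β) * min 1 lam := by ring
            _ ≤ 1 * lam := mul_le_mul hcβ h3 h4.le zero_le_one
            _ = lam := one_mul _
        have h3 := Real.pi_gt_three
        calc Real.pi * mc c₁ lam * β = Real.pi * (mc c₁ lam * β) := by ring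
          _ ≤ Real.pi * lam := by gcongr
          _ ≤ 4 * Real.pi ^ 2 * lam := by
              apply mul_le_mul_of_nonneg_right _ hl0.le
              nlinarith
          _ < _ := by linarith
      exact (hW_le hR hα (mc_pos hc0 hl0) h1 (by linarith) _ hf.int).trans
        (hI f hf _ (mc_pos hc0 hl0) (mc_le hc0)))
  have hpt : ∀ z : ((Fin n → ℝ) × ℝ) × E n, ‖Mu (hW (bW s R) τ z.1) f z.2‖ₑ ^ p ≤
      ENNReal.ofReal ((Real.Gamma (s / 2))⁻¹) ^ p *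
        (∫⁻ lam in Ioi (0 : ℝ), v lam * h lam z) ^ p := by
    intro z
    rw [← ENNReal.mul_rpow_of_nonneg _ _ hp0.le]
    refine ENNReal.rpow_le_rpow ?_ hp0.le
    rw [Mu_hbW hR hs0 hτ z.1 hf.int z.2, enorm_mul]
    refine mul_le_mul' (le_of_eq ?_) ?_
    · rw [← ofReal_norm, Complex.norm_real, Real.norm_of_nonneg (by positivity)]
    · refine (enorm_integral_le_lintegral_enorm _).trans (le_of_eq ?_)
      refine setLIntegral_congr_fun measurableSet_Ioi fun lam hl => ?_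
      have hl0 : 0 < lam := hl
      have hm0 := mc_pos hc0 hl0
      rw [hv, hh]
      simp only
      rw [enorm_mul, ← mul_assoc, ← ENNReal.ofReal_mul (by positivity), mul_assoc
        (lam ^ (s / 2 - 1) * Real.exp (-lam)), ← Real.rpow_add hm0, neg_add_cancel,
        Real.rpow_zero, mul_one]
      congr 1
      rw [← ofReal_norm, Complex.norm_real, Real.norm_of_nonneg (by positivity)]
  calc ∫⁻ z, ‖Mu (hW (bW s R) τ z.1) f z.2‖ₑ ^ p ∂(zm n α β)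
      ≤ ∫⁻ z, ENNReal.ofReal ((Real.Gamma (s / 2))⁻¹) ^ p *
        (∫⁻ lam in Ioi (0 : ℝ), v lam * h lam z) ^ p ∂(zm n α β) := lintegral_mono hpt
    _ = ENNReal.ofReal ((Real.Gamma (s / 2))⁻¹) ^ p *
        ∫⁻ z, (∫⁻ lam in Ioi (0 : ℝ), v lam * h lam z) ^ p ∂(zm n α β) :=
        lintegral_const_mul' _ _ (ENNReal.rpow_ne_top_of_nonneg hp0.le ENNReal.ofReal_ne_top)
    _ ≤ ENNReal.ofReal ((Real.Gamma (s / 2))⁻¹) ^ p *
        ((∫⁻ lam in Ioi (0 : ℝ), v lam) ^ p * (C * ∫⁻ x, ‖f x‖ₑ ^ p)) :=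
        mul_le_mul_right hM _
    _ = _ := by ring

end Pool.Agent.TH292.LS
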