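import Mathlib
import Pool.Agent.TH292.LS.H
set_option autoImplicit false

/-! An interpolation inequality in the time variable. -/

namespace Pool.Agent.TH292.LS

open Complex MeasureTheory Set Filter Topology
open scoped ENNReal

lemma time_pt {T T₁ T₂ : ℝ → ℂ} (h1 : ∀ t, HasDerivAt T (T₁ t) t)
    (h2 : ∀ t, HasDerivAt T₁ (T₂ t) t) (hc : Continuous T₂) {ε : ℝ} (hε : 0 < ε) (t : ℝ) :
    ‖T₁ t‖ₑ ≤ ENNReal.ofReal ε⁻¹ * ‖T (t + ε)‖ₑ + ENNReal.ofReal ε⁻¹ * ‖T t‖ₑ +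
      ∫⁻ r in Ioc 0 ε, ‖T₂ (t + r)‖ₑ := by
  obtain ⟨J, hJ⟩ : ∃ J, J = ∫ r in (0 : ℝ)..ε, ‖T₂ (t + r)‖ := ⟨_, rfl⟩
  have hcn : Continuous fun r : ℝ => ‖T₂ (t + r)‖ := by fun_prop
  have hJ0 : 0 ≤ J := by
    rw [hJ]
    exact intervalIntegral.integral_nonneg hε.le fun _ _ => norm_nonneg _
  have hd : ∀ r ∈ Icc 0 ε, ‖T₁ (t + r) - T₁ t‖ ≤ J := by
    intro r hr
    have h3 : ∫ u in (0 : ℝ)..r, T₂ (t + u) = T₁ (t + r) - T₁ (t + 0) := by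
      refine intervalIntegral.integral_eq_sub_of_hasDerivAt (f := fun u => T₁ (t + u))
        (fun u _ => ?_) ?_
      · have := (h2 (t + u)).comp_const_add t u
        exact this
      · have : Continuous fun u : ℝ => T₂ (t + u) := by fun_prop
        exact this.intervalIntegrable _ _
    rw [add_zero] at h3
    rw [← h3]
    refine (intervalIntegral.norm_integral_le_integral_norm hr.1).trans ?_
    rw [hJ]
    exact intervalIntegral.integral_mono_interval le_rfl hr.1 hr.2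
      (ae_of_all _ fun _ => norm_nonneg _) (hcn.intervalIntegrable _ _)
  have h4 : ‖(T (t + ε) - (ε : ℂ) * T₁ t) - (T (t + 0) - ((0 : ℝ) : ℂ) * T₁ t)‖ ≤ J * (ε - 0) := by
    refine norm_image_sub_le_of_norm_deriv_le_segment'
      (f := fun r : ℝ => T (t + r) - (r : ℂ) * T₁ t) (f' := fun r => T₁ (t + r) - T₁ t)
      (fun r _ => ?_) (fun r hr => hd r ⟨hr.1, hr.2.le⟩) ε ⟨hε.le, le_rfl⟩
    have h5 := (h1 (t + r)).comp_const_add t r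
    have h6 : HasDerivAt (fun r : ℝ => (r : ℂ) * T₁ t) (1 * T₁ t) r :=
      (HasDerivAt.ofReal_comp (hasDerivAt_id r)).mul_const _
    have h7 := (h5.sub h6).hasDerivWithinAt (s := Icc 0 ε)
    rw [one_mul] at h7
    exact h7
  simp only [add_zero, Complex.ofReal_zero, zero_mul, sub_zero] at h4
  have h5 : ε * ‖T₁ t‖ ≤ ‖T (t + ε)‖ + ‖T t‖ + J * ε := by
    have h6 : (ε : ℂ) * T₁ t = (T (t + ε) - T t) - (T (t + ε) - (ε : ℂ) * T₁ t - T t) := by ring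
    have h7 : ‖(ε : ℂ) * T₁ t‖ = ε * ‖T₁ t‖ := by
      rw [norm_mul, Complex.norm_real, Real.norm_of_nonneg hε.le]
    rw [← h7, h6]
    refine (norm_sub_le _ _).trans (add_le_add (norm_sub_le _ _) h4)
  have h6 : ‖T₁ t‖ ≤ ε⁻¹ * ‖T (t + ε)‖ + ε⁻¹ * ‖T t‖ + J := by
    have h7 : ‖T₁ t‖ = ε⁻¹ * (ε * ‖T₁ t‖) := by field_simp
    rw [h7]
    refine (mul_le_mul_of_nonneg_left h5 (by positivity)).trans (le_of_eq ?_)
    field_simp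
  have h7 : ENNReal.ofReal J = ∫⁻ r in Ioc 0 ε, ‖T₂ (t + r)‖ₑ := by
    rw [hJ, intervalIntegral.integral_of_le hε.le, ofReal_integral_eq_lintegral_ofReal]
    · simp only [ofReal_norm]
    · exact (intervalIntegrable_iff_integrableOn_Ioc_of_le hε.le).1 (hcn.intervalIntegrable _ _)
    · exact ae_of_all _ fun _ => norm_nonneg _
  rw [← h7, ← ofReal_norm (T₁ t), ← ofReal_norm (T (t + ε)), ← ofReal_norm (T t),
    ← ENNReal.ofReal_mul (by positivity), ← ENNReal.ofReal_mul (by positivity),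
    ← ENNReal.ofReal_add (by positivity) (by positivity), ← ENNReal.ofReal_add (by positivity) hJ0]
  exact ENNReal.ofReal_le_ofReal h6

lemma three_p {p : ℝ} (hp : 1 < p) (x y z : ℝ≥0∞) :
    (x + y + z) ^ p ≤ (2 ^ (p - 1) * 2 ^ (p - 1)) * (x ^ p + y ^ p + z ^ p) := by
  have h1 := ENNReal.rpow_add_le_mul_rpow_add_rpow (x + y) z hp.le
  have h2 := ENNReal.rpow_add_le_mul_rpow_add_rpow x y hp.le
  have h3 : (1 : ℝ≥0∞) ≤ 2 ^ (p - 1) := ENNReal.one_le_rpow (by norm_num) (by linarith)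
  calc (x + y + z) ^ p ≤ 2 ^ (p - 1) * ((x + y) ^ p + z ^ p) := h1
    _ ≤ 2 ^ (p - 1) * (2 ^ (p - 1) * (x ^ p + y ^ p) + 2 ^ (p - 1) * z ^ p) := by
        gcongr
        calc z ^ p = 1 * z ^ p := (one_mul _).symm
          _ ≤ _ := mul_le_mul_left h3 _
    _ = _ := by ring

lemma shift_le {h : ℝ → ℝ≥0∞} {r : ℝ} (h0 : 0 ≤ r) (h1 : r ≤ 1 / 2) :
    ∫⁻ t in Icc (1 : ℝ) (3 / 2), h (t + r) ≤ ∫⁻ t in Icc (1 : ℝ) 2, h t := by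
  rw [← lintegral_indicator measurableSet_Icc, ← lintegral_indicator measurableSet_Icc,
    ← lintegral_add_right_eq_self (fun t => (Icc (1 : ℝ) 2).indicator h t) r]
  refine lintegral_mono fun t => ?_
  by_cases ht : t ∈ Icc (1 : ℝ) (3 / 2)
  · rw [indicator_of_mem ht, indicator_of_mem (by constructor <;> linarith [ht.1, ht.2])]
  · rw [indicator_of_notMem ht]
    exact bot_le

lemma time_half {T T₁ T₂ : ℝ → ℂ} (h1 : ∀ t, HasDerivAt T (T₁ t) t)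
    (h2 : ∀ t, HasDerivAt T₁ (T₂ t) t) (hc : Continuous T₂) {ε : ℝ} (hε : 0 < ε)
    (hε2 : ε ≤ 1 / 2) {p : ℝ} (hp : 1 < p) :
    ∫⁻ t in Icc (1 : ℝ) (3 / 2), ‖T₁ t‖ₑ ^ p ≤ (2 ^ (p - 1) * 2 ^ (p - 1)) *
      (2 * ENNReal.ofReal ε⁻¹ ^ p * (∫⁻ t in Icc (1 : ℝ) 2, ‖T t‖ₑ ^ p) +
        ENNReal.ofReal ε ^ p * ∫⁻ t in Icc (1 : ℝ) 2, ‖T₂ t‖ₑ ^ p) := by
  have hp0 : 0 ≤ p := by linarith
  have hTc : Continuous T := continuous_iff_continuousAt.2 fun t => (h1 t).continuousAt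
  have hm2 : Measurable fun q : ℝ × ℝ => ‖T₂ (q.1 + q.2)‖ₑ ^ p := by
    have : Continuous fun q : ℝ × ℝ => T₂ (q.1 + q.2) := by fun_prop
    exact this.measurable.enorm.pow_const p
  have hpt : ∀ t, ‖T₁ t‖ₑ ^ p ≤ (2 ^ (p - 1) * 2 ^ (p - 1)) *
      (ENNReal.ofReal ε⁻¹ ^ p * ‖T (t + ε)‖ₑ ^ p + ENNReal.ofReal ε⁻¹ ^ p * ‖T t‖ₑ ^ p +
        ENNReal.ofReal ε ^ (p - 1) * ∫⁻ r in Ioc 0 ε, ‖T₂ (t + r)‖ₑ ^ p) := by
    intro t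
    refine (ENNReal.rpow_le_rpow (time_pt h1 h2 hc hε t) hp0).trans
      ((three_p hp _ _ _).trans ?_)
    rw [ENNReal.mul_rpow_of_nonneg _ _ hp0, ENNReal.mul_rpow_of_nonneg _ _ hp0]
    have h3 := jensen (volume.restrict (Ioc 0 ε)) (v := fun _ => 1)
      (h := fun r => ‖T₂ (t + r)‖ₑ) measurable_const (by
        have : Continuous fun r : ℝ => T₂ (t + r) := by fun_prop
        exact this.measurable.enorm) hp
    simp only [one_mul, lintegral_const, Measure.restrict_apply_univ, Real.volume_Ioc,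
      sub_zero] at h3
    gcongr
  have hm1 : Measurable fun t : ℝ => ENNReal.ofReal ε⁻¹ ^ p * ‖T (t + ε)‖ₑ ^ p := by
    have : Continuous fun t : ℝ => T (t + ε) := by fun_prop
    exact (this.measurable.enorm.pow_const p).const_mul _
  have hm0 : Measurable fun t : ℝ => ENNReal.ofReal ε⁻¹ ^ p * ‖T t‖ₑ ^ p :=
    (hTc.measurable.enorm.pow_const p).const_mul _
  have hK : (2 : ℝ≥0∞) ^ (p - 1) * 2 ^ (p - 1) ≠ ⊤ := ENNReal.mul_ne_top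
    (ENNReal.rpow_ne_top_of_nonneg (by linarith) (by norm_num))
    (ENNReal.rpow_ne_top_of_nonneg (by linarith) (by norm_num))
  have hne : ENNReal.ofReal ε⁻¹ ^ p ≠ ⊤ :=
    ENNReal.rpow_ne_top_of_nonneg hp0 ENNReal.ofReal_ne_top
  have hne2 : ENNReal.ofReal ε ^ (p - 1) ≠ ⊤ :=
    ENNReal.rpow_ne_top_of_nonneg (by linarith) ENNReal.ofReal_ne_top
  have hm01 : Measurable fun t : ℝ => ENNReal.ofReal ε⁻¹ ^ p * ‖T (t + ε)‖ₑ ^ p +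
      ENNReal.ofReal ε⁻¹ ^ p * ‖T t‖ₑ ^ p := hm1.add hm0
  refine (lintegral_mono hpt).trans ?_
  rw [lintegral_const_mul' _ _ hK, lintegral_add_left hm01, lintegral_add_left hm1,
    lintegral_const_mul' _ _ hne, lintegral_const_mul' _ _ hne, lintegral_const_mul' _ _ hne2]
  refine mul_le_mul_right ?_ _
  have h4 : ∫⁻ t in Icc (1 : ℝ) (3 / 2), ‖T (t + ε)‖ₑ ^ p ≤ ∫⁻ t in Icc (1 : ℝ) 2, ‖T t‖ₑ ^ p :=
    shift_le (h := fun t => ‖T t‖ₑ ^ p) hε.le hε2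
  have h5 : ∫⁻ t in Icc (1 : ℝ) (3 / 2), ‖T t‖ₑ ^ p ≤ ∫⁻ t in Icc (1 : ℝ) 2, ‖T t‖ₑ ^ p :=
    lintegral_mono_set (Icc_subset_Icc_right (by norm_num))
  have h6 : ∫⁻ t in Icc (1 : ℝ) (3 / 2), ∫⁻ r in Ioc 0 ε, ‖T₂ (t + r)‖ₑ ^ p ≤
      ENNReal.ofReal ε * ∫⁻ t in Icc (1 : ℝ) 2, ‖T₂ t‖ₑ ^ p := by
    rw [lintegral_lintegral_swap (f := fun t r => ‖T₂ (t + r)‖ₑ ^ p) hm2.aemeasurable]
    calc ∫⁻ r in Ioc 0 ε, ∫⁻ t in Icc (1 : ℝ) (3 / 2), ‖T₂ (t + r)‖ₑ ^ p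
        ≤ ∫⁻ _ in Ioc 0 ε, ∫⁻ t in Icc (1 : ℝ) 2, ‖T₂ t‖ₑ ^ p :=
          setLIntegral_mono' measurableSet_Ioc fun r hr =>
            shift_le (h := fun t => ‖T₂ t‖ₑ ^ p) hr.1.le (hr.2.trans hε2)
      _ = _ := by
          rw [lintegral_const, Measure.restrict_apply_univ, Real.volume_Ioc, sub_zero, mul_comm]
  calc ENNReal.ofReal ε⁻¹ ^ p * (∫⁻ t in Icc (1 : ℝ) (3 / 2), ‖T (t + ε)‖ₑ ^ p) +
        ENNReal.ofReal ε⁻¹ ^ p * (∫⁻ t in Icc (1 : ℝ) (3 / 2), ‖T t‖ₑ ^ p) +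
        ENNReal.ofReal ε ^ (p - 1) *
          ∫⁻ t in Icc (1 : ℝ) (3 / 2), ∫⁻ r in Ioc 0 ε, ‖T₂ (t + r)‖ₑ ^ p
      ≤ ENNReal.ofReal ε⁻¹ ^ p * (∫⁻ t in Icc (1 : ℝ) 2, ‖T t‖ₑ ^ p) +
        ENNReal.ofReal ε⁻¹ ^ p * (∫⁻ t in Icc (1 : ℝ) 2, ‖T t‖ₑ ^ p) +
        ENNReal.ofReal ε ^ (p - 1) * (ENNReal.ofReal ε * ∫⁻ t in Icc (1 : ℝ) 2, ‖T₂ t‖ₑ ^ p) := by
        gcongr
    _ = _ := by
        have e : ENNReal.ofReal ε ^ p = ENNReal.ofReal ε ^ (p - 1) * ENNReal.ofReal ε := by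
          nth_rewrite 3 [← ENNReal.rpow_one (ENNReal.ofReal ε)]
          rw [← ENNReal.rpow_add_of_nonneg _ _ (by linarith) zero_le_one]
          congr 1
          ring
        rw [e]
        ring

lemma refl_eq (h : ℝ → ℝ≥0∞) (a b : ℝ) :
    ∫⁻ t in Icc a b, h (3 - t) = ∫⁻ t in Icc (3 - b) (3 - a), h t := by
  rw [← lintegral_indicator measurableSet_Icc, ← lintegral_indicator measurableSet_Icc,
    ← lintegral_sub_left_eq_self (fun t => (Icc (3 - b) (3 - a)).indicator h t) 3]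
  refine lintegral_congr fun t => ?_
  by_cases ht : t ∈ Icc a b
  · rw [indicator_of_mem ht, indicator_of_mem (by constructor <;> linarith [ht.1, ht.2])]
  · rw [indicator_of_notMem ht, indicator_of_notMem]
    intro h2
    exact ht ⟨by linarith [h2.2], by linarith [h2.1]⟩

/-- **Interpolation in time.** -/
theorem time_p {T T₁ T₂ : ℝ → ℂ} (h1 : ∀ t, HasDerivAt T (T₁ t) t)
    (h2 : ∀ t, HasDerivAt T₁ (T₂ t) t) (hc : Continuous T₂) {ε : ℝ} (hε : 0 < ε)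
    (hε2 : ε ≤ 1 / 2) {p : ℝ} (hp : 1 < p) :
    ∫⁻ t in Icc (1 : ℝ) 2, ‖T₁ t‖ₑ ^ p ≤ (4 * (2 ^ (p - 1) * 2 ^ (p - 1))) *
      (ENNReal.ofReal ε⁻¹ ^ p * (∫⁻ t in Icc (1 : ℝ) 2, ‖T t‖ₑ ^ p) +
        ENNReal.ofReal ε ^ p * ∫⁻ t in Icc (1 : ℝ) 2, ‖T₂ t‖ₑ ^ p) := by
  have hA := time_half h1 h2 hc hε hε2 hp
  have hB := time_half (T := fun t => T (3 - t)) (T₁ := fun t => -T₁ (3 - t))
    (T₂ := fun t => T₂ (3 - t)) (fun t => by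
      have h3 := (h1 (3 - t)).comp_const_sub 3 t
      exact h3) (fun t => by
      have h3 := ((h2 (3 - t)).comp_const_sub 3 t).neg
      rw [neg_neg] at h3
      exact h3) (by fun_prop) hε hε2 hp
  simp only [enorm_neg] at hB
  rw [refl_eq (fun t => ‖T₁ t‖ₑ ^ p), refl_eq (fun t => ‖T t‖ₑ ^ p),
    refl_eq (fun t => ‖T₂ t‖ₑ ^ p)] at hB
  norm_num at hB
  have hsub : Icc (1 : ℝ) 2 ⊆ Icc (1 : ℝ) (3 / 2) ∪ Icc (3 / 2) 2 := by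
    intro t ht
    rcases le_total t (3 / 2) with h | h
    · exact Or.inl ⟨ht.1, h⟩
    · exact Or.inr ⟨h, ht.2⟩
  calc ∫⁻ t in Icc (1 : ℝ) 2, ‖T₁ t‖ₑ ^ p
      ≤ ∫⁻ t in Icc (1 : ℝ) (3 / 2) ∪ Icc (3 / 2) 2, ‖T₁ t‖ₑ ^ p := lintegral_mono_set hsub
    _ ≤ (∫⁻ t in Icc (1 : ℝ) (3 / 2), ‖T₁ t‖ₑ ^ p) + ∫⁻ t in Icc (3 / 2 : ℝ) 2, ‖T₁ t‖ₑ ^ p :=
        lintegral_union_le _ _ _
    _ ≤ _ := add_le_add hA hB
    _ ≤ _ := by
        obtain ⟨K, hK⟩ : ∃ K : ℝ≥0∞, K = 2 ^ (p - 1) * 2 ^ (p - 1) := ⟨_, rfl⟩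
        obtain ⟨X, hX⟩ : ∃ X : ℝ≥0∞, X = ∫⁻ t in Icc (1 : ℝ) 2, ‖T t‖ₑ ^ p := ⟨_, rfl⟩
        obtain ⟨Y, hY⟩ : ∃ Y : ℝ≥0∞, Y = ∫⁻ t in Icc (1 : ℝ) 2, ‖T₂ t‖ₑ ^ p := ⟨_, rfl⟩
        rw [← hK, ← hX, ← hY]
        have : K * (2 * ENNReal.ofReal ε⁻¹ ^ p * X + ENNReal.ofReal ε ^ p * Y) +
            K * (2 * ENNReal.ofReal ε⁻¹ ^ p * X + ENNReal.ofReal ε ^ p * Y) =
            4 * K * (ENNReal.ofReal ε⁻¹ ^ p * X) + 2 * K * (ENNReal.ofReal ε ^ p * Y) := by ring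
        rw [this, mul_add]
        gcongr
        norm_num

end Pool.Agent.TH292.LS
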