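import Mathlib
import Pool.Agent.TH292.LS.T2
import Pool.Agent.TH292.LS.U1
set_option autoImplicit false

/-! The velocity propagator at one scale. -/

namespace Pool.Agent.TH292.LS

open Complex MeasureTheory Set Filter Topology
open scoped ENNReal FourierTransform ComplexConjugate RealInnerProductSpace
open Pool.Agent.TH310.BZ

variable {n : ℕ}

/-- the symbol for the initial position -/
noncomputable def Rc (q : (Fin n → ℝ) × ℝ) (ξ : E n) : ℂ :=
  ((Real.cos (2 * Real.pi * q.2 * Real.sqrt (QF q.1 ξ)) : ℝ) : ℂ)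

/-- the symbol for the initial velocity -/
noncomputable def Rs (q : (Fin n → ℝ) × ℝ) (ξ : E n) : ℂ :=
  ((q.2 * Real.sinc (2 * Real.pi * q.2 * Real.sqrt (QF q.1 ξ)) : ℝ) : ℂ)

lemma QF_cz : Continuous fun p : ((Fin n → ℝ) × ℝ) × E n => QF p.1.1 p.2 :=
  QF_c2.comp ((continuous_fst.comp continuous_fst).prodMk continuous_snd)

lemma Rc_sym : Sym (Rc (n := n)) 1 := by
  refine ⟨?_, zero_le_one, fun q ξ => ?_⟩
  · have h := QF_cz (n := n)
    have h2 : Continuous fun p : ((Fin n → ℝ) × ℝ) × E n => Rc p.1 p.2 := by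
      unfold Rc
      fun_prop
    exact h2.measurable
  · unfold Rc
    rw [Complex.norm_real, Real.norm_eq_abs]
    refine (Real.abs_cos_le_one _).trans ?_
    have h1 : (1 : ℝ) ≤ 1 + |q.2| := by linarith [abs_nonneg q.2]
    have h2 : (1 : ℝ) ≤ 1 * (1 + ‖ξ‖ ^ 2) := by nlinarith [sq_nonneg ‖ξ‖]
    calc (1 : ℝ) = 1 * 1 := (one_mul _).symm
      _ ≤ _ := mul_le_mul h1 h2 zero_le_one (by positivity)

lemma Rs_le (q : (Fin n → ℝ) × ℝ) (ξ : E n) : ‖Rs q ξ‖ ≤ |q.2| := by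
  unfold Rs
  rw [Complex.norm_real, Real.norm_eq_abs, abs_mul]
  exact mul_le_of_le_one_right (abs_nonneg _) (Real.abs_sinc_le_one _)

lemma Rs_sym : Sym (Rs (n := n)) 1 := by
  refine ⟨?_, zero_le_one, fun q ξ => ?_⟩
  · have h := QF_cz (n := n)
    have h3 : Continuous fun p : ((Fin n → ℝ) × ℝ) × E n =>
        Real.sinc (2 * Real.pi * p.1.2 * Real.sqrt (QF p.1.1 p.2)) :=
      Real.continuous_sinc.comp (by fun_prop)
    have h2 : Continuous fun p : ((Fin n → ℝ) × ℝ) × E n => Rs p.1 p.2 := by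
      unfold Rs
      fun_prop
    exact h2.measurable
  · refine (Rs_le q ξ).trans ?_
    have h1 : |q.2| ≤ 1 + |q.2| := by linarith
    have h2 : (1 : ℝ) ≤ 1 * (1 + ‖ξ‖ ^ 2) := by nlinarith [sq_nonneg ‖ξ‖]
    calc |q.2| = |q.2| * 1 := (mul_one _).symm
      _ ≤ _ := mul_le_mul h1 h2 zero_le_one (by positivity)

lemma el_Rc (μ : ℝ) (q : (Fin n → ℝ) × ℝ) : el Rc μ q = ml μ q.2 q.1 := by
  ext ξ
  unfold el Rc ml
  push_cast
  ring

lemma es_Rc (ν : ℝ) (q : (Fin n → ℝ) × ℝ) : es Rc ν q = ms ν q.2 q.1 := by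
  ext ξ
  unfold es Rc ms
  push_cast
  ring

lemma mul_sinc (x : ℝ) : x * Real.sinc x = Real.sin x := by
  rcases eq_or_ne x 0 with rfl | h
  · simp
  · rw [Real.sinc_of_ne_zero h]
    field_simp

lemma Rs_key {Q : ℝ} (hQ : 0 ≤ Q) (t : ℝ) :
    2 * Real.pi * Q * (t * Real.sinc (2 * Real.pi * t * Real.sqrt Q)) =
      Real.sqrt Q * Real.sin (2 * Real.pi * t * Real.sqrt Q) := by
  rw [← mul_sinc]
  have h := Real.mul_self_sqrt hQ
  calc 2 * Real.pi * Q * (t * Real.sinc (2 * Real.pi * t * Real.sqrt Q)) =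
      2 * Real.pi * (Real.sqrt Q * Real.sqrt Q) *
        (t * Real.sinc (2 * Real.pi * t * Real.sqrt Q)) := by rw [h]
    _ = _ := by ring

/-- differentiation in time -/
lemma Mu_der {m m' : ℝ → E n → ℂ} (hm : ∀ t, Measurable (m t)) (hm' : ∀ t, Measurable (m' t))
    {G : E n → ℝ} (hG : Integrable G) (hb : ∀ t ξ, ‖m t ξ‖ ≤ (1 + |t|) * G ξ)
    (hb' : ∀ t ξ, ‖m' t ξ‖ ≤ (1 + |t|) * G ξ)
    (hd : ∀ t ξ, HasDerivAt (fun t => m t ξ) (m' t ξ) t) {g : E n → ℂ} (hg : Integrable g)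
    (x : E n) (t₀ : ℝ) : HasDerivAt (fun t => Mu (m t) g x) (Mu (m' t₀) g x) t₀ := by
  have hem : Measurable fun ξ : E n => cexp (((2 * Real.pi * ⟪x, ξ⟫ : ℝ) : ℂ) * I) := by
    have : Continuous fun ξ : E n => cexp (((2 * Real.pi * ⟪x, ξ⟫ : ℝ) : ℂ) * I) := by fun_prop
    exact this.measurable
  have hG0 : ∀ ξ, 0 ≤ G ξ := fun ξ => by
    have h1 := (norm_nonneg _).trans (hb 0 ξ)
    simpa using h1
  refine (hasDerivAt_integral_of_dominated_loc_of_deriv_le (s := Metric.ball t₀ 1)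
    (F := fun t ξ => m t ξ * 𝓕 g ξ * cexp (((2 * Real.pi * ⟪x, ξ⟫ : ℝ) : ℂ) * I))
    (F' := fun t ξ => m' t ξ * 𝓕 g ξ * cexp (((2 * Real.pi * ⟪x, ξ⟫ : ℝ) : ℂ) * I))
    (bound := fun ξ => (2 + |t₀|) * G ξ * ∫ y, ‖g y‖)
    (Metric.ball_mem_nhds _ one_pos) (Eventually.of_forall fun t => ?_) ?_ ?_
    (ae_of_all _ fun ξ t ht => ?_) ((hG.const_mul _).mul_const _)
    (ae_of_all _ fun ξ t _ => ?_)).2
  · exact (((hm t).mul (meas_F hg)).mul hem).aestronglyMeasurable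
  · exact Mu_int2 (Mu_int (hm t₀) (hG.const_mul _) (hb t₀) hg) x
  · exact (((hm' t₀).mul (meas_F hg)).mul hem).aestronglyMeasurable
  · rw [norm_mul, norm_mul, Complex.norm_exp_ofReal_mul_I, mul_one]
    have h1 : |t| ≤ |t₀| + 1 := by
      rw [Metric.mem_ball, Real.dist_eq] at ht
      have h2 : |t| ≤ |t - t₀| + |t₀| := by
        have := abs_add_le (t - t₀) t₀
        rwa [sub_add_cancel] at this
      linarith
    refine mul_le_mul ((hb' t ξ).trans ?_) (F_bd _) (norm_nonneg _)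
      (mul_nonneg (by positivity) (hG0 ξ))
    exact mul_le_mul_of_nonneg_right (by linarith) (hG0 ξ)
  · exact ((hd t ξ).mul_const _).mul_const _

lemma ml_der (ν : ℝ) {a : Fin n → ℝ} (ha : ∀ j, 0 < a j) (ξ : E n) (t : ℝ) :
    HasDerivAt (fun t => ml ν t a ξ) ((-(4 * Real.pi) : ℝ) * es Rs ν (a, t) ξ) t := by
  have hQ := QF_nonneg ha ξ
  unfold ml es Rs
  have h1 : HasDerivAt (fun t : ℝ => 2 * Real.pi * t * Real.sqrt (QF a ξ))
      (2 * Real.pi * 1 * Real.sqrt (QF a ξ)) t :=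
    ((hasDerivAt_id t).const_mul (2 * Real.pi)).mul_const _
  have h2 := (h1.cos.const_mul (Real.exp (-(Real.pi * ν * QF a ξ)))).ofReal_comp
  refine h2.congr_deriv ?_
  rw [← Complex.ofReal_mul, ← Complex.ofReal_mul]
  congr 1
  have h3 := Rs_key hQ t
  calc Real.exp (-(Real.pi * ν * QF a ξ)) * (-Real.sin (2 * Real.pi * t * Real.sqrt (QF a ξ)) *
        (2 * Real.pi * 1 * Real.sqrt (QF a ξ)))
      = -(2 * Real.pi) * Real.exp (-(Real.pi * ν * QF a ξ)) *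
        (Real.sqrt (QF a ξ) * Real.sin (2 * Real.pi * t * Real.sqrt (QF a ξ))) := by ring
    _ = _ := by
        rw [← h3]
        ring

lemma es_der (ν : ℝ) {a : Fin n → ℝ} (ha : ∀ j, 0 < a j) (ξ : E n) (t : ℝ) :
    HasDerivAt (fun t => es Rs ν (a, t) ξ) (ms ν t a ξ) t := by
  have hQ := QF_nonneg ha ξ
  have e1 : ∀ t : ℝ, es Rs ν (a, t) ξ = ((Real.exp (-(Real.pi * ν * QF a ξ)) * (1 / 2) *
      (Real.sqrt (QF a ξ) * Real.sin (2 * Real.pi * t * Real.sqrt (QF a ξ))) : ℝ) : ℂ) := by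
    intro t
    unfold es Rs
    rw [← Rs_key hQ, ← Complex.ofReal_mul]
    congr 1
    ring
  have e2 : (fun t => es Rs ν (a, t) ξ) = fun t : ℝ => ((Real.exp (-(Real.pi * ν * QF a ξ)) *
      (1 / 2) * (Real.sqrt (QF a ξ) * Real.sin (2 * Real.pi * t * Real.sqrt (QF a ξ))) : ℝ) : ℂ) :=
    funext e1
  rw [e2]
  have h1 : HasDerivAt (fun t : ℝ => 2 * Real.pi * t * Real.sqrt (QF a ξ))
      (2 * Real.pi * 1 * Real.sqrt (QF a ξ)) t :=
    ((hasDerivAt_id t).const_mul (2 * Real.pi)).mul_const _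
  have h2 := ((h1.sin.const_mul (Real.sqrt (QF a ξ))).const_mul
    (Real.exp (-(Real.pi * ν * QF a ξ)) * (1 / 2))).ofReal_comp
  refine h2.congr_deriv ?_
  unfold ms
  congr 1
  have h := Real.mul_self_sqrt hQ
  calc Real.exp (-(Real.pi * ν * QF a ξ)) * (1 / 2) * (Real.sqrt (QF a ξ) *
        (Real.cos (2 * Real.pi * t * Real.sqrt (QF a ξ)) *
          (2 * Real.pi * 1 * Real.sqrt (QF a ξ))))
      = Real.pi * (Real.sqrt (QF a ξ) * Real.sqrt (QF a ξ)) *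
        Real.exp (-(Real.pi * ν * QF a ξ)) *
        Real.cos (2 * Real.pi * t * Real.sqrt (QF a ξ)) := by ring
    _ = _ := by rw [h]

/-- one dominating function for all the symbols at scale `ν` -/
lemma dom_all {ν : ℝ} (hν : 0 < ν) {a : Fin n → ℝ} (ha : ∀ j, 0 < a j) :
    Integrable (fun ξ : E n => Real.exp (-(Real.pi * ν * QF a ξ)) +
      (4 * Real.pi) * (2 / ν * Real.exp (-(Real.pi * (ν / 2) * QF a ξ)))) :=
  (gauss_int' ha hν).add (((gauss_int' ha (by linarith)).const_mul _).const_mul _)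

lemma es_Rs_bd {ν : ℝ} (hν : 0 < ν) {a : Fin n → ℝ} (ha : ∀ j, 0 < a j) (t : ℝ) (ξ : E n) :
    ‖es Rs ν (a, t) ξ‖ ≤ |t| * (2 / ν * Real.exp (-(Real.pi * (ν / 2) * QF a ξ))) := by
  have hQ := QF_nonneg ha ξ
  unfold es
  rw [norm_mul, Complex.norm_real, Real.norm_of_nonneg (by positivity), mul_comm]
  exact mul_le_mul (Rs_le _ _) (QE hQ hν le_rfl) (by positivity) (abs_nonneg _)

lemma T_der1 {ν : ℝ} (hν : 0 < ν) {a : Fin n → ℝ} (ha : ∀ j, 0 < a j) {g : E n → ℂ}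
    (hg : Integrable g) (x : E n) (t : ℝ) :
    HasDerivAt (fun t => Mu (ml ν t a) g x)
      (Mu (fun ξ => (-(4 * Real.pi) : ℝ) * es Rs ν (a, t) ξ) g x) t := by
  have hpi := Real.pi_pos
  refine Mu_der (m := fun t => ml ν t a)
    (m' := fun t ξ => (-(4 * Real.pi) : ℝ) * es Rs ν (a, t) ξ)
    (fun t => (ml_cξ ν t a).measurable) (fun t => (m_ξ (es_m3 Rs_sym) ν (a, t)).const_mul _)
    (dom_all hν ha) (fun t ξ => ?_) (fun t ξ => ?_) (fun t ξ => ml_der ν ha ξ t) hg x t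
  · have h1 := ml_bd ν t a ξ
    have h2 : 0 ≤ (4 * Real.pi) * (2 / ν * Real.exp (-(Real.pi * (ν / 2) * QF a ξ))) := by
      positivity
    have h3 : 0 ≤ Real.exp (-(Real.pi * ν * QF a ξ)) := (Real.exp_pos _).le
    nlinarith [mul_nonneg (abs_nonneg t) (add_nonneg h3 h2)]
  · rw [norm_mul, Complex.norm_real, Real.norm_eq_abs, abs_neg, abs_of_pos (by positivity)]
    have h1 := es_Rs_bd hν ha t ξ
    have h2 : 0 ≤ 2 / ν * Real.exp (-(Real.pi * (ν / 2) * QF a ξ)) := by positivity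
    have h3 : 0 ≤ Real.exp (-(Real.pi * ν * QF a ξ)) := (Real.exp_pos _).le
    calc 4 * Real.pi * ‖es Rs ν (a, t) ξ‖
        ≤ 4 * Real.pi * (|t| * (2 / ν * Real.exp (-(Real.pi * (ν / 2) * QF a ξ)))) := by gcongr
      _ = |t| * (4 * Real.pi * (2 / ν * Real.exp (-(Real.pi * (ν / 2) * QF a ξ)))) := by ring
      _ ≤ (1 + |t|) * (Real.exp (-(Real.pi * ν * QF a ξ)) +
          4 * Real.pi * (2 / ν * Real.exp (-(Real.pi * (ν / 2) * QF a ξ)))) := by
          gcongr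
          · linarith
          · linarith

lemma T_der2 {ν : ℝ} (hν : 0 < ν) {a : Fin n → ℝ} (ha : ∀ j, 0 < a j) {g : E n → ℂ}
    (hg : Integrable g) (x : E n) (t : ℝ) :
    HasDerivAt (fun t => Mu (fun ξ => (-(4 * Real.pi) : ℝ) * es Rs ν (a, t) ξ) g x)
      (Mu (fun ξ => (-(4 * Real.pi) : ℝ) * ms ν t a ξ) g x) t := by
  have hpi := Real.pi_pos
  refine Mu_der (m := fun t ξ => (-(4 * Real.pi) : ℝ) * es Rs ν (a, t) ξ)
    (m' := fun t ξ => (-(4 * Real.pi) : ℝ) * ms ν t a ξ)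
    (fun t => (m_ξ (es_m3 Rs_sym) ν (a, t)).const_mul _) (fun t => ?_)
    (dom_all hν ha) (fun t ξ => ?_) (fun t ξ => ?_) (fun t ξ => (es_der ν ha ξ t).const_mul _) hg x t
  · have := m_ξ (es_m3 Rc_sym) ν (a, t)
    rw [es_Rc] at this
    exact this.const_mul _
  · rw [norm_mul, Complex.norm_real, Real.norm_eq_abs, abs_neg, abs_of_pos (by positivity)]
    have h1 := es_Rs_bd hν ha t ξ
    have h2 : 0 ≤ 2 / ν * Real.exp (-(Real.pi * (ν / 2) * QF a ξ)) := by positivity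
    have h3 : 0 ≤ Real.exp (-(Real.pi * ν * QF a ξ)) := (Real.exp_pos _).le
    calc 4 * Real.pi * ‖es Rs ν (a, t) ξ‖
        ≤ 4 * Real.pi * (|t| * (2 / ν * Real.exp (-(Real.pi * (ν / 2) * QF a ξ)))) := by gcongr
      _ = |t| * (4 * Real.pi * (2 / ν * Real.exp (-(Real.pi * (ν / 2) * QF a ξ)))) := by ring
      _ ≤ (1 + |t|) * (Real.exp (-(Real.pi * ν * QF a ξ)) +
          4 * Real.pi * (2 / ν * Real.exp (-(Real.pi * (ν / 2) * QF a ξ)))) := by
          gcongr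
          · linarith
          · linarith
  · rw [norm_mul, Complex.norm_real, Real.norm_eq_abs, abs_neg, abs_of_pos (by positivity)]
    have h1 := ms_bd t ha hν le_rfl ξ
    have h2 : 0 ≤ 2 / ν * Real.exp (-(Real.pi * (ν / 2) * QF a ξ)) := by positivity
    have h3 : 0 ≤ Real.exp (-(Real.pi * ν * QF a ξ)) := (Real.exp_pos _).le
    calc 4 * Real.pi * ‖ms ν t a ξ‖
        ≤ 1 * (4 * Real.pi * (2 / ν * Real.exp (-(Real.pi * (ν / 2) * QF a ξ)))) := by
          rw [one_mul]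
          gcongr
      _ ≤ (1 + |t|) * (Real.exp (-(Real.pi * ν * QF a ξ)) +
          4 * Real.pi * (2 / ν * Real.exp (-(Real.pi * (ν / 2) * QF a ξ)))) := by
          gcongr
          · linarith [abs_nonneg t]
          · linarith

lemma T_cont {ν : ℝ} (hν : 0 < ν) {a : Fin n → ℝ} (ha : ∀ j, 0 < a j) {g : E n → ℂ}
    (hg : Integrable g) (x : E n) :
    Continuous fun t => Mu (fun ξ => (-(4 * Real.pi) : ℝ) * ms ν t a ξ) g x := by
  have hpi := Real.pi_pos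
  have hQc := QF_cont a
  have hem : Continuous fun ξ : E n => cexp (((2 * Real.pi * ⟪x, ξ⟫ : ℝ) : ℂ) * I) := by fun_prop
  unfold Mu
  refine continuous_of_dominated (F := fun t ξ => (-(4 * Real.pi) : ℝ) * ms ν t a ξ * 𝓕 g ξ *
    cexp (((2 * Real.pi * ⟪x, ξ⟫ : ℝ) : ℂ) * I))
    (bound := fun ξ => 4 * Real.pi * (2 / ν * Real.exp (-(Real.pi * (ν / 2) * QF a ξ))) *
      ∫ y, ‖g y‖) (fun t => ?_) (fun t => ae_of_all _ fun ξ => ?_)
    ((((gauss_int' ha (by linarith)).const_mul _).const_mul _).mul_const _)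
    (ae_of_all _ fun ξ => ?_)
  · have h1 : Continuous (ms ν t a) := by
      unfold ms
      fun_prop
    exact (((h1.measurable.const_mul _).mul (meas_F hg)).mul hem.measurable).aestronglyMeasurable
  · rw [norm_mul, norm_mul, norm_mul, Complex.norm_exp_ofReal_mul_I, mul_one, Complex.norm_real,
      Real.norm_eq_abs, abs_neg, abs_of_pos (by positivity)]
    have h1 := ms_bd t ha hν le_rfl ξ
    refine mul_le_mul ?_ (F_bd _) (norm_nonneg _) (by positivity)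
    gcongr
  · unfold ms
    fun_prop

end Pool.Agent.TH292.LS
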