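import Mathlib
import Pool.Agent.TH292.LS.U2
set_option autoImplicit false

/-! The velocity propagator at one scale: the estimate. -/

namespace Pool.Agent.TH292.LS

open Complex MeasureTheory Set Filter Topology
open scoped ENNReal FourierTransform ComplexConjugate RealInnerProductSpace
open Pool.Agent.TH310.BZ

variable {n : ℕ}

lemma z_swap {α β : ℝ} {F : ((Fin n → ℝ) × ℝ) × E n → ℝ≥0∞} (hF : Measurable F) :
    ∫⁻ z, F z ∂(zm n α β) = ∫⁻ a, ∫⁻ x : E n, ∫⁻ t in Icc (1 : ℝ) 2, F ((a, t), x)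
      ∂volume ∂volume ∂(nu n α β) := by
  rw [lintegral_prod _ hF.aemeasurable,
    lintegral_prod (fun q : (Fin n → ℝ) × ℝ => ∫⁻ x, F (q, x)) hF.lintegral_prod_right'.aemeasurable]
  refine lintegral_congr fun a => ?_
  have hFa : Measurable fun q : ℝ × E n => F ((a, q.1), q.2) := by
    have h1 : Measurable fun q : ℝ × E n => (a, q.1) := measurable_const.prodMk measurable_fst
    have h2 : Measurable fun q : ℝ × E n => ((a, q.1), q.2) := h1.prodMk measurable_snd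
    have h3 := hF.comp h2
    exact h3
  exact lintegral_lintegral_swap (f := fun t x => F ((a, t), x)) hFa.aemeasurable

lemma z_mono {α β : ℝ} {F G : ((Fin n → ℝ) × ℝ) × E n → ℝ≥0∞} (hF : Measurable F)
    (hG : Measurable G) (h : ∀ a : Fin n → ℝ, (∀ j, a j ∈ Icc α β) → ∀ x : E n,
      ∫⁻ t in Icc (1 : ℝ) 2, F ((a, t), x) ≤ ∫⁻ t in Icc (1 : ℝ) 2, G ((a, t), x)) :
    ∫⁻ z, F z ∂(zm n α β) ≤ ∫⁻ z, G z ∂(zm n α β) := by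
  rw [z_swap hF, z_swap hG]
  refine lintegral_mono_ae ?_
  filter_upwards [nu_ae n α β] with a ha
  exact lintegral_mono fun x => h a ha x

lemma ml_m3 : Measurable fun p : (ℝ × ((Fin n → ℝ) × ℝ)) × E n => ml p.1.1 p.1.2.2 p.1.2.1 p.2 :=
  ml_c.measurable

lemma Mu_ml_z (ν : ℝ) {f : E n → ℂ} (hf : Integrable f) :
    Measurable fun z : ((Fin n → ℝ) × ℝ) × E n => Mu (ml ν z.1.2 z.1.1) f z.2 := by
  have h := Mu_m2 (el_m3 (Rc_sym (n := n))) hf ν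
  simpa only [el_Rc] using h

lemma Mu_ms_z (ν : ℝ) {f : E n → ℂ} (hf : Integrable f) :
    Measurable fun z : ((Fin n → ℝ) × ℝ) × E n => Mu (ms ν z.1.2 z.1.1) f z.2 := by
  have h := Mu_m2 (es_m3 (Rc_sym (n := n))) hf ν
  simpa only [es_Rc] using h

lemma pair_meas {F : ((Fin n → ℝ) × ℝ) × E n → ℂ} (hF : Measurable F) (a : Fin n → ℝ) (x : E n) :
    Measurable fun t : ℝ => F ((a, t), x) := by
  have h1 : Measurable fun t : ℝ => (a, t) := measurable_const.prodMk measurable_id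
  have h2 : Measurable fun t : ℝ => ((a, t), x) := h1.prodMk measurable_const
  have h3 := hF.comp h2
  exact h3

/-- the velocity propagator at one scale -/
theorem vel_scale {α β p κ c₁ : ℝ} (hα : 0 < α) (hp : 1 < p) (hc1 : c₁ ≤ 1)
    {C1 C2 : ℝ≥0∞}
    (hI : ∀ (f : E n → ℂ), GB f → ∀ μ : ℝ, 0 < μ → μ ≤ c₁ →
      ∫⁻ z, (ENNReal.ofReal (μ ^ (κ / 2)) * ‖Mu (ml μ z.1.2 z.1.1) f z.2‖ₑ) ^ p
        ∂(zm n α β) ≤ C1 * ∫⁻ x, ‖f x‖ₑ ^ p)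
    (hS : ∀ (f : E n → ℂ), GB f → ∀ ν : ℝ, 0 < ν → ν ≤ 2 →
      ∫⁻ z, (ENNReal.ofReal (ν ^ (1 + κ / 2)) * ‖Mu (ms ν z.1.2 z.1.1) f z.2‖ₑ) ^ p
        ∂(zm n α β) ≤ C2 * ∫⁻ x, ‖f x‖ₑ ^ p)
    (f : E n → ℂ) (hf : GB f) (ν : ℝ) (hν : 0 < ν) (hνc : ν ≤ c₁) :
    ∫⁻ z, (ENNReal.ofReal (ν ^ ((1 + κ) / 2)) * ‖Mu (es Rs ν z.1) f z.2‖ₑ) ^ p
      ∂(zm n α β) ≤ (4 * (2 ^ (p - 1) * 2 ^ (p - 1)) * ENNReal.ofReal (4 * Real.pi) ^ p *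
        (C1 + C2)) * ∫⁻ x, ‖f x‖ₑ ^ p := by
  have hp0 : 0 ≤ p := by linarith
  have hpi := Real.pi_gt_three
  have hν1 : ν ≤ 1 := hνc.trans hc1
  obtain ⟨K, hK⟩ : ∃ K : ℝ≥0∞, K = 4 * (2 ^ (p - 1) * 2 ^ (p - 1)) := ⟨_, rfl⟩
  have hKt : K ≠ ⊤ := by
    rw [hK]
    exact ENNReal.mul_ne_top (by norm_num) (ENNReal.mul_ne_top
      (ENNReal.rpow_ne_top_of_nonneg (by linarith) (by norm_num))
      (ENNReal.rpow_ne_top_of_nonneg (by linarith) (by norm_num)))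
  obtain ⟨P4, hP4⟩ : ∃ P : ℝ≥0∞, P = ENNReal.ofReal (4 * Real.pi) := ⟨_, rfl⟩
  have hP4t : P4 ≠ ⊤ := by rw [hP4]; exact ENNReal.ofReal_ne_top
  have hP1 : 1 ≤ P4 := by
    rw [hP4, ENNReal.one_le_ofReal]
    linarith
  obtain ⟨w, hw⟩ : ∃ w : ℝ≥0∞, w = ENNReal.ofReal (ν ^ ((1 + κ) / 2)) := ⟨_, rfl⟩
  have hwt : w ≠ ⊤ := by rw [hw]; exact ENNReal.ofReal_ne_top
  obtain ⟨wX, hwX⟩ : ∃ w : ℝ≥0∞, w = ENNReal.ofReal (ν ^ (κ / 2)) := ⟨_, rfl⟩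
  obtain ⟨wY, hwY⟩ : ∃ w : ℝ≥0∞, w = ENNReal.ofReal (ν ^ (1 + κ / 2)) := ⟨_, rfl⟩
  obtain ⟨ε, hε⟩ : ∃ ε : ℝ, ε = ν ^ (1 / 2 : ℝ) / 2 := ⟨_, rfl⟩
  have hν12 : 0 < ν ^ (1 / 2 : ℝ) := by positivity
  have hε0 : 0 < ε := by rw [hε]; positivity
  have hε2 : ε ≤ 1 / 2 := by
    rw [hε]
    have : ν ^ (1 / 2 : ℝ) ≤ 1 := Real.rpow_le_one hν.le hν1 (by norm_num)
    linarith
  have hX1 : w * ENNReal.ofReal ε⁻¹ ≤ P4 * wX := by
    rw [hw, hP4, hwX, ← ENNReal.ofReal_mul (by positivity), ← ENNReal.ofReal_mul (by positivity)]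
    apply ENNReal.ofReal_le_ofReal
    have e : ν ^ ((1 + κ) / 2) = ν ^ (κ / 2) * ν ^ (1 / 2 : ℝ) := by
      rw [← Real.rpow_add hν]
      congr 1
      ring
    have h0 : 0 < ν ^ (κ / 2) := by positivity
    rw [e, hε]
    calc ν ^ (κ / 2) * ν ^ (1 / 2 : ℝ) * (ν ^ (1 / 2 : ℝ) / 2)⁻¹ = 2 * ν ^ (κ / 2) := by
          field_simp
      _ ≤ _ := by
          apply mul_le_mul_of_nonneg_right _ h0.le
          linarith
  have hY1 : w * ENNReal.ofReal ε ≤ wY := by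
    rw [hw, hwY, ← ENNReal.ofReal_mul (by positivity)]
    apply ENNReal.ofReal_le_ofReal
    have e : ν ^ (1 + κ / 2) = ν ^ ((1 + κ) / 2) * ν ^ (1 / 2 : ℝ) := by
      rw [← Real.rpow_add hν]
      congr 1
      ring
    have h0 : 0 < ν ^ ((1 + κ) / 2) := by positivity
    rw [e, hε]
    gcongr
    linarith
  have hm1 := Mu_m2 (es_m3 (Rs_sym (n := n))) hf.int ν
  have hm2 := Mu_ml_z ν hf.int
  have hm3 := Mu_ms_z ν hf.int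
  have hXm : Measurable fun z : ((Fin n → ℝ) × ℝ) × E n =>
      (wX * ‖Mu (ml ν z.1.2 z.1.1) f z.2‖ₑ) ^ p := (hm2.enorm.const_mul _).pow_const p
  have hYm : Measurable fun z : ((Fin n → ℝ) × ℝ) × E n =>
      (wY * ‖Mu (ms ν z.1.2 z.1.1) f z.2‖ₑ) ^ p := (hm3.enorm.const_mul _).pow_const p
  have hKP : K * P4 ^ p ≠ ⊤ := ENNReal.mul_ne_top hKt (ENNReal.rpow_ne_top_of_nonneg hp0 hP4t)
  have key : ∫⁻ z, (w * ‖Mu (es Rs ν z.1) f z.2‖ₑ) ^ p ∂(zm n α β) ≤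
      ∫⁻ z, K * P4 ^ p * ((wX * ‖Mu (ml ν z.1.2 z.1.1) f z.2‖ₑ) ^ p +
        (wY * ‖Mu (ms ν z.1.2 z.1.1) f z.2‖ₑ) ^ p) ∂(zm n α β) := by
    refine z_mono ((hm1.enorm.const_mul _).pow_const p) ((hXm.add hYm).const_mul _)
      fun a ha x => ?_
    have ha0 : ∀ j, 0 < a j := fun j => lt_of_lt_of_le hα (ha j).1
    have ht := time_p (T_der1 hν ha0 hf.int x) (T_der2 hν ha0 hf.int x) (T_cont hν ha0 hf.int x)
      hε0 hε2 hp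
    have e4 : ‖((-(4 * Real.pi) : ℝ) : ℂ)‖ₑ = P4 := by
      rw [← ofReal_norm, Complex.norm_real, Real.norm_eq_abs, abs_neg, abs_of_pos (by positivity),
        hP4]
    simp only [Mu_const, enorm_mul, e4] at ht
    have hta := pair_meas hm1 a x
    have htb := pair_meas hm2 a x
    have htc := pair_meas hm3 a x
    simp only
    have h5 : ∀ t : ℝ, (w * ‖Mu (es Rs ν (a, t)) f x‖ₑ) ^ p ≤
        w ^ p * (P4 * ‖Mu (es Rs ν (a, t)) f x‖ₑ) ^ p := by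
      intro t
      rw [← ENNReal.mul_rpow_of_nonneg _ _ hp0]
      refine ENNReal.rpow_le_rpow (mul_le_mul_right ?_ _) hp0
      calc ‖Mu (es Rs ν (a, t)) f x‖ₑ = 1 * ‖Mu (es Rs ν (a, t)) f x‖ₑ := (one_mul _).symm
        _ ≤ _ := mul_le_mul_left hP1 _
    refine (lintegral_mono h5).trans ?_
    rw [lintegral_const_mul' _ _ (ENNReal.rpow_ne_top_of_nonneg hp0 hwt),
      lintegral_const_mul' _ _ hKP, lintegral_add_left ((htb.enorm.const_mul _).pow_const p)]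
    rw [← hK] at ht
    refine (mul_le_mul_right ht _).trans ?_
    have e6 : w ^ p * (K * (ENNReal.ofReal ε⁻¹ ^ p * (∫⁻ t in Icc (1 : ℝ) 2,
        ‖Mu (ml ν t a) f x‖ₑ ^ p) + ENNReal.ofReal ε ^ p *
          ∫⁻ t in Icc (1 : ℝ) 2, (P4 * ‖Mu (ms ν t a) f x‖ₑ) ^ p)) =
        K * (∫⁻ t in Icc (1 : ℝ) 2, (w * ENNReal.ofReal ε⁻¹ * ‖Mu (ml ν t a) f x‖ₑ) ^ p) +
        K * (∫⁻ t in Icc (1 : ℝ) 2, (P4 * (w * ENNReal.ofReal ε * ‖Mu (ms ν t a) f x‖ₑ)) ^ p) := by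
      simp only [ENNReal.mul_rpow_of_nonneg _ _ hp0]
      rw [lintegral_const_mul' _ _ (ENNReal.mul_ne_top (ENNReal.rpow_ne_top_of_nonneg hp0 hwt)
          (ENNReal.rpow_ne_top_of_nonneg hp0 ENNReal.ofReal_ne_top)),
        lintegral_const_mul' _ _ (ENNReal.rpow_ne_top_of_nonneg hp0 hP4t),
        lintegral_const_mul' _ _ (ENNReal.rpow_ne_top_of_nonneg hp0 hP4t),
        lintegral_const_mul' _ _ (ENNReal.mul_ne_top (ENNReal.rpow_ne_top_of_nonneg hp0 hwt)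
          (ENNReal.rpow_ne_top_of_nonneg hp0 ENNReal.ofReal_ne_top))]
      ring
    rw [e6]
    have e7 : K * P4 ^ p * ((∫⁻ t in Icc (1 : ℝ) 2, (wX * ‖Mu (ml ν t a) f x‖ₑ) ^ p) +
        ∫⁻ t in Icc (1 : ℝ) 2, (wY * ‖Mu (ms ν t a) f x‖ₑ) ^ p) =
        K * (∫⁻ t in Icc (1 : ℝ) 2, (P4 * wX * ‖Mu (ml ν t a) f x‖ₑ) ^ p) +
        K * (∫⁻ t in Icc (1 : ℝ) 2, (P4 * (wY * ‖Mu (ms ν t a) f x‖ₑ)) ^ p) := by
      have e8 : ∀ t, (P4 * wX * ‖Mu (ml ν t a) f x‖ₑ) ^ p =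
          P4 ^ p * (wX * ‖Mu (ml ν t a) f x‖ₑ) ^ p := fun t => by
        rw [mul_assoc, ENNReal.mul_rpow_of_nonneg _ _ hp0]
      have e9 : ∀ t, (P4 * (wY * ‖Mu (ms ν t a) f x‖ₑ)) ^ p =
          P4 ^ p * (wY * ‖Mu (ms ν t a) f x‖ₑ) ^ p := fun t => by
        rw [ENNReal.mul_rpow_of_nonneg _ _ hp0]
      simp only [e8, e9]
      rw [lintegral_const_mul' _ _ (ENNReal.rpow_ne_top_of_nonneg hp0 hP4t),
        lintegral_const_mul' _ _ (ENNReal.rpow_ne_top_of_nonneg hp0 hP4t)]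
      ring
    rw [e7]
    gcongr
  rw [← hw, ← hK, ← hP4]
  refine key.trans ?_
  rw [lintegral_const_mul' _ _ hKP, lintegral_add_left hXm]
  have hIf := hI f hf ν hν hνc
  have hSf := hS f hf ν hν (by linarith)
  rw [← hwX] at hIf
  rw [← hwY] at hSf
  calc K * P4 ^ p * ((∫⁻ z, (wX * ‖Mu (ml ν z.1.2 z.1.1) f z.2‖ₑ) ^ p ∂(zm n α β)) +
        ∫⁻ z, (wY * ‖Mu (ms ν z.1.2 z.1.1) f z.2‖ₑ) ^ p ∂(zm n α β))
      ≤ K * P4 ^ p * (C1 * (∫⁻ x, ‖f x‖ₑ ^ p) + C2 * ∫⁻ x, ‖f x‖ₑ ^ p) := by gcongr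
    _ = _ := by ring

end Pool.Agent.TH292.LS
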