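import Mathlib
import Pool.Agent.TH292.LS.U3
set_option autoImplicit false

/-! Low frequencies for the velocity, and the factor `1 - Δ`. -/

namespace Pool.Agent.TH292.LS

open Complex MeasureTheory Set Filter Topology
open scoped ENNReal FourierTransform ComplexConjugate RealInnerProductSpace
open Pool.Agent.TH310.BZ

variable {n : ℕ}

lemma Rs_der0 {Q : ℝ} (hQ : 0 ≤ Q) (t : ℝ) :
    HasDerivAt (fun t : ℝ => t * Real.sinc (2 * Real.pi * t * Real.sqrt Q))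
      (Real.cos (2 * Real.pi * t * Real.sqrt Q)) t := by
  rcases hQ.eq_or_lt with rfl | hQ
  · simp only [Real.sqrt_zero, mul_zero, Real.sinc_zero, mul_one, Real.cos_zero]
    exact hasDerivAt_id t
  · have hs : 0 < Real.sqrt Q := Real.sqrt_pos.2 hQ
    have hpi := Real.pi_pos
    have e : (fun t : ℝ => t * Real.sinc (2 * Real.pi * t * Real.sqrt Q)) =
        fun t : ℝ => (2 * Real.pi * Real.sqrt Q)⁻¹ * Real.sin (2 * Real.pi * t * Real.sqrt Q) := by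
      funext t
      rw [← mul_sinc]
      field_simp
    rw [e]
    have h1 : HasDerivAt (fun t : ℝ => 2 * Real.pi * t * Real.sqrt Q)
        (2 * Real.pi * 1 * Real.sqrt Q) t :=
      ((hasDerivAt_id t).const_mul (2 * Real.pi)).mul_const _
    refine (h1.sin.const_mul _).congr_deriv ?_
    field_simp

lemma elRs_der (c : ℝ) {a : Fin n → ℝ} (ha : ∀ j, 0 < a j) (ξ : E n) (t : ℝ) :
    HasDerivAt (fun t => el Rs c (a, t) ξ) (ml c t a ξ) t := by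
  have h1 := ((Rs_der0 (QF_nonneg ha ξ) t).const_mul
    (Real.exp (-(Real.pi * c * QF a ξ)))).ofReal_comp
  have e : (fun t => el Rs c (a, t) ξ) = fun t : ℝ => ((Real.exp (-(Real.pi * c * QF a ξ)) *
      (t * Real.sinc (2 * Real.pi * t * Real.sqrt (QF a ξ))) : ℝ) : ℂ) := by
    funext t
    unfold el Rs
    rw [← Complex.ofReal_mul]
  rw [e]
  exact h1

lemma MelRs_der {c : ℝ} (hc : 0 < c) {a : Fin n → ℝ} (ha : ∀ j, 0 < a j) {g : E n → ℂ}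
    (hg : Integrable g) (x : E n) (t : ℝ) :
    HasDerivAt (fun t => Mu (el Rs c (a, t)) g x) (Mu (ml c t a) g x) t := by
  refine Mu_der (m := fun t => el Rs c (a, t)) (m' := fun t => ml c t a)
    (fun t => m_ξ (el_m3 Rs_sym) c (a, t)) (fun t => (ml_cξ c t a).measurable)
    (gauss_int' ha hc) (fun t ξ => ?_) (fun t ξ => ?_) (fun t ξ => elRs_der c ha ξ t) hg x t
  · unfold el
    rw [norm_mul, Complex.norm_real, Real.norm_of_nonneg (Real.exp_pos _).le, mul_comm]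
    refine mul_le_mul_of_nonneg_right ((Rs_le _ _).trans ?_) (Real.exp_pos _).le
    simp only
    linarith
  · refine (ml_bd c t a ξ).trans ?_
    have h1 : 0 ≤ |t| * Real.exp (-(Real.pi * c * QF a ξ)) := by positivity
    linarith

lemma Mu_elRs_zero (c : ℝ) (a : Fin n → ℝ) (g : E n → ℂ) (x : E n) :
    Mu (el Rs c (a, 0)) g x = 0 := by
  unfold Mu el Rs
  simp

/-- the low frequencies for the velocity -/
theorem low_vel (n : ℕ) (hn : 1 ≤ n) {α β p c₁ : ℝ} (hα : 0 < α) (hαβ : α ≤ β)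
    (hp : 2 ≤ p) (hp4 : p ≤ 4) (hc : 0 < c₁) (hc1 : c₁ ≤ 1) :
    ∃ C : ℝ≥0∞, C ≠ ⊤ ∧ ∀ (f : E n → ℂ), GB f →
      ∫⁻ z, ‖Mu (el Rs c₁ z.1) f z.2‖ₑ ^ p ∂(zm n α β) ≤ C * ∫⁻ x, ‖f x‖ₑ ^ p := by
  obtain ⟨C, hC, h⟩ := transfer n hn hα hαβ zero_lt_one hp hp4
  have hp0 : 0 < p := by linarith
  obtain ⟨N, hN⟩ : ∃ N, N = Real.sqrt (2 / c₁) := ⟨_, rfl⟩
  have hN0 : 0 < N := by rw [hN]; exact Real.sqrt_pos.2 (by positivity)
  have hN1 : 1 ≤ N := by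
    rw [hN, Real.one_le_sqrt, le_div_iff₀ hc]
    linarith
  obtain ⟨L, hL⟩ : ∃ L, L = 4 * N ^ (1 + 1 : ℝ) * (Kc ^ 2 + 1 / N ^ 2 *
      (Kc + Kc * (16 * Real.pi ^ 2 * N ^ 2)) ^ 2) := ⟨_, rfl⟩
  refine ⟨(2 ^ p * ENNReal.ofReal L ^ (p / 2)) * C,
    ENNReal.mul_ne_top (ENNReal.mul_ne_top
      (ENNReal.rpow_ne_top_of_nonneg hp0.le (by norm_num))
      (ENNReal.rpow_ne_top_of_nonneg (by positivity) ENNReal.ofReal_ne_top)) hC,
    fun f hf => ?_⟩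
  have hg := dl_GB hN0 hf
  refine h f hf N hN0 _ _ ?_ fun a ha x => ?_
  · exact (Mu_m2 (el_m3 Rs_sym) hf.int c₁).enorm.pow_const p
  · obtain ⟨X, hX⟩ : ∃ X, X = ENNReal.ofReal L * B2 1 a (dl N f) (N • x) := ⟨_, rfl⟩
    have hXt : X ≠ ⊤ := by
      rw [hX]
      exact ENNReal.mul_ne_top ENNReal.ofReal_ne_top (B2_lt_top hn zero_lt_one ha hg _).ne
    have hXh : X ^ (1 / 2 : ℝ) ≠ ⊤ := ENNReal.rpow_ne_top_of_nonneg (by norm_num) hXt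
    have h1 : ∀ r, 0 ≤ r → r ≤ 2 → ‖Mu (ml c₁ r a) f x‖ ≤ (X ^ (1 / 2 : ℝ)).toReal := by
      intro r h0 h2
      have h3 := UU_crude A0_amp hN1 zero_lt_one le_rfl h0 h2 ha hg (N • x)
      have h4 := ml_eq (a := a) hc r f x
      rw [← hN] at h4
      rw [← hL, ← hX, ← h4] at h3
      rw [← toReal_enorm]
      refine ENNReal.toReal_mono hXh ?_
      calc ‖Mu (ml c₁ r a) f x‖ₑ = (‖Mu (ml c₁ r a) f x‖ₑ ^ 2) ^ (1 / 2 : ℝ) := by
            rw [← ENNReal.rpow_natCast, ← ENNReal.rpow_mul]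
            norm_num
        _ ≤ _ := ENNReal.rpow_le_rpow h3 (by norm_num)
    have h2 : ∀ t ∈ Icc (1 : ℝ) 2, ‖Mu (el Rs c₁ (a, t)) f x‖ₑ ^ p ≤
        (2 ^ p * ENNReal.ofReal L ^ (p / 2)) * B2 1 a (dl N f) (N • x) ^ (p / 2) := by
      intro t ht
      have h3 := norm_image_sub_le_of_norm_deriv_le_segment'
        (f := fun t => Mu (el Rs c₁ (a, t)) f x) (f' := fun t => Mu (ml c₁ t a) f x)
        (a := 0) (b := 2) (C := (X ^ (1 / 2 : ℝ)).toReal)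
        (fun r _ => (MelRs_der hc ha hf.int x r).hasDerivWithinAt)
        (fun r hr => h1 r hr.1 hr.2.le) t ⟨by linarith [ht.1], ht.2⟩
      simp only [Mu_elRs_zero, sub_zero] at h3
      have h4 : ‖Mu (el Rs c₁ (a, t)) f x‖ ≤ 2 * (X ^ (1 / 2 : ℝ)).toReal := by
        refine h3.trans ?_
        rw [mul_comm]
        exact mul_le_mul_of_nonneg_right ht.2 ENNReal.toReal_nonneg
      have h5 : ‖Mu (el Rs c₁ (a, t)) f x‖ₑ ≤ 2 * X ^ (1 / 2 : ℝ) := by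
        rw [← ofReal_norm]
        refine (ENNReal.ofReal_le_ofReal h4).trans (le_of_eq ?_)
        rw [ENNReal.ofReal_mul (by norm_num), ENNReal.ofReal_toReal hXh]
        norm_num
      refine (ENNReal.rpow_le_rpow h5 hp0.le).trans (le_of_eq ?_)
      rw [ENNReal.mul_rpow_of_nonneg _ _ hp0.le, ← ENNReal.rpow_mul, hX,
        ENNReal.mul_rpow_of_nonneg _ _ (by positivity)]
      rw [show 1 / 2 * p = p / 2 by ring]
      ring
    refine (setLIntegral_mono' measurableSet_Icc h2).trans ?_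
    rw [lintegral_const, Measure.restrict_apply_univ, Real.volume_Icc]
    norm_num

/-! ### the Laplacian -/

/-- the function `ρ⁻² ∂_j²` of a heat regularisation -/
noncomputable def gj (j : Fin n) (ρ : ℝ) (f : E n → ℂ) (x : E n) : ℂ := cv (KJ j) (dl ρ f) (ρ • x)

lemma gj_dl (j : Fin n) (ρ : ℝ) (f : E n → ℂ) : gj j ρ f = dl ρ⁻¹ (cv (KJ j) (dl ρ f)) := by
  ext x
  unfold gj
  conv_rhs => unfold dl
  rw [inv_inv]
  rfl

lemma gj_GB (j : Fin n) {ρ : ℝ} (hρ : 0 < ρ) {f : E n → ℂ} (hf : GB f) : GB (gj j ρ f) := by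
  rw [gj_dl]
  exact dl_GB (inv_pos.2 hρ) ((KJ_GB j).cv (dl_GB hρ hf))

lemma gj_F (j : Fin n) {ρ : ℝ} (hρ : 0 < ρ) {f : E n → ℂ} (hf : GB f) (ξ : E n) :
    𝓕 (gj j ρ f) ξ = ((mj j (ρ⁻¹ • ξ) : ℝ) : ℂ) * 𝓕 f ξ := by
  rw [gj_dl, F_dil (inv_pos.2 hρ), KJf_fourier j (dl_GB hρ hf), F_dil hρ, smul_inv_smul₀ hρ.ne']
  have e : (((ρ⁻¹) ^ n : ℝ) : ℂ) * ((ρ ^ n : ℝ) : ℂ) = 1 := by
    rw [← Complex.ofReal_mul, inv_pow, inv_mul_cancel₀ (by positivity), Complex.ofReal_one]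
  calc (((ρ⁻¹) ^ n : ℝ) : ℂ) * (((ρ ^ n : ℝ) : ℂ) * 𝓕 f ξ * ((mj j (ρ⁻¹ • ξ) : ℝ) : ℂ))
      = ((((ρ⁻¹) ^ n : ℝ) : ℂ) * ((ρ ^ n : ℝ) : ℂ)) * (((mj j (ρ⁻¹ • ξ) : ℝ) : ℂ) * 𝓕 f ξ) := by
        ring
    _ = _ := by rw [e, one_mul]

lemma cv_p {K h : E n → ℂ} (hK : GB K) (hh : GB h) {p : ℝ} (hp : 1 < p) :
    ∫⁻ x, ‖cv K h x‖ₑ ^ p ≤ (∫⁻ y, ‖K y‖ₑ) ^ p * ∫⁻ x, ‖h x‖ₑ ^ p := by
  have hp0 : 0 ≤ p := by linarith
  have h1 : ∀ x, ‖cv K h x‖ₑ ≤ ∫⁻ u, ‖K u‖ₑ * ‖h (x - u)‖ₑ := by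
    intro x
    unfold cv
    refine (enorm_integral_le_lintegral_enorm _).trans (le_of_eq ?_)
    rw [← lintegral_sub_left_eq_self (fun u => ‖K u‖ₑ * ‖h (x - u)‖ₑ) x]
    refine lintegral_congr fun y => ?_
    rw [sub_sub_cancel, enorm_mul, mul_comm]
  have hm : Measurable (Function.uncurry fun (u x : E n) => ‖h (x - u)‖ₑ) := by
    have h2 : Measurable fun q : E n × E n => q.2 - q.1 := measurable_snd.sub measurable_fst
    have h3 := (hh.meas.comp h2).enorm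
    exact h3
  refine (lintegral_mono fun x => ENNReal.rpow_le_rpow (h1 x) hp0).trans ?_
  refine minkw volume volume hK.meas.enorm hm hp _ (ae_of_all _ fun u => le_of_eq ?_)
  exact lintegral_sub_right_eq_self (fun x => ‖h x‖ₑ ^ p) u

lemma gj_p (j : Fin n) {ρ : ℝ} (hρ : 0 < ρ) {f : E n → ℂ} (hf : GB f) {p : ℝ} (hp : 1 < p) :
    ∫⁻ x, ‖gj j ρ f x‖ₑ ^ p ≤ (∫⁻ y : E n, ‖KJ j y‖ₑ) ^ p * ∫⁻ x, ‖f x‖ₑ ^ p := by
  have hg := dl_GB hρ hf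
  have hm : Measurable fun x => ‖cv (KJ j) (dl ρ f) x‖ₑ ^ p :=
    ((KJ_GB j).cv hg).meas.enorm.pow_const p
  have h1 : ∫⁻ x, ‖gj j ρ f x‖ₑ ^ p = ENNReal.ofReal ((ρ ^ n)⁻¹) *
      ∫⁻ x, ‖cv (KJ j) (dl ρ f) x‖ₑ ^ p := lint_smul hρ hm
  have h2 : ∫⁻ x, ‖dl ρ f x‖ₑ ^ p = ENNReal.ofReal (ρ ^ n) * ∫⁻ x, ‖f x‖ₑ ^ p := by
    have h3 := lint_smul (n := n) (inv_pos.2 hρ) (hf.meas.enorm.pow_const p)
    rw [inv_pow, inv_inv] at h3
    exact h3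
  rw [h1]
  calc ENNReal.ofReal ((ρ ^ n)⁻¹) * ∫⁻ x, ‖cv (KJ j) (dl ρ f) x‖ₑ ^ p
      ≤ ENNReal.ofReal ((ρ ^ n)⁻¹) * ((∫⁻ y : E n, ‖KJ j y‖ₑ) ^ p *
        (ENNReal.ofReal (ρ ^ n) * ∫⁻ x, ‖f x‖ₑ ^ p)) := by
        rw [← h2]
        exact mul_le_mul_right (cv_p (KJ_GB j) hg hp) _
    _ = (ENNReal.ofReal ((ρ ^ n)⁻¹) * ENNReal.ofReal (ρ ^ n)) *
        ((∫⁻ y : E n, ‖KJ j y‖ₑ) ^ p * ∫⁻ x, ‖f x‖ₑ ^ p) := by ring
    _ = _ := by
        rw [← ENNReal.ofReal_mul (by positivity), inv_mul_cancel₀ (by positivity),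
          ENNReal.ofReal_one, one_mul]

/-- a Gaussian factor depending on `a` costs nothing -/
lemma gs_le {m m' : (Fin n → ℝ) × ℝ → E n → ℂ}
    (hm : Measurable fun q : ((Fin n → ℝ) × ℝ) × E n => m q.1 q.2)
    (hm' : Measurable fun q : ((Fin n → ℝ) × ℝ) × E n => m' q.1 q.2) {α β : ℝ}
    {c : (Fin n → ℝ) × ℝ → Fin n → ℝ} (hc : ∀ q : (Fin n → ℝ) × ℝ, (∀ j, q.1 j ∈ Icc α β) →
      ∀ j, 0 < c q j) (he : ∀ q : (Fin n → ℝ) × ℝ, (∀ j, q.1 j ∈ Icc α β) →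
      m' q = fun ξ => gs (c q) ξ * m q ξ) {p : ℝ} (hp : 1 < p) (w : ℝ≥0∞) {f : E n → ℂ}
    (hf : Integrable f) (hmi : ∀ q : (Fin n → ℝ) × ℝ, (∀ j, q.1 j ∈ Icc α β) →
      Integrable fun ξ => m q ξ * 𝓕 f ξ) :
    ∫⁻ z, (w * ‖Mu (m' z.1) f z.2‖ₑ) ^ p ∂(zm n α β) ≤
      ∫⁻ z, (w * ‖Mu (m z.1) f z.2‖ₑ) ^ p ∂(zm n α β) := by
  have hp0 : 0 ≤ p := by linarith
  have hM : Measurable fun z : ((Fin n → ℝ) × ℝ) × E n => Mu (m z.1) f z.2 :=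
    Mu_meas (Z := (Fin n → ℝ) × ℝ) hm hf
  have hM' : Measurable fun z : ((Fin n → ℝ) × ℝ) × E n => Mu (m' z.1) f z.2 :=
    Mu_meas (Z := (Fin n → ℝ) × ℝ) hm' hf
  have hm1 : Measurable fun z : ((Fin n → ℝ) × ℝ) × E n => (w * ‖Mu (m' z.1) f z.2‖ₑ) ^ p :=
    (hM'.enorm.const_mul _).pow_const p
  have hm2 : Measurable fun z : ((Fin n → ℝ) × ℝ) × E n => (w * ‖Mu (m z.1) f z.2‖ₑ) ^ p :=
    (hM.enorm.const_mul _).pow_const p
  have hmξ : ∀ q, Measurable (m q) := fun q => by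
    have h1 : Measurable fun ξ : E n => (q, ξ) := measurable_const.prodMk measurable_id
    have h2 := hm.comp h1
    exact h2
  have hmξ' : ∀ q, Measurable (m' q) := fun q => by
    have h1 : Measurable fun ξ : E n => (q, ξ) := measurable_const.prodMk measurable_id
    have h2 := hm'.comp h1
    exact h2
  rw [lintegral_prod _ hm1.aemeasurable, lintegral_prod _ hm2.aemeasurable]
  have hbox : ∀ᵐ q ∂((nu n α β).prod (volume.restrict (Icc (1 : ℝ) 2))), ∀ j, q.1 j ∈ Icc α β :=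
    Measure.quasiMeasurePreserving_fst.ae (nu_ae n α β)
  refine lintegral_mono_ae ?_
  filter_upwards [hbox] with q hq
  have h1 := gauss_p (hc q hq) (m := m q) (hmξ q) hf (hmi q hq) hp
  rw [← he q hq] at h1
  simp only [ENNReal.mul_rpow_of_nonneg _ _ hp0]
  rw [lintegral_const_mul _ ((Mu_meas_x (hmξ' q) hf).enorm.pow_const p),
    lintegral_const_mul _ ((Mu_meas_x (hmξ q) hf).enorm.pow_const p)]
  exact mul_le_mul_right h1 _

end Pool.Agent.TH292.LS
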