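import Mathlib
import Pool.Agent.TH292.LS.V
set_option autoImplicit false

/-! The estimate for the initial velocity. -/

namespace Pool.Agent.TH292.LS

open Complex MeasureTheory Set Filter Topology
open scoped ENNReal FourierTransform ComplexConjugate RealInnerProductSpace
open Pool.Agent.TH310.BZ

variable {n : ℕ}

/-- the symbol with the factor `(1 + 4π²|ξ|²) e^{-πη|ξ|²}` -/
noncomputable def lpm (η : ℝ) (m : (Fin n → ℝ) × ℝ → E n → ℂ) (q : (Fin n → ℝ) × ℝ)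
    (ξ : E n) : ℂ :=
  (((1 + 4 * Real.pi ^ 2 * ‖ξ‖ ^ 2) * Real.exp (-(Real.pi * η * ‖ξ‖ ^ 2)) : ℝ) : ℂ) * m q ξ

lemma gs_const (η : ℝ) (ξ : E n) :
    gs (fun _ => η) ξ = ((Real.exp (-(Real.pi * η * ‖ξ‖ ^ 2)) : ℝ) : ℂ) := by
  unfold gs
  rw [← Complex.ofReal_neg, ← Complex.ofReal_exp]
  congr 3
  rw [EuclideanSpace.real_norm_sq_eq]
  unfold QF
  rw [Finset.mul_sum, Finset.mul_sum]
  exact Finset.sum_congr rfl fun j _ => by ring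

lemma mj_sum' {η : ℝ} (hη : 0 < η) (ξ : E n) :
    ∑ j, mj j (Real.sqrt η • ξ) = η * ‖ξ‖ ^ 2 * Real.exp (-(Real.pi * η * ‖ξ‖ ^ 2)) := by
  have hs := Real.sq_sqrt hη.le
  have e1 : ∑ i, (Real.sqrt η • ξ) i ^ 2 = η * ‖ξ‖ ^ 2 := by
    rw [EuclideanSpace.real_norm_sq_eq, Finset.mul_sum]
    refine Finset.sum_congr rfl fun i _ => ?_
    rw [PiLp.smul_apply, smul_eq_mul, mul_pow, hs]
  unfold mj
  rw [← Finset.sum_mul, e1]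
  congr 2
  ring

lemma lpm_pt {m : (Fin n → ℝ) × ℝ → E n → ℂ} {η : ℝ} (hη : 0 < η) (q : (Fin n → ℝ) × ℝ)
    {f : E n → ℂ} (hf : GB f) (hmi : ∀ g : E n → ℂ, Integrable g →
      Integrable fun ξ => m q ξ * 𝓕 g ξ) (x : E n) :
    Mu (lpm η m q) f x = Mu (fun ξ => gs (fun _ => η) ξ * m q ξ) f x +
      ((4 * Real.pi ^ 2 * η⁻¹ : ℝ) : ℂ) * ∑ j, Mu (m q) (gj j (Real.sqrt η)⁻¹ f) x := by
  have hs : 0 < Real.sqrt η := Real.sqrt_pos.2 hη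
  have hsi : 0 < (Real.sqrt η)⁻¹ := inv_pos.2 hs
  have hA : Integrable fun ξ : E n => gs (fun _ => η) ξ * m q ξ * 𝓕 f ξ *
      cexp (((2 * Real.pi * ⟪x, ξ⟫ : ℝ) : ℂ) * I) := by
    have h1 := Mu_int2 (hmi f hf.int) x
    have h2 := h1.bdd_mul (c := 1) (f := fun ξ : E n => gs (fun _ => η) ξ)
      (gs_cont _).aestronglyMeasurable (ae_of_all _ fun ξ => by
        rw [gs_norm, Real.exp_le_one_iff]
        have : 0 ≤ Real.pi * QF (fun _ => η) ξ :=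
          mul_nonneg Real.pi_pos.le (QF_nonneg (fun _ => hη) ξ)
        linarith)
    refine h2.congr (ae_of_all _ fun ξ => ?_)
    simp only
    ring
  have hB : ∀ j ∈ (Finset.univ : Finset (Fin n)), Integrable fun ξ : E n =>
      m q ξ * 𝓕 (gj j (Real.sqrt η)⁻¹ f) ξ * cexp (((2 * Real.pi * ⟪x, ξ⟫ : ℝ) : ℂ) * I) :=
    fun j _ => Mu_int2 (hmi _ (gj_GB j hsi hf).int) x
  unfold Mu
  rw [← integral_finsetSum _ hB, ← integral_const_mul,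
    ← integral_add hA ((integrable_finsetSum _ hB).const_mul _)]
  congr 1
  ext ξ
  have e1 : ∑ j, m q ξ * 𝓕 (gj j (Real.sqrt η)⁻¹ f) ξ *
      cexp (((2 * Real.pi * ⟪x, ξ⟫ : ℝ) : ℂ) * I) =
      (((∑ j, mj j (Real.sqrt η • ξ) : ℝ)) : ℂ) * (m q ξ * 𝓕 f ξ *
        cexp (((2 * Real.pi * ⟪x, ξ⟫ : ℝ) : ℂ) * I)) := by
    rw [Complex.ofReal_sum, Finset.sum_mul]
    refine Finset.sum_congr rfl fun j _ => ?_
    rw [gj_F j hsi hf, inv_inv]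
    ring
  rw [e1, mj_sum' hη, gs_const]
  unfold lpm
  have e2 : (((1 + 4 * Real.pi ^ 2 * ‖ξ‖ ^ 2) * Real.exp (-(Real.pi * η * ‖ξ‖ ^ 2)) : ℝ) : ℂ) =
      ((Real.exp (-(Real.pi * η * ‖ξ‖ ^ 2)) : ℝ) : ℂ) + ((4 * Real.pi ^ 2 * η⁻¹ : ℝ) : ℂ) *
        ((η * ‖ξ‖ ^ 2 * Real.exp (-(Real.pi * η * ‖ξ‖ ^ 2)) : ℝ) : ℂ) := by
    rw [← Complex.ofReal_mul, ← Complex.ofReal_add]
    congr 1
    field_simp
  rw [e2]
  ring

/-- the constant for the factor `1 - Δ` -/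
noncomputable def Kn (n : ℕ) (p : ℝ) : ℝ≥0∞ :=
  2 ^ (p - 1) * (1 + ENNReal.ofReal (4 * Real.pi ^ 2) ^ p * ((n : ℝ≥0∞) ^ (p - 1) *
    ∑ j : Fin n, (∫⁻ y : E n, ‖KJ j y‖ₑ) ^ p))

lemma Kn_top {p : ℝ} (hp : 1 < p) : Kn n p ≠ ⊤ := by
  unfold Kn
  refine ENNReal.mul_ne_top (ENNReal.rpow_ne_top_of_nonneg (by linarith) (by norm_num)) ?_
  refine ENNReal.add_ne_top.2 ⟨ENNReal.one_ne_top, ENNReal.mul_ne_top
    (ENNReal.rpow_ne_top_of_nonneg (by linarith) ENNReal.ofReal_ne_top) (ENNReal.mul_ne_top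
    (ENNReal.rpow_ne_top_of_nonneg (by linarith) (ENNReal.natCast_ne_top n)) ?_)⟩
  refine ENNReal.sum_ne_top.2 fun j _ => ENNReal.rpow_ne_top_of_nonneg (by linarith) ?_
  exact (KJ_GB j).int.2.ne

/-- the factor `1 - Δ` -/
theorem lap {m : (Fin n → ℝ) × ℝ → E n → ℂ}
    (hm : Measurable fun q : ((Fin n → ℝ) × ℝ) × E n => m q.1 q.2) {α β p : ℝ} (hp : 1 < p)
    (w : ℝ≥0∞) {D : ℝ≥0∞}
    (hmi : ∀ q : (Fin n → ℝ) × ℝ, (∀ j, q.1 j ∈ Icc α β) → ∀ g : E n → ℂ, Integrable g →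
      Integrable fun ξ => m q ξ * 𝓕 g ξ)
    (hD : ∀ g : E n → ℂ, GB g → ∫⁻ z, (w * ‖Mu (m z.1) g z.2‖ₑ) ^ p ∂(zm n α β) ≤
      D * ∫⁻ x, ‖g x‖ₑ ^ p) {η : ℝ} (hη : 0 < η) (hη1 : η ≤ 1) {f : E n → ℂ} (hf : GB f) :
    ∫⁻ z, (w * ‖Mu (lpm η m z.1) f z.2‖ₑ) ^ p ∂(zm n α β) ≤
      Kn n p * ENNReal.ofReal η⁻¹ ^ p * D * ∫⁻ x, ‖f x‖ₑ ^ p := by
  have hp0 : 0 ≤ p := by linarith
  have hs : 0 < Real.sqrt η := Real.sqrt_pos.2 hη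
  have hsi : 0 < (Real.sqrt η)⁻¹ := inv_pos.2 hs
  obtain ⟨mA, hmA⟩ : ∃ mA : (Fin n → ℝ) × ℝ → E n → ℂ,
      mA = fun q ξ => gs (fun _ => η) ξ * m q ξ := ⟨_, rfl⟩
  have hmAm : Measurable fun q : ((Fin n → ℝ) × ℝ) × E n => mA q.1 q.2 := by
    rw [hmA]
    have h1 : Measurable fun q : ((Fin n → ℝ) × ℝ) × E n => gs (fun _ => η) q.2 :=
      (gs_cont _).measurable.comp measurable_snd
    exact h1.mul hm
  have hA : ∫⁻ z, (w * ‖Mu (mA z.1) f z.2‖ₑ) ^ p ∂(zm n α β) ≤ D * ∫⁻ x, ‖f x‖ₑ ^ p :=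
    (gs_le hm hmAm (α := α) (β := β) (c := fun _ _ => η) (fun _ _ _ => hη)
      (fun q _ => by rw [hmA]) hp w hf.int (fun q hq => hmi q hq f hf.int)).trans (hD f hf)
  have hB : ∀ j : Fin n, ∫⁻ z, (w * ‖Mu (m z.1) (gj j (Real.sqrt η)⁻¹ f) z.2‖ₑ) ^ p
      ∂(zm n α β) ≤ D * ((∫⁻ y : E n, ‖KJ j y‖ₑ) ^ p * ∫⁻ x, ‖f x‖ₑ ^ p) := fun j =>
    (hD _ (gj_GB j hsi hf)).trans (mul_le_mul_right (gj_p j hsi hf hp) _)
  have hMA : Measurable fun z : ((Fin n → ℝ) × ℝ) × E n => Mu (mA z.1) f z.2 :=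
    Mu_meas (Z := (Fin n → ℝ) × ℝ) hmAm hf.int
  have hMB : ∀ j : Fin n, Measurable fun z : ((Fin n → ℝ) × ℝ) × E n =>
      Mu (m z.1) (gj j (Real.sqrt η)⁻¹ f) z.2 := fun j =>
    Mu_meas (Z := (Fin n → ℝ) × ℝ) hm (gj_GB j hsi hf).int
  obtain ⟨c, hc⟩ : ∃ c : ℝ≥0∞, c = ENNReal.ofReal (4 * Real.pi ^ 2 * η⁻¹) := ⟨_, rfl⟩
  have hct : c ≠ ⊤ := by rw [hc]; exact ENNReal.ofReal_ne_top
  have hnt : (n : ℝ≥0∞) ^ (p - 1) ≠ ⊤ :=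
    ENNReal.rpow_ne_top_of_nonneg (by linarith) (ENNReal.natCast_ne_top n)
  have hpt : ∀ᵐ z ∂(zm n α β), (w * ‖Mu (lpm η m z.1) f z.2‖ₑ) ^ p ≤
      2 ^ (p - 1) * ((w * ‖Mu (mA z.1) f z.2‖ₑ) ^ p + (c ^ p * (n : ℝ≥0∞) ^ (p - 1)) *
        ∑ j, (w * ‖Mu (m z.1) (gj j (Real.sqrt η)⁻¹ f) z.2‖ₑ) ^ p) := by
    filter_upwards [box_z (n := n) (α := α) (β := β)] with z hz
    rw [lpm_pt hη z.1 hf (hmi z.1 hz) z.2]
    have h1 : w * ‖Mu (fun ξ => gs (fun _ => η) ξ * m z.1 ξ) f z.2 +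
        ((4 * Real.pi ^ 2 * η⁻¹ : ℝ) : ℂ) * ∑ j, Mu (m z.1) (gj j (Real.sqrt η)⁻¹ f) z.2‖ₑ ≤
        w * ‖Mu (mA z.1) f z.2‖ₑ + c * ∑ j, w * ‖Mu (m z.1) (gj j (Real.sqrt η)⁻¹ f) z.2‖ₑ := by
      refine (mul_le_mul_right (enorm_add_le _ _) _).trans ?_
      rw [mul_add, hmA]
      refine add_le_add_right ?_ _
      rw [enorm_mul, ← Finset.mul_sum, ← mul_assoc, ← mul_assoc, mul_comm c w]
      have e : ‖((4 * Real.pi ^ 2 * η⁻¹ : ℝ) : ℂ)‖ₑ = c := by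
        rw [← ofReal_norm, Complex.norm_real, Real.norm_of_nonneg (by positivity), hc]
      rw [e]
      exact mul_le_mul_right (enorm_sum_le _ _) _
    refine (ENNReal.rpow_le_rpow h1 hp0).trans
      ((ENNReal.rpow_add_le_mul_rpow_add_rpow _ _ hp.le).trans ?_)
    refine mul_le_mul_right (add_le_add_right ?_ _) _
    rw [ENNReal.mul_rpow_of_nonneg _ _ hp0, mul_assoc]
    refine mul_le_mul_right ?_ _
    have h2 := ENNReal.rpow_sum_le_const_mul_sum_rpow (Finset.univ : Finset (Fin n))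
      (fun j => w * ‖Mu (m z.1) (gj j (Real.sqrt η)⁻¹ f) z.2‖ₑ) hp.le
    simpa using h2
  refine (lintegral_mono_ae hpt).trans ?_
  rw [lintegral_const_mul' _ _ (ENNReal.rpow_ne_top_of_nonneg (by linarith) (by norm_num)),
    lintegral_add_left ((hMA.enorm.const_mul _).pow_const p),
    lintegral_const_mul' _ _ (ENNReal.mul_ne_top (ENNReal.rpow_ne_top_of_nonneg hp0 hct) hnt),
    lintegral_finsetSum _ fun j _ => (((hMB j).enorm.const_mul _).pow_const p)]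
  obtain ⟨F, hF⟩ : ∃ F, F = ∫⁻ x, ‖f x‖ₑ ^ p := ⟨_, rfl⟩
  rw [← hF] at hA hB ⊢
  obtain ⟨e, he⟩ : ∃ e : ℝ≥0∞, e = ENNReal.ofReal η⁻¹ ^ p := ⟨_, rfl⟩
  have he1 : 1 ≤ e := by
    rw [he]
    refine ENNReal.one_le_rpow ?_ (by linarith)
    rw [ENNReal.one_le_ofReal]
    exact (one_le_inv₀ hη).2 hη1
  have hce : c ^ p = ENNReal.ofReal (4 * Real.pi ^ 2) ^ p * e := by
    rw [hc, he, ENNReal.ofReal_mul (by positivity), ENNReal.mul_rpow_of_nonneg _ _ hp0]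
  calc 2 ^ (p - 1) * ((∫⁻ z, (w * ‖Mu (mA z.1) f z.2‖ₑ) ^ p ∂(zm n α β)) +
        c ^ p * (n : ℝ≥0∞) ^ (p - 1) * ∑ j, ∫⁻ z,
          (w * ‖Mu (m z.1) (gj j (Real.sqrt η)⁻¹ f) z.2‖ₑ) ^ p ∂(zm n α β))
      ≤ 2 ^ (p - 1) * (D * F + c ^ p * (n : ℝ≥0∞) ^ (p - 1) *
        ∑ j : Fin n, D * ((∫⁻ y : E n, ‖KJ j y‖ₑ) ^ p * F)) := by
        gcongr with j
        exact hB j
    _ = 2 ^ (p - 1) * (1 * (D * F) + e * (ENNReal.ofReal (4 * Real.pi ^ 2) ^ p *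
        ((n : ℝ≥0∞) ^ (p - 1) * ∑ j : Fin n, (∫⁻ y : E n, ‖KJ j y‖ₑ) ^ p)) * (D * F)) := by
        rw [hce, ← Finset.mul_sum, ← Finset.sum_mul]
        ring
    _ ≤ 2 ^ (p - 1) * (e * (D * F) + e * (ENNReal.ofReal (4 * Real.pi ^ 2) ^ p *
        ((n : ℝ≥0∞) ^ (p - 1) * ∑ j : Fin n, (∫⁻ y : E n, ‖KJ j y‖ₑ) ^ p)) * (D * F)) := by
        gcongr
    _ = _ := by
        unfold Kn
        rw [← he]
        ring

end Pool.Agent.TH292.LS
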