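import Mathlib
import Pool.Agent.TH292.LS.X
set_option autoImplicit false

/-! The two averaged estimates. -/

namespace Pool.Agent.TH292.LS

open Complex MeasureTheory Set Filter Topology
open scoped ENNReal FourierTransform ComplexConjugate RealInnerProductSpace
open Pool.Agent.TH310.BZ

variable {n : ℕ}

/-- the symbol for the velocity, with two more derivatives -/
noncomputable def Ry (q : (Fin n → ℝ) × ℝ) (ξ : E n) : ℂ :=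
  ((1 + 4 * Real.pi ^ 2 * ‖ξ‖ ^ 2 : ℝ) : ℂ) * Rs q ξ

lemma Ry_sym : Sym (Ry (n := n)) (4 * Real.pi ^ 2) := by
  have hpi := Real.pi_gt_three
  refine ⟨?_, by positivity, fun q ξ => ?_⟩
  · unfold Ry
    have h1 : Continuous fun p : ((Fin n → ℝ) × ℝ) × E n =>
        ((1 + 4 * Real.pi ^ 2 * ‖p.2‖ ^ 2 : ℝ) : ℂ) := by fun_prop
    exact h1.measurable.mul Rs_sym.meas
  · unfold Ry
    rw [norm_mul, Complex.norm_real, Real.norm_of_nonneg (by positivity)]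
    have h1 := Rs_le q ξ
    have h2 : 1 + 4 * Real.pi ^ 2 * ‖ξ‖ ^ 2 ≤ 4 * Real.pi ^ 2 * (1 + ‖ξ‖ ^ 2) := by nlinarith
    calc (1 + 4 * Real.pi ^ 2 * ‖ξ‖ ^ 2) * ‖Rs q ξ‖
        ≤ (4 * Real.pi ^ 2 * (1 + ‖ξ‖ ^ 2)) * (1 + |q.2|) :=
          mul_le_mul h2 (h1.trans (by linarith)) (norm_nonneg _) (by positivity)
      _ = _ := by ring

lemma es_int {R : (Fin n → ℝ) × ℝ → E n → ℂ} {B : ℝ} (hR : Sym R B) {α ν : ℝ} (hα : 0 < α)
    (hν : 0 < ν) {q : (Fin n → ℝ) × ℝ} (hq : ∀ j, α ≤ q.1 j) {f : E n → ℂ} (hf : Integrable f) :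
    Integrable fun ξ => es R ν q ξ * 𝓕 f ξ :=
  Mu_int (m_ξ (es_m3 hR) ν q)
    ((poly_int (n := n) (τ := Real.pi * (ν / 2) * α) (by positivity)).const_mul _)
    (es_bd hR hα hν le_rfl hq) hf

lemma lpm_meas {m : (Fin n → ℝ) × ℝ → E n → ℂ}
    (hm : Measurable fun q : ((Fin n → ℝ) × ℝ) × E n => m q.1 q.2) (η : ℝ) :
    Measurable fun q : ((Fin n → ℝ) × ℝ) × E n => lpm η m q.1 q.2 := by
  unfold lpm
  have h1 : Continuous fun p : ((Fin n → ℝ) × ℝ) × E n =>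
      (((1 + 4 * Real.pi ^ 2 * ‖p.2‖ ^ 2) * Real.exp (-(Real.pi * η * ‖p.2‖ ^ 2)) : ℝ) : ℂ) := by
    fun_prop
  exact h1.measurable.mul hm

lemma lpm_int {m : (Fin n → ℝ) × ℝ → E n → ℂ} {η : ℝ} (hη : 0 < η) {q : (Fin n → ℝ) × ℝ}
    {f : E n → ℂ} (hi : Integrable fun ξ => m q ξ * 𝓕 f ξ) :
    Integrable fun ξ => lpm η m q ξ * 𝓕 f ξ := by
  have hpi := Real.pi_pos
  have h1 : Continuous fun ξ : E n =>
      (((1 + 4 * Real.pi ^ 2 * ‖ξ‖ ^ 2) * Real.exp (-(Real.pi * η * ‖ξ‖ ^ 2)) : ℝ) : ℂ) := by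
    fun_prop
  have h2 := hi.bdd_mul (c := 1 + 4 * Real.pi ^ 2 * (1 / (Real.pi * η))) (f := fun ξ : E n =>
      (((1 + 4 * Real.pi ^ 2 * ‖ξ‖ ^ 2) * Real.exp (-(Real.pi * η * ‖ξ‖ ^ 2)) : ℝ) : ℂ))
      h1.aestronglyMeasurable (ae_of_all _ fun ξ => by
        rw [Complex.norm_real, Real.norm_of_nonneg (by positivity)]
        obtain ⟨r, hr⟩ : ∃ r, r = ‖ξ‖ ^ 2 := ⟨_, rfl⟩
        have hr0 : 0 ≤ r := by rw [hr]; positivity
        rw [← hr]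
        have h3 : Real.exp (-(Real.pi * η * r)) ≤ 1 := by
          rw [Real.exp_le_one_iff]
          have : 0 ≤ Real.pi * η * r := by positivity
          linarith
        have h4 : r * Real.exp (-(Real.pi * η * r)) ≤ 1 / (Real.pi * η) := by
          rw [le_div_iff₀ (by positivity), Real.exp_neg]
          have h5 := Real.add_one_le_exp (Real.pi * η * r)
          have h6 := Real.exp_pos (Real.pi * η * r)
          have h7 : r * (Real.exp (Real.pi * η * r))⁻¹ * (Real.pi * η) =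
              (Real.pi * η * r) / Real.exp (Real.pi * η * r) := by
            rw [div_eq_mul_inv]
            ring
          rw [h7, div_le_one h6]
          linarith
        calc (1 + 4 * Real.pi ^ 2 * r) * Real.exp (-(Real.pi * η * r))
            = Real.exp (-(Real.pi * η * r)) +
              4 * Real.pi ^ 2 * (r * Real.exp (-(Real.pi * η * r))) := by ring
          _ ≤ _ := by gcongr)
  refine h2.congr (ae_of_all _ fun ξ => ?_)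
  simp only
  unfold lpm
  ring

lemma esRy_eq (ν α : ℝ) (q : (Fin n → ℝ) × ℝ) : es Ry ν q = fun ξ =>
    gs (fun j => ν / 2 * q.1 j - ν * α / 4) ξ * lpm (ν * α / 4) (es Rs (ν / 2)) q ξ := by
  ext ξ
  have h1 : gs (fun j => ν / 2 * q.1 j - ν * α / 4) ξ =
      ((Real.exp (-(Real.pi * (ν / 2 * QF q.1 ξ - ν * α / 4 * ‖ξ‖ ^ 2))) : ℝ) : ℂ) := by
    unfold gs
    rw [← Complex.ofReal_neg, ← Complex.ofReal_exp]
    congr 4
    rw [EuclideanSpace.real_norm_sq_eq]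
    unfold QF
    rw [Finset.mul_sum, Finset.mul_sum, ← Finset.sum_sub_distrib]
    exact Finset.sum_congr rfl fun j _ => by ring
  rw [h1]
  unfold lpm es Ry
  have h2 : Real.exp (-(Real.pi * ν * QF q.1 ξ)) =
      Real.exp (-(Real.pi * (ν / 2 * QF q.1 ξ - ν * α / 4 * ‖ξ‖ ^ 2))) *
        Real.exp (-(Real.pi * (ν * α / 4) * ‖ξ‖ ^ 2)) *
        Real.exp (-(Real.pi * (ν / 2) * QF q.1 ξ)) := by
    rw [← Real.exp_add, ← Real.exp_add]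
    congr 1
    ring
  rw [h2]
  push_cast
  ring

lemma elRy_eq (ν α : ℝ) (q : (Fin n → ℝ) × ℝ) : el Ry ν q = fun ξ =>
    gs (fun j => ν / 2 * q.1 j - ν * α / 4) ξ * lpm (ν * α / 4) (el Rs (ν / 2)) q ξ := by
  ext ξ
  have h1 : gs (fun j => ν / 2 * q.1 j - ν * α / 4) ξ =
      ((Real.exp (-(Real.pi * (ν / 2 * QF q.1 ξ - ν * α / 4 * ‖ξ‖ ^ 2))) : ℝ) : ℂ) := by
    unfold gs
    rw [← Complex.ofReal_neg, ← Complex.ofReal_exp]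
    congr 4
    rw [EuclideanSpace.real_norm_sq_eq]
    unfold QF
    rw [Finset.mul_sum, Finset.mul_sum, ← Finset.sum_sub_distrib]
    exact Finset.sum_congr rfl fun j _ => by ring
  rw [h1]
  unfold lpm el Ry
  have h2 : Real.exp (-(Real.pi * ν * QF q.1 ξ)) =
      Real.exp (-(Real.pi * (ν / 2 * QF q.1 ξ - ν * α / 4 * ‖ξ‖ ^ 2))) *
        Real.exp (-(Real.pi * (ν * α / 4) * ‖ξ‖ ^ 2)) *
        Real.exp (-(Real.pi * (ν / 2) * QF q.1 ξ)) := by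
    rw [← Real.exp_add, ← Real.exp_add]
    congr 1
    ring
  rw [h2]
  push_cast
  ring

lemma m_z {m : ℝ → (Fin n → ℝ) × ℝ → E n → ℂ}
    (hm : Measurable fun p : (ℝ × ((Fin n → ℝ) × ℝ)) × E n => m p.1.1 p.1.2 p.2) (μ : ℝ) :
    Measurable fun q : ((Fin n → ℝ) × ℝ) × E n => m μ q.1 q.2 := by
  have h1 : Measurable fun q : ((Fin n → ℝ) × ℝ) × E n => (μ, q.1) :=
    measurable_const.prodMk measurable_fst
  have h2 : Measurable fun q : ((Fin n → ℝ) × ℝ) × E n => ((μ, q.1), q.2) :=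
    h1.prodMk measurable_snd
  have h3 := hm.comp h2
  exact h3

lemma box_gs {α β ν : ℝ} (hα : 0 < α) (hν : 0 < ν) (q : (Fin n → ℝ) × ℝ)
    (hq : ∀ j, q.1 j ∈ Icc α β) (j : Fin n) : 0 < ν / 2 * q.1 j - ν * α / 4 := by
  have h1 : ν / 2 * α ≤ ν / 2 * q.1 j := mul_le_mul_of_nonneg_left (hq j).1 (by positivity)
  have h2 : 0 < ν * α := by positivity
  linarith

/-- the velocity propagator with two more derivatives, one scale -/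
theorem velS {α β p κ c₁ : ℝ} (hα : 0 < α) (hαβ : α ≤ β) (hp : 1 < p)
    (hcβ : c₁ * β ≤ 1) {C3 : ℝ≥0∞}
    (hV : ∀ (f : E n → ℂ), GB f → ∀ ν : ℝ, 0 < ν → ν ≤ c₁ →
      ∫⁻ z, (ENNReal.ofReal (ν ^ ((1 + κ) / 2)) * ‖Mu (es Rs ν z.1) f z.2‖ₑ) ^ p
        ∂(zm n α β) ≤ C3 * ∫⁻ x, ‖f x‖ₑ ^ p)
    (f : E n → ℂ) (hf : GB f) (ν : ℝ) (hν : 0 < ν) (hνc : ν ≤ c₁) :
    ∫⁻ z, (ENNReal.ofReal (ν ^ (1 + (1 + κ) / 2)) * ‖Mu (es Ry ν z.1) f z.2‖ₑ) ^ p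
        ∂(zm n α β) ≤ (Kn n p * (ENNReal.ofReal (4 / α * 2 ^ ((1 + κ) / 2)) ^ p * C3)) *
          ∫⁻ x, ‖f x‖ₑ ^ p := by
  have hp0 : 0 ≤ p := by linarith
  have hν2 : 0 < ν / 2 := by positivity
  have hη : 0 < ν * α / 4 := by positivity
  have hη1 : ν * α / 4 ≤ 1 := by
    have h1 : ν * α ≤ c₁ * β := mul_le_mul hνc hαβ hα.le (hν.le.trans hνc)
    linarith
  obtain ⟨w, hw⟩ : ∃ w : ℝ≥0∞, w = ENNReal.ofReal (ν ^ (1 + (1 + κ) / 2)) := ⟨_, rfl⟩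
  obtain ⟨w', hw'⟩ : ∃ w : ℝ≥0∞, w = ENNReal.ofReal ((ν / 2) ^ ((1 + κ) / 2)) := ⟨_, rfl⟩
  obtain ⟨r, hr⟩ : ∃ r : ℝ≥0∞, r = ENNReal.ofReal (ν * 2 ^ ((1 + κ) / 2)) := ⟨_, rfl⟩
  have hww : w = r * w' := by
    rw [hw, hr, hw', ← ENNReal.ofReal_mul (by positivity)]
    congr 1
    rw [Real.div_rpow hν.le (by norm_num), Real.rpow_add hν, Real.rpow_one]
    have h2 : (0 : ℝ) < 2 ^ ((1 + κ) / 2) := by positivity
    field_simp
  have hrt : r ≠ ⊤ := by rw [hr]; exact ENNReal.ofReal_ne_top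
  have hm : Measurable fun q : ((Fin n → ℝ) × ℝ) × E n => es Rs (ν / 2) q.1 q.2 :=
    m_z (es_m3 Rs_sym) (ν / 2)
  have hD : ∀ g : E n → ℂ, GB g → ∫⁻ z, (w * ‖Mu (es Rs (ν / 2) z.1) g z.2‖ₑ) ^ p
      ∂(zm n α β) ≤ (r ^ p * C3) * ∫⁻ x, ‖g x‖ₑ ^ p := by
    intro g hg
    have h1 := hV g hg (ν / 2) hν2 (by linarith)
    rw [← hw'] at h1
    have h2 : ∀ z : ((Fin n → ℝ) × ℝ) × E n, (w * ‖Mu (es Rs (ν / 2) z.1) g z.2‖ₑ) ^ p =
        r ^ p * (w' * ‖Mu (es Rs (ν / 2) z.1) g z.2‖ₑ) ^ p := by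
      intro z
      rw [hww, mul_assoc, ENNReal.mul_rpow_of_nonneg _ _ hp0]
    simp only [h2]
    rw [lintegral_const_mul' _ _ (ENNReal.rpow_ne_top_of_nonneg hp0 hrt), mul_assoc]
    exact mul_le_mul_right h1 _
  rw [← hw]
  have h1 := gs_le (lpm_meas hm (ν * α / 4)) (m_z (es_m3 Ry_sym) ν) (α := α) (β := β)
    (c := fun q j => ν / 2 * q.1 j - ν * α / 4) (fun q hq => box_gs hα hν q hq)
    (fun q _ => esRy_eq ν α q) hp w hf.int (fun q hq => lpm_int hη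
      (es_int Rs_sym hα hν2 (fun j => (hq j).1) hf.int))
  have h2 := lap hm (α := α) (β := β) hp w (fun q hq g hg =>
    es_int Rs_sym hα hν2 (fun j => (hq j).1) hg) hD hη hη1 hf
  refine h1.trans (h2.trans (le_of_eq ?_))
  have h3 : ENNReal.ofReal (ν * α / 4)⁻¹ ^ p * r ^ p =
      ENNReal.ofReal (4 / α * 2 ^ ((1 + κ) / 2)) ^ p := by
    rw [← ENNReal.mul_rpow_of_nonneg _ _ hp0, hr, ← ENNReal.ofReal_mul (by positivity)]
    congr 2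
    field_simp
  rw [← h3]
  ring

/-- the low frequencies -/
theorem velL (n : ℕ) (hn : 1 ≤ n) {α β p c₁ : ℝ} (hα : 0 < α) (hαβ : α ≤ β)
    (hp : 2 ≤ p) (hp4 : p ≤ 4) (hc : 0 < c₁) (hc1 : c₁ ≤ 1) (hcβ : c₁ * β ≤ 1) :
    ∃ C : ℝ≥0∞, C ≠ ⊤ ∧ ∀ (f : E n → ℂ), GB f →
      ∫⁻ z, ‖Mu (el Ry c₁ z.1) f z.2‖ₑ ^ p ∂(zm n α β) ≤ C * ∫⁻ x, ‖f x‖ₑ ^ p := by
  have hp0 : 0 ≤ p := by linarith
  have hc2 : 0 < c₁ / 2 := by positivity
  obtain ⟨C, hC, h⟩ := low_vel n hn hα hαβ hp hp4 hc2 (by linarith)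
  have hη : 0 < c₁ * α / 4 := by positivity
  have hη1 : c₁ * α / 4 ≤ 1 := by
    have h1 : c₁ * α ≤ c₁ * β := mul_le_mul_of_nonneg_left hαβ hc.le
    linarith
  refine ⟨Kn n p * ENNReal.ofReal (c₁ * α / 4)⁻¹ ^ p * C, ENNReal.mul_ne_top
    (ENNReal.mul_ne_top (Kn_top (by linarith))
      (ENNReal.rpow_ne_top_of_nonneg hp0 ENNReal.ofReal_ne_top)) hC, fun f hf => ?_⟩
  have hm : Measurable fun q : ((Fin n → ℝ) × ℝ) × E n => el Rs (c₁ / 2) q.1 q.2 :=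
    m_z (el_m3 Rs_sym) (c₁ / 2)
  have h1 := gs_le (lpm_meas hm (c₁ * α / 4)) (m_z (el_m3 Ry_sym) c₁) (α := α) (β := β)
    (c := fun q j => c₁ / 2 * q.1 j - c₁ * α / 4) (fun q hq => box_gs hα hc q hq)
    (fun q _ => elRy_eq c₁ α q) (p := p) (by linarith) 1 hf.int (fun q hq => lpm_int hη
      (el_int Rs_sym hα hc2 (fun j => (hq j).1) hf.int))
  have h2 := lap hm (α := α) (β := β) (p := p) (by linarith) 1 (fun q hq g hg =>
    el_int Rs_sym hα hc2 (fun j => (hq j).1) hg) (D := C)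
    (fun g hg => by simpa only [one_mul] using h g hg) hη hη1 hf
  simp only [one_mul] at h1 h2
  exact h1.trans h2

/-- parameters -/
lemma params {β p s : ℝ} (hβ : 0 < β) (hp : 2 ≤ p) (hs : 1 / 2 - 1 / p < s) :
    ∃ δ κ c₁ : ℝ, 0 < δ ∧ δ ≤ 1 ∧ κ * p = (p - 2) / 2 + δ * p / 2 ∧ 0 < κ ∧ κ < s ∧
      0 < c₁ ∧ c₁ ≤ 1 ∧ c₁ * β ≤ 1 := by
  have hp0 : 0 < p := by linarith
  have hp2 : 1 / p ≤ 1 / 2 := one_div_le_one_div_of_le (by norm_num) hp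
  have hδ0 : 0 < min 1 (s - (1 / 2 - 1 / p)) := lt_min one_pos (by linarith)
  have hδ2 : min 1 (s - (1 / 2 - 1 / p)) ≤ s - (1 / 2 - 1 / p) := min_le_right _ _
  refine ⟨min 1 (s - (1 / 2 - 1 / p)), (1 / 2 - 1 / p) + min 1 (s - (1 / 2 - 1 / p)) / 2,
    min 1 (1 / β), hδ0, min_le_left _ _, ?_, by linarith, by linarith,
    lt_min one_pos (by positivity), min_le_left _ _, ?_⟩
  · generalize min 1 (s - (1 / 2 - 1 / p)) = δ
    field_simp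
  · have : min 1 (1 / β) ≤ 1 / β := min_le_right _ _
    rwa [le_div_iff₀ hβ] at this

/-- **The averaged estimate for the initial position.** -/
theorem pos_av (n : ℕ) (hn : 1 ≤ n) {α β p s : ℝ} (hα : 0 < α) (hαβ : α ≤ β)
    (hp : 2 ≤ p) (hp4 : p ≤ 4) (hs : 1 / 2 - 1 / p < s) :
    ∃ C : ℝ≥0∞, C ≠ ⊤ ∧ ∀ (f : E n → ℂ), GB f → ∀ τ : ℝ, 0 < τ →
      ∫⁻ z, ‖Mu (hW (bW s Rc) τ z.1) f z.2‖ₑ ^ p ∂(zm n α β) ≤ C * ∫⁻ x, ‖f x‖ₑ ^ p := by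
  have hβ : 0 < β := lt_of_lt_of_le hα hαβ
  obtain ⟨δ, κ, c₁, hδ0, hδ1, hκp, hκ0, hκs, hc0, hc1, hcβ⟩ := params hβ hp hs
  obtain ⟨C, hC, hI⟩ := stepI n hn hα hαβ hδ0 hδ1 hp hp4 hκp hc0 hc1
  refine genII Rc_sym hα (by linarith) hκs (by linarith) hc0 hcβ hC fun f hf μ hμ hμc => ?_
  simp only [el_Rc]
  exact hI f hf μ hμ hμc

/-- **The averaged estimate for the initial velocity.** -/
theorem vel_av (n : ℕ) (hn : 1 ≤ n) {α β p s : ℝ} (hα : 0 < α) (hαβ : α ≤ β)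
    (hp : 2 ≤ p) (hp4 : p ≤ 4) (hs : 1 / 2 - 1 / p < s) :
    ∃ C : ℝ≥0∞, C ≠ ⊤ ∧ ∀ (f : E n → ℂ), GB f → ∀ τ : ℝ, 0 < τ →
      ∫⁻ z, ‖Mu (hW (bW (1 + s) Ry) τ z.1) f z.2‖ₑ ^ p ∂(zm n α β) ≤
        C * ∫⁻ x, ‖f x‖ₑ ^ p := by
  have hβ : 0 < β := lt_of_lt_of_le hα hαβ
  have hp1 : 1 < p := by linarith
  obtain ⟨δ, κ, c₁, hδ0, hδ1, hκp, hκ0, hκs, hc0, hc1, hcβ⟩ := params hβ hp hs
  obtain ⟨C1, hC1, hI⟩ := stepI n hn hα hαβ hδ0 hδ1 hp hp4 hκp hc0 hc1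
  obtain ⟨C2, hC2, hS⟩ := scale_p n hn hα hαβ hδ0 hδ1 hp hp4 hκp
  have hV := velS (n := n) (κ := κ) hα hαβ hp1 hcβ
    (vel_scale (κ := κ) hα hp1 hc1 hI hS)
  obtain ⟨C4, hC4, hL⟩ := velL n hn hα hαβ hp hp4 hc0 hc1 hcβ
  have hC3 : Kn n p * (ENNReal.ofReal (4 / α * 2 ^ ((1 + κ) / 2)) ^ p *
      (4 * (2 ^ (p - 1) * 2 ^ (p - 1)) * ENNReal.ofReal (4 * Real.pi) ^ p * (C1 + C2))) ≠ ⊤ := by
    refine ENNReal.mul_ne_top (Kn_top hp1) (ENNReal.mul_ne_top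
      (ENNReal.rpow_ne_top_of_nonneg (by linarith) ENNReal.ofReal_ne_top) (ENNReal.mul_ne_top
      (ENNReal.mul_ne_top (ENNReal.mul_ne_top (by norm_num) (ENNReal.mul_ne_top
        (ENNReal.rpow_ne_top_of_nonneg (by linarith) (by norm_num))
        (ENNReal.rpow_ne_top_of_nonneg (by linarith) (by norm_num))))
        (ENNReal.rpow_ne_top_of_nonneg (by linarith) ENNReal.ofReal_ne_top))
      (ENNReal.add_ne_top.2 ⟨hC1, hC2⟩)))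
  obtain ⟨C, hC, hJ⟩ := genI Ry_sym (κ := 1 + κ) hα hp1 (by linarith) hc1 hC3 hC4
    (fun f hf ν hν hνc => hV f hf ν hν hνc) hL
  exact genII Ry_sym hα hp1 (by linarith) (by linarith) hc0 hcβ hC hJ

end Pool.Agent.TH292.LS
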