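import Mathlib
import Pool.Agent.TH292.LS.Y
set_option autoImplicit false

/-! Final forms. -/

namespace Pool.Agent.TH292.LS

open Complex MeasureTheory Set Filter Topology
open scoped ENNReal FourierTransform ComplexConjugate RealInnerProductSpace SchwartzMap
open Pool.Agent.TH310.BZ

variable {n : ℕ}

lemma bes_growth (r : ℝ) :
    (fun ξ : E n => (1 + 4 * Real.pi ^ 2 * ‖ξ‖ ^ 2) ^ r).HasTemperateGrowth := by
  have h1 := Function.hasTemperateGrowth_one_add_norm_sq_rpow (E n) r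
  have h2 : (fun ξ : E n => (2 * Real.pi) • ξ).HasTemperateGrowth :=
    ((2 * Real.pi) • ContinuousLinearMap.id ℝ (E n)).hasTemperateGrowth
  have h3 := h1.comp h2
  have e : (fun ξ : E n => (1 + 4 * Real.pi ^ 2 * ‖ξ‖ ^ 2) ^ r) =
      (fun x : E n => (1 + ‖x‖ ^ 2) ^ r) ∘ fun ξ : E n => (2 * Real.pi) • ξ := by
    funext ξ
    simp only [Function.comp_apply]
    rw [norm_smul, Real.norm_of_nonneg (by positivity), mul_pow]
    congr 2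
    ring
  rw [e]
  exact h3

/-- the Bessel potential of a Schwartz function, as a Schwartz function -/
noncomputable def bS (r : ℝ) (u : 𝓢(E n, ℂ)) : 𝓢(E n, ℂ) :=
  SchwartzMap.fourierMultiplierCLM ℂ (fun ξ : E n => (1 + 4 * Real.pi ^ 2 * ‖ξ‖ ^ 2) ^ (r / 2)) u

lemma bS_F (r : ℝ) (u : 𝓢(E n, ℂ)) (ξ : E n) :
    𝓕 (bS r u : E n → ℂ) ξ =
      (((1 + 4 * Real.pi ^ 2 * ‖ξ‖ ^ 2) ^ (r / 2) : ℝ) : ℂ) * 𝓕 (u : E n → ℂ) ξ := by
  unfold bS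
  rw [SchwartzMap.fourierMultiplierCLM_apply, ← SchwartzMap.fourier_coe]
  rw [FourierTransform.fourier_fourierInv_eq, SchwartzMap.smulLeftCLM_apply_apply (bes_growth _),
    SchwartzMap.fourier_coe]
  rw [Complex.real_smul]

lemma bS_apply (r : ℝ) (u : 𝓢(E n, ℂ)) (x : E n) :
    bS r u x = ∫ ξ : E n, cexp (((2 * Real.pi * ⟪x, ξ⟫ : ℝ) : ℂ) * I) *
      ((((1 + 4 * Real.pi ^ 2 * ‖ξ‖ ^ 2) ^ (r / 2) : ℝ) : ℂ) * 𝓕 (u : E n → ℂ) ξ) := by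
  unfold bS
  rw [SchwartzMap.fourierMultiplierCLM_apply, SchwartzMap.fourierInv_coe, Real.fourierInv_eq']
  congr 1
  ext ξ
  rw [SchwartzMap.smulLeftCLM_apply_apply (bes_growth _), SchwartzMap.fourier_coe, smul_eq_mul,
    Complex.real_smul, real_inner_comm]

lemma schwartz_F_int (u : 𝓢(E n, ℂ)) : Integrable (𝓕 (u : E n → ℂ)) := by
  have h := (𝓕 u).integrable (μ := (volume : Measure (E n)))
  rwa [SchwartzMap.fourier_coe] at h

lemma schwartz_F_poly (u : 𝓢(E n, ℂ)) :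
    Integrable fun ξ : E n => (1 + ‖ξ‖ ^ 2) * ‖𝓕 (u : E n → ℂ) ξ‖ := by
  have h := (𝓕 u).integrable_pow_mul (volume : Measure (E n)) 2
  have h2 := (schwartz_F_int u).norm
  rw [SchwartzMap.fourier_coe] at h
  refine (h2.add h).congr (ae_of_all _ fun ξ => ?_)
  simp only [Pi.add_apply]
  ring

lemma sym_F_int {W : (Fin n → ℝ) × ℝ → E n → ℂ} {B : ℝ} (hW' : Sym W B)
    (q : (Fin n → ℝ) × ℝ) (u : 𝓢(E n, ℂ)) :
    Integrable fun ξ => W q ξ * 𝓕 (u : E n → ℂ) ξ := by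
  refine ((schwartz_F_poly u).const_mul ((1 + |q.2|) * B)).mono'
    ((W_measξ hW' q).mul (meas_F u.integrable)).aestronglyMeasurable (ae_of_all _ fun ξ => ?_)
  rw [norm_mul]
  calc ‖W q ξ‖ * ‖𝓕 (u : E n → ℂ) ξ‖
      ≤ ((1 + |q.2|) * (B * (1 + ‖ξ‖ ^ 2))) * ‖𝓕 (u : E n → ℂ) ξ‖ :=
        mul_le_mul_of_nonneg_right (hW'.bd q ξ) (norm_nonneg _)
    _ = _ := by ring

/-- the averaged estimate for a Schwartz function -/
theorem schwartz_av {W : (Fin n → ℝ) × ℝ → E n → ℂ} {B : ℝ} (hW' : Sym W B) {α β p : ℝ}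
    (hp : 1 < p) {C : ℝ≥0∞}
    (hC : ∀ f : E n → ℂ, GB f → ∀ τ : ℝ, 0 < τ →
      ∫⁻ z, ‖Mu (hW W τ z.1) f z.2‖ₑ ^ p ∂(zm n α β) ≤ C * ∫⁻ x, ‖f x‖ₑ ^ p) (u : 𝓢(E n, ℂ)) :
    ∫⁻ z, ‖Mu (W z.1) u z.2‖ₑ ^ p ∂(zm n α β) ≤ C * ∫⁻ x, ‖u x‖ₑ ^ p :=
  ext_zero hW' u.integrable (fun τ hτ => ext_int hW' hp hτ (fun f hf => hC f hf τ hτ) u
    u.integrable) (ae_of_all _ fun q => sym_F_int hW' q u)

/-- the iterated integral -/
lemma z_iter {α β : ℝ} {F : ((Fin n → ℝ) × ℝ) × E n → ℝ≥0∞} (hF : Measurable F) :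
    ∫⁻ z, F z ∂(zm n α β) = ∫⁻ a in (univ.pi fun _ : Fin n => Icc α β),
      ∫⁻ t in Icc (1 : ℝ) 2, ∫⁻ x : E n, F ((a, t), x) := by
  rw [lintegral_prod _ hF.aemeasurable,
    lintegral_prod (fun q : (Fin n → ℝ) × ℝ => ∫⁻ x, F (q, x)) hF.lintegral_prod_right'.aemeasurable,
    nu_eq]

lemma two_p {p : ℝ} (hp : 1 < p) (A B : ℂ) :
    ‖A + B‖ₑ ^ p ≤ 2 ^ (p - 1) * (‖A‖ₑ ^ p + ‖B‖ₑ ^ p) :=
  (ENNReal.rpow_le_rpow (enorm_add_le _ _) (by linarith)).trans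
    (ENNReal.rpow_add_le_mul_rpow_add_rpow _ _ hp.le)

/-- all boxes at once -/
lemma ae_pos {P : (Fin n → ℝ) → Prop}
    (h : ∀ α β : ℝ, 0 < α → α ≤ β → ∀ᵐ a ∂(nu n α β), P a) :
    ∀ᵐ a : Fin n → ℝ, (∀ j, 0 < a j) → P a := by
  have hB : ∀ m : ℕ, MeasurableSet (univ.pi fun _ : Fin n => Icc (1 / ((m : ℝ) + 1)) ((m : ℝ) + 1)) :=
    fun m => MeasurableSet.univ_pi fun _ => measurableSet_Icc
  have h1 : ∀ m : ℕ, ∀ᵐ a : Fin n → ℝ,
      a ∈ (univ.pi fun _ : Fin n => Icc (1 / ((m : ℝ) + 1)) ((m : ℝ) + 1)) → P a := by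
    intro m
    have h2 := h (1 / ((m : ℝ) + 1)) ((m : ℝ) + 1) (by positivity) (by
      rw [div_le_iff₀ (by positivity)]
      have : (0 : ℝ) ≤ m := by positivity
      nlinarith)
    rw [nu_eq, ae_restrict_iff' (hB m)] at h2
    exact h2
  filter_upwards [ae_all_iff.2 h1] with a ha hpos
  have h3 : ∀ j, ∃ m : ℕ, 1 / ((m : ℝ) + 1) ≤ a j ∧ a j ≤ (m : ℝ) + 1 := by
    intro j
    obtain ⟨k, hk⟩ := exists_nat_one_div_lt (hpos j)
    obtain ⟨l, hl⟩ := exists_nat_ge (a j)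
    refine ⟨max k l, ?_, ?_⟩
    · refine le_trans ?_ hk.le
      apply one_div_le_one_div_of_le (by positivity)
      have : (k : ℝ) ≤ ((max k l : ℕ) : ℝ) := by exact_mod_cast le_max_left k l
      linarith
    · have : (l : ℝ) ≤ ((max k l : ℕ) : ℝ) := by exact_mod_cast le_max_right k l
      linarith
  choose m hm using h3
  obtain ⟨M, hM⟩ : ∃ M : ℕ, ∀ j, m j ≤ M := ⟨Finset.univ.sup m, fun j =>
    Finset.le_sup (Finset.mem_univ j)⟩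
  refine ha M fun j _ => ?_
  have h4 : (m j : ℝ) ≤ M := by exact_mod_cast hM j
  refine ⟨le_trans ?_ (hm j).1, (hm j).2.trans (by linarith)⟩
  apply one_div_le_one_div_of_le (by positivity)
  linarith

end Pool.Agent.TH292.LS
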