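import Mathlib
import Pool.Agent.TH292.LS.Z
set_option autoImplicit false

/-! Final forms. -/

namespace Pool.Agent.TH292.LS

open Complex MeasureTheory Set Filter Topology
open scoped ENNReal FourierTransform RealInnerProductSpace SchwartzMap
open Pool.Agent.TH310.BZ

variable {n : ℕ}

/-- the solution formula -/
noncomputable def solE (a : Fin n → ℝ) (u₀ u₁ : E n → ℂ) (t : ℝ) (x : E n) : ℂ :=
  ∫ ξ : E n, cexp (((2 * Real.pi * ⟪x, ξ⟫ : ℝ) : ℂ) * I) *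
    (((Real.cos (2 * Real.pi * t * Real.sqrt (∑ j, a j * ξ j ^ 2)) : ℝ) : ℂ) * 𝓕 u₀ ξ +
      ((t * Real.sinc (2 * Real.pi * t * Real.sqrt (∑ j, a j * ξ j ^ 2)) : ℝ) : ℂ) * 𝓕 u₁ ξ)

/-- the Bessel potential -/
noncomputable def besE (r : ℝ) (u : E n → ℂ) (x : E n) : ℂ :=
  ∫ ξ : E n, cexp (((2 * Real.pi * ⟪x, ξ⟫ : ℝ) : ℂ) * I) *
    ((((1 + 4 * Real.pi ^ 2 * ‖ξ‖ ^ 2) ^ (r / 2) : ℝ) : ℂ) * 𝓕 u ξ)

/-- the heat-regularised solution for rough data -/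
noncomputable def regE (s τ : ℝ) (a : Fin n → ℝ) (f g : E n → ℂ) (t : ℝ) (x : E n) : ℂ :=
  ∫ ξ : E n, cexp (((2 * Real.pi * ⟪x, ξ⟫ : ℝ) : ℂ) * I) *
    (((Real.exp (-(τ * ‖ξ‖ ^ 2)) : ℝ) : ℂ) *
      (((Real.cos (2 * Real.pi * t * Real.sqrt (∑ j, a j * ξ j ^ 2)) *
          (1 + 4 * Real.pi ^ 2 * ‖ξ‖ ^ 2) ^ (-s / 2) : ℝ) : ℂ) * 𝓕 f ξ +
        ((t * Real.sinc (2 * Real.pi * t * Real.sqrt (∑ j, a j * ξ j ^ 2)) *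
          (1 + 4 * Real.pi ^ 2 * ‖ξ‖ ^ 2) ^ ((1 - s) / 2) : ℝ) : ℂ) * 𝓕 g ξ))

lemma sym_pos {s : ℝ} (hs : 0 ≤ s) : Sym (bW s (Rc (n := n))) 1 := bW_sym Rc_sym hs

lemma sym_vel {s : ℝ} (hs : 0 ≤ s) : Sym (bW (1 + s) (Ry (n := n))) (4 * Real.pi ^ 2) :=
  bW_sym Ry_sym (by linarith)

lemma one_add_pos (ξ : E n) : 0 < 1 + 4 * Real.pi ^ 2 * ‖ξ‖ ^ 2 := by positivity

lemma solE_eq {s : ℝ} (hs : 0 ≤ s) (a : Fin n → ℝ) (u₀ u₁ : 𝓢(E n, ℂ)) (t : ℝ) (x : E n) :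
    solE a u₀ u₁ t x = Mu (bW s Rc (a, t)) (bS s u₀) x +
      Mu (bW (1 + s) Ry (a, t)) (bS (s - 1) u₁) x := by
  have h1 := Mu_int2 (sym_F_int (sym_pos hs) (a, t) (bS s u₀)) x
  have h2 := Mu_int2 (sym_F_int (sym_vel hs) (a, t) (bS (s - 1) u₁)) x
  unfold Mu
  rw [← integral_add h1 h2]
  unfold solE
  congr 1
  ext ξ
  rw [bS_F, bS_F]
  have hb := one_add_pos ξ
  have e1 : (((1 + 4 * Real.pi ^ 2 * ‖ξ‖ ^ 2) ^ (-(s / 2)) : ℝ) : ℂ) *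
      (((1 + 4 * Real.pi ^ 2 * ‖ξ‖ ^ 2) ^ (s / 2) : ℝ) : ℂ) = 1 := by
    rw [← Complex.ofReal_mul, ← Real.rpow_add hb, neg_add_cancel, Real.rpow_zero,
      Complex.ofReal_one]
  have e2 : (((1 + 4 * Real.pi ^ 2 * ‖ξ‖ ^ 2) ^ (-((1 + s) / 2)) : ℝ) : ℂ) *
      ((1 + 4 * Real.pi ^ 2 * ‖ξ‖ ^ 2 : ℝ) : ℂ) *
      (((1 + 4 * Real.pi ^ 2 * ‖ξ‖ ^ 2) ^ ((s - 1) / 2) : ℝ) : ℂ) = 1 := by
    rw [← Complex.ofReal_mul, ← Complex.ofReal_mul]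
    nth_rewrite 2 [← Real.rpow_one (1 + 4 * Real.pi ^ 2 * ‖ξ‖ ^ 2)]
    rw [← Real.rpow_add hb, ← Real.rpow_add hb]
    have : -((1 + s) / 2) + 1 + (s - 1) / 2 = 0 := by ring
    rw [this, Real.rpow_zero, Complex.ofReal_one]
  unfold bW Rc Ry Rs QF
  calc _ = cexp (((2 * Real.pi * ⟪x, ξ⟫ : ℝ) : ℂ) * I) *
        (((Real.cos (2 * Real.pi * t * Real.sqrt (∑ j, a j * ξ j ^ 2)) : ℝ) : ℂ) *
          𝓕 (u₀ : E n → ℂ) ξ * 1 +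
        ((t * Real.sinc (2 * Real.pi * t * Real.sqrt (∑ j, a j * ξ j ^ 2)) : ℝ) : ℂ) *
          𝓕 (u₁ : E n → ℂ) ξ * 1) := by ring
    _ = cexp (((2 * Real.pi * ⟪x, ξ⟫ : ℝ) : ℂ) * I) *
        (((Real.cos (2 * Real.pi * t * Real.sqrt (∑ j, a j * ξ j ^ 2)) : ℝ) : ℂ) *
          𝓕 (u₀ : E n → ℂ) ξ * ((((1 + 4 * Real.pi ^ 2 * ‖ξ‖ ^ 2) ^ (-(s / 2)) : ℝ) : ℂ) *
      (((1 + 4 * Real.pi ^ 2 * ‖ξ‖ ^ 2) ^ (s / 2) : ℝ) : ℂ)) +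
        ((t * Real.sinc (2 * Real.pi * t * Real.sqrt (∑ j, a j * ξ j ^ 2)) : ℝ) : ℂ) *
          𝓕 (u₁ : E n → ℂ) ξ * ((((1 + 4 * Real.pi ^ 2 * ‖ξ‖ ^ 2) ^ (-((1 + s) / 2)) : ℝ) : ℂ) *
      ((1 + 4 * Real.pi ^ 2 * ‖ξ‖ ^ 2 : ℝ) : ℂ) *
      (((1 + 4 * Real.pi ^ 2 * ‖ξ‖ ^ 2) ^ ((s - 1) / 2) : ℝ) : ℂ))) := by rw [e1, e2]
    _ = _ := by ring

lemma regE_eq {s τ : ℝ} (hs : 0 ≤ s) (hτ : 0 < τ) (a : Fin n → ℝ) {f g : E n → ℂ}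
    (hf : Integrable f) (hg : Integrable g) (t : ℝ) (x : E n) :
    regE s τ a f g t x = Mu (hW (bW s Rc) τ (a, t)) f x +
      Mu (hW (bW (1 + s) Ry) τ (a, t)) g x := by
  have h1 := Mu_int2 (hW_int (sym_pos hs) hτ (a, t) hf) x
  have h2 := Mu_int2 (hW_int (sym_vel hs) hτ (a, t) hg) x
  unfold Mu
  rw [← integral_add h1 h2]
  unfold regE
  congr 1
  ext ξ
  have hb := one_add_pos ξ
  have e0 : -s / 2 = -(s / 2) := by ring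
  have e2 : (1 + 4 * Real.pi ^ 2 * ‖ξ‖ ^ 2) ^ ((1 - s) / 2) =
      (1 + 4 * Real.pi ^ 2 * ‖ξ‖ ^ 2) ^ (-((1 + s) / 2)) * (1 + 4 * Real.pi ^ 2 * ‖ξ‖ ^ 2) := by
    nth_rewrite 3 [← Real.rpow_one (1 + 4 * Real.pi ^ 2 * ‖ξ‖ ^ 2)]
    rw [← Real.rpow_add hb]
    congr 1
    ring
  rw [e0, e2]
  unfold hW bW Rc Ry Rs QF
  push_cast
  ring

theorem part_one (n : ℕ) (hn : 1 ≤ n) {p s : ℝ} (hp : 2 ≤ p) (hp4 : p ≤ 4)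
    (hs : 1 / 2 - 1 / p < s) {α β : ℝ} (hα : 0 < α) (hαβ : α ≤ β) :
    ∃ C : ℝ, 0 < C ∧ ∀ u₀ u₁ : 𝓢(E n, ℂ),
      ∫⁻ a in (univ.pi fun _ : Fin n => Icc α β), ∫⁻ t in Icc (1 : ℝ) 2, ∫⁻ x : E n,
        ‖solE a u₀ u₁ t x‖ₑ ^ p ≤
      ENNReal.ofReal C * ((∫⁻ x, ‖besE s u₀ x‖ₑ ^ p) + ∫⁻ x, ‖besE (s - 1) u₁ x‖ₑ ^ p) := by
  have hp1 : 1 < p := by linarith
  have hp2 : 1 / p ≤ 1 / 2 := one_div_le_one_div_of_le (by norm_num) hp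
  have hs0 : 0 ≤ s := by linarith
  obtain ⟨C1, hC1, h1⟩ := pos_av n hn hα hαβ hp hp4 hs
  obtain ⟨C2, hC2, h2⟩ := vel_av n hn hα hαβ hp hp4 hs
  obtain ⟨C, hC⟩ : ∃ C : ℝ≥0∞, C = 2 ^ (p - 1) * (C1 + C2) := ⟨_, rfl⟩
  have hCt : C ≠ ⊤ := by
    rw [hC]
    exact ENNReal.mul_ne_top (ENNReal.rpow_ne_top_of_nonneg (by linarith) (by norm_num))
      (ENNReal.add_ne_top.2 ⟨hC1, hC2⟩)
  refine ⟨C.toReal + 1, by positivity, fun u₀ u₁ => ?_⟩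
  have hA := schwartz_av (sym_pos hs0) hp1 h1 (bS s u₀)
  have hB := schwartz_av (sym_vel hs0) hp1 h2 (bS (s - 1) u₁)
  have hmA : Measurable fun z : ((Fin n → ℝ) × ℝ) × E n => Mu (bW s Rc z.1) (bS s u₀) z.2 :=
    Mu_W_meas (sym_pos hs0) (bS s u₀).integrable
  have hmB : Measurable fun z : ((Fin n → ℝ) × ℝ) × E n =>
      Mu (bW (1 + s) Ry z.1) (bS (s - 1) u₁) z.2 :=
    Mu_W_meas (sym_vel hs0) (bS (s - 1) u₁).integrable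
  have e1 : ∫⁻ a in (univ.pi fun _ : Fin n => Icc α β), ∫⁻ t in Icc (1 : ℝ) 2, ∫⁻ x : E n,
      ‖solE a u₀ u₁ t x‖ₑ ^ p = ∫⁻ z, ‖Mu (bW s Rc z.1) (bS s u₀) z.2 +
        Mu (bW (1 + s) Ry z.1) (bS (s - 1) u₁) z.2‖ₑ ^ p ∂(zm n α β) := by
    have hm : Measurable fun z : ((Fin n → ℝ) × ℝ) × E n => ‖Mu (bW s Rc z.1) (bS s u₀) z.2 +
        Mu (bW (1 + s) Ry z.1) (bS (s - 1) u₁) z.2‖ₑ ^ p := (hmA.add hmB).enorm.pow_const p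
    rw [z_iter hm]
    simp only [solE_eq hs0]
  have e2 : ∀ (r : ℝ) (u : 𝓢(E n, ℂ)) (x : E n), besE r u x = bS r u x := fun r u x =>
    (bS_apply r u x).symm
  simp only [e2]
  rw [e1]
  calc ∫⁻ z, ‖Mu (bW s Rc z.1) (bS s u₀) z.2 +
        Mu (bW (1 + s) Ry z.1) (bS (s - 1) u₁) z.2‖ₑ ^ p ∂(zm n α β)
      ≤ ∫⁻ z, 2 ^ (p - 1) * (‖Mu (bW s Rc z.1) (bS s u₀) z.2‖ₑ ^ p +
        ‖Mu (bW (1 + s) Ry z.1) (bS (s - 1) u₁) z.2‖ₑ ^ p) ∂(zm n α β) :=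
        lintegral_mono fun z => two_p hp1 _ _
    _ = 2 ^ (p - 1) * ((∫⁻ z, ‖Mu (bW s Rc z.1) (bS s u₀) z.2‖ₑ ^ p ∂(zm n α β)) +
        ∫⁻ z, ‖Mu (bW (1 + s) Ry z.1) (bS (s - 1) u₁) z.2‖ₑ ^ p ∂(zm n α β)) := by
        rw [lintegral_const_mul' _ _ (ENNReal.rpow_ne_top_of_nonneg (by linarith) (by norm_num)),
          lintegral_add_left (hmA.enorm.pow_const p)]
    _ ≤ 2 ^ (p - 1) * (C1 * (∫⁻ x, ‖bS s u₀ x‖ₑ ^ p) + C2 * ∫⁻ x, ‖bS (s - 1) u₁ x‖ₑ ^ p) := by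
        gcongr
    _ ≤ 2 ^ (p - 1) * ((C1 + C2) * (∫⁻ x, ‖bS s u₀ x‖ₑ ^ p) +
        (C1 + C2) * ∫⁻ x, ‖bS (s - 1) u₁ x‖ₑ ^ p) := by
        gcongr
        · exact le_self_add
        · exact le_add_self
    _ = C * ((∫⁻ x, ‖bS s u₀ x‖ₑ ^ p) + ∫⁻ x, ‖bS (s - 1) u₁ x‖ₑ ^ p) := by
        rw [hC]
        ring
    _ ≤ _ := by
        refine mul_le_mul_left ?_ _
        refine (le_of_eq (ENNReal.ofReal_toReal hCt).symm).trans ?_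
        exact ENNReal.ofReal_le_ofReal (by linarith)

theorem part_two (n : ℕ) (hn : 1 ≤ n) {p s : ℝ} (hp : 2 ≤ p) (hp4 : p ≤ 4)
    (hs : 1 / 2 - 1 / p < s) {f g : E n → ℂ} (hf : Integrable f)
    (hfp : MemLp f (ENNReal.ofReal p)) (hg : Integrable g) (hgp : MemLp g (ENNReal.ofReal p)) :
    ∀ᵐ a : Fin n → ℝ, (∀ j, 0 < a j) → ∃ M : ℝ, ∀ τ : ℝ, 0 < τ →
      ∫⁻ t in Icc (1 : ℝ) 2, ∫⁻ x : E n, ‖regE s τ a f g t x‖ₑ ^ p ≤ ENNReal.ofReal M := by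
  have hp0 : 0 < p := by linarith
  have hp1 : 1 < p := by linarith
  have hp2 : 1 / p ≤ 1 / 2 := one_div_le_one_div_of_le (by norm_num) hp
  have hs0 : 0 ≤ s := by linarith
  have hfin : ∀ {h : E n → ℂ}, MemLp h (ENNReal.ofReal p) → ∫⁻ x, ‖h x‖ₑ ^ p ≠ ⊤ := by
    intro h hh
    have h1 := lintegral_rpow_enorm_lt_top_of_eLpNorm_lt_top
      (by simpa using hp0) ENNReal.ofReal_ne_top hh.2
    rw [ENNReal.toReal_ofReal hp0.le] at h1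
    exact h1.ne
  refine ae_pos fun α β hα hαβ => ?_
  obtain ⟨C1, hC1, h1⟩ := pos_av n hn hα hαβ hp hp4 hs
  obtain ⟨C2, hC2, h2⟩ := vel_av n hn hα hαβ hp hp4 hs
  have hA := ae_sup (sym_pos hs0) hp1 hC1 hf (hfin hfp) (fun τ hτ =>
    ext_int (sym_pos hs0) hp1 hτ (fun f hf => h1 f hf τ hτ) f hf)
  have hB := ae_sup (sym_vel hs0) hp1 hC2 hg (hfin hgp) (fun τ hτ =>
    ext_int (sym_vel hs0) hp1 hτ (fun f hf => h2 f hf τ hτ) g hg)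
  filter_upwards [hA, hB] with a hAa hBa
  obtain ⟨M1, hM1, hA'⟩ := hAa
  obtain ⟨M2, hM2, hB'⟩ := hBa
  have h2t : (2 : ℝ≥0∞) ^ (p - 1) ≠ ⊤ :=
    ENNReal.rpow_ne_top_of_nonneg (by linarith) (by norm_num)
  refine ⟨(2 ^ (p - 1) * (M1 + M2)).toReal, fun τ hτ => ?_⟩
  rw [ENNReal.ofReal_toReal (ENNReal.mul_ne_top h2t (ENNReal.add_ne_top.2 ⟨hM1, hM2⟩))]
  have hmz := Mu_hW_meas (sym_pos (n := n) hs0) τ hf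
  have hmt : Measurable fun t : ℝ => ∫⁻ x, ‖Mu (hW (bW s Rc) τ (a, t)) f x‖ₑ ^ p := by
    have h3 : Measurable fun q : (Fin n → ℝ) × ℝ => ∫⁻ x, ‖Mu (hW (bW s Rc) τ q) f x‖ₑ ^ p :=
      (hmz.enorm.pow_const p).lintegral_prod_right'
    have h4 : Measurable fun t : ℝ => (a, t) := measurable_const.prodMk measurable_id
    have h5 := h3.comp h4
    exact h5
  have hmx : ∀ t, Measurable fun x => ‖Mu (hW (bW s Rc) τ (a, t)) f x‖ₑ ^ p := fun t =>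
    (Mu_meas_x (hW_measξ (sym_pos hs0) τ (a, t)) hf).enorm.pow_const p
  calc ∫⁻ t in Icc (1 : ℝ) 2, ∫⁻ x : E n, ‖regE s τ a f g t x‖ₑ ^ p
      ≤ ∫⁻ t in Icc (1 : ℝ) 2, ∫⁻ x : E n, 2 ^ (p - 1) * (‖Mu (hW (bW s Rc) τ (a, t)) f x‖ₑ ^ p +
        ‖Mu (hW (bW (1 + s) Ry) τ (a, t)) g x‖ₑ ^ p) := by
        refine lintegral_mono fun t => lintegral_mono fun x => ?_
        rw [regE_eq hs0 hτ a hf hg]
        exact two_p hp1 _ _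
    _ = ∫⁻ t in Icc (1 : ℝ) 2, 2 ^ (p - 1) * ((∫⁻ x, ‖Mu (hW (bW s Rc) τ (a, t)) f x‖ₑ ^ p) +
        ∫⁻ x, ‖Mu (hW (bW (1 + s) Ry) τ (a, t)) g x‖ₑ ^ p) := by
        refine lintegral_congr fun t => ?_
        rw [lintegral_const_mul' _ _ h2t, lintegral_add_left (hmx t)]
    _ = 2 ^ (p - 1) * (Ph (bW s Rc) p τ f a + Ph (bW (1 + s) Ry) p τ g a) := by
        rw [lintegral_const_mul' _ _ h2t, lintegral_add_left hmt]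
        rfl
    _ ≤ _ := mul_le_mul_right (add_le_add (hA' τ hτ) (hB' τ hτ)) _

/-- the exponents of the conjecture -/
lemma expo {d : ℕ} (hd : 3 ≤ d) {p σ : ℝ} (hp0 : 0 < p)
    (hp : 2 * ((d : ℝ) - 1) / ((d : ℝ) - 2) ≤ p) (hσ : σ < 1 / p) :
    1 / 2 - 1 / p < ((d : ℝ) - 1) / 2 - ((d : ℝ) - 1) / p - σ := by
  have hd' : (3 : ℝ) ≤ d := by exact_mod_cast hd
  have h1 : 0 < (d : ℝ) - 2 := by linarith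
  rw [div_le_iff₀ h1] at hp
  have h2 : 1 / 2 - 1 / p ≤ ((d : ℝ) - 1) / 2 - (d : ℝ) / p := by
    rw [← sub_nonneg]
    have e : ((d : ℝ) - 1) / 2 - (d : ℝ) / p - (1 / 2 - 1 / p) =
        (p * ((d : ℝ) - 2) - 2 * ((d : ℝ) - 1)) / (2 * p) := by
      field_simp
      ring
    rw [e]
    exact div_nonneg (by linarith) (by positivity)
  have h3 : ((d : ℝ) - 1) / p = (d : ℝ) / p - 1 / p := by ring
  rw [h3]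
  linarith

end Pool.Agent.TH292.LS
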