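import Mathlib
import Pool.Agent.TH292.LS.FinE
set_option autoImplicit false

/-! The formula gives the classical solution of the Cauchy problem. -/

namespace Pool.Agent.TH292.LS

open Complex MeasureTheory Set Filter Topology
open scoped ENNReal FourierTransform RealInnerProductSpace SchwartzMap
open Pool.Agent.TH310.BZ

variable {n : ℕ}

/-- `f` is differentiable, and its derivative has the derivative `c` at `r` -/
def Deriv2 (f : ℝ → ℂ) (c : ℂ) (r : ℝ) : Prop :=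
  ∃ f' : ℝ → ℂ, (∀ s, HasDerivAt f (f' s) s) ∧ HasDerivAt f' c r

lemma int_der {F F' : ℝ → E n → ℂ} (hF : ∀ r, Integrable (F r))
    (hF' : ∀ r, AEStronglyMeasurable (F' r)) {G : E n → ℝ} (hG : Integrable G)
    (hb : ∀ r ξ, ‖F' r ξ‖ ≤ G ξ) (hd : ∀ r ξ, HasDerivAt (fun r => F r ξ) (F' r ξ) r) (r₀ : ℝ) :
    HasDerivAt (fun r => ∫ ξ, F r ξ) (∫ ξ, F' r₀ ξ) r₀ :=
  (hasDerivAt_integral_of_dominated_loc_of_deriv_le (s := Metric.ball r₀ 1)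
    (F := F) (F' := F') (bound := G) (Metric.ball_mem_nhds _ one_pos)
    (Eventually.of_forall fun r => (hF r).aestronglyMeasurable) (hF r₀) (hF' r₀)
    (ae_of_all _ fun ξ r _ => hb r ξ) hG (ae_of_all _ fun ξ r _ => hd r ξ)).2

/-- the exponential -/
noncomputable def ex (x ξ : E n) : ℂ := cexp (((2 * Real.pi * ⟪x, ξ⟫ : ℝ) : ℂ) * I)

lemma ex_norm (x ξ : E n) : ‖ex x ξ‖ = 1 := by
  unfold ex
  rw [Complex.norm_exp_ofReal_mul_I]

lemma ex_cont (x : E n) : Continuous (ex x) := by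
  unfold ex
  fun_prop

/-- the Fourier transform of the solution -/
noncomputable def Fh (a : Fin n → ℝ) (A B : E n → ℂ) (t : ℝ) (ξ : E n) : ℂ :=
  ((Real.cos (2 * Real.pi * t * Real.sqrt (QF a ξ)) : ℝ) : ℂ) * A ξ +
    ((t * Real.sinc (2 * Real.pi * t * Real.sqrt (QF a ξ)) : ℝ) : ℂ) * B ξ

/-- its derivative in time -/
noncomputable def Fh' (a : Fin n → ℝ) (A B : E n → ℂ) (t : ℝ) (ξ : E n) : ℂ :=
  ((-(2 * Real.pi) * (Real.sqrt (QF a ξ) * Real.sin (2 * Real.pi * t * Real.sqrt (QF a ξ))) : ℝ) :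
    ℂ) * A ξ + ((Real.cos (2 * Real.pi * t * Real.sqrt (QF a ξ)) : ℝ) : ℂ) * B ξ

lemma Fh_cont (a : Fin n → ℝ) {A B : E n → ℂ} (hA : Continuous A) (hB : Continuous B) (t : ℝ) :
    Continuous (Fh a A B t) := by
  have hQ := QF_cont a
  have h1 : Continuous fun ξ : E n => Real.sinc (2 * Real.pi * t * Real.sqrt (QF a ξ)) :=
    Real.continuous_sinc.comp (by fun_prop)
  unfold Fh
  fun_prop

lemma Fh'_cont (a : Fin n → ℝ) {A B : E n → ℂ} (hA : Continuous A) (hB : Continuous B) (t : ℝ) :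
    Continuous (Fh' a A B t) := by
  have hQ := QF_cont a
  unfold Fh'
  fun_prop

lemma Fh_bd (a : Fin n → ℝ) (A B : E n → ℂ) (t : ℝ) (ξ : E n) :
    ‖Fh a A B t ξ‖ ≤ ‖A ξ‖ + |t| * ‖B ξ‖ := by
  unfold Fh
  refine (norm_add_le _ _).trans (add_le_add ?_ ?_)
  · rw [norm_mul, Complex.norm_real, Real.norm_eq_abs]
    exact mul_le_of_le_one_left (norm_nonneg _) (Real.abs_cos_le_one _)
  · rw [norm_mul, Complex.norm_real, Real.norm_eq_abs, abs_mul]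
    refine mul_le_mul_of_nonneg_right ?_ (norm_nonneg _)
    exact mul_le_of_le_one_right (abs_nonneg _) (Real.abs_sinc_le_one _)

lemma QF_nn {a : Fin n → ℝ} (ha : ∀ j, 0 ≤ a j) (ξ : E n) : 0 ≤ QF a ξ := by
  unfold QF
  exact Finset.sum_nonneg fun j _ => mul_nonneg (ha j) (sq_nonneg _)

lemma QF_up {a : Fin n → ℝ} (ha : ∀ j, 0 ≤ a j) (ξ : E n) : QF a ξ ≤ (∑ j, a j) * ‖ξ‖ ^ 2 := by
  unfold QF
  rw [Finset.sum_mul]
  refine Finset.sum_le_sum fun j _ => mul_le_mul_of_nonneg_left ?_ (ha j)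
  rw [EuclideanSpace.real_norm_sq_eq]
  exact Finset.single_le_sum (f := fun i => ξ i ^ 2) (fun i _ => sq_nonneg _) (Finset.mem_univ j)

lemma sqrtQ_up {a : Fin n → ℝ} (ha : ∀ j, 0 ≤ a j) (ξ : E n) :
    Real.sqrt (QF a ξ) ≤ 1 + (∑ j, a j) * ‖ξ‖ ^ 2 := by
  have h1 := QF_nn ha ξ
  have h2 := QF_up ha ξ
  have h3 : Real.sqrt (QF a ξ) ≤ 1 + QF a ξ := by
    rw [Real.sqrt_le_left (by linarith)]
    nlinarith
  linarith

/-- the dominating function -/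
noncomputable def Gd (a : Fin n → ℝ) (A B : E n → ℂ) (ξ : E n) : ℝ :=
  (4 * Real.pi ^ 2 * (1 + ∑ j, a j)) * ((1 + ‖ξ‖ ^ 2) * ‖A ξ‖ + (1 + ‖ξ‖ ^ 2) * ‖B ξ‖)

lemma Fh'_bd {a : Fin n → ℝ} (ha : ∀ j, 0 ≤ a j) (A B : E n → ℂ) (t : ℝ) (ξ : E n) :
    ‖Fh' a A B t ξ‖ ≤ Gd a A B ξ := by
  have hpi := Real.pi_gt_three
  have hs : 0 ≤ ∑ j, a j := Finset.sum_nonneg fun j _ => ha j
  have h1 := sqrtQ_up ha ξ
  have h0 := Real.sqrt_nonneg (QF a ξ)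
  have hx : 0 ≤ ‖ξ‖ ^ 2 := sq_nonneg _
  have hK : 1 + (∑ j, a j) * ‖ξ‖ ^ 2 ≤ (1 + ∑ j, a j) * (1 + ‖ξ‖ ^ 2) := by nlinarith
  have hp2 : 2 * Real.pi ≤ 4 * Real.pi ^ 2 := by nlinarith
  have hp1 : 1 ≤ 4 * Real.pi ^ 2 := by nlinarith
  unfold Fh' Gd
  refine (norm_add_le _ _).trans ?_
  have habs : |-(2 * Real.pi) * (Real.sqrt (QF a ξ) *
      Real.sin (2 * Real.pi * t * Real.sqrt (QF a ξ)))| = 2 * Real.pi * (Real.sqrt (QF a ξ) *
      |Real.sin (2 * Real.pi * t * Real.sqrt (QF a ξ))|) := by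
    have e1 : |-(2 * Real.pi)| = 2 * Real.pi := by
      rw [abs_neg]
      exact abs_of_pos (by positivity)
    rw [abs_mul, e1, abs_mul, abs_of_nonneg h0]
  rw [norm_mul, norm_mul, Complex.norm_real, Complex.norm_real, Real.norm_eq_abs,
    Real.norm_eq_abs, habs]
  have h2 : 2 * Real.pi * (Real.sqrt (QF a ξ) *
      |Real.sin (2 * Real.pi * t * Real.sqrt (QF a ξ))|) ≤
      4 * Real.pi ^ 2 * ((1 + ∑ j, a j) * (1 + ‖ξ‖ ^ 2)) := by
    refine mul_le_mul hp2 ?_ (by positivity) (by positivity)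
    exact (mul_le_of_le_one_right h0 (Real.abs_sin_le_one _)).trans (h1.trans hK)
  have h3 : |Real.cos (2 * Real.pi * t * Real.sqrt (QF a ξ))| ≤
      4 * Real.pi ^ 2 * ((1 + ∑ j, a j) * (1 + ‖ξ‖ ^ 2)) := by
    refine (Real.abs_cos_le_one _).trans ?_
    have h4 : 1 ≤ (1 + ∑ j, a j) * (1 + ‖ξ‖ ^ 2) := by nlinarith
    nlinarith
  calc _ ≤ 4 * Real.pi ^ 2 * ((1 + ∑ j, a j) * (1 + ‖ξ‖ ^ 2)) * ‖A ξ‖ +
        4 * Real.pi ^ 2 * ((1 + ∑ j, a j) * (1 + ‖ξ‖ ^ 2)) * ‖B ξ‖ :=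
        add_le_add (mul_le_mul_of_nonneg_right h2 (norm_nonneg _))
          (mul_le_mul_of_nonneg_right h3 (norm_nonneg _))
    _ = _ := by ring

lemma Gd_int {a : Fin n → ℝ} (u₀ u₁ : 𝓢(E n, ℂ)) :
    Integrable (Gd a (𝓕 (u₀ : E n → ℂ)) (𝓕 (u₁ : E n → ℂ))) :=
  ((schwartz_F_poly u₀).add (schwartz_F_poly u₁)).const_mul _

lemma Fh_t {a : Fin n → ℝ} (ha : ∀ j, 0 ≤ a j) (A B : E n → ℂ) (t : ℝ) (ξ : E n) :
    HasDerivAt (fun t => Fh a A B t ξ) (Fh' a A B t ξ) t := by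
  have hQ := QF_nn ha ξ
  unfold Fh Fh'
  have h1 : HasDerivAt (fun t : ℝ => 2 * Real.pi * t * Real.sqrt (QF a ξ))
      (2 * Real.pi * 1 * Real.sqrt (QF a ξ)) t :=
    ((hasDerivAt_id t).const_mul (2 * Real.pi)).mul_const _
  have h2 := (h1.cos.ofReal_comp).mul_const (A ξ)
  have h3 := ((Rs_der0 hQ t).ofReal_comp).mul_const (B ξ)
  refine (h2.add h3).congr_deriv ?_
  congr 3
  ring

lemma Fh'_t {a : Fin n → ℝ} (ha : ∀ j, 0 ≤ a j) (A B : E n → ℂ) (t : ℝ) (ξ : E n) :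
    HasDerivAt (fun t => Fh' a A B t ξ)
      (((-(4 * Real.pi ^ 2) * QF a ξ : ℝ) : ℂ) * Fh a A B t ξ) t := by
  have hQ := QF_nn ha ξ
  unfold Fh'
  have h1 : HasDerivAt (fun t : ℝ => 2 * Real.pi * t * Real.sqrt (QF a ξ))
      (2 * Real.pi * 1 * Real.sqrt (QF a ξ)) t :=
    ((hasDerivAt_id t).const_mul (2 * Real.pi)).mul_const _
  have h2 := (((h1.sin.const_mul (Real.sqrt (QF a ξ))).const_mul
    (-(2 * Real.pi))).ofReal_comp).mul_const (A ξ)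
  have h3 := (h1.cos.ofReal_comp).mul_const (B ξ)
  refine (h2.add h3).congr_deriv ?_
  unfold Fh
  have hk := Rs_key hQ t
  have hss := Real.mul_self_sqrt hQ
  have e1 : -(2 * Real.pi) * (Real.sqrt (QF a ξ) *
      (Real.cos (2 * Real.pi * t * Real.sqrt (QF a ξ)) *
        (2 * Real.pi * 1 * Real.sqrt (QF a ξ)))) =
      -(4 * Real.pi ^ 2) * QF a ξ * Real.cos (2 * Real.pi * t * Real.sqrt (QF a ξ)) := by
    calc _ = -(4 * Real.pi ^ 2) * (Real.sqrt (QF a ξ) * Real.sqrt (QF a ξ)) *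
          Real.cos (2 * Real.pi * t * Real.sqrt (QF a ξ)) := by ring
      _ = _ := by rw [hss]
  have e2 : -Real.sin (2 * Real.pi * t * Real.sqrt (QF a ξ)) *
      (2 * Real.pi * 1 * Real.sqrt (QF a ξ)) =
      -(4 * Real.pi ^ 2) * QF a ξ *
        (t * Real.sinc (2 * Real.pi * t * Real.sqrt (QF a ξ))) := by
    calc _ = -(2 * Real.pi) * (Real.sqrt (QF a ξ) *
          Real.sin (2 * Real.pi * t * Real.sqrt (QF a ξ))) := by ring
      _ = -(2 * Real.pi) * (2 * Real.pi * QF a ξ *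
          (t * Real.sinc (2 * Real.pi * t * Real.sqrt (QF a ξ)))) := by rw [hk]
      _ = _ := by ring
  rw [e1, e2]
  push_cast
  ring

lemma solE_Fh (a : Fin n → ℝ) (u₀ u₁ : E n → ℂ) (t : ℝ) (x : E n) :
    solE a u₀ u₁ t x = ∫ ξ, ex x ξ * Fh a (𝓕 u₀) (𝓕 u₁) t ξ := rfl

lemma four_inv (u : 𝓢(E n, ℂ)) (x : E n) : ∫ ξ, ex x ξ * 𝓕 (u : E n → ℂ) ξ = u x := by
  have h1 : 𝓕⁻ (𝓕 u) = u := FourierTransform.fourierInv_fourier_eq u
  have h2 : (𝓕⁻ (𝓕 u) : 𝓢(E n, ℂ)) x = u x := by rw [h1]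
  rw [← h2, SchwartzMap.fourierInv_coe, Real.fourierInv_eq', SchwartzMap.fourier_coe]
  congr 1
  ext ξ
  rw [smul_eq_mul, real_inner_comm]
  rfl

lemma ex_line (x v ξ : E n) (r : ℝ) :
    HasDerivAt (fun r : ℝ => ex (x + r • v) ξ)
      (((2 * Real.pi * ⟪v, ξ⟫ : ℝ) : ℂ) * I * ex (x + r • v) ξ) r := by
  unfold ex
  have h1 : HasDerivAt (fun r : ℝ => 2 * Real.pi * (⟪x, ξ⟫ + r * ⟪v, ξ⟫ : ℝ))
      (2 * Real.pi * (1 * ⟪v, ξ⟫)) r :=
    (((hasDerivAt_id r).mul_const _).const_add _).const_mul _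
  have e : ∀ r : ℝ, (2 * Real.pi * ⟪x + r • v, ξ⟫ : ℝ) =
      2 * Real.pi * (⟪x, ξ⟫ + r * ⟪v, ξ⟫ : ℝ) := by
    intro r
    rw [inner_add_left, real_inner_smul_left]
  simp only [e]
  refine ((h1.ofReal_comp.mul_const I).cexp).congr_deriv ?_
  rw [one_mul]
  ring

/-- the second derivative in a direction -/
lemma line2 {Φ : E n → ℂ} (hc : Continuous Φ) (h0 : Integrable fun ξ => ‖Φ ξ‖)
    (h2 : Integrable fun ξ => ‖ξ‖ ^ 2 * ‖Φ ξ‖) (x v : E n) (hv : ‖v‖ ≤ 1) :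
    Deriv2 (fun r : ℝ => ∫ ξ, ex (x + r • v) ξ * Φ ξ)
      (∫ ξ, ((-(4 * Real.pi ^ 2) * ⟪v, ξ⟫ ^ 2 : ℝ) : ℂ) * (ex x ξ * Φ ξ)) 0 := by
  have hpi := Real.pi_gt_three
  have hin : ∀ ξ : E n, |(⟪v, ξ⟫ : ℝ)| ≤ ‖ξ‖ := fun ξ =>
    (abs_real_inner_le_norm v ξ).trans (mul_le_of_le_one_left (norm_nonneg _) hv)
  have hsum : Integrable fun ξ : E n => (4 * Real.pi ^ 2) * (‖Φ ξ‖ + ‖ξ‖ ^ 2 * ‖Φ ξ‖) :=
    (h0.add h2).const_mul _
  have hΦ : Integrable Φ := h0.mono' hc.aestronglyMeasurable (ae_of_all _ fun ξ => le_rfl)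
  have hb1 : ∀ (r : ℝ) (ξ : E n), ‖((2 * Real.pi * ⟪v, ξ⟫ : ℝ) : ℂ) * I * ex (x + r • v) ξ * Φ ξ‖ ≤
      (4 * Real.pi ^ 2) * (‖Φ ξ‖ + ‖ξ‖ ^ 2 * ‖Φ ξ‖) := by
    intro r ξ
    rw [norm_mul, norm_mul, norm_mul, ex_norm, Complex.norm_I, Complex.norm_real,
      Real.norm_eq_abs, abs_mul, abs_of_pos (by positivity : 0 < 2 * Real.pi), mul_one, mul_one]
    have h3 := hin ξ
    have h4 : ‖ξ‖ ≤ 1 + ‖ξ‖ ^ 2 := by nlinarith [sq_nonneg (‖ξ‖ - 1), norm_nonneg ξ]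
    calc 2 * Real.pi * |(⟪v, ξ⟫ : ℝ)| * ‖Φ ξ‖ ≤ (4 * Real.pi ^ 2) * (1 + ‖ξ‖ ^ 2) * ‖Φ ξ‖ := by
          refine mul_le_mul_of_nonneg_right ?_ (norm_nonneg _)
          exact mul_le_mul (by nlinarith) (h3.trans h4) (abs_nonneg _) (by positivity)
      _ = _ := by ring
  have hb2 : ∀ (r : ℝ) (ξ : E n), ‖((-(4 * Real.pi ^ 2) * ⟪v, ξ⟫ ^ 2 : ℝ) : ℂ) *
      (ex (x + r • v) ξ * Φ ξ)‖ ≤ (4 * Real.pi ^ 2) * (‖Φ ξ‖ + ‖ξ‖ ^ 2 * ‖Φ ξ‖) := by
    intro r ξ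
    rw [norm_mul, norm_mul, ex_norm, one_mul, Complex.norm_real, Real.norm_eq_abs, abs_mul,
      abs_neg, abs_of_pos (by positivity : 0 < 4 * Real.pi ^ 2), abs_of_nonneg (sq_nonneg _),
      mul_assoc]
    refine mul_le_mul_of_nonneg_left ?_ (by positivity)
    have h5 : (⟪v, ξ⟫ : ℝ) ^ 2 ≤ ‖ξ‖ ^ 2 := by
      rw [← sq_abs (⟪v, ξ⟫ : ℝ)]
      exact pow_le_pow_left₀ (abs_nonneg _) (hin ξ) 2
    have h6 := norm_nonneg (Φ ξ)
    nlinarith [mul_le_mul_of_nonneg_right h5 h6]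
  have hm0 : ∀ r : ℝ, Continuous fun ξ : E n => ex (x + r • v) ξ * Φ ξ := fun r =>
    (ex_cont _).mul hc
  have hm1 : ∀ r : ℝ, Continuous fun ξ : E n =>
      ((2 * Real.pi * ⟪v, ξ⟫ : ℝ) : ℂ) * I * ex (x + r • v) ξ * Φ ξ := fun r => by
    have := ex_cont (x + r • v)
    fun_prop
  have hm2 : ∀ r : ℝ, Continuous fun ξ : E n =>
      ((-(4 * Real.pi ^ 2) * ⟪v, ξ⟫ ^ 2 : ℝ) : ℂ) * (ex (x + r • v) ξ * Φ ξ) := fun r => by
    have := ex_cont (x + r • v)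
    fun_prop
  refine ⟨fun r => ∫ ξ, ((2 * Real.pi * ⟪v, ξ⟫ : ℝ) : ℂ) * I * ex (x + r • v) ξ * Φ ξ,
    fun r => ?_, ?_⟩
  · refine int_der (F := fun r ξ => ex (x + r • v) ξ * Φ ξ)
      (F' := fun r ξ => ((2 * Real.pi * ⟪v, ξ⟫ : ℝ) : ℂ) * I * ex (x + r • v) ξ * Φ ξ)
      (fun r => hΦ.bdd_mul (c := 1) (ex_cont _).aestronglyMeasurable
        (ae_of_all _ fun ξ => (ex_norm _ _).le)) (fun r => (hm1 r).aestronglyMeasurable)
      hsum hb1 (fun r ξ => (ex_line x v ξ r).mul_const _) r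
  · have h3 := int_der
      (F := fun r ξ => ((2 * Real.pi * ⟪v, ξ⟫ : ℝ) : ℂ) * I * ex (x + r • v) ξ * Φ ξ)
      (F' := fun r ξ => ((-(4 * Real.pi ^ 2) * ⟪v, ξ⟫ ^ 2 : ℝ) : ℂ) * (ex (x + r • v) ξ * Φ ξ))
      (fun r => hsum.mono' (hm1 r).aestronglyMeasurable (ae_of_all _ (hb1 r)))
      (fun r => (hm2 r).aestronglyMeasurable) hsum hb2 (fun r ξ => by
        refine (((ex_line x v ξ r).const_mul (((2 * Real.pi * ⟪v, ξ⟫ : ℝ) : ℂ) * I)).mul_const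
          (Φ ξ)).congr_deriv ?_
        push_cast
        linear_combination (4 * (Real.pi : ℂ) ^ 2 * ((⟪v, ξ⟫ : ℝ) : ℂ) ^ 2 *
          ex (x + r • v) ξ * Φ ξ) * Complex.I_sq) 0
    simp only [zero_smul, add_zero] at h3 ⊢
    exact h3

/-- **The formula gives the classical solution.** -/
theorem solE_solves {a : Fin n → ℝ} (ha : ∀ j, 0 ≤ a j) (u₀ u₁ : 𝓢(E n, ℂ)) (x : E n) :
    solE a u₀ u₁ 0 x = u₀ x ∧ HasDerivAt (fun t => solE a u₀ u₁ t x) (u₁ x) 0 ∧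
    ∀ t : ℝ, ∃ D : Fin n → ℂ,
      (∀ j, Deriv2 (fun r => solE a u₀ u₁ t (x + r • EuclideanSpace.single j (1 : ℝ))) (D j) 0) ∧
      Deriv2 (fun t => solE a u₀ u₁ t x) (∑ j, (a j : ℂ) * D j) t := by
  have hpi := Real.pi_gt_three
  obtain ⟨A, hA⟩ : ∃ A, A = 𝓕 (u₀ : E n → ℂ) := ⟨_, rfl⟩
  obtain ⟨B, hB⟩ : ∃ B, B = 𝓕 (u₁ : E n → ℂ) := ⟨_, rfl⟩
  have hAc : Continuous A := by rw [hA]; exact F_cont u₀.integrable
  have hBc : Continuous B := by rw [hB]; exact F_cont u₁.integrable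
  have hAi : Integrable A := by rw [hA]; exact schwartz_F_int u₀
  have hBi : Integrable B := by rw [hB]; exact schwartz_F_int u₁
  have hAp : Integrable fun ξ : E n => (1 + ‖ξ‖ ^ 2) * ‖A ξ‖ := by
    rw [hA]; exact schwartz_F_poly u₀
  have hBp : Integrable fun ξ : E n => (1 + ‖ξ‖ ^ 2) * ‖B ξ‖ := by
    rw [hB]; exact schwartz_F_poly u₁
  have hGi : Integrable (Gd a A B) := (hAp.add hBp).const_mul _
  have hu : ∀ (t : ℝ) (x : E n), solE a u₀ u₁ t x = ∫ ξ, ex x ξ * Fh a A B t ξ := fun t x => by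
    rw [solE_Fh, hA, hB]
  have hFi : ∀ t, Integrable (Fh a A B t) := fun t =>
    (hAi.norm.add (hBi.norm.const_mul |t|)).mono' (Fh_cont a hAc hBc t).aestronglyMeasurable
      (ae_of_all _ (Fh_bd a A B t))
  have hF'i : ∀ t, Integrable (Fh' a A B t) := fun t =>
    hGi.mono' (Fh'_cont a hAc hBc t).aestronglyMeasurable (ae_of_all _ (Fh'_bd ha A B t))
  have hex : ∀ {Φ : E n → ℂ}, Integrable Φ → Integrable fun ξ => ex x ξ * Φ ξ := fun h =>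
    h.bdd_mul (c := 1) (ex_cont _).aestronglyMeasurable (ae_of_all _ fun ξ => (ex_norm _ _).le)
  have hd1 : ∀ t, HasDerivAt (fun t => ∫ ξ, ex x ξ * Fh a A B t ξ)
      (∫ ξ, ex x ξ * Fh' a A B t ξ) t := fun t =>
    int_der (F := fun t ξ => ex x ξ * Fh a A B t ξ) (F' := fun t ξ => ex x ξ * Fh' a A B t ξ)
      (fun t => hex (hFi t)) (fun t => (hex (hF'i t)).aestronglyMeasurable) hGi
      (fun t ξ => by
        rw [norm_mul, ex_norm, one_mul]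
        exact Fh'_bd ha A B t ξ) (fun t ξ => (Fh_t ha A B t ξ).const_mul _) t
  refine ⟨?_, ?_, fun t => ?_⟩
  · rw [hu, ← four_inv u₀ x, ← hA]
    congr 1
    ext ξ
    unfold Fh
    simp
  · simp only [hu]
    have h1 := hd1 0
    have e : ∫ ξ, ex x ξ * Fh' a A B 0 ξ = u₁ x := by
      rw [← four_inv u₁ x, ← hB]
      congr 1
      ext ξ
      unfold Fh'
      simp
    rw [e] at h1
    exact h1
  · simp only [hu]
    have hc := Fh_cont a hAc hBc t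
    have hn2 : Integrable fun ξ : E n => ‖ξ‖ ^ 2 * ‖Fh a A B t ξ‖ := by
      refine (hAp.add (hBp.const_mul |t|)).mono' (by fun_prop) (ae_of_all _ fun ξ => ?_)
      rw [Real.norm_of_nonneg (by positivity)]
      have h1 := Fh_bd a A B t ξ
      simp only [Pi.add_apply]
      calc ‖ξ‖ ^ 2 * ‖Fh a A B t ξ‖ ≤ (1 + ‖ξ‖ ^ 2) * (‖A ξ‖ + |t| * ‖B ξ‖) :=
            mul_le_mul (by linarith) h1 (norm_nonneg _) (by positivity)
        _ = _ := by ring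
    refine ⟨fun j => ∫ ξ, ((-(4 * Real.pi ^ 2) *
      ⟪(EuclideanSpace.single j (1 : ℝ) : E n), ξ⟫ ^ 2 : ℝ) : ℂ) * (ex x ξ * Fh a A B t ξ),
      fun j => line2 hc (hFi t).norm hn2 x _ (by simp), ?_⟩
    refine ⟨fun t => ∫ ξ, ex x ξ * Fh' a A B t ξ, hd1, ?_⟩
    -- the second derivative in time is dominated locally
    have hin : ∀ (j : Fin n) (ξ : E n),
        (⟪(EuclideanSpace.single j (1 : ℝ) : E n), ξ⟫ : ℝ) = ξ j := fun j ξ => by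
      rw [EuclideanSpace.inner_single_left]
      simp
    have hDi : ∀ j : Fin n, Integrable fun ξ : E n => ((-(4 * Real.pi ^ 2) *
        ⟪(EuclideanSpace.single j (1 : ℝ) : E n), ξ⟫ ^ 2 : ℝ) : ℂ) *
          (ex x ξ * Fh a A B t ξ) := by
      intro j
      refine (hn2.const_mul (4 * Real.pi ^ 2)).mono' ?_ (ae_of_all _ fun ξ => ?_)
      · have := ex_cont x
        have h3 : Continuous fun ξ : E n => ((-(4 * Real.pi ^ 2) *
          ⟪(EuclideanSpace.single j (1 : ℝ) : E n), ξ⟫ ^ 2 : ℝ) : ℂ) *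
          (ex x ξ * Fh a A B t ξ) := by fun_prop
        exact h3.aestronglyMeasurable
      · rw [norm_mul, norm_mul, ex_norm, one_mul, Complex.norm_real, Real.norm_eq_abs, abs_mul,
          abs_neg, abs_of_pos (by positivity : 0 < 4 * Real.pi ^ 2),
          abs_of_nonneg (sq_nonneg _), hin, mul_assoc]
        have h4 : ξ j ^ 2 ≤ ‖ξ‖ ^ 2 := by
          rw [EuclideanSpace.real_norm_sq_eq]
          exact Finset.single_le_sum (f := fun i => ξ i ^ 2) (fun i _ => sq_nonneg _)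
            (Finset.mem_univ j)
        gcongr
    have e3 : ∑ j, (a j : ℂ) * ∫ ξ, ((-(4 * Real.pi ^ 2) *
        ⟪(EuclideanSpace.single j (1 : ℝ) : E n), ξ⟫ ^ 2 : ℝ) : ℂ) * (ex x ξ * Fh a A B t ξ) =
        ∫ ξ, ex x ξ * (((-(4 * Real.pi ^ 2) * QF a ξ : ℝ) : ℂ) * Fh a A B t ξ) := by
      simp only [← integral_const_mul]
      rw [← integral_finsetSum _ fun j _ => (hDi j).const_mul _]
      congr 1
      ext ξ
      simp only [hin]
      unfold QF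
      rw [Finset.mul_sum, Complex.ofReal_sum, Finset.sum_mul, Finset.mul_sum]
      refine Finset.sum_congr rfl fun j _ => ?_
      push_cast
      ring
    rw [e3]
    have hloc := hasDerivAt_integral_of_dominated_loc_of_deriv_le (s := Metric.ball t 1)
      (F := fun t ξ => ex x ξ * Fh' a A B t ξ)
      (F' := fun t ξ => ex x ξ * (((-(4 * Real.pi ^ 2) * QF a ξ : ℝ) : ℂ) * Fh a A B t ξ))
      (bound := fun ξ => (4 * Real.pi ^ 2 * ∑ j, a j) *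
        ((1 + ‖ξ‖ ^ 2) * ‖A ξ‖ + (|t| + 1) * ((1 + ‖ξ‖ ^ 2) * ‖B ξ‖)))
      (x₀ := t) (Metric.ball_mem_nhds _ one_pos)
      (Eventually.of_forall fun r => (hex (hF'i r)).aestronglyMeasurable) (hex (hF'i t)) ?_
      (ae_of_all _ fun ξ r hr => ?_) ((hAp.add (hBp.const_mul (|t| + 1))).const_mul _)
      (ae_of_all _ fun ξ r _ => (Fh'_t ha A B r ξ).const_mul _)
    · exact hloc.2
    · have := ex_cont x
      have hQ := QF_cont a
      have h3 : Continuous fun ξ : E n =>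
        ex x ξ * (((-(4 * Real.pi ^ 2) * QF a ξ : ℝ) : ℂ) * Fh a A B t ξ) := by fun_prop
      exact h3.aestronglyMeasurable
    · have hs : 0 ≤ ∑ j, a j := Finset.sum_nonneg fun j _ => ha j
      have hQ0 := QF_nn ha ξ
      have hQ1 := QF_up ha ξ
      have h1 := Fh_bd a A B r ξ
      have h2 : |r| ≤ |t| + 1 := by
        rw [Metric.mem_ball, Real.dist_eq] at hr
        have h3 : |r| ≤ |r - t| + |t| := by
          have := abs_add_le (r - t) t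
          rwa [sub_add_cancel] at this
        linarith
      rw [norm_mul, norm_mul, ex_norm, one_mul, Complex.norm_real, Real.norm_eq_abs, abs_mul,
        abs_neg, abs_of_pos (by positivity : 0 < 4 * Real.pi ^ 2), abs_of_nonneg hQ0]
      calc 4 * Real.pi ^ 2 * QF a ξ * ‖Fh a A B r ξ‖
          ≤ 4 * Real.pi ^ 2 * ((∑ j, a j) * (1 + ‖ξ‖ ^ 2)) *
            (‖A ξ‖ + (|t| + 1) * ‖B ξ‖) := by
            have h4 : QF a ξ ≤ (∑ j, a j) * (1 + ‖ξ‖ ^ 2) := by nlinarith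
            have h5 : ‖Fh a A B r ξ‖ ≤ ‖A ξ‖ + (|t| + 1) * ‖B ξ‖ :=
              h1.trans (add_le_add le_rfl (mul_le_mul_of_nonneg_right h2 (norm_nonneg _)))
            exact mul_le_mul (mul_le_mul_of_nonneg_left h4 (by positivity)) h5 (norm_nonneg _)
              (by positivity)
        _ = _ := by ring

end Pool.Agent.TH292.LS
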