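import Mathlib
import Pool.Agent.TH310.BZ.Sph
set_option autoImplicit false

/-! Normalising one of the speeds. -/

namespace Pool.Agent.TH292.LS

open Complex MeasureTheory Set Filter Topology
open scoped ENNReal
open Pool.Agent.TH310.BZ

variable {m : ℕ}

/-- the speeds `(lam, b_1, …, b_m)` -/
def cn (lam : ℝ) (b : Fin m → ℝ) : Fin (m + 1) → ℝ := Fin.cons lam b

lemma cn_zero (lam : ℝ) (b : Fin m → ℝ) : cn lam b 0 = lam := rfl

lemma cn_succ (lam : ℝ) (b : Fin m → ℝ) (j : Fin m) : cn lam b j.succ = b j := rfl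

lemma cn_smul (r lam : ℝ) (b : Fin m → ℝ) : r • cn lam b = cn (r * lam) (r • b) := by
  funext j
  refine Fin.cases ?_ (fun j => ?_) j
  · rw [Pi.smul_apply, cn_zero, cn_zero, smul_eq_mul]
  · rw [Pi.smul_apply, cn_succ, cn_succ, Pi.smul_apply]

lemma cn_meas : Measurable fun q : ℝ × (Fin m → ℝ) => cn q.1 q.2 := by
  rw [measurable_pi_iff]
  intro j
  refine Fin.cases ?_ (fun j => ?_) j
  · simp only [cn_zero]
    exact measurable_fst
  · simp only [cn_succ]
    exact (measurable_pi_apply j).comp measurable_snd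

/-- Fubini -/
lemma cn_fub (H : (Fin (m + 1) → ℝ) → ℝ≥0∞) (hH : Measurable H) :
    ∫⁻ a, H a = ∫⁻ lam : ℝ, ∫⁻ b : Fin m → ℝ, H (cn lam b) := by
  have h1 := (volume_preserving_piFinSuccAbove (fun _ : Fin (m + 1) => ℝ) 0).symm
  rw [← h1.lintegral_comp hH]
  have e : ∀ q : ℝ × (Fin m → ℝ),
      (MeasurableEquiv.piFinSuccAbove (fun _ : Fin (m + 1) => ℝ) 0).symm q = cn q.1 q.2 := by
    intro q
    rw [MeasurableEquiv.piFinSuccAbove_symm_apply]
    simp only [Fin.insertNthEquiv, Equiv.coe_fn_mk]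
    exact Fin.insertNth_zero' _ _
  simp only [e]
  have h2 : Measurable fun q : ℝ × (Fin m → ℝ) => H (cn q.1 q.2) := by
    have h3 := hH.comp cn_meas
    exact h3
  rw [Measure.volume_eq_prod, lintegral_prod _ h2.aemeasurable]

/-- scaling in `ℝ` -/
lemma sc1 {ρ : ℝ} (hρ : 0 < ρ) (h : ℝ → ℝ≥0∞) (hh : Measurable h) :
    ∫⁻ t, h (ρ * t) = ENNReal.ofReal ρ⁻¹ * ∫⁻ t, h t := by
  have hmap := Measure.map_addHaar_smul (volume : Measure ℝ) (r := ρ) hρ.ne'
  have h1 : ∫⁻ t, h (ρ • t) = ENNReal.ofReal ρ⁻¹ * ∫⁻ t, h t := by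
    rw [← lintegral_map hh (measurable_const_smul ρ), hmap, lintegral_smul_measure, smul_eq_mul,
      Module.finrank_self, pow_one, abs_of_pos (by positivity)]
  simpa only [smul_eq_mul] using h1

/-- scaling in `ℝ^m` -/
lemma scm {ρ : ℝ} (hρ : 0 < ρ) (h : (Fin m → ℝ) → ℝ≥0∞) (hh : Measurable h) :
    ∫⁻ b, h (ρ • b) = ENNReal.ofReal ((ρ ^ m)⁻¹) * ∫⁻ b, h b := by
  have hmap := Measure.map_addHaar_smul (volume : Measure (Fin m → ℝ)) (r := ρ) hρ.ne'
  rw [← lintegral_map hh (measurable_const_smul ρ), hmap, lintegral_smul_measure, smul_eq_mul,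
    Module.finrank_fintype_fun_eq_card, Fintype.card_fin, abs_of_pos (by positivity)]

/-- the intermediate times -/
lemma stepA {h : ℝ → ℝ≥0∞} (hh : Measurable h) :
    ∫⁻ t in Icc (1 : ℝ) 2, h t ≤ ENNReal.ofReal (4 / 3) *
      ∫⁻ lam in Icc (1 / 4 : ℝ) 4, ∫⁻ t in Icc (Real.sqrt lam) (2 * Real.sqrt lam), h t := by
  have hS : MeasurableSet {q : ℝ × ℝ | Real.sqrt q.1 ≤ q.2 ∧ q.2 ≤ 2 * Real.sqrt q.1} := by
    have h1 : Measurable fun q : ℝ × ℝ => Real.sqrt q.1 :=
      (Real.continuous_sqrt.comp continuous_fst).measurable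
    exact (measurableSet_le h1 measurable_snd).inter
      (measurableSet_le measurable_snd (h1.const_mul 2))
  obtain ⟨χ, hχ⟩ : ∃ χ : ℝ × ℝ → ℝ≥0∞, χ = {q : ℝ × ℝ | Real.sqrt q.1 ≤ q.2 ∧
    q.2 ≤ 2 * Real.sqrt q.1}.indicator (fun _ => 1) := ⟨_, rfl⟩
  have hχm : Measurable χ := by
    rw [hχ]
    exact measurable_const.indicator hS
  have h1 : ∀ t ∈ Icc (1 : ℝ) 2, h t ≤
      ENNReal.ofReal (4 / 3) * ∫⁻ lam in Icc (1 / 4 : ℝ) 4, χ (lam, t) * h t := by
    intro t ht
    have h2 : ENNReal.ofReal (3 / 4) ≤ ∫⁻ lam in Icc (1 / 4 : ℝ) 4, χ (lam, t) := by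
      have hsub : Icc (t ^ 2 / 4) (t ^ 2) ⊆ Icc (1 / 4 : ℝ) 4 := by
        apply Icc_subset_Icc <;> nlinarith [ht.1, ht.2]
      calc ENNReal.ofReal (3 / 4) ≤ ∫⁻ _ in Icc (t ^ 2 / 4) (t ^ 2), (1 : ℝ≥0∞) := by
            rw [lintegral_const, Measure.restrict_apply_univ, Real.volume_Icc, one_mul]
            apply ENNReal.ofReal_le_ofReal
            nlinarith [ht.1]
        _ = ∫⁻ lam in Icc (t ^ 2 / 4) (t ^ 2), χ (lam, t) := by
            refine setLIntegral_congr_fun measurableSet_Icc fun lam hl => ?_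
            rw [hχ, indicator_of_mem]
            have ht0 : 0 ≤ t := by linarith [ht.1]
            constructor
            · exact Real.sqrt_le_iff.2 ⟨ht0, hl.2⟩
            · have h3 : (t / 2) ^ 2 ≤ lam := by
                have := hl.1
                nlinarith
              have h4 : t / 2 ≤ Real.sqrt lam := Real.le_sqrt_of_sq_le h3
              simp only
              linarith
        _ ≤ _ := lintegral_mono_set hsub
    have hχt : Measurable fun lam => χ (lam, t) := by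
      have h3 : Measurable fun lam : ℝ => (lam, t) := measurable_id.prodMk measurable_const
      have h4 := hχm.comp h3
      exact h4
    rw [lintegral_mul_const _ hχt, ← mul_assoc]
    calc h t = 1 * h t := (one_mul _).symm
      _ ≤ _ := by
          refine mul_le_mul_left ?_ _
          calc (1 : ℝ≥0∞) = ENNReal.ofReal (4 / 3) * ENNReal.ofReal (3 / 4) := by
                rw [← ENNReal.ofReal_mul (by norm_num)]
                norm_num
            _ ≤ _ := mul_le_mul_right h2 _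
  have hm : Measurable fun q : ℝ × ℝ => χ (q.2, q.1) * h q.1 :=
    (hχm.comp measurable_swap).mul (hh.comp measurable_fst)
  calc ∫⁻ t in Icc (1 : ℝ) 2, h t
      ≤ ∫⁻ t in Icc (1 : ℝ) 2, ENNReal.ofReal (4 / 3) *
          ∫⁻ lam in Icc (1 / 4 : ℝ) 4, χ (lam, t) * h t :=
        setLIntegral_mono' measurableSet_Icc h1
    _ = ENNReal.ofReal (4 / 3) * ∫⁻ t in Icc (1 : ℝ) 2, ∫⁻ lam in Icc (1 / 4 : ℝ) 4,
          χ (lam, t) * h t := lintegral_const_mul' _ _ ENNReal.ofReal_ne_top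
    _ = ENNReal.ofReal (4 / 3) * ∫⁻ lam in Icc (1 / 4 : ℝ) 4, ∫⁻ t in Icc (1 : ℝ) 2,
          χ (lam, t) * h t := by
        rw [lintegral_lintegral_swap (f := fun t lam => χ (lam, t) * h t) hm.aemeasurable]
    _ ≤ _ := by
        refine mul_le_mul_right (lintegral_mono fun lam => ?_) _
        refine (setLIntegral_le_lintegral _ _).trans ?_
        rw [← lintegral_indicator measurableSet_Icc]
        refine lintegral_mono fun t => ?_
        rw [hχ]
        by_cases ht : t ∈ Icc (Real.sqrt lam) (2 * Real.sqrt lam)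
        · rw [indicator_of_mem ht, indicator_of_mem (by exact ⟨ht.1, ht.2⟩), one_mul]
        · rw [indicator_of_notMem ht, indicator_of_notMem (by
            intro h2
            exact ht ⟨h2.1, h2.2⟩), zero_mul]

lemma stepB {ρ : ℝ} (hρ : 0 < ρ) {h : ℝ → ℝ≥0∞} (hh : Measurable h) :
    ∫⁻ t in Icc ρ (2 * ρ), h t = ENNReal.ofReal ρ * ∫⁻ t in Icc (1 : ℝ) 2, h (ρ * t) := by
  have h1 := sc1 hρ ((Icc ρ (2 * ρ)).indicator h) (hh.indicator measurableSet_Icc)
  have e1 : ∀ t, (Icc ρ (2 * ρ)).indicator h (ρ * t) =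
      (Icc (1 : ℝ) 2).indicator (fun t => h (ρ * t)) t := by
    intro t
    by_cases ht : t ∈ Icc (1 : ℝ) 2
    · rw [indicator_of_mem ht, indicator_of_mem]
      exact ⟨by nlinarith [ht.1], by nlinarith [ht.2]⟩
    · rw [indicator_of_notMem ht, indicator_of_notMem]
      intro h2
      refine ht ⟨?_, ?_⟩
      · by_contra h3
        push Not at h3
        nlinarith [h2.1]
      · by_contra h3
        push Not at h3
        nlinarith [h2.2]
  simp only [e1] at h1
  rw [lintegral_indicator measurableSet_Icc, lintegral_indicator measurableSet_Icc] at h1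
  rw [h1, ← mul_assoc, ← ENNReal.ofReal_mul hρ.le, mul_inv_cancel₀ hρ.ne', ENNReal.ofReal_one,
    one_mul]

lemma box_meas (α β : ℝ) : MeasurableSet (univ.pi fun _ : Fin m => Icc α β) :=
  MeasurableSet.univ_pi fun _ => measurableSet_Icc

lemma stepC {α β lam : ℝ} (hα : 0 < α) (hαβ : α ≤ β) (h1 : 1 / 4 ≤ lam) (h4 : lam ≤ 4)
    {H : (Fin m → ℝ) → ℝ≥0∞} (hH : Measurable H) :
    ∫⁻ b in (univ.pi fun _ : Fin m => Icc α β), H (lam • b) ≤
      ENNReal.ofReal (4 ^ m) * ∫⁻ b in (univ.pi fun _ : Fin m => Icc (α / 4) (4 * β)), H b := by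
  have hl : 0 < lam := by linarith
  have hβ : 0 < β := lt_of_lt_of_le hα hαβ
  rw [← lintegral_indicator (box_meas _ _), ← lintegral_indicator (box_meas _ _)]
  calc ∫⁻ b, (univ.pi fun _ : Fin m => Icc α β).indicator (fun b => H (lam • b)) b
      ≤ ∫⁻ b, (univ.pi fun _ : Fin m => Icc (α / 4) (4 * β)).indicator H (lam • b) := by
        refine lintegral_mono fun b => ?_
        by_cases hb : b ∈ (univ.pi fun _ : Fin m => Icc α β)
        · rw [indicator_of_mem hb, indicator_of_mem]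
          intro j _
          have h5 := hb j (mem_univ j)
          simp only [Pi.smul_apply, smul_eq_mul]
          have h6 := h5.1
          have h7 := h5.2
          constructor <;> nlinarith
        · rw [indicator_of_notMem hb]
          exact bot_le
    _ = ENNReal.ofReal ((lam ^ m)⁻¹) *
          ∫⁻ b, (univ.pi fun _ : Fin m => Icc (α / 4) (4 * β)).indicator H b :=
        scm hl _ (hH.indicator (box_meas _ _))
    _ ≤ _ := by
        refine mul_le_mul_left (ENNReal.ofReal_le_ofReal ?_) _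
        rw [← inv_pow]
        refine pow_le_pow_left₀ (by positivity) ?_ m
        rw [inv_le_comm₀ hl (by norm_num)]
        norm_num
        linarith

lemma stepD {α β : ℝ} {H : (Fin (m + 1) → ℝ) → ℝ≥0∞} (hH : Measurable H) :
    ∫⁻ lam in Icc (1 / 4 : ℝ) 4, ∫⁻ b in (univ.pi fun _ : Fin m => Icc (α / 4) (4 * β)),
      H (cn lam b) ≤
    ∫⁻ a in (univ.pi fun _ : Fin (m + 1) => Icc (min α 1 / 4) (4 * max β 1)), H a := by
  rw [← lintegral_indicator (box_meas _ _), cn_fub _ (hH.indicator (box_meas _ _)),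
    ← lintegral_indicator measurableSet_Icc]
  refine lintegral_mono fun lam => ?_
  by_cases hl : lam ∈ Icc (1 / 4 : ℝ) 4
  · rw [indicator_of_mem hl, ← lintegral_indicator (box_meas _ _)]
    refine lintegral_mono fun b => ?_
    by_cases hb : b ∈ (univ.pi fun _ : Fin m => Icc (α / 4) (4 * β))
    · rw [indicator_of_mem hb, indicator_of_mem]
      intro j _
      refine Fin.cases ?_ (fun j => ?_) j
      · rw [cn_zero]
        have h1 : min α 1 ≤ 1 := min_le_right _ _
        have h2 : 1 ≤ max β 1 := le_max_right _ _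
        exact ⟨by linarith [hl.1], by linarith [hl.2]⟩
      · rw [cn_succ]
        have h1 : min α 1 ≤ α := min_le_left _ _
        have h2 : β ≤ max β 1 := le_max_left _ _
        have h3 := hb j (mem_univ j)
        exact ⟨by linarith [h3.1], by linarith [h3.2]⟩
    · rw [indicator_of_notMem hb]
      exact bot_le
  · rw [indicator_of_notMem hl]
    exact bot_le

/-- **Normalisation.** -/
theorem norm_le {α β : ℝ} (hα : 0 < α) (hαβ : α ≤ β) {G : (Fin (m + 1) → ℝ) × ℝ → ℝ≥0∞}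
    (hG : Measurable G) {K : ℝ≥0∞} (hK : ∀ lam ∈ Icc (1 / 4 : ℝ) 4, ∀ a t,
      G (a, Real.sqrt lam * t) ≤ K * G (lam • a, t)) :
    ∫⁻ b in (univ.pi fun _ : Fin m => Icc α β), ∫⁻ t in Icc (1 : ℝ) 2, G (cn 1 b, t) ≤
      (ENNReal.ofReal (4 / 3) * (2 * K) * ENNReal.ofReal (4 ^ m)) *
        ∫⁻ a in (univ.pi fun _ : Fin (m + 1) => Icc (min α 1 / 4) (4 * max β 1)),
          ∫⁻ t in Icc (1 : ℝ) 2, G (a, t) := by
  obtain ⟨H, hH⟩ : ∃ H : (Fin (m + 1) → ℝ) → ℝ≥0∞,
    H = fun a => ∫⁻ t in Icc (1 : ℝ) 2, G (a, t) := ⟨_, rfl⟩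
  have hHm : Measurable H := by
    rw [hH]
    exact hG.lintegral_prod_right'
  have hGa : ∀ a, Measurable fun t => G (a, t) := fun a => by
    have h1 : Measurable fun t : ℝ => (a, t) := measurable_const.prodMk measurable_id
    have h2 := hG.comp h1
    exact h2
  have h1 : ∀ b : Fin m → ℝ, ∫⁻ t in Icc (1 : ℝ) 2, G (cn 1 b, t) ≤
      ENNReal.ofReal (4 / 3) * ∫⁻ lam in Icc (1 / 4 : ℝ) 4, (2 * K) * H (cn lam (lam • b)) := by
    intro b
    refine (stepA (hGa (cn 1 b))).trans (mul_le_mul_right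
      (setLIntegral_mono' measurableSet_Icc fun lam hl => ?_) _)
    have hl0 : 0 < lam := by linarith [hl.1]
    have hs : 0 < Real.sqrt lam := Real.sqrt_pos.2 hl0
    have hs2 : Real.sqrt lam ≤ 2 := by
      rw [Real.sqrt_le_left (by norm_num)]
      linarith [hl.2]
    rw [stepB hs (hGa (cn 1 b)), hH]
    simp only
    rw [mul_assoc]
    refine mul_le_mul' ?_ ?_
    · refine (ENNReal.ofReal_le_ofReal hs2).trans (le_of_eq ?_)
      norm_num
    · calc ∫⁻ t in Icc (1 : ℝ) 2, G (cn 1 b, Real.sqrt lam * t)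
          ≤ ∫⁻ t in Icc (1 : ℝ) 2, K * G (lam • cn 1 b, t) :=
            lintegral_mono fun t => hK lam hl _ _
        _ = K * ∫⁻ t in Icc (1 : ℝ) 2, G (lam • cn 1 b, t) := lintegral_const_mul _ (hGa _)
        _ = _ := by
            rw [cn_smul, mul_one]
  have hm2 : Measurable fun q : (Fin m → ℝ) × ℝ => H (cn q.2 (q.2 • q.1)) := by
    have h2 : Measurable fun q : (Fin m → ℝ) × ℝ => q.2 • q.1 := measurable_snd.smul measurable_fst
    have h3 : Measurable fun q : (Fin m → ℝ) × ℝ => (q.2, q.2 • q.1) := measurable_snd.prodMk h2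
    have h4 := hHm.comp (cn_meas.comp h3)
    exact h4
  have hm3 : ∀ b : Fin m → ℝ, Measurable fun lam : ℝ => H (cn lam (lam • b)) := fun b => by
    have h3 : Measurable fun lam : ℝ => (b, lam) := measurable_const.prodMk measurable_id
    have h4 := hm2.comp h3
    exact h4
  calc ∫⁻ b in (univ.pi fun _ : Fin m => Icc α β), ∫⁻ t in Icc (1 : ℝ) 2, G (cn 1 b, t)
      ≤ ∫⁻ b in (univ.pi fun _ : Fin m => Icc α β), ENNReal.ofReal (4 / 3) *
          ∫⁻ lam in Icc (1 / 4 : ℝ) 4, (2 * K) * H (cn lam (lam • b)) :=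
        lintegral_mono fun b => h1 b
    _ = ∫⁻ b in (univ.pi fun _ : Fin m => Icc α β), (ENNReal.ofReal (4 / 3) * (2 * K)) *
          ∫⁻ lam in Icc (1 / 4 : ℝ) 4, H (cn lam (lam • b)) := by
        refine lintegral_congr fun b => ?_
        rw [lintegral_const_mul _ (hm3 b), mul_assoc (ENNReal.ofReal (4 / 3))]
    _ = (ENNReal.ofReal (4 / 3) * (2 * K)) * ∫⁻ b in (univ.pi fun _ : Fin m => Icc α β),
          ∫⁻ lam in Icc (1 / 4 : ℝ) 4, H (cn lam (lam • b)) :=
        lintegral_const_mul _ hm2.lintegral_prod_right'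
    _ = (ENNReal.ofReal (4 / 3) * (2 * K)) * ∫⁻ lam in Icc (1 / 4 : ℝ) 4,
          ∫⁻ b in (univ.pi fun _ : Fin m => Icc α β), H (cn lam (lam • b)) := by
        rw [lintegral_lintegral_swap (f := fun b lam => H (cn lam (lam • b))) hm2.aemeasurable]
    _ ≤ (ENNReal.ofReal (4 / 3) * (2 * K)) * ∫⁻ lam in Icc (1 / 4 : ℝ) 4,
          ENNReal.ofReal (4 ^ m) *
            ∫⁻ b in (univ.pi fun _ : Fin m => Icc (α / 4) (4 * β)), H (cn lam b) := by
        refine mul_le_mul_right (setLIntegral_mono' measurableSet_Icc fun lam hl => ?_) _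
        refine stepC (H := fun b => H (cn lam b)) hα hαβ hl.1 hl.2 ?_
        have h3 : Measurable fun b : Fin m → ℝ => (lam, b) := measurable_const.prodMk measurable_id
        have h4 := hHm.comp (cn_meas.comp h3)
        exact h4
    _ = (ENNReal.ofReal (4 / 3) * (2 * K)) * (ENNReal.ofReal (4 ^ m) *
          ∫⁻ lam in Icc (1 / 4 : ℝ) 4,
            ∫⁻ b in (univ.pi fun _ : Fin m => Icc (α / 4) (4 * β)), H (cn lam b)) := by
        rw [lintegral_const_mul' _ _ ENNReal.ofReal_ne_top]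
    _ ≤ (ENNReal.ofReal (4 / 3) * (2 * K)) * (ENNReal.ofReal (4 ^ m) *
          ∫⁻ a in (univ.pi fun _ : Fin (m + 1) => Icc (min α 1 / 4) (4 * max β 1)), H a) := by
        gcongr
        exact stepD hHm
    _ = _ := by
        rw [hH, ← mul_assoc]

end Pool.Agent.TH292.LS
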