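import Mathlib
import Pool.Agent.TH292.LS.FinE
import Pool.Agent.TH292.LS.N1
set_option autoImplicit false

/-! The estimates with one of the speeds equal to one. -/

namespace Pool.Agent.TH292.LS

open Complex MeasureTheory Set Filter Topology
open scoped ENNReal FourierTransform RealInnerProductSpace SchwartzMap
open Pool.Agent.TH310.BZ

variable {n m : ℕ}

/-- homogeneity -/
def Hom (W : (Fin n → ℝ) × ℝ → E n → ℂ) : Prop :=
  ∀ lam ∈ Icc (1 / 4 : ℝ) 4, ∃ k : ℝ, |k| ≤ 2 ∧ ∀ a t ξ,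
    W (a, Real.sqrt lam * t) ξ = (k : ℂ) * W (lam • a, t) ξ

lemma QF_lam (lam : ℝ) (a : Fin n → ℝ) (ξ : E n) : QF (lam • a) ξ = lam * QF a ξ :=
  QF_mulc a lam ξ

lemma Rc_hom : Hom (Rc (n := n)) := by
  intro lam hl
  refine ⟨1, by norm_num, fun a t ξ => ?_⟩
  unfold Rc
  rw [QF_lam, Real.sqrt_mul (by linarith [hl.1]), Complex.ofReal_one, one_mul]
  simp only
  have e : 2 * Real.pi * (Real.sqrt lam * t) * Real.sqrt (QF a ξ) =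
      2 * Real.pi * t * (Real.sqrt lam * Real.sqrt (QF a ξ)) := by ring
  rw [e]

lemma Rs_hom : Hom (Rs (n := n)) := by
  intro lam hl
  have h0 : 0 ≤ lam := by linarith [hl.1]
  refine ⟨Real.sqrt lam, ?_, fun a t ξ => ?_⟩
  · rw [abs_of_nonneg (Real.sqrt_nonneg _), Real.sqrt_le_left (by norm_num)]
    linarith [hl.2]
  · unfold Rs
    rw [QF_lam, Real.sqrt_mul h0, ← Complex.ofReal_mul]
    simp only
    congr 1
    have e : 2 * Real.pi * (Real.sqrt lam * t) * Real.sqrt (QF a ξ) =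
        2 * Real.pi * t * (Real.sqrt lam * Real.sqrt (QF a ξ)) := by ring
    rw [e]
    ring

lemma Ry_hom : Hom (Ry (n := n)) := by
  intro lam hl
  obtain ⟨k, hk, h⟩ := Rs_hom (n := n) lam hl
  refine ⟨k, hk, fun a t ξ => ?_⟩
  unfold Ry
  rw [h]
  ring

lemma bW_hom {W : (Fin n → ℝ) × ℝ → E n → ℂ} (hW' : Hom W) (s : ℝ) : Hom (bW s W) := by
  intro lam hl
  obtain ⟨k, hk, h⟩ := hW' lam hl
  refine ⟨k, hk, fun a t ξ => ?_⟩
  unfold bW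
  rw [h]
  ring

lemma hW_hom {W : (Fin n → ℝ) × ℝ → E n → ℂ} (hW' : Hom W) (τ : ℝ) : Hom (hW W τ) := by
  intro lam hl
  obtain ⟨k, hk, h⟩ := hW' lam hl
  refine ⟨k, hk, fun a t ξ => ?_⟩
  unfold hW
  rw [h]
  ring

/-- the normalised average -/
theorem nav {W : (Fin (m + 1) → ℝ) × ℝ → E (m + 1) → ℂ}
    (hm : Measurable fun q : ((Fin (m + 1) → ℝ) × ℝ) × E (m + 1) => W q.1 q.2) (hH : Hom W)
    {α β p : ℝ} (hα : 0 < α) (hαβ : α ≤ β) (hp : 0 ≤ p) {f : E (m + 1) → ℂ} (hf : Integrable f)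
    {D : ℝ≥0∞} (hD : ∫⁻ z, ‖Mu (W z.1) f z.2‖ₑ ^ p ∂(zm (m + 1) (min α 1 / 4) (4 * max β 1)) ≤ D) :
    ∫⁻ b in (univ.pi fun _ : Fin m => Icc α β), ∫⁻ t in Icc (1 : ℝ) 2, ∫⁻ x,
      ‖Mu (W (cn 1 b, t)) f x‖ₑ ^ p ≤
      (ENNReal.ofReal (4 / 3) * (2 * 2 ^ p) * ENNReal.ofReal (4 ^ m)) * D := by
  have hM : Measurable fun z : ((Fin (m + 1) → ℝ) × ℝ) × E (m + 1) =>
      ‖Mu (W z.1) f z.2‖ₑ ^ p :=
    (Mu_meas (Z := (Fin (m + 1) → ℝ) × ℝ) (m := W) hm hf).enorm.pow_const p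
  have hG : Measurable fun q : (Fin (m + 1) → ℝ) × ℝ => ∫⁻ x, ‖Mu (W q) f x‖ₑ ^ p :=
    hM.lintegral_prod_right'
  refine (norm_le hα hαβ hG (K := 2 ^ p) fun lam hl a t => ?_).trans (mul_le_mul_right ?_ _)
  · obtain ⟨k, hk, h⟩ := hH lam hl
    have e1 : W (a, Real.sqrt lam * t) = fun ξ => (k : ℂ) * W (lam • a, t) ξ := by
      ext ξ
      exact h a t ξ
    have h2 : ‖(k : ℂ)‖ₑ ≤ 2 := by
      rw [← ofReal_norm, Complex.norm_real, Real.norm_eq_abs]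
      refine (ENNReal.ofReal_le_ofReal hk).trans (le_of_eq (by norm_num))
    rw [e1, ← lintegral_const_mul' _ _ (ENNReal.rpow_ne_top_of_nonneg hp (by norm_num))]
    refine lintegral_mono fun x => ?_
    rw [Mu_const, enorm_mul, ENNReal.mul_rpow_of_nonneg _ _ hp]
    gcongr
  · rw [z_iter hM] at hD
    exact hD

lemma corner {α : ℝ} (hα : 0 < α) (β : ℝ) :
    0 < min α 1 / 4 ∧ min α 1 / 4 ≤ 4 * max β 1 := by
  have h1 : 0 < min α 1 := lt_min hα one_pos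
  have h2 : min α 1 ≤ 1 := min_le_right _ _
  have h3 : 1 ≤ max β 1 := le_max_right _ _
  constructor
  · positivity
  · linarith

/-- almost every parameter -/
theorem ae_sup' {Ω : Type*} [MeasurableSpace Ω] (ρ : Measure Ω) {A : Ω → Fin n → ℝ}
    (hA : Measurable A) {W : (Fin n → ℝ) × ℝ → E n → ℂ} {B : ℝ} (hW' : Sym W B) {p : ℝ}
    (hp : 1 < p) {D : ℝ≥0∞} (hDt : D ≠ ⊤) {f : E n → ℂ} (hf : Integrable f)
    (hC : ∀ τ : ℝ, 0 < τ → ∫⁻ ω, Ph W p τ f (A ω) ∂ρ ≤ D) :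
    ∀ᵐ ω ∂ρ, ∃ M : ℝ≥0∞, M ≠ ⊤ ∧ ∀ τ : ℝ, 0 < τ → Ph W p τ f (A ω) ≤ M := by
  have hmono : Monotone fun (k : ℕ) ω => Ph W p (1 / ((k : ℝ) + 1)) f (A ω) := by
    intro k l hkl ω
    refine Ph_anti hW' hp (by positivity) ?_ hf _
    apply one_div_le_one_div_of_le (by positivity)
    have : (k : ℝ) ≤ l := by exact_mod_cast hkl
    linarith
  have hmeas : ∀ k : ℕ, Measurable fun ω => Ph W p (1 / ((k : ℝ) + 1)) f (A ω) := fun k =>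
    (Ph_meas hW' p _ hf).comp hA
  have h2 : ∫⁻ ω, ⨆ k : ℕ, Ph W p (1 / ((k : ℝ) + 1)) f (A ω) ∂ρ ≤ D := by
    rw [lintegral_iSup hmeas hmono]
    exact iSup_le fun k => hC _ (by positivity)
  have h3 := ae_lt_top (Measurable.iSup hmeas) (h2.trans_lt hDt.lt_top).ne
  filter_upwards [h3] with ω hω
  refine ⟨_, hω.ne, fun τ hτ => ?_⟩
  obtain ⟨k, hk⟩ := exists_nat_one_div_lt hτ
  exact (Ph_anti hW' hp (by positivity) hk.le hf _).trans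
    (le_iSup (fun k : ℕ => Ph W p (1 / ((k : ℝ) + 1)) f (A ω)) k)

/-- **Averaged local smoothing**, one speed equal to one. -/
theorem part_one' (m : ℕ) {p s : ℝ} (hp : 2 ≤ p) (hp4 : p ≤ 4)
    (hs : 1 / 2 - 1 / p < s) {α β : ℝ} (hα : 0 < α) (hαβ : α ≤ β) :
    ∃ C : ℝ, 0 < C ∧ ∀ u₀ u₁ : 𝓢(E (m + 1), ℂ),
      ∫⁻ b in (univ.pi fun _ : Fin m => Icc α β), ∫⁻ t in Icc (1 : ℝ) 2, ∫⁻ x : E (m + 1),
        ‖solE (cn 1 b) u₀ u₁ t x‖ₑ ^ p ≤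
      ENNReal.ofReal C * ((∫⁻ x, ‖besE s u₀ x‖ₑ ^ p) + ∫⁻ x, ‖besE (s - 1) u₁ x‖ₑ ^ p) := by
  have hp0 : 0 ≤ p := by linarith
  have hp1 : 1 < p := by linarith
  have hp2 : 1 / p ≤ 1 / 2 := one_div_le_one_div_of_le (by norm_num) hp
  have hs0 : 0 ≤ s := by linarith
  obtain ⟨hα', hαβ'⟩ := corner hα β
  obtain ⟨C1, hC1, h1⟩ := pos_av (m + 1) (by omega) hα' hαβ' hp hp4 hs
  obtain ⟨C2, hC2, h2⟩ := vel_av (m + 1) (by omega) hα' hαβ' hp hp4 hs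
  obtain ⟨K, hK⟩ : ∃ K : ℝ≥0∞, K = ENNReal.ofReal (4 / 3) * (2 * 2 ^ p) *
    ENNReal.ofReal (4 ^ m) := ⟨_, rfl⟩
  have hKt : K ≠ ⊤ := by
    rw [hK]
    exact ENNReal.mul_ne_top (ENNReal.mul_ne_top ENNReal.ofReal_ne_top
      (ENNReal.mul_ne_top (by norm_num) (ENNReal.rpow_ne_top_of_nonneg hp0 (by norm_num))))
      ENNReal.ofReal_ne_top
  have h2t : (2 : ℝ≥0∞) ^ (p - 1) ≠ ⊤ :=
    ENNReal.rpow_ne_top_of_nonneg (by linarith) (by norm_num)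
  obtain ⟨C, hC⟩ : ∃ C : ℝ≥0∞, C = 2 ^ (p - 1) * (K * (C1 + C2)) := ⟨_, rfl⟩
  have hCt : C ≠ ⊤ := by
    rw [hC]
    exact ENNReal.mul_ne_top h2t (ENNReal.mul_ne_top hKt (ENNReal.add_ne_top.2 ⟨hC1, hC2⟩))
  refine ⟨C.toReal + 1, by positivity, fun u₀ u₁ => ?_⟩
  have hA := nav (sym_pos hs0).meas (bW_hom Rc_hom s) hα hαβ hp0 (bS s u₀).integrable
    (schwartz_av (sym_pos hs0) hp1 h1 (bS s u₀))
  have hB := nav (sym_vel hs0).meas (bW_hom Ry_hom (1 + s)) hα hαβ hp0 (bS (s - 1) u₁).integrable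
    (schwartz_av (sym_vel hs0) hp1 h2 (bS (s - 1) u₁))
  rw [← hK] at hA hB
  obtain ⟨F1, hF1⟩ : ∃ F, F = ∫⁻ x, ‖bS s u₀ x‖ₑ ^ p := ⟨_, rfl⟩
  obtain ⟨F2, hF2⟩ : ∃ F, F = ∫⁻ x, ‖bS (s - 1) u₁ x‖ₑ ^ p := ⟨_, rfl⟩
  rw [← hF1] at hA
  rw [← hF2] at hB
  have hmA : Measurable fun z : ((Fin (m + 1) → ℝ) × ℝ) × E (m + 1) =>
      ‖Mu (bW s Rc z.1) (bS s u₀) z.2‖ₑ ^ p :=
    (Mu_W_meas (sym_pos hs0) (bS s u₀).integrable).enorm.pow_const p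
  have hGA : Measurable fun q : (Fin (m + 1) → ℝ) × ℝ =>
      ∫⁻ x, ‖Mu (bW s Rc q) (bS s u₀) x‖ₑ ^ p := hmA.lintegral_prod_right'
  have hcn : Measurable fun b : Fin m → ℝ => cn 1 b := by
    have h3 : Measurable fun b : Fin m → ℝ => ((1 : ℝ), b) :=
      measurable_const.prodMk measurable_id
    have h4 := cn_meas.comp h3
    exact h4
  have hGA2 : Measurable fun q : (Fin m → ℝ) × ℝ =>
      ∫⁻ x, ‖Mu (bW s Rc (cn 1 q.1, q.2)) (bS s u₀) x‖ₑ ^ p := by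
    have h3 : Measurable fun q : (Fin m → ℝ) × ℝ => (cn 1 q.1, q.2) :=
      (hcn.comp measurable_fst).prodMk measurable_snd
    have h4 := hGA.comp h3
    exact h4
  have hGAt : ∀ b : Fin m → ℝ, Measurable fun t : ℝ =>
      ∫⁻ x, ‖Mu (bW s Rc (cn 1 b, t)) (bS s u₀) x‖ₑ ^ p := fun b => by
    have h3 : Measurable fun t : ℝ => (b, t) := measurable_const.prodMk measurable_id
    have h4 := hGA2.comp h3
    exact h4
  have hAx : ∀ (b : Fin m → ℝ) (t : ℝ), Measurable fun x =>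
      ‖Mu (bW s Rc (cn 1 b, t)) (bS s u₀) x‖ₑ ^ p := fun b t =>
    (Mu_meas_x (W_measξ (sym_pos hs0) (cn 1 b, t)) (bS s u₀).integrable).enorm.pow_const p
  have e2 : ∀ (r : ℝ) (u : 𝓢(E (m + 1), ℂ)) (x : E (m + 1)), besE r u x = bS r u x :=
    fun r u x => (bS_apply r u x).symm
  simp only [e2]
  rw [← hF1, ← hF2]
  calc ∫⁻ b in (univ.pi fun _ : Fin m => Icc α β), ∫⁻ t in Icc (1 : ℝ) 2, ∫⁻ x : E (m + 1),
        ‖solE (cn 1 b) u₀ u₁ t x‖ₑ ^ p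
      ≤ ∫⁻ b in (univ.pi fun _ : Fin m => Icc α β), ∫⁻ t in Icc (1 : ℝ) 2, ∫⁻ x : E (m + 1),
        2 ^ (p - 1) * (‖Mu (bW s Rc (cn 1 b, t)) (bS s u₀) x‖ₑ ^ p +
          ‖Mu (bW (1 + s) Ry (cn 1 b, t)) (bS (s - 1) u₁) x‖ₑ ^ p) := by
        refine lintegral_mono fun b => lintegral_mono fun t => lintegral_mono fun x => ?_
        rw [solE_eq hs0]
        exact two_p hp1 _ _
    _ = 2 ^ (p - 1) * ((∫⁻ b in (univ.pi fun _ : Fin m => Icc α β), ∫⁻ t in Icc (1 : ℝ) 2,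
          ∫⁻ x, ‖Mu (bW s Rc (cn 1 b, t)) (bS s u₀) x‖ₑ ^ p) +
        ∫⁻ b in (univ.pi fun _ : Fin m => Icc α β), ∫⁻ t in Icc (1 : ℝ) 2,
          ∫⁻ x, ‖Mu (bW (1 + s) Ry (cn 1 b, t)) (bS (s - 1) u₁) x‖ₑ ^ p) := by
        rw [← lintegral_add_left (hGA2.lintegral_prod_right'), ← lintegral_const_mul' _ _ h2t]
        refine lintegral_congr fun b => ?_
        rw [← lintegral_add_left (hGAt b), ← lintegral_const_mul' _ _ h2t]
        refine lintegral_congr fun t => ?_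
        rw [← lintegral_add_left (hAx b t), ← lintegral_const_mul' _ _ h2t]
    _ ≤ 2 ^ (p - 1) * (K * (C1 * F1) + K * (C2 * F2)) := by
        gcongr
    _ ≤ 2 ^ (p - 1) * (K * ((C1 + C2) * F1) + K * ((C1 + C2) * F2)) := by
        gcongr
        · exact le_self_add
        · exact le_add_self
    _ = C * (F1 + F2) := by
        rw [hC]
        ring
    _ ≤ _ := by
        refine mul_le_mul_left ?_ _
        refine (le_of_eq (ENNReal.ofReal_toReal hCt).symm).trans ?_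
        exact ENNReal.ofReal_le_ofReal (by linarith)

theorem part_two' (m : ℕ) {p s : ℝ} (hp : 2 ≤ p) (hp4 : p ≤ 4)
    (hs : 1 / 2 - 1 / p < s) {f g : E (m + 1) → ℂ} (hf : Integrable f)
    (hfp : MemLp f (ENNReal.ofReal p)) (hg : Integrable g) (hgp : MemLp g (ENNReal.ofReal p)) :
    ∀ᵐ b : Fin m → ℝ, (∀ j, 0 < b j) → ∃ M : ℝ, ∀ τ : ℝ, 0 < τ →
      ∫⁻ t in Icc (1 : ℝ) 2, ∫⁻ x : E (m + 1), ‖regE s τ (cn 1 b) f g t x‖ₑ ^ p ≤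
        ENNReal.ofReal M := by
  have hp0 : 0 < p := by linarith
  have hp1 : 1 < p := by linarith
  have hp2 : 1 / p ≤ 1 / 2 := one_div_le_one_div_of_le (by norm_num) hp
  have hs0 : 0 ≤ s := by linarith
  have hfin : ∀ {h : E (m + 1) → ℂ}, MemLp h (ENNReal.ofReal p) → ∫⁻ x, ‖h x‖ₑ ^ p ≠ ⊤ := by
    intro h hh
    have h1 := lintegral_rpow_enorm_lt_top_of_eLpNorm_lt_top
      (by simpa using hp0) ENNReal.ofReal_ne_top hh.2
    rw [ENNReal.toReal_ofReal hp0.le] at h1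
    exact h1.ne
  refine ae_pos fun α β hα hαβ => ?_
  obtain ⟨hα', hαβ'⟩ := corner hα β
  obtain ⟨C1, hC1, h1⟩ := pos_av (m + 1) (by omega) hα' hαβ' hp hp4 hs
  obtain ⟨C2, hC2, h2⟩ := vel_av (m + 1) (by omega) hα' hαβ' hp hp4 hs
  obtain ⟨K, hK⟩ : ∃ K : ℝ≥0∞, K = ENNReal.ofReal (4 / 3) * (2 * 2 ^ p) *
    ENNReal.ofReal (4 ^ m) := ⟨_, rfl⟩
  have hKt : K ≠ ⊤ := by
    rw [hK]
    exact ENNReal.mul_ne_top (ENNReal.mul_ne_top ENNReal.ofReal_ne_top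
      (ENNReal.mul_ne_top (by norm_num) (ENNReal.rpow_ne_top_of_nonneg hp0.le (by norm_num))))
      ENNReal.ofReal_ne_top
  have hcn : Measurable fun b : Fin m → ℝ => cn 1 b := by
    have h3 : Measurable fun b : Fin m → ℝ => ((1 : ℝ), b) :=
      measurable_const.prodMk measurable_id
    have h4 := cn_meas.comp h3
    exact h4
  have hA := ae_sup' (nu m α β) hcn (sym_pos hs0) hp1 (ENNReal.mul_ne_top hKt
    (ENNReal.mul_ne_top hC1 (hfin hfp))) hf (fun τ hτ => by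
      rw [nu_eq, hK]
      exact nav (hW_meas (sym_pos hs0) τ) (hW_hom (bW_hom Rc_hom s) τ) hα hαβ hp0.le hf
        (ext_int (sym_pos hs0) hp1 hτ (fun f hf => h1 f hf τ hτ) f hf))
  have hB := ae_sup' (nu m α β) hcn (sym_vel hs0) hp1 (ENNReal.mul_ne_top hKt
    (ENNReal.mul_ne_top hC2 (hfin hgp))) hg (fun τ hτ => by
      rw [nu_eq, hK]
      exact nav (hW_meas (sym_vel hs0) τ) (hW_hom (bW_hom Ry_hom (1 + s)) τ) hα hαβ hp0.le hg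
        (ext_int (sym_vel hs0) hp1 hτ (fun f hf => h2 f hf τ hτ) g hg))
  filter_upwards [hA, hB] with b hAa hBa
  obtain ⟨M1, hM1, hA'⟩ := hAa
  obtain ⟨M2, hM2, hB'⟩ := hBa
  have h2t : (2 : ℝ≥0∞) ^ (p - 1) ≠ ⊤ :=
    ENNReal.rpow_ne_top_of_nonneg (by linarith) (by norm_num)
  refine ⟨(2 ^ (p - 1) * (M1 + M2)).toReal, fun τ hτ => ?_⟩
  rw [ENNReal.ofReal_toReal (ENNReal.mul_ne_top h2t (ENNReal.add_ne_top.2 ⟨hM1, hM2⟩))]
  have hmz := Mu_hW_meas (sym_pos (n := m + 1) hs0) τ hf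
  have hmt : Measurable fun t : ℝ => ∫⁻ x, ‖Mu (hW (bW s Rc) τ (cn 1 b, t)) f x‖ₑ ^ p := by
    have h3 : Measurable fun q : (Fin (m + 1) → ℝ) × ℝ =>
        ∫⁻ x, ‖Mu (hW (bW s Rc) τ q) f x‖ₑ ^ p := (hmz.enorm.pow_const p).lintegral_prod_right'
    have h4 : Measurable fun t : ℝ => (cn 1 b, t) := measurable_const.prodMk measurable_id
    have h5 := h3.comp h4
    exact h5
  have hmx : ∀ t, Measurable fun x => ‖Mu (hW (bW s Rc) τ (cn 1 b, t)) f x‖ₑ ^ p := fun t =>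
    (Mu_meas_x (hW_measξ (sym_pos hs0) τ (cn 1 b, t)) hf).enorm.pow_const p
  calc ∫⁻ t in Icc (1 : ℝ) 2, ∫⁻ x : E (m + 1), ‖regE s τ (cn 1 b) f g t x‖ₑ ^ p
      ≤ ∫⁻ t in Icc (1 : ℝ) 2, ∫⁻ x : E (m + 1),
        2 ^ (p - 1) * (‖Mu (hW (bW s Rc) τ (cn 1 b, t)) f x‖ₑ ^ p +
        ‖Mu (hW (bW (1 + s) Ry) τ (cn 1 b, t)) g x‖ₑ ^ p) := by
        refine lintegral_mono fun t => lintegral_mono fun x => ?_
        rw [regE_eq hs0 hτ (cn 1 b) hf hg]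
        exact two_p hp1 _ _
    _ = ∫⁻ t in Icc (1 : ℝ) 2, 2 ^ (p - 1) *
        ((∫⁻ x, ‖Mu (hW (bW s Rc) τ (cn 1 b, t)) f x‖ₑ ^ p) +
        ∫⁻ x, ‖Mu (hW (bW (1 + s) Ry) τ (cn 1 b, t)) g x‖ₑ ^ p) := by
        refine lintegral_congr fun t => ?_
        rw [lintegral_const_mul' _ _ h2t, lintegral_add_left (hmx t)]
    _ = 2 ^ (p - 1) * (Ph (bW s Rc) p τ f (cn 1 b) + Ph (bW (1 + s) Ry) p τ g (cn 1 b)) := by
        rw [lintegral_const_mul' _ _ h2t, lintegral_add_left hmt]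
        rfl
    _ ≤ _ := mul_le_mul_right (add_le_add (hA' τ hτ) (hB' τ hτ)) _

end Pool.Agent.TH292.LS
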