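import Mathlib
import Pool.Agent.TH292.LS.N2
set_option autoImplicit false

/-! Anisotropic dilations. -/

namespace Pool.Agent.TH292.LS

open Complex MeasureTheory Set Filter Topology
open scoped ENNReal FourierTransform RealInnerProductSpace SchwartzMap
open Pool.Agent.TH310.BZ

variable {n : ℕ}

/-- `x ↦ (w_1 x_1, …, w_n x_n)` -/
noncomputable def dl (w : Fin n → ℝ) (x : E n) : E n := WithLp.toLp 2 fun j => w j * x j

lemma dl_apply (w : Fin n → ℝ) (x : E n) (j : Fin n) : dl w x j = w j * x j := rfl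

lemma dl_cont (w : Fin n → ℝ) : Continuous (dl w) := by
  unfold dl
  fun_prop

lemma dl_inv {w : Fin n → ℝ} (hw : ∀ j, 0 < w j) (x : E n) : dl (fun j => (w j)⁻¹) (dl w x) = x := by
  ext j
  rw [dl_apply, dl_apply, inv_mul_cancel_left₀ (hw j).ne']

lemma dl_inv' {w : Fin n → ℝ} (hw : ∀ j, 0 < w j) (x : E n) : dl w (dl (fun j => (w j)⁻¹) x) = x := by
  ext j
  rw [dl_apply, dl_apply, mul_inv_cancel_left₀ (hw j).ne']

/-- the dilation as a homeomorphism -/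
noncomputable def dlh (w : Fin n → ℝ) (hw : ∀ j, 0 < w j) : E n ≃ₜ E n where
  toFun := dl w
  invFun := dl fun j => (w j)⁻¹
  left_inv := dl_inv hw
  right_inv := dl_inv' hw
  continuous_toFun := dl_cont w
  continuous_invFun := dl_cont _

lemma dl_emb {w : Fin n → ℝ} (hw : ∀ j, 0 < w j) : MeasurableEmbedding (dl w) :=
  (dlh w hw).measurableEmbedding

/-- the Jacobian -/
noncomputable def ja (w : Fin n → ℝ) : ℝ := (∏ j, w j)⁻¹

lemma ja_pos {w : Fin n → ℝ} (hw : ∀ j, 0 < w j) : 0 < ja w :=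
  inv_pos.2 (Finset.prod_pos fun j _ => hw j)

lemma ja_inv (w : Fin n → ℝ) : ja (fun j => (w j)⁻¹) = (ja w)⁻¹ := by
  unfold ja
  rw [Finset.prod_inv_distrib]

lemma dl_map {w : Fin n → ℝ} (hw : ∀ j, 0 < w j) :
    Measure.map (dl w) (volume : Measure (E n)) = ENNReal.ofReal (ja w) • volume := by
  have h1 : dl w = Matrix.toLpLin 2 2 (Matrix.diagonal w) := by
    ext x j
    rw [dl_apply, Matrix.toLpLin_apply]
    simp [Matrix.mulVec_diagonal]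
  have hd : LinearMap.det (Matrix.toLpLin 2 2 (Matrix.diagonal w) : E n →ₗ[ℝ] E n) =
      ∏ j, w j := by
    rw [Matrix.toLpLin_eq_toLin, LinearMap.det_toLin, Matrix.det_diagonal]
  have hp : 0 < ∏ j, w j := Finset.prod_pos fun j _ => hw j
  rw [h1, Measure.map_linearMap_addHaar_eq_smul_addHaar volume (by rw [hd]; exact hp.ne'), hd,
    abs_of_pos (inv_pos.2 hp)]
  rfl

lemma dl_int {w : Fin n → ℝ} (hw : ∀ j, 0 < w j) (F : E n → ℂ) :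
    ∫ x, F (dl w x) = ((ja w : ℝ) : ℂ) * ∫ x, F x := by
  rw [← (dl_emb hw).integral_map, dl_map hw, integral_smul_measure,
    ENNReal.toReal_ofReal (ja_pos hw).le, Complex.real_smul]

lemma dl_lint {w : Fin n → ℝ} (hw : ∀ j, 0 < w j) (F : E n → ℝ≥0∞) :
    ∫⁻ x, F (dl w x) = ENNReal.ofReal (ja w) * ∫⁻ x, F x := by
  rw [← (dl_emb hw).lintegral_map, dl_map hw, lintegral_smul_measure, smul_eq_mul]

lemma dl_inner {w : Fin n → ℝ} (x y : E n) : (⟪dl w x, y⟫ : ℝ) = ⟪x, dl w y⟫ := by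
  rw [PiLp.inner_apply, PiLp.inner_apply]
  refine Finset.sum_congr rfl fun j _ => ?_
  rw [dl_apply, dl_apply]
  simp only [RCLike.inner_apply, conj_trivial]
  ring

lemma dl_F {w : Fin n → ℝ} (hw : ∀ j, 0 < w j) (u : E n → ℂ) (ξ : E n) :
    𝓕 (fun x => u (dl w x)) ξ = ((ja w : ℝ) : ℂ) * 𝓕 u (dl (fun j => (w j)⁻¹) ξ) := by
  rw [Real.fourier_eq', Real.fourier_eq', ← dl_int hw]
  congr 1
  ext x
  rw [dl_inner, dl_inv' hw]

/-- the solution of the Euclidean wave equation -/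
noncomputable def wav (u₀ u₁ : E n → ℂ) (t : ℝ) (x : E n) : ℂ :=
  ∫ ξ : E n, cexp (((2 * Real.pi * ⟪x, ξ⟫ : ℝ) : ℂ) * I) *
    (((Real.cos (2 * Real.pi * t * ‖ξ‖) : ℝ) : ℂ) * 𝓕 u₀ ξ +
      ((t * Real.sinc (2 * Real.pi * t * ‖ξ‖) : ℝ) : ℂ) * 𝓕 u₁ ξ)

lemma wav_dl {w : Fin n → ℝ} (hw : ∀ j, 0 < w j) (u₀ u₁ : E n → ℂ) (t : ℝ) (x : E n) :
    wav (fun x => u₀ (dl w x)) (fun x => u₁ (dl w x)) t x =
      solE (fun j => w j ^ 2) u₀ u₁ t (dl w x) := by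
  have hi : ∀ j, 0 < (w j)⁻¹ := fun j => inv_pos.2 (hw j)
  have hj := ja_pos hw
  obtain ⟨G, hG⟩ : ∃ G : E n → ℂ, G = fun ξ => cexp (((2 * Real.pi * ⟪dl w x, ξ⟫ : ℝ) : ℂ) * I) *
    (((Real.cos (2 * Real.pi * t * Real.sqrt (∑ j, w j ^ 2 * ξ j ^ 2)) : ℝ) : ℂ) * 𝓕 u₀ ξ +
      ((t * Real.sinc (2 * Real.pi * t * Real.sqrt (∑ j, w j ^ 2 * ξ j ^ 2)) : ℝ) : ℂ) *
        𝓕 u₁ ξ) := ⟨_, rfl⟩
  have h1 := dl_int hi G
  rw [ja_inv] at h1
  have h2 : solE (fun j => w j ^ 2) u₀ u₁ t (dl w x) = ∫ ξ, G ξ := by rw [hG]; rfl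
  have h3 : wav (fun x => u₀ (dl w x)) (fun x => u₁ (dl w x)) t x =
      ∫ ξ, ((ja w : ℝ) : ℂ) * G (dl (fun j => (w j)⁻¹) ξ) := by
    unfold wav
    congr 1
    ext ξ
    rw [dl_F hw, dl_F hw, hG]
    simp only
    have e1 : (⟪dl w x, dl (fun j => (w j)⁻¹) ξ⟫ : ℝ) = ⟪x, ξ⟫ := by
      rw [dl_inner, dl_inv' hw]
    have e2 : Real.sqrt (∑ j, w j ^ 2 * (dl (fun j => (w j)⁻¹) ξ) j ^ 2) = ‖ξ‖ := by
      rw [EuclideanSpace.norm_eq]
      congr 1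
      refine Finset.sum_congr rfl fun j _ => ?_
      rw [dl_apply, mul_pow, ← mul_assoc, ← mul_pow, mul_inv_cancel₀ (hw j).ne', one_pow, one_mul,
        Real.norm_eq_abs, sq_abs]
    rw [e1, e2]
    ring
  rw [h3, h2, integral_const_mul, h1, Complex.ofReal_inv, mul_inv_cancel_left₀]
  exact_mod_cast hj.ne'

lemma wav_lint {w : Fin n → ℝ} (hw : ∀ j, 0 < w j) (u₀ u₁ : E n → ℂ) (t p : ℝ) :
    ∫⁻ x, ‖wav (fun x => u₀ (dl w x)) (fun x => u₁ (dl w x)) t x‖ₑ ^ p =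
      ENNReal.ofReal (ja w) * ∫⁻ x, ‖solE (fun j => w j ^ 2) u₀ u₁ t x‖ₑ ^ p := by
  rw [← dl_lint hw]
  simp only [wav_dl hw]

end Pool.Agent.TH292.LS
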