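import Mathlib
import Pool.Agent.TH292.LS.Dil1
set_option autoImplicit false

/-! Averages over anisotropic dilations of the data, for the Euclidean wave equation. -/

namespace Pool.Agent.TH292.LS

open Complex MeasureTheory Set Filter Topology
open scoped ENNReal FourierTransform RealInnerProductSpace SchwartzMap
open Pool.Agent.TH310.BZ

variable {n m : ℕ}

/-- change of variables `b = c²` -/
lemma sq_cov {α β : ℝ} (hα : 0 < α) (H : (Fin m → ℝ) → ℝ≥0∞) :
    ∫⁻ c in (univ.pi fun _ : Fin m => Icc α β), H (fun j => c j ^ 2) ≤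
      ENNReal.ofReal (((2 * α) ^ m)⁻¹) *
        ∫⁻ b in (univ.pi fun _ : Fin m => Icc (α ^ 2) (β ^ 2)), H b := by
  obtain ⟨S, hS⟩ : ∃ S : Set (Fin m → ℝ), S = univ.pi fun _ : Fin m => Icc α β := ⟨_, rfl⟩
  have hSm : MeasurableSet S := by rw [hS]; exact MeasurableSet.univ_pi fun _ => measurableSet_Icc
  have hSp : ∀ c ∈ S, ∀ j, α ≤ c j ∧ c j ≤ β := by
    intro c hc j
    rw [hS] at hc
    exact hc j (mem_univ j)
  let f : (Fin m → ℝ) → (Fin m → ℝ) := fun c j => c j ^ 2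
  let f' : (Fin m → ℝ) → (Fin m → ℝ) →L[ℝ] (Fin m → ℝ) := fun c =>
    ContinuousLinearMap.pi fun j => (2 * c j) • ContinuousLinearMap.proj j
  have hf' : ∀ c ∈ S, HasFDerivWithinAt f (f' c) S c := by
    intro c _
    refine HasFDerivAt.hasFDerivWithinAt ?_
    rw [hasFDerivAt_pi]
    intro j
    have h1 : HasFDerivAt (fun c : Fin m → ℝ => c j) (ContinuousLinearMap.proj j) c :=
      (ContinuousLinearMap.proj (R := ℝ) (φ := fun _ : Fin m => ℝ) j).hasFDerivAt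
    have h2 := h1.pow 2
    refine h2.congr_fderiv ?_
    ext v
    simp
  have hinj : InjOn f S := by
    intro c hc c' hc' h
    ext j
    have h1 : c j ^ 2 = c' j ^ 2 := congrFun h j
    have h2 := (hSp c hc j).1
    have h3 := (hSp c' hc' j).1
    nlinarith
  have hdet : ∀ c, (f' c).det = ∏ j, (2 * c j) := by
    intro c
    have h1 : ((f' c : (Fin m → ℝ) →L[ℝ] (Fin m → ℝ)) : (Fin m → ℝ) →ₗ[ℝ] (Fin m → ℝ)) =
        Matrix.toLin' (Matrix.diagonal fun j => 2 * c j) := by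
      refine LinearMap.ext fun v => ?_
      rw [Matrix.toLin'_apply]
      ext j
      rw [Matrix.mulVec_diagonal]
      simp [f']
    unfold ContinuousLinearMap.det
    rw [h1, LinearMap.det_toLin', Matrix.det_diagonal]
  have hcov := lintegral_image_eq_lintegral_abs_det_fderiv_mul volume hSm hf' hinj H
  have hsub : f '' S ⊆ univ.pi fun _ : Fin m => Icc (α ^ 2) (β ^ 2) := by
    rintro _ ⟨c, hc, rfl⟩ j _
    have h2 := hSp c hc j
    constructor
    · exact pow_le_pow_left₀ hα.le h2.1 2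
    · exact pow_le_pow_left₀ (hα.le.trans h2.1) h2.2 2
  have hK : 0 < (2 * α) ^ m := by positivity
  rw [← hS]
  calc ∫⁻ c in S, H (fun j => c j ^ 2)
      ≤ ∫⁻ c in S, ENNReal.ofReal (((2 * α) ^ m)⁻¹) *
          (ENNReal.ofReal |(f' c).det| * H (f c)) := by
        refine setLIntegral_mono' hSm fun c hc => ?_
        rw [← mul_assoc, ← ENNReal.ofReal_mul (by positivity)]
        have h1 : (1 : ℝ) ≤ ((2 * α) ^ m)⁻¹ * |(f' c).det| := by
          rw [hdet, inv_mul_eq_div, le_div_iff₀ hK, one_mul]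
          have h2 : (2 * α) ^ m ≤ ∏ j, (2 * c j) := by
            have h3 : (2 * α) ^ m = ∏ _j : Fin m, (2 * α) := by simp
            rw [h3]
            refine Finset.prod_le_prod (fun j _ => by positivity) fun j _ => ?_
            have := (hSp c hc j).1
            linarith
          exact h2.trans (le_abs_self _)
        calc H (fun j => c j ^ 2) = 1 * H (f c) := by rw [one_mul]
          _ ≤ _ := by
            refine mul_le_mul_left ?_ _
            rw [← ENNReal.ofReal_one]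
            exact ENNReal.ofReal_le_ofReal h1
    _ = ENNReal.ofReal (((2 * α) ^ m)⁻¹) * ∫⁻ b in f '' S, H b := by
        rw [lintegral_const_mul' _ _ ENNReal.ofReal_ne_top, hcov]
    _ ≤ _ := by
        refine mul_le_mul_right ?_ _
        exact lintegral_mono_set hsub

lemma cn_sq (c : Fin m → ℝ) : (fun j => cn 1 c j ^ 2) = cn 1 fun j => c j ^ 2 := by
  ext j
  refine Fin.cases ?_ (fun i => ?_) j
  · rw [cn_zero, cn_zero, one_pow]
  · rw [cn_succ, cn_succ]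

lemma cn_pos {c : Fin m → ℝ} (hc : ∀ j, 0 < c j) : ∀ j, 0 < cn 1 c j := by
  intro j
  refine Fin.cases ?_ (fun i => ?_) j
  · rw [cn_zero]; exact one_pos
  · rw [cn_succ]; exact hc i

lemma cn_ja {α : ℝ} (hα : 0 < α) {c : Fin m → ℝ} (hc : ∀ j, α ≤ c j) :
    ja (cn 1 c) ≤ (α ^ m)⁻¹ := by
  unfold ja
  refine inv_anti₀ (by positivity) ?_
  rw [Fin.prod_univ_succ, cn_zero, one_mul]
  have h3 : α ^ m = ∏ _j : Fin m, α := by simp
  rw [h3]
  refine Finset.prod_le_prod (fun j _ => hα.le) fun j _ => ?_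
  rw [cn_succ]
  exact hc j

/-- **Averaged local smoothing** for dilated data, Euclidean wave equation. -/
theorem wav_one (m : ℕ) {p s : ℝ} (hp : 2 ≤ p) (hp4 : p ≤ 4)
    (hs : 1 / 2 - 1 / p < s) {α β : ℝ} (hα : 0 < α) (hαβ : α ≤ β) :
    ∃ C : ℝ, 0 < C ∧ ∀ u₀ u₁ : 𝓢(E (m + 1), ℂ),
      ∫⁻ c in (univ.pi fun _ : Fin m => Icc α β), ∫⁻ t in Icc (1 : ℝ) 2, ∫⁻ x : E (m + 1),
        ‖wav (fun x => u₀ (dl (cn 1 c) x)) (fun x => u₁ (dl (cn 1 c) x)) t x‖ₑ ^ p ≤
      ENNReal.ofReal C * ((∫⁻ x, ‖besE s u₀ x‖ₑ ^ p) + ∫⁻ x, ‖besE (s - 1) u₁ x‖ₑ ^ p) := by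
  obtain ⟨C, hC, h⟩ := part_one' m hp hp4 hs (α := α ^ 2) (β := β ^ 2) (by positivity)
    (pow_le_pow_left₀ hα.le hαβ 2)
  refine ⟨(α ^ m)⁻¹ * (((2 * α) ^ m)⁻¹ * C), by positivity, fun u₀ u₁ => ?_⟩
  have hSm : MeasurableSet (univ.pi fun _ : Fin m => Icc α β) :=
    MeasurableSet.univ_pi fun _ => measurableSet_Icc
  calc ∫⁻ c in (univ.pi fun _ : Fin m => Icc α β), ∫⁻ t in Icc (1 : ℝ) 2, ∫⁻ x : E (m + 1),
        ‖wav (fun x => u₀ (dl (cn 1 c) x)) (fun x => u₁ (dl (cn 1 c) x)) t x‖ₑ ^ p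
      ≤ ∫⁻ c in (univ.pi fun _ : Fin m => Icc α β), ENNReal.ofReal ((α ^ m)⁻¹) *
          ∫⁻ t in Icc (1 : ℝ) 2, ∫⁻ x : E (m + 1),
            ‖solE (cn 1 fun j => c j ^ 2) u₀ u₁ t x‖ₑ ^ p := by
        refine setLIntegral_mono' hSm fun c hc => ?_
        have h1 : ∀ j, α ≤ c j := fun j => (hc j (mem_univ j)).1
        have h2 : ∀ j, 0 < cn 1 c j := cn_pos fun j => hα.trans_le (h1 j)
        rw [← lintegral_const_mul' _ _ ENNReal.ofReal_ne_top]
        refine lintegral_mono fun t => ?_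
        rw [wav_lint h2, cn_sq]
        exact mul_le_mul_left (ENNReal.ofReal_le_ofReal (cn_ja hα h1)) _
    _ = ENNReal.ofReal ((α ^ m)⁻¹) * ∫⁻ c in (univ.pi fun _ : Fin m => Icc α β),
          ∫⁻ t in Icc (1 : ℝ) 2, ∫⁻ x : E (m + 1),
            ‖solE (cn 1 fun j => c j ^ 2) u₀ u₁ t x‖ₑ ^ p := by
        rw [lintegral_const_mul' _ _ ENNReal.ofReal_ne_top]
    _ ≤ ENNReal.ofReal ((α ^ m)⁻¹) * (ENNReal.ofReal (((2 * α) ^ m)⁻¹) *
          (ENNReal.ofReal C *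
            ((∫⁻ x, ‖besE s u₀ x‖ₑ ^ p) + ∫⁻ x, ‖besE (s - 1) u₁ x‖ₑ ^ p))) := by
        refine mul_le_mul_right ?_ _
        refine (sq_cov hα fun b => ∫⁻ t in Icc (1 : ℝ) 2, ∫⁻ x : E (m + 1),
            ‖solE (cn 1 b) u₀ u₁ t x‖ₑ ^ p).trans ?_
        exact mul_le_mul_right (h u₀ u₁) _
    _ = _ := by
        rw [ENNReal.ofReal_mul (by positivity), ENNReal.ofReal_mul (by positivity), mul_assoc,
          mul_assoc]

end Pool.Agent.TH292.LS
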