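import Mathlib
import Pool.Agent.TH292.LS.Dil2
set_option autoImplicit false

/-! Almost every dilation of given data, Euclidean wave equation. -/

namespace Pool.Agent.TH292.LS

open Complex MeasureTheory Set Filter Topology
open scoped ENNReal FourierTransform RealInnerProductSpace SchwartzMap
open Pool.Agent.TH310.BZ

variable {n m : ℕ}

lemma solE_meas {s : ℝ} (hs0 : 0 ≤ s) (p : ℝ) (u₀ u₁ : 𝓢(E (m + 1), ℂ)) :
    Measurable fun b : Fin m → ℝ => ∫⁻ t in Icc (1 : ℝ) 2, ∫⁻ x : E (m + 1),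
      ‖solE (cn 1 b) u₀ u₁ t x‖ₑ ^ p := by
  have hmA : Measurable fun z : ((Fin (m + 1) → ℝ) × ℝ) × E (m + 1) =>
      Mu (bW s Rc z.1) (bS s u₀) z.2 := Mu_W_meas (sym_pos hs0) (bS s u₀).integrable
  have hmB : Measurable fun z : ((Fin (m + 1) → ℝ) × ℝ) × E (m + 1) =>
      Mu (bW (1 + s) Ry z.1) (bS (s - 1) u₁) z.2 :=
    Mu_W_meas (sym_vel hs0) (bS (s - 1) u₁).integrable
  have hm : Measurable fun z : ((Fin (m + 1) → ℝ) × ℝ) × E (m + 1) =>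
      ‖Mu (bW s Rc z.1) (bS s u₀) z.2 + Mu (bW (1 + s) Ry z.1) (bS (s - 1) u₁) z.2‖ₑ ^ p :=
    (hmA.add hmB).enorm.pow_const p
  have hG : Measurable fun q : (Fin (m + 1) → ℝ) × ℝ => ∫⁻ x,
      ‖Mu (bW s Rc q) (bS s u₀) x + Mu (bW (1 + s) Ry q) (bS (s - 1) u₁) x‖ₑ ^ p :=
    hm.lintegral_prod_right'
  have hcn : Measurable fun b : Fin m → ℝ => cn 1 b := by
    have h3 : Measurable fun b : Fin m → ℝ => ((1 : ℝ), b) :=
      measurable_const.prodMk measurable_id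
    have h4 := cn_meas.comp h3
    exact h4
  have hG2 : Measurable fun q : (Fin m → ℝ) × ℝ => ∫⁻ x,
      ‖Mu (bW s Rc (cn 1 q.1, q.2)) (bS s u₀) x +
        Mu (bW (1 + s) Ry (cn 1 q.1, q.2)) (bS (s - 1) u₁) x‖ₑ ^ p := by
    have h3 : Measurable fun q : (Fin m → ℝ) × ℝ => (cn 1 q.1, q.2) :=
      (hcn.comp measurable_fst).prodMk measurable_snd
    have h4 := hG.comp h3
    exact h4
  simp only [solE_eq hs0]
  exact hG2.lintegral_prod_right'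

/-- the norm of the solution for dilated data -/
noncomputable def Fw (p : ℝ) (u₀ u₁ : 𝓢(E (m + 1), ℂ)) (c : Fin m → ℝ) : ℝ≥0∞ :=
  ∫⁻ t in Icc (1 : ℝ) 2, ∫⁻ x : E (m + 1),
    ‖wav (fun x => u₀ (dl (cn 1 c) x)) (fun x => u₁ (dl (cn 1 c) x)) t x‖ₑ ^ p

lemma Fw_meas {s : ℝ} (hs0 : 0 ≤ s) {α : ℝ} (hα : 0 < α) (β p : ℝ)
    (u₀ u₁ : 𝓢(E (m + 1), ℂ)) :
    AEMeasurable (Fw p u₀ u₁) (volume.restrict (univ.pi fun _ : Fin m => Icc α β)) := by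
  have hSm : MeasurableSet (univ.pi fun _ : Fin m => Icc α β) :=
    MeasurableSet.univ_pi fun _ => measurableSet_Icc
  have h1 := solE_meas hs0 p u₀ u₁
  have h2 : Measurable fun c : Fin m → ℝ => fun j => c j ^ 2 :=
    measurable_pi_lambda _ fun j => (measurable_pi_apply j).pow_const 2
  have h3 := h1.comp h2
  have h4 : Measurable fun c : Fin m → ℝ => ENNReal.ofReal (ja (cn 1 c)) := by
    have hcn : Measurable fun b : Fin m → ℝ => cn 1 b := by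
      have h3 : Measurable fun b : Fin m → ℝ => ((1 : ℝ), b) :=
        measurable_const.prodMk measurable_id
      have h4 := cn_meas.comp h3
      exact h4
    unfold ja
    refine ENNReal.measurable_ofReal.comp ?_
    refine Measurable.inv ?_
    refine Finset.measurable_prod _ fun j _ => ?_
    exact (measurable_pi_apply j).comp hcn
  refine ⟨_, h4.mul h3, ?_⟩
  rw [Filter.EventuallyEq, ae_restrict_iff' hSm]
  refine ae_of_all _ fun c hc => ?_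
  have h5 : ∀ j, 0 < cn 1 c j := cn_pos fun j => hα.trans_le (hc j (mem_univ j)).1
  unfold Fw
  simp only [wav_lint h5, cn_sq]
  rw [lintegral_const_mul' _ _ ENNReal.ofReal_ne_top]
  rfl

lemma jensenF {X : Type*} [MeasurableSpace X] {μ : Measure X} {F : X → ℝ≥0∞}
    (hF : AEMeasurable F μ) {p : ℝ} (hp : 1 < p) :
    ∫⁻ x, F x ^ (1 / p) ∂μ ≤ (∫⁻ x, F x ∂μ) ^ (1 / p) * μ univ ^ (1 - 1 / p) := by
  have hp0 : 0 < p := by linarith
  have hpq : p.HolderConjugate (p / (p - 1)) := Real.HolderConjugate.conjExponent hp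
  have h1 := ENNReal.lintegral_mul_le_Lp_mul_Lq μ hpq (hF.pow_const (1 / p))
    (aemeasurable_const (b := (1 : ℝ≥0∞)))
  have e1 : ∀ y : ℝ≥0∞, (y ^ (1 / p)) ^ p = y := fun y => by
    rw [← ENNReal.rpow_mul, one_div_mul_cancel hp0.ne', ENNReal.rpow_one]
  simp only [Pi.mul_apply, mul_one, ENNReal.one_rpow, lintegral_one, e1] at h1
  refine h1.trans (le_of_eq ?_)
  congr 2
  field_simp

theorem wav_two (m : ℕ) {p s : ℝ} (hp : 2 ≤ p) (hp4 : p ≤ 4)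
    (hs : 1 / 2 - 1 / p < s) (u₀ u₁ : ℕ → 𝓢(E (m + 1), ℂ))
    (hu : ∑' k, ((∫⁻ x, ‖besE s (u₀ k) x‖ₑ ^ p) ^ (1 / p) +
      (∫⁻ x, ‖besE (s - 1) (u₁ k) x‖ₑ ^ p) ^ (1 / p)) < ⊤) :
    ∀ᵐ c : Fin m → ℝ, (∀ j, 0 < c j) →
      ∑' k, (∫⁻ t in Icc (1 : ℝ) 2, ∫⁻ x : E (m + 1),
        ‖wav (fun x => u₀ k (dl (cn 1 c) x)) (fun x => u₁ k (dl (cn 1 c) x)) t x‖ₑ ^ p) ^
          (1 / p) < ⊤ := by
  have hp0 : 0 < p := by linarith
  have hp1 : 1 < p := by linarith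
  have hp2 : 1 / p ≤ 1 / 2 := one_div_le_one_div_of_le (by norm_num) hp
  have hs0 : 0 ≤ s := by linarith
  refine ae_pos fun α β hα hαβ => ?_
  rw [nu_eq]
  obtain ⟨C, hC, h⟩ := wav_one m hp hp4 hs hα hαβ
  obtain ⟨μ, hμ⟩ : ∃ μ : Measure (Fin m → ℝ),
    μ = volume.restrict (univ.pi fun _ : Fin m => Icc α β) := ⟨_, rfl⟩
  have hfin : μ univ ≠ ⊤ := by
    rw [hμ, Measure.restrict_apply_univ]
    exact (isCompact_univ_pi fun _ => isCompact_Icc).measure_lt_top.ne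
  rw [← hμ]
  have hM : ∀ k, AEMeasurable (fun c => Fw p (u₀ k) (u₁ k) c ^ (1 / p)) μ := fun k => by
    rw [hμ]
    exact (Fw_meas hs0 hα β p (u₀ k) (u₁ k)).pow_const _
  have h1 : ∫⁻ c, ∑' k, Fw p (u₀ k) (u₁ k) c ^ (1 / p) ∂μ ≠ ⊤ := by
    rw [lintegral_tsum hM]
    have h2 : ∀ k, ∫⁻ c, Fw p (u₀ k) (u₁ k) c ^ (1 / p) ∂μ ≤
        (ENNReal.ofReal C ^ (1 / p) * μ univ ^ (1 - 1 / p)) *
          ((∫⁻ x, ‖besE s (u₀ k) x‖ₑ ^ p) ^ (1 / p) +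
            (∫⁻ x, ‖besE (s - 1) (u₁ k) x‖ₑ ^ p) ^ (1 / p)) := by
      intro k
      have h3 : AEMeasurable (Fw p (u₀ k) (u₁ k)) μ := by
        rw [hμ]
        exact Fw_meas hs0 hα β p (u₀ k) (u₁ k)
      refine (jensenF h3 hp1).trans ?_
      have h4 : ∫⁻ c, Fw p (u₀ k) (u₁ k) c ∂μ ≤ ENNReal.ofReal C *
          ((∫⁻ x, ‖besE s (u₀ k) x‖ₑ ^ p) + ∫⁻ x, ‖besE (s - 1) (u₁ k) x‖ₑ ^ p) := by
        rw [hμ]
        exact h (u₀ k) (u₁ k)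
      have h5 := ENNReal.rpow_le_rpow h4 (by positivity : 0 ≤ 1 / p)
      rw [ENNReal.mul_rpow_of_nonneg _ _ (by positivity)] at h5
      have h6 : ((∫⁻ x, ‖besE s (u₀ k) x‖ₑ ^ p) + ∫⁻ x, ‖besE (s - 1) (u₁ k) x‖ₑ ^ p) ^ (1 / p) ≤
          (∫⁻ x, ‖besE s (u₀ k) x‖ₑ ^ p) ^ (1 / p) +
            (∫⁻ x, ‖besE (s - 1) (u₁ k) x‖ₑ ^ p) ^ (1 / p) :=
        ENNReal.rpow_add_le_add_rpow _ _ (by positivity) (by linarith)
      calc _ ≤ (ENNReal.ofReal C ^ (1 / p) * ((∫⁻ x, ‖besE s (u₀ k) x‖ₑ ^ p) ^ (1 / p) +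
            (∫⁻ x, ‖besE (s - 1) (u₁ k) x‖ₑ ^ p) ^ (1 / p))) * μ univ ^ (1 - 1 / p) := by
            refine mul_le_mul_left (h5.trans ?_) _
            exact mul_le_mul_right h6 _
        _ = _ := by ring
    refine ((ENNReal.tsum_le_tsum h2).trans_lt ?_).ne
    rw [ENNReal.tsum_mul_left]
    refine ENNReal.mul_lt_top (ENNReal.mul_lt_top ?_ ?_) hu
    · exact ENNReal.rpow_lt_top_of_nonneg (by positivity) ENNReal.ofReal_ne_top
    · exact ENNReal.rpow_lt_top_of_nonneg (by linarith) hfin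
  have h7 := ae_lt_top' (AEMeasurable.tsum hM) h1
  exact h7

end Pool.Agent.TH292.LS
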