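import Mathlib
import Pool.Agent.TH292.LS.N2
set_option autoImplicit false

/-! Characters, the unit cub and test functions for the transference to tori. -/

namespace Pool.Agent.TH292.LS

open Complex MeasureTheory Set Filter Topology
open scoped ENNReal FourierTransform RealInnerProductSpace SchwartzMap ContDiff
open Pool.Agent.TH310.BZ

variable {n m : ℕ}

/-- characters -/
noncomputable def chr (k : Fin n → ℤ) (x : Fin n → ℝ) : ℂ :=
  cexp (((2 * Real.pi * ∑ j, (k j : ℝ) * x j : ℝ) : ℂ) * I)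

/-- the unit cub -/
def cub (n : ℕ) : Set (Fin n → ℝ) := univ.pi fun _ => Ioc 0 1

lemma chr_add (k : Fin n → ℤ) (x y : Fin n → ℝ) : chr k (x + y) = chr k x * chr k y := by
  unfold chr
  rw [← Complex.exp_add, ← add_mul, ← Complex.ofReal_add]
  congr 3
  simp only [Pi.add_apply, mul_add, Finset.sum_add_distrib]

lemma chr_norm (k : Fin n → ℤ) (x : Fin n → ℝ) : ‖chr k x‖ = 1 := Complex.norm_exp_ofReal_mul_I _

lemma chr_cont (k : Fin n → ℤ) : Continuous (chr k) := by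
  unfold chr
  fun_prop

lemma chr_torus (k : Fin n → ℤ) (x : Fin n → ℝ) :
    chr k x = UnitAddTorus.mFourier k (fun i => (x i : UnitAddCircle)) := by
  unfold chr UnitAddTorus.mFourier
  simp only [ContinuousMap.coe_mk, fourier_coe_apply]
  rw [← Complex.exp_sum]
  congr 1
  push_cast
  rw [Finset.mul_sum, Finset.sum_mul]
  refine Finset.sum_congr rfl fun j _ => ?_
  ring

lemma cub_shift (F : (Fin n → ℝ) → ℝ≥0∞) (v : Fin n → ℝ) :
    ∫⁻ x in {x : Fin n → ℝ | ∀ i, x i ∈ Ioc (v i) (v i + 1)}, F x =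
      ∫⁻ x in cub n, F (v + x) := by
  have h := (measurePreserving_add_left (volume : Measure (Fin n → ℝ)) v
    ).setLIntegral_comp_preimage_emb (measurableEmbedding_addLeft v) F
    {x : Fin n → ℝ | ∀ i, x i ∈ Ioc (v i) (v i + 1)}
  rw [← h]
  have e : (fun x => v + x) ⁻¹' {x : Fin n → ℝ | ∀ i, x i ∈ Ioc (v i) (v i + 1)} = cub n := by
    ext x
    simp only [cub, mem_preimage, mem_ofPred_eq, Pi.add_apply, mem_Ioc, mem_univ_pi]
    refine forall_congr' fun i => ?_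
    constructor
    · rintro ⟨h1, h2⟩
      exact ⟨by linarith, by linarith⟩
    · rintro ⟨h1, h2⟩
      exact ⟨by linarith, by linarith⟩
  rw [e]

lemma cubs (S : Finset (Fin n → ℤ)) (G : (Fin n → ℤ) → ℂ) (p : ℝ) (v : Fin n → ℝ) :
    ∫⁻ x in cub n, ‖∑ k ∈ S, G k * chr k (v + x)‖ₑ ^ p =
      ∫⁻ x in cub n, ‖∑ k ∈ S, G k * chr k x‖ₑ ^ p := by
  have h0 := UnitAddTorus.lintegral_preimage
    (fun z : UnitAddTorus (Fin n) => ‖∑ k ∈ S, G k * UnitAddTorus.mFourier k z‖ₑ ^ p) 0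
  have hv := UnitAddTorus.lintegral_preimage
    (fun z : UnitAddTorus (Fin n) => ‖∑ k ∈ S, G k * UnitAddTorus.mFourier k z‖ₑ ^ p) v
  rw [h0] at hv
  simp only [← chr_torus] at hv
  rw [cub_shift, cub_shift] at hv
  rw [← hv]
  simp only [zero_add]

/-- the frequency -/
noncomputable def kap (k : Fin n → ℤ) : E n := WithLp.toLp 2 fun j => (k j : ℝ)

lemma inner_kap (k : Fin n → ℤ) (x : E n) : (⟪x, kap k⟫ : ℝ) = ∑ j, (k j : ℝ) * x j := by
  rw [PiLp.inner_apply]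
  refine Finset.sum_congr rfl fun j _ => ?_
  simp [kap]

lemma chr_E (k : Fin n → ℤ) (x : E n) :
    chr k x.ofLp = cexp (((2 * Real.pi * ⟪x, kap k⟫ : ℝ) : ℂ) * I) := by
  unfold chr
  rw [inner_kap]

/-- the bump -/
noncomputable def bmp (n : ℕ) : ContDiffBump (0 : E n) := ⟨1, 2, by norm_num, by norm_num⟩

lemma bmp_smooth (c : ℝ) : ContDiff ℝ ∞ fun x : E n => ((bmp n (c • x) : ℝ) : ℂ) :=
  Complex.ofRealCLM.contDiff.comp ((bmp n).contDiff.comp (contDiff_const_smul c))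

lemma bmp_supp {c : ℝ} (hc : c ≠ 0) : HasCompactSupport fun x : E n => ((bmp n (c • x) : ℝ) : ℂ) := by
  have h1 : HasCompactSupport fun x : E n => (bmp n x : ℝ) := (bmp n).hasCompactSupport
  have h2 : HasCompactSupport fun x : E n => ((bmp n x : ℝ) : ℂ) :=
    h1.comp_left (g := fun r : ℝ => (r : ℂ)) Complex.ofReal_zero
  exact h2.comp_homeomorph (Homeomorph.smulOfNeZero c hc)

lemma chr_smooth (k : Fin n → ℤ) : ContDiff ℝ ∞ fun x : E n => chr k x.ofLp := by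
  have e : (fun x : E n => chr k x.ofLp) =
      fun x => cexp (((2 * Real.pi * ⟪x, kap k⟫ : ℝ) : ℂ) * I) := funext fun x => chr_E k x
  rw [e]
  have h1 : ContDiff ℝ ∞ fun x : E n => (2 * Real.pi * ⟪x, kap k⟫ : ℝ) :=
    contDiff_const.mul (contDiff_id.inner ℝ contDiff_const)
  exact Complex.contDiff_exp.comp ((Complex.ofRealCLM.contDiff.comp h1).mul contDiff_const)

/-- the test functions `e(k x) η(c x)` -/
noncomputable def gT (c : ℝ) (hc : c ≠ 0) (k : Fin n → ℤ) : 𝓢(E n, ℂ) :=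
  HasCompactSupport.toSchwartzMap (f := fun x : E n => chr k x.ofLp * ((bmp n (c • x) : ℝ) : ℂ))
    (bmp_supp hc).mul_left ((chr_smooth k).mul (bmp_smooth c))

lemma gT_apply (c : ℝ) (hc : c ≠ 0) (k : Fin n → ℤ) (x : E n) :
    gT c hc k x = chr k x.ofLp * ((bmp n (c • x) : ℝ) : ℂ) := rfl

/-- the bump as a Schwartz function -/
noncomputable def eS (n : ℕ) : 𝓢(E n, ℂ) :=
  HasCompactSupport.toSchwartzMap (f := fun x : E n => ((bmp n ((1 : ℝ) • x) : ℝ) : ℂ))
    (bmp_supp one_ne_zero) (bmp_smooth 1)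

lemma eS_apply (x : E n) : eS n x = ((bmp n x : ℝ) : ℂ) := by
  change ((bmp n ((1 : ℝ) • x) : ℝ) : ℂ) = _
  rw [one_smul]

lemma gT_F {c : ℝ} (hc : 0 < c) (k : Fin n → ℤ) (ζ : E n) :
    𝓕 (gT c hc.ne' k : E n → ℂ) (kap k + c • ζ) =
      (((c ^ n)⁻¹ : ℝ) : ℂ) * 𝓕 (eS n : E n → ℂ) ζ := by
  rw [Real.fourier_eq', Real.fourier_eq']
  have h1 := Measure.integral_comp_smul (volume : Measure (E n))
    (fun z : E n => cexp (((-2 * Real.pi * ⟪z, ζ⟫ : ℝ) : ℂ) * I) • eS n z) c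
  rw [fin_E, abs_of_pos (by positivity), Complex.real_smul] at h1
  rw [← h1]
  congr 1
  ext v
  rw [gT_apply, eS_apply, chr_E, smul_eq_mul, smul_eq_mul, ← mul_assoc, ← Complex.exp_add]
  congr 2
  rw [← add_mul, ← Complex.ofReal_add]
  congr 2
  rw [inner_add_right, inner_smul_right, inner_smul_left]
  simp only [conj_trivial]
  ring

lemma Mu_gT {c : ℝ} (hc : 0 < c) (m : E n → ℂ) (k : Fin n → ℤ) (x : E n) :
    Mu m (gT c hc.ne' k) x =
      chr k x.ofLp * Mu (fun ζ => m (kap k + c • ζ)) (eS n) (c • x) := by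
  unfold Mu
  have h0 := integral_add_left_eq_self (μ := (volume : Measure (E n)))
    (fun ξ : E n => m ξ * 𝓕 (gT c hc.ne' k : E n → ℂ) ξ *
      cexp (((2 * Real.pi * ⟪x, ξ⟫ : ℝ) : ℂ) * I)) (kap k)
  rw [← h0]
  have h1 := Measure.integral_comp_smul (volume : Measure (E n))
    (fun ξ : E n => m (kap k + ξ) * 𝓕 (gT c hc.ne' k : E n → ℂ) (kap k + ξ) *
      cexp (((2 * Real.pi * ⟪x, kap k + ξ⟫ : ℝ) : ℂ) * I)) c
  rw [fin_E, abs_of_pos (by positivity), Complex.real_smul] at h1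
  have hcn : (((c ^ n)⁻¹ : ℝ) : ℂ) ≠ 0 := by
    rw [Complex.ofReal_ne_zero]
    positivity
  refine mul_left_cancel₀ hcn ?_
  rw [← h1, ← integral_const_mul, ← integral_const_mul]
  congr 1
  ext ζ
  rw [gT_F hc, chr_E, inner_add_right, inner_smul_right, inner_smul_left]
  simp only [conj_trivial]
  have e : cexp (((2 * Real.pi * (⟪x, kap k⟫ + c * ⟪x, ζ⟫) : ℝ) : ℂ) * I) =
      cexp (((2 * Real.pi * ⟪x, kap k⟫ : ℝ) : ℂ) * I) *
        cexp (((2 * Real.pi * (c * ⟪x, ζ⟫) : ℝ) : ℂ) * I) := by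
    rw [← Complex.exp_add, ← add_mul, ← Complex.ofReal_add, mul_add]
  rw [e]
  ring

end Pool.Agent.TH292.LS
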