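import Mathlib
import Pool.Agent.TH292.LS.Tor1
import Pool.Agent.TH292.LS.Sol
set_option autoImplicit false

/-! Transference (de Leeuw) of averaged multiplier estimates from `ℝ^n` to the torus. -/

namespace Pool.Agent.TH292.LS

open Complex MeasureTheory Set Filter Topology
open scoped ENNReal FourierTransform RealInnerProductSpace SchwartzMap ContDiff
open Pool.Agent.TH310.BZ

variable {n m : ℕ}

lemma Mu_inv (c : ℂ) (u : 𝓢(E n, ℂ)) (y : E n) : Mu (fun _ => c) u y = c * u y := by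
  rw [← four_inv u y, ← integral_const_mul]
  unfold Mu
  congr 1
  ext ξ
  unfold ex
  ring

/-- the scales -/
noncomputable def sc (N : ℕ) : ℝ := 1 / ((N : ℝ) + 1)

lemma sc_pos (N : ℕ) : 0 < sc N := by unfold sc; positivity

lemma sc_le (N : ℕ) : sc N ≤ 1 := by
  unfold sc
  rw [div_le_one (by positivity)]
  linarith [Nat.cast_nonneg (α := ℝ) N]

lemma sc_lim : Tendsto sc atTop (𝓝 0) := tendsto_one_div_add_atTop_nhds_zero_nat

lemma Mu_lim {m : E n → ℂ} (hm : Continuous m) {B : ℝ} (hB : 0 ≤ B)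
    (hb : ∀ ξ, ‖m ξ‖ ≤ B * (1 + ‖ξ‖ ^ 2)) (κ : E n) (u : 𝓢(E n, ℂ)) (y : E n) :
    Tendsto (fun N : ℕ => Mu (fun ζ => m (κ + sc N • ζ)) u y) atTop (𝓝 (m κ * u y)) := by
  rw [← Mu_inv]
  unfold Mu
  have hF : Continuous (𝓕 (u : E n → ℂ)) := by
    rw [← SchwartzMap.fourier_coe]
    exact (𝓕 u).continuous
  refine tendsto_integral_of_dominated_convergence
    (fun ζ => B * (2 * (1 + ‖κ‖ ^ 2)) * ((1 + ‖ζ‖ ^ 2) * ‖𝓕 (u : E n → ℂ) ζ‖)) (fun N => ?_)
    ((schwartz_F_poly u).const_mul _) (fun N => ae_of_all _ fun ζ => ?_) (ae_of_all _ fun ζ => ?_)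
  · refine Continuous.aestronglyMeasurable ?_
    have h1 : Continuous fun ζ : E n => m (κ + sc N • ζ) := hm.comp (by fun_prop)
    have h2 : Continuous fun ζ : E n => cexp (((2 * Real.pi * ⟪y, ζ⟫ : ℝ) : ℂ) * I) := by
      fun_prop
    exact (h1.mul hF).mul h2
  · rw [norm_mul, norm_mul, Complex.norm_exp_ofReal_mul_I, mul_one]
    have h1 : ‖κ + sc N • ζ‖ ≤ ‖κ‖ + ‖ζ‖ := by
      refine (norm_add_le _ _).trans (add_le_add le_rfl ?_)
      rw [norm_smul, Real.norm_of_nonneg (sc_pos N).le]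
      exact mul_le_of_le_one_left (norm_nonneg _) (sc_le N)
    have h2 : ‖κ + sc N • ζ‖ ^ 2 ≤ (‖κ‖ + ‖ζ‖) ^ 2 := pow_le_pow_left₀ (norm_nonneg _) h1 2
    have h3 : 1 + ‖κ + sc N • ζ‖ ^ 2 ≤ 2 * (1 + ‖κ‖ ^ 2) * (1 + ‖ζ‖ ^ 2) := by
      nlinarith [sq_nonneg (‖κ‖ - ‖ζ‖), sq_nonneg (‖κ‖ * ‖ζ‖)]
    calc ‖m (κ + sc N • ζ)‖ * ‖𝓕 (u : E n → ℂ) ζ‖
        ≤ (B * (1 + ‖κ + sc N • ζ‖ ^ 2)) * ‖𝓕 (u : E n → ℂ) ζ‖ :=
          mul_le_mul_of_nonneg_right (hb _) (norm_nonneg _)
      _ ≤ (B * (2 * (1 + ‖κ‖ ^ 2) * (1 + ‖ζ‖ ^ 2))) * ‖𝓕 (u : E n → ℂ) ζ‖ := by gcongr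
      _ = _ := by ring
  · have h1 : Tendsto (fun N : ℕ => κ + sc N • ζ) atTop (𝓝 κ) := by
      have h2 := (sc_lim.smul_const ζ).const_add κ
      simpa using h2
    have h3 := (hm.tendsto κ).comp h1
    exact (h3.mul_const _).mul_const _

lemma prod_sep {Q : Type*} [MeasurableSpace Q] (μ : Measure Q) [SFinite μ]
    {ν : Measure (Fin n → ℝ)} [SFinite ν] {e : E n → ℝ≥0∞} {U : Q → (Fin n → ℝ) → ℝ≥0∞}
    (he : Measurable e) (hU : Measurable fun w : Q × (Fin n → ℝ) => U w.1 w.2) :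
    ∫⁻ w, e w.1.2 * U w.1.1 w.2 ∂((μ.prod (volume : Measure (E n))).prod ν) =
      (∫⁻ q, (∫⁻ x, U q x ∂ν) ∂μ) * ∫⁻ y, e y := by
  have h1 : Measurable fun w : (Q × E n) × (Fin n → ℝ) => e w.1.2 * U w.1.1 w.2 := by
    refine Measurable.mul (he.comp (measurable_snd.comp measurable_fst)) ?_
    have h2 : Measurable fun w : (Q × E n) × (Fin n → ℝ) => (w.1.1, w.2) :=
      (measurable_fst.comp measurable_fst).prodMk measurable_snd
    exact hU.comp h2
  have h2 : Measurable fun q : Q => ∫⁻ x, U q x ∂ν := hU.lintegral_prod_right'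
  have hU2 : ∀ q, Measurable (U q) := fun q => by
    have h3 : Measurable fun x : Fin n → ℝ => (q, x) := measurable_const.prodMk measurable_id
    exact hU.comp h3
  rw [lintegral_prod _ h1.aemeasurable, lintegral_prod _ h1.lintegral_prod_right'.aemeasurable,
    ← lintegral_mul_const _ h2]
  refine lintegral_congr fun q => ?_
  have h3 : ∀ y : E n, ∫⁻ τ, e y * U q τ ∂ν = e y * ∫⁻ τ, U q τ ∂ν := fun y =>
    lintegral_const_mul _ (hU2 q)
  simp only [h3]
  rw [lintegral_mul_const _ he, mul_comm]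

/-- **Transference.** -/
theorem transf {Q : Type*} [MeasurableSpace Q] (μ : Measure Q) [SFinite μ] {W : Q → E n → ℂ}
    (hm : Measurable fun z : Q × E n => W z.1 z.2) (hc : ∀ q, Continuous (W q))
    (hb : ∀ q, ∃ B : ℝ, 0 ≤ B ∧ ∀ ξ, ‖W q ξ‖ ≤ B * (1 + ‖ξ‖ ^ 2)) {p : ℝ} (hp : 0 < p)
    {C : ℝ≥0∞} (H : ∀ f : 𝓢(E n, ℂ),
      ∫⁻ z, ‖Mu (W z.1) f z.2‖ₑ ^ p ∂(μ.prod volume) ≤ C * ∫⁻ x, ‖f x‖ₑ ^ p)
    (S : Finset (Fin n → ℤ)) (c : (Fin n → ℤ) → ℂ) :
    ∫⁻ q, (∫⁻ x in cub n, ‖∑ k ∈ S, c k * W q (kap k) * chr k x‖ₑ ^ p) ∂μ ≤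
      C * ∫⁻ x in cub n, ‖∑ k ∈ S, c k * chr k x‖ₑ ^ p := by
  have hofm : Measurable fun x : E n => x.ofLp := by fun_prop
  obtain ⟨M, hM⟩ : ∃ M : ℕ → (Fin n → ℤ) → Q → E n → ℂ,
    M = fun N k q y => Mu (fun ζ => W q (kap k + sc N • ζ)) (eS n) y := ⟨_, rfl⟩
  have hMm : ∀ N k, Measurable fun z : Q × E n => M N k z.1 z.2 := by
    intro N k
    rw [hM]
    refine Mu_meas (Z := Q) (m := fun q ζ => W q (kap k + sc N • ζ)) ?_ (eS n).integrable
    have h1 : Measurable fun z : Q × E n => (z.1, kap k + sc N • z.2) := by fun_prop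
    have h2 := hm.comp h1
    exact h2
  have hchm : ∀ k : Fin n → ℤ, Measurable (chr k) := fun k => (chr_cont k).measurable
  obtain ⟨X, hX⟩ : ∃ X, X = ∫⁻ x in cub n, ‖∑ k ∈ S, c k * chr k x‖ₑ ^ p := ⟨_, rfl⟩
  obtain ⟨Iη, hI⟩ : ∃ J, J = ∫⁻ y : E n, ‖eS n y‖ₑ ^ p := ⟨_, rfl⟩
  have hItop : Iη ≠ ⊤ := by
    have h1 := (eS n).memLp (ENNReal.ofReal p) (μ := (volume : Measure (E n)))
    have h2 := lintegral_rpow_enorm_lt_top_of_eLpNorm_lt_top
      (by simpa using hp) ENNReal.ofReal_ne_top h1.2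
    rw [ENNReal.toReal_ofReal hp.le] at h2
    rw [hI]
    exact h2.ne
  have hI0 : Iη ≠ 0 := by
    rw [hI]
    intro h0
    have h1 : Continuous fun y : E n => ‖eS n y‖ₑ ^ p :=
      (ENNReal.continuous_rpow_const).comp (eS n).continuous.enorm
    rw [lintegral_eq_zero_iff h1.measurable] at h0
    have h2 := (h1.ae_eq_iff_eq (volume : Measure (E n)) continuous_const).1 h0
    have h3 : ‖eS n 0‖ₑ ^ p = 0 := congrFun h2 0
    rw [ENNReal.rpow_eq_zero_iff_of_pos hp, enorm_eq_zero, eS_apply] at h3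
    have h4 : bmp n (0 : E n) = 1 :=
      (bmp n).one_of_mem_closedBall (Metric.mem_closedBall_self (bmp n).rIn_pos.le)
    rw [h4] at h3
    norm_num at h3
  -- the estimate at scale `N`
  have key : ∀ N : ℕ, ∫⁻ z, (∫⁻ τ in cub n,
      ‖∑ k ∈ S, (c k * M N k z.1 z.2) * chr k τ‖ₑ ^ p) ∂(μ.prod volume) ≤ C * (X * Iη) := by
    intro N
    have hN := sc_pos N
    obtain ⟨A, hA⟩ : ∃ A : (Fin n → ℝ) × (Q × E n) → ℝ≥0∞, A = fun w =>
      ‖∑ k ∈ S, (c k * M N k w.2.1 (sc N • w.2.2)) * chr k (w.2.2.ofLp + w.1)‖ₑ ^ p := ⟨_, rfl⟩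
    have hAm : Measurable A := by
      rw [hA]
      refine Measurable.pow_const ?_ p
      refine (Finset.measurable_fun_sum S fun k _ => ?_).enorm
      refine ((measurable_const.mul ?_)).mul ?_
      · have h1 : Measurable fun w : (Fin n → ℝ) × (Q × E n) => (w.2.1, sc N • w.2.2) := by
          fun_prop
        have h2 := (hMm N k).comp h1
        exact h2
      · have h1 : Measurable fun w : (Fin n → ℝ) × (Q × E n) => w.2.2.ofLp + w.1 :=
          (hofm.comp (measurable_snd.comp measurable_snd)).add measurable_fst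
        exact (hchm k).comp h1
    have h1 : ∀ τ : Fin n → ℝ, ∫⁻ z, A (τ, z) ∂(μ.prod volume) ≤
        C * ∫⁻ x : E n, ‖∑ k ∈ S, c k * chr k (x.ofLp + τ)‖ₑ ^ p * ‖eS n (sc N • x)‖ₑ ^ p := by
      intro τ
      obtain ⟨f, hf⟩ : ∃ f : 𝓢(E n, ℂ), f = ∑ k ∈ S, (c k * chr k τ) • gT (sc N) hN.ne' k :=
        ⟨_, rfl⟩
      have hfx : ∀ x, f x = ∑ k ∈ S, (c k * chr k τ) * gT (sc N) hN.ne' k x := by
        intro x
        rw [hf]
        simp
      have hfF : ∀ ξ, 𝓕 (f : E n → ℂ) ξ = ∑ k ∈ S, (c k * chr k τ) *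
          𝓕 (gT (sc N) hN.ne' k : E n → ℂ) ξ := by
        intro ξ
        rw [← SchwartzMap.fourier_coe, hf]
        have h2 : 𝓕 (∑ k ∈ S, (c k * chr k τ) • gT (sc N) hN.ne' k) =
            ∑ k ∈ S, (c k * chr k τ) • 𝓕 (gT (sc N) hN.ne' k) := by
          have h3 := map_sum (FourierTransform.fourierCLM ℂ 𝓢(E n, ℂ))
            (fun k => (c k * chr k τ) • gT (sc N) hN.ne' k) S
          simp only [map_smul, FourierTransform.fourierCLM_apply] at h3
          exact h3
        rw [h2]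
        simp [← SchwartzMap.fourier_coe]
      have hMf : ∀ z : Q × E n, Mu (W z.1) f z.2 =
          ∑ k ∈ S, (c k * M N k z.1 (sc N • z.2)) * chr k (z.2.ofLp + τ) := by
        intro z
        have hint : ∀ k ∈ S, Integrable fun ξ : E n => (c k * chr k τ) *
            (W z.1 ξ * 𝓕 (gT (sc N) hN.ne' k : E n → ℂ) ξ *
              cexp (((2 * Real.pi * ⟪z.2, ξ⟫ : ℝ) : ℂ) * I)) := by
          intro k _
          refine Integrable.const_mul ?_ _
          refine Mu_int2 ?_ z.2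
          obtain ⟨B, hB, hBb⟩ := hb z.1
          refine ((schwartz_F_poly (gT (sc N) hN.ne' k)).const_mul B).mono' ?_
            (ae_of_all _ fun ξ => ?_)
          · exact ((hc z.1).measurable.mul (meas_F (gT (sc N) hN.ne' k).integrable)
              ).aestronglyMeasurable
          · rw [norm_mul, ← mul_assoc]
            exact mul_le_mul_of_nonneg_right (hBb ξ) (norm_nonneg _)
        have h2 : Mu (W z.1) f z.2 = ∑ k ∈ S, (c k * chr k τ) *
            Mu (W z.1) (gT (sc N) hN.ne' k) z.2 := by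
          unfold Mu
          simp only [← integral_const_mul]
          rw [← integral_finsetSum S hint]
          congr 1
          ext ξ
          rw [hfF, Finset.mul_sum, Finset.sum_mul]
          refine Finset.sum_congr rfl fun k _ => ?_
          ring
        rw [h2]
        refine Finset.sum_congr rfl fun k _ => ?_
        rw [Mu_gT hN, hM, chr_add]
        ring
      have h3 := H f
      simp only [hMf] at h3
      rw [hA]
      refine h3.trans (le_of_eq ?_)
      congr 1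
      refine lintegral_congr fun x => ?_
      rw [← ENNReal.mul_rpow_of_nonneg _ _ hp.le, ← enorm_mul, hfx, Finset.sum_mul]
      congr 2
      refine Finset.sum_congr rfl fun k _ => ?_
      rw [gT_apply, eS_apply, chr_add]
      ring
    have hBm : Measurable fun w : (Fin n → ℝ) × E n =>
        ‖∑ k ∈ S, c k * chr k (w.2.ofLp + w.1)‖ₑ ^ p * ‖eS n (sc N • w.2)‖ₑ ^ p := by
      refine Measurable.mul ?_ ?_
      · refine Measurable.pow_const ?_ p
        refine (Finset.measurable_fun_sum S fun k _ => ?_).enorm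
        refine measurable_const.mul ((hchm k).comp ?_)
        exact (hofm.comp measurable_snd).add measurable_fst
      · refine Measurable.pow_const (Measurable.enorm ?_) p
        have h1 : Measurable fun w : (Fin n → ℝ) × E n => sc N • w.2 := by fun_prop
        exact (eS n).continuous.measurable.comp h1
    have h2 : ∫⁻ τ in cub n, ∫⁻ z, A (τ, z) ∂(μ.prod volume) ≤
        C * (X * (ENNReal.ofReal ((sc N ^ n)⁻¹) * Iη)) := by
      calc ∫⁻ τ in cub n, ∫⁻ z, A (τ, z) ∂(μ.prod volume)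
          ≤ ∫⁻ τ in cub n, C * ∫⁻ x : E n,
            ‖∑ k ∈ S, c k * chr k (x.ofLp + τ)‖ₑ ^ p * ‖eS n (sc N • x)‖ₑ ^ p :=
            lintegral_mono fun τ => h1 τ
        _ = C * ∫⁻ τ in cub n, ∫⁻ x : E n,
            ‖∑ k ∈ S, c k * chr k (x.ofLp + τ)‖ₑ ^ p * ‖eS n (sc N • x)‖ₑ ^ p :=
            lintegral_const_mul _ hBm.lintegral_prod_right'
        _ = C * ∫⁻ x : E n, ∫⁻ τ in cub n,
            ‖∑ k ∈ S, c k * chr k (x.ofLp + τ)‖ₑ ^ p * ‖eS n (sc N • x)‖ₑ ^ p := by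
            rw [lintegral_lintegral_swap hBm.aemeasurable]
        _ = C * ∫⁻ x : E n, X * ‖eS n (sc N • x)‖ₑ ^ p := by
            congr 1
            refine lintegral_congr fun x => ?_
            rw [lintegral_mul_const'' _ (by
              refine Measurable.aemeasurable (Measurable.pow_const ?_ p)
              refine (Finset.measurable_fun_sum S fun k _ => ?_).enorm
              exact measurable_const.mul ((hchm k).comp (measurable_const.add measurable_id))),
              cubs S c p x.ofLp, ← hX]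
        _ = _ := by
            rw [lintegral_const_mul'' _ (by
              refine Measurable.aemeasurable (Measurable.pow_const (Measurable.enorm ?_) p)
              have h1 : Measurable fun x : E n => sc N • x := by fun_prop
              exact (eS n).continuous.measurable.comp h1),
              lint_smul hN (Φ := fun y : E n => ‖eS n y‖ₑ ^ p)
              ((eS n).continuous.measurable.enorm.pow_const p), ← hI]
    have hΨm : Measurable fun z : Q × E n => ∫⁻ τ in cub n,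
        ‖∑ k ∈ S, (c k * M N k z.1 z.2) * chr k τ‖ₑ ^ p := by
      have h3 : Measurable fun w : (Q × E n) × (Fin n → ℝ) =>
          ‖∑ k ∈ S, (c k * M N k w.1.1 w.1.2) * chr k w.2‖ₑ ^ p := by
        refine Measurable.pow_const ?_ p
        refine (Finset.measurable_fun_sum S fun k _ => ?_).enorm
        refine (measurable_const.mul ((hMm N k).comp measurable_fst)).mul
          ((hchm k).comp measurable_snd)
      exact h3.lintegral_prod_right'
    have h3 : ∫⁻ τ in cub n, ∫⁻ z, A (τ, z) ∂(μ.prod volume) =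
        ENNReal.ofReal ((sc N ^ n)⁻¹) * ∫⁻ z, (∫⁻ τ in cub n,
          ‖∑ k ∈ S, (c k * M N k z.1 z.2) * chr k τ‖ₑ ^ p) ∂(μ.prod volume) := by
      rw [lintegral_lintegral_swap (f := fun τ z => A (τ, z)) hAm.aemeasurable]
      have h4 : ∀ z : Q × E n, ∫⁻ τ in cub n, A (τ, z) = ∫⁻ τ in cub n,
          ‖∑ k ∈ S, (c k * M N k z.1 (sc N • z.2)) * chr k τ‖ₑ ^ p := by
        intro z
        rw [hA]
        exact cubs S (fun k => c k * M N k z.1 (sc N • z.2)) p z.2.ofLp
      simp only [h4]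
      have h5 : Measurable fun z : Q × E n => ∫⁻ τ in cub n,
          ‖∑ k ∈ S, (c k * M N k z.1 (sc N • z.2)) * chr k τ‖ₑ ^ p := by
        have h6 : Measurable fun z : Q × E n => (z.1, sc N • z.2) := by fun_prop
        have h7 := hΨm.comp h6
        exact h7
      rw [lintegral_prod _ h5.aemeasurable, lintegral_prod _ hΨm.aemeasurable,
        ← lintegral_const_mul' _ _ ENNReal.ofReal_ne_top]
      refine lintegral_congr fun q => ?_
      have h8 : Measurable fun y : E n => ∫⁻ τ in cub n,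
          ‖∑ k ∈ S, (c k * M N k q y) * chr k τ‖ₑ ^ p := by
        have h9 : Measurable fun y : E n => (q, y) := by fun_prop
        have h10 := hΨm.comp h9
        exact h10
      exact lint_smul hN h8
    rw [h3] at h2
    have hs0 : ENNReal.ofReal ((sc N ^ n)⁻¹) ≠ 0 := by
      rw [Ne, ENNReal.ofReal_eq_zero, not_le]
      positivity
    refine (ENNReal.mul_le_mul_iff_right hs0 ENNReal.ofReal_ne_top).1 (h2.trans (le_of_eq ?_))
    ring
  -- the limit
  have hlimpt : ∀ w : (Q × E n) × (Fin n → ℝ), Tendsto (fun N : ℕ =>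
      ‖∑ k ∈ S, (c k * M N k w.1.1 w.1.2) * chr k w.2‖ₑ ^ p) atTop
      (𝓝 (‖eS n w.1.2‖ₑ ^ p * ‖∑ k ∈ S, c k * W w.1.1 (kap k) * chr k w.2‖ₑ ^ p)) := by
    intro w
    have h1 : Tendsto (fun N : ℕ => ∑ k ∈ S, (c k * M N k w.1.1 w.1.2) * chr k w.2) atTop
        (𝓝 (∑ k ∈ S, (c k * (W w.1.1 (kap k) * eS n w.1.2)) * chr k w.2)) := by
      refine tendsto_finsetSum S fun k _ => ?_
      refine Tendsto.mul_const _ (Tendsto.const_mul _ ?_)
      obtain ⟨B, hB, hBb⟩ := hb w.1.1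
      rw [hM]
      exact Mu_lim (hc w.1.1) hB hBb (kap k) (eS n) w.1.2
    have h2 := ((ENNReal.continuous_rpow_const (y := p)).comp continuous_enorm).tendsto
      (∑ k ∈ S, (c k * (W w.1.1 (kap k) * eS n w.1.2)) * chr k w.2)
    have h3 := h2.comp h1
    refine h3.trans (le_of_eq ?_)
    congr 1
    rw [← ENNReal.mul_rpow_of_nonneg _ _ hp.le, ← enorm_mul, Finset.mul_sum]
    simp only [Function.comp_apply]
    congr 2
    refine Finset.sum_congr rfl fun k _ => ?_
    ring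
  have hΦm : ∀ N : ℕ, Measurable fun w : (Q × E n) × (Fin n → ℝ) =>
      ‖∑ k ∈ S, (c k * M N k w.1.1 w.1.2) * chr k w.2‖ₑ ^ p := by
    intro N
    refine Measurable.pow_const ?_ p
    refine (Finset.measurable_fun_sum S fun k _ => ?_).enorm
    refine (measurable_const.mul ((hMm N k).comp measurable_fst)).mul
      ((hchm k).comp measurable_snd)
  have hUm : Measurable fun w : Q × (Fin n → ℝ) =>
      ‖∑ k ∈ S, c k * W w.1 (kap k) * chr k w.2‖ₑ ^ p := by
    refine Measurable.pow_const ?_ p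
    refine (Finset.measurable_fun_sum S fun k _ => ?_).enorm
    refine (measurable_const.mul ?_).mul ((hchm k).comp measurable_snd)
    have h1 : Measurable fun w : Q × (Fin n → ℝ) => (w.1, kap k) :=
      measurable_fst.prodMk measurable_const
    have h2 := hm.comp h1
    exact h2
  have hfat : ∫⁻ w, ‖eS n w.1.2‖ₑ ^ p * ‖∑ k ∈ S, c k * W w.1.1 (kap k) * chr k w.2‖ₑ ^ p
      ∂((μ.prod (volume : Measure (E n))).prod (volume.restrict (cub n))) ≤ C * (X * Iη) := by
    have h1 := lintegral_liminf_le (μ := (μ.prod (volume : Measure (E n))).prod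
      (volume.restrict (cub n))) (u := (atTop : Filter ℕ)) hΦm
    have h2 : ∀ w : (Q × E n) × (Fin n → ℝ), liminf (fun N : ℕ =>
        ‖∑ k ∈ S, (c k * M N k w.1.1 w.1.2) * chr k w.2‖ₑ ^ p) atTop =
        ‖eS n w.1.2‖ₑ ^ p * ‖∑ k ∈ S, c k * W w.1.1 (kap k) * chr k w.2‖ₑ ^ p :=
      fun w => (hlimpt w).liminf_eq
    simp only [h2] at h1
    refine h1.trans ?_
    refine (liminf_le_liminf (v := fun _ : ℕ => C * (X * Iη)) (Eventually.of_forall fun N => ?_)
      ).trans (le_of_eq (by simp))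
    rw [lintegral_prod _ (hΦm N).aemeasurable]
    exact key N
  have hprod : ∫⁻ w, ‖eS n w.1.2‖ₑ ^ p * ‖∑ k ∈ S, c k * W w.1.1 (kap k) * chr k w.2‖ₑ ^ p
      ∂((μ.prod (volume : Measure (E n))).prod (volume.restrict (cub n))) =
      (∫⁻ q, (∫⁻ x in cub n, ‖∑ k ∈ S, c k * W q (kap k) * chr k x‖ₑ ^ p) ∂μ) * Iη := by
    rw [hI]
    exact prod_sep μ (e := fun y : E n => ‖eS n y‖ₑ ^ p)
      (U := fun q x => ‖∑ k ∈ S, c k * W q (kap k) * chr k x‖ₑ ^ p)
      ((eS n).continuous.measurable.enorm.pow_const p) hUm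
  rw [hprod] at hfat
  rw [← hX]
  refine (ENNReal.mul_le_mul_iff_left hI0 hItop).1 (hfat.trans (le_of_eq ?_))
  ring

end Pool.Agent.TH292.LS
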