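import Mathlib
import Pool.Agent.TH292.LS.Tor2
import Pool.Agent.TH292.LS.Dil3
set_option autoImplicit false

/-! Averaged local smoothing on flat tori. -/

namespace Pool.Agent.TH292.LS

open Complex MeasureTheory Set Filter Topology
open scoped ENNReal FourierTransform RealInnerProductSpace SchwartzMap ContDiff
open Pool.Agent.TH310.BZ

variable {n : ℕ}

/-- rotation of a Schwartz function -/
noncomputable def rotS (B : E n ≃ₗᵢ[ℝ] E n) (f : 𝓢(E n, ℂ)) : 𝓢(E n, ℂ) :=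
  SchwartzMap.compCLMOfContinuousLinearEquiv ℂ B.symm.toContinuousLinearEquiv f

lemma rotS_apply (B : E n ≃ₗᵢ[ℝ] E n) (f : 𝓢(E n, ℂ)) (x : E n) :
    rotS B f x = f (B.symm x) := rfl

lemma Mu_rot (B : E n ≃ₗᵢ[ℝ] E n) (m : E n → ℂ) (f : 𝓢(E n, ℂ)) (x : E n) :
    Mu (fun ξ => m (B ξ)) f x = Mu m (rotS B f) (B x) := by
  unfold Mu
  have h0 := B.measurePreserving.integral_comp B.toHomeomorph.measurableEmbedding
    (fun η : E n => m η * 𝓕 (rotS B f : E n → ℂ) η *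
      cexp (((2 * Real.pi * ⟪B x, η⟫ : ℝ) : ℂ) * I))
  rw [← h0]
  congr 1
  ext ξ
  have h1 : 𝓕 (rotS B f : E n → ℂ) (B ξ) = 𝓕 (f : E n → ℂ) ξ := by
    have h2 := Real.fourier_comp_linearIsometry B.symm (f : E n → ℂ) (B ξ)
    rw [B.symm_apply_apply] at h2
    exact h2
  rw [h1, B.inner_map_map]

lemma rot_H {Q : Type*} [MeasurableSpace Q] (μ : Measure Q) [SFinite μ] {W : Q → E n → ℂ}
    (hm : Measurable fun z : Q × E n => W z.1 z.2) (B : E n ≃ₗᵢ[ℝ] E n) {p : ℝ}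
    {C : ℝ≥0∞} (H : ∀ f : 𝓢(E n, ℂ),
      ∫⁻ z, ‖Mu (W z.1) f z.2‖ₑ ^ p ∂(μ.prod volume) ≤ C * ∫⁻ x, ‖f x‖ₑ ^ p)
    (f : 𝓢(E n, ℂ)) :
    ∫⁻ z, ‖Mu (fun ξ => W z.1 (B ξ)) f z.2‖ₑ ^ p ∂(μ.prod volume) ≤
      C * ∫⁻ x, ‖f x‖ₑ ^ p := by
  have h1 : Measurable fun z : Q × E n => ‖Mu (W z.1) (rotS B f) z.2‖ₑ ^ p :=
    (Mu_meas (Z := Q) (m := W) hm (rotS B f).integrable).enorm.pow_const p
  have h2 : Measurable fun z : Q × E n => ‖Mu (W z.1) (rotS B f) (B z.2)‖ₑ ^ p := by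
    have h3 : Measurable fun z : Q × E n => (z.1, B z.2) :=
      measurable_fst.prodMk (B.continuous.measurable.comp measurable_snd)
    have h4 := h1.comp h3
    exact h4
  simp only [Mu_rot]
  calc ∫⁻ z, ‖Mu (W z.1) (rotS B f) (B z.2)‖ₑ ^ p ∂(μ.prod volume)
      = ∫⁻ z, ‖Mu (W z.1) (rotS B f) z.2‖ₑ ^ p ∂(μ.prod volume) := by
        rw [lintegral_prod _ h2.aemeasurable, lintegral_prod _ h1.aemeasurable]
        refine lintegral_congr fun q => ?_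
        have h3 : Measurable fun x : E n => ‖Mu (W q) (rotS B f) x‖ₑ ^ p := by
          have h4 : Measurable fun x : E n => (q, x) := measurable_const.prodMk measurable_id
          have h5 := h1.comp h4
          exact h5
        exact B.measurePreserving.lintegral_comp h3
    _ ≤ C * ∫⁻ x, ‖rotS B f x‖ₑ ^ p := H (rotS B f)
    _ = C * ∫⁻ x, ‖f x‖ₑ ^ p := by
        congr 1
        exact B.symm.measurePreserving.lintegral_comp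
          (f := fun x : E n => ‖f x‖ₑ ^ p) (f.continuous.measurable.enorm.pow_const p)

lemma part_meas {Q : Type*} [MeasurableSpace Q] {W : Q → E n → ℂ}
    (hm : Measurable fun z : Q × E n => W z.1 z.2) (S : Finset (Fin n → ℤ))
    (c : (Fin n → ℤ) → ℂ) :
    Measurable fun w : Q × (Fin n → ℝ) => ∑ k ∈ S, c k * W w.1 (kap k) * chr k w.2 := by
  refine Finset.measurable_fun_sum S fun k _ => ?_
  refine (measurable_const.mul ?_).mul ((chr_cont k).measurable.comp measurable_snd)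
  have h1 : Measurable fun w : Q × (Fin n → ℝ) => (w.1, kap k) :=
    measurable_fst.prodMk measurable_const
  have h2 := hm.comp h1
  exact h2

lemma Rc_c (q : (Fin n → ℝ) × ℝ) : Continuous (Rc (n := n) q) := by
  unfold Rc QF
  fun_prop

lemma Ry_c (q : (Fin n → ℝ) × ℝ) : Continuous (Ry (n := n) q) := by
  unfold Ry Rs QF
  fun_prop

lemma bW_c {R : (Fin n → ℝ) × ℝ → E n → ℂ} (hR : ∀ q, Continuous (R q)) (s : ℝ)
    (q : (Fin n → ℝ) × ℝ) : Continuous (bW s R q) := by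
  unfold bW
  have h1 : Continuous fun ξ : E n => (1 + 4 * Real.pi ^ 2 * ‖ξ‖ ^ 2) ^ (-(s / 2)) :=
    Continuous.rpow_const (by fun_prop) fun ξ => Or.inl (one_add_pos ξ).ne'
  exact (Complex.continuous_ofReal.comp h1).mul (hR q)

/-- weights of the Bessel potential -/
noncomputable def wt (r : ℝ) (k : Fin n → ℤ) : ℝ :=
  (1 + 4 * Real.pi ^ 2 * ‖kap k‖ ^ 2) ^ (r / 2)

/-- the frequency for the metric -/
noncomputable def frq (B : E n ≃ₗᵢ[ℝ] E n) (a : Fin n → ℝ) (k : Fin n → ℤ) : ℝ :=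
  Real.sqrt (∑ j, a j * (B (kap k)) j ^ 2)

/-- the solution -/
noncomputable def wvT (B : E n ≃ₗᵢ[ℝ] E n) (a : Fin n → ℝ) (S : Finset (Fin n → ℤ))
    (A₀ A₁ : (Fin n → ℤ) → ℂ) (t : ℝ) (x : Fin n → ℝ) : ℂ :=
  ∑ k ∈ S, (((Real.cos (2 * Real.pi * t * frq B a k) : ℝ) : ℂ) * A₀ k +
    ((t * Real.sinc (2 * Real.pi * t * frq B a k) : ℝ) : ℂ) * A₁ k) * chr k x

/-- the rotated symbols -/
noncomputable def rW (B : E n ≃ₗᵢ[ℝ] E n) (W : (Fin n → ℝ) × ℝ → E n → ℂ)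
    (q : (Fin n → ℝ) × ℝ) (ξ : E n) : ℂ := W q (B ξ)

lemma rW_meas (B : E n ≃ₗᵢ[ℝ] E n) {W : (Fin n → ℝ) × ℝ → E n → ℂ}
    (hm : Measurable fun z : ((Fin n → ℝ) × ℝ) × E n => W z.1 z.2) :
    Measurable fun z : ((Fin n → ℝ) × ℝ) × E n => rW B W z.1 z.2 := by
  have h3 : Measurable fun z : ((Fin n → ℝ) × ℝ) × E n => (z.1, B z.2) :=
    measurable_fst.prodMk (B.continuous.measurable.comp measurable_snd)
  have h4 := hm.comp h3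
  exact h4

theorem rot_transf {W : (Fin n → ℝ) × ℝ → E n → ℂ} {D : ℝ} (hW' : Sym W D)
    (hc : ∀ q, Continuous (W q)) {α β p : ℝ} (hp : 1 < p) {C : ℝ≥0∞}
    (hC : ∀ f : E n → ℂ, GB f → ∀ τ : ℝ, 0 < τ →
      ∫⁻ z, ‖Mu (hW W τ z.1) f z.2‖ₑ ^ p ∂(zm n α β) ≤ C * ∫⁻ x, ‖f x‖ₑ ^ p)
    (B : E n ≃ₗᵢ[ℝ] E n) (S : Finset (Fin n → ℤ)) (c : (Fin n → ℤ) → ℂ) :
    ∫⁻ q, (∫⁻ x in cub n, ‖∑ k ∈ S, c k * rW B W q (kap k) * chr k x‖ₑ ^ p)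
      ∂((nu n α β).prod (volume.restrict (Icc 1 2))) ≤
      C * ∫⁻ x in cub n, ‖∑ k ∈ S, c k * chr k x‖ₑ ^ p := by
  refine transf _ (rW_meas B hW'.meas) (fun q => (hc q).comp B.continuous) (fun q => ?_)
    (by linarith) (fun f => ?_) S c
  · refine ⟨(1 + |q.2|) * D, mul_nonneg (by positivity) hW'.B0, fun ξ => ?_⟩
    have h1 := hW'.bd q (B ξ)
    rw [B.norm_map] at h1
    refine h1.trans (le_of_eq ?_)
    ring
  · exact rot_H ((nu n α β).prod (volume.restrict (Icc 1 2))) hW'.meas B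
      (fun f => schwartz_av hW' hp hC f) f

lemma wv_split {s : ℝ} (B : E n ≃ₗᵢ[ℝ] E n) (S : Finset (Fin n → ℤ))
    (A₀ A₁ : (Fin n → ℤ) → ℂ) (q : (Fin n → ℝ) × ℝ) (x : Fin n → ℝ) :
    wvT B q.1 S A₀ A₁ q.2 x =
      (∑ k ∈ S, ((wt s k : ℝ) : ℂ) * A₀ k * rW B (bW s Rc) q (kap k) * chr k x) +
      ∑ k ∈ S, ((wt (s - 1) k : ℝ) : ℂ) * A₁ k * rW B (bW (1 + s) Ry) q (kap k) * chr k x := by
  rw [← Finset.sum_add_distrib]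
  unfold wvT
  refine Finset.sum_congr rfl fun k _ => ?_
  have hb := one_add_pos (kap k)
  unfold rW bW Rc Ry Rs QF frq wt
  rw [B.norm_map]
  have e1 : (((1 + 4 * Real.pi ^ 2 * ‖kap k‖ ^ 2) ^ (s / 2) : ℝ) : ℂ) *
      (((1 + 4 * Real.pi ^ 2 * ‖kap k‖ ^ 2) ^ (-(s / 2)) : ℝ) : ℂ) = 1 := by
    rw [← Complex.ofReal_mul, ← Real.rpow_add hb, add_neg_cancel, Real.rpow_zero,
      Complex.ofReal_one]
  have e2 : (((1 + 4 * Real.pi ^ 2 * ‖kap k‖ ^ 2) ^ ((s - 1) / 2) : ℝ) : ℂ) *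
      ((((1 + 4 * Real.pi ^ 2 * ‖kap k‖ ^ 2) ^ (-((1 + s) / 2)) : ℝ) : ℂ) *
      ((1 + 4 * Real.pi ^ 2 * ‖kap k‖ ^ 2 : ℝ) : ℂ)) = 1 := by
    rw [← Complex.ofReal_mul, ← Complex.ofReal_mul]
    nth_rewrite 3 [← Real.rpow_one (1 + 4 * Real.pi ^ 2 * ‖kap k‖ ^ 2)]
    rw [← Real.rpow_add hb, ← Real.rpow_add hb]
    have : (s - 1) / 2 + (-((1 + s) / 2) + 1) = 0 := by ring
    rw [this, Real.rpow_zero, Complex.ofReal_one]
  obtain ⟨w1, hw1⟩ : ∃ w, w = (((1 + 4 * Real.pi ^ 2 * ‖kap k‖ ^ 2) ^ (s / 2) : ℝ) : ℂ) :=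
    ⟨_, rfl⟩
  obtain ⟨w2, hw2⟩ : ∃ w, w = (((1 + 4 * Real.pi ^ 2 * ‖kap k‖ ^ 2) ^ (-(s / 2)) : ℝ) : ℂ) :=
    ⟨_, rfl⟩
  obtain ⟨w3, hw3⟩ : ∃ w, w = (((1 + 4 * Real.pi ^ 2 * ‖kap k‖ ^ 2) ^ ((s - 1) / 2) : ℝ) : ℂ) :=
    ⟨_, rfl⟩
  obtain ⟨w4, hw4⟩ : ∃ w, w =
    (((1 + 4 * Real.pi ^ 2 * ‖kap k‖ ^ 2) ^ (-((1 + s) / 2)) : ℝ) : ℂ) := ⟨_, rfl⟩
  obtain ⟨w5, hw5⟩ : ∃ w, w = ((1 + 4 * Real.pi ^ 2 * ‖kap k‖ ^ 2 : ℝ) : ℂ) := ⟨_, rfl⟩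
  rw [← hw1, ← hw2] at e1
  rw [← hw3, ← hw4, ← hw5] at e2
  rw [← hw1, ← hw2, ← hw3, ← hw4, ← hw5]
  linear_combination (-(((Real.cos (2 * Real.pi * q.2 *
    Real.sqrt (∑ j, q.1 j * (B (kap k)) j ^ 2)) : ℝ) : ℂ) * A₀ k * chr k x)) * e1 -
    (((q.2 * Real.sinc (2 * Real.pi * q.2 *
      Real.sqrt (∑ j, q.1 j * (B (kap k)) j ^ 2)) : ℝ) : ℂ) * A₁ k * chr k x) * e2

lemma wv_meas {s : ℝ} (hs : 0 ≤ s) (B : E n ≃ₗᵢ[ℝ] E n) (S : Finset (Fin n → ℤ))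
    (A₀ A₁ : (Fin n → ℤ) → ℂ) :
    Measurable fun w : ((Fin n → ℝ) × ℝ) × (Fin n → ℝ) => wvT B w.1.1 S A₀ A₁ w.1.2 w.2 := by
  have h1 := part_meas (rW_meas B (sym_pos (n := n) hs).meas) S
    (fun k => ((wt s k : ℝ) : ℂ) * A₀ k)
  have h2 := part_meas (rW_meas B (sym_vel (n := n) hs).meas) S
    (fun k => ((wt (s - 1) k : ℝ) : ℂ) * A₁ k)
  have e : (fun w : ((Fin n → ℝ) × ℝ) × (Fin n → ℝ) => wvT B w.1.1 S A₀ A₁ w.1.2 w.2) =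
      fun w => (∑ k ∈ S, ((wt s k : ℝ) : ℂ) * A₀ k * rW B (bW s Rc) w.1 (kap k) * chr k w.2) +
      ∑ k ∈ S, ((wt (s - 1) k : ℝ) : ℂ) * A₁ k * rW B (bW (1 + s) Ry) w.1 (kap k) *
        chr k w.2 := by
    funext w
    exact wv_split B S A₀ A₁ w.1 w.2
  rw [e]
  exact h1.add h2

theorem tor_one (n : ℕ) (hn : 1 ≤ n) {p s : ℝ} (hp : 2 ≤ p) (hp4 : p ≤ 4)
    (hs : 1 / 2 - 1 / p < s) {α β : ℝ} (hα : 0 < α) (hαβ : α ≤ β) :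
    ∃ C : ℝ, 0 < C ∧ ∀ (B : E n ≃ₗᵢ[ℝ] E n) (S : Finset (Fin n → ℤ))
      (A₀ A₁ : (Fin n → ℤ) → ℂ),
      ∫⁻ a in (univ.pi fun _ : Fin n => Icc α β), ∫⁻ t in Icc (1 : ℝ) 2, ∫⁻ x in cub n,
        ‖wvT B a S A₀ A₁ t x‖ₑ ^ p ≤
      ENNReal.ofReal C * ((∫⁻ x in cub n, ‖∑ k ∈ S, ((wt s k : ℝ) : ℂ) * A₀ k * chr k x‖ₑ ^ p) +
        ∫⁻ x in cub n, ‖∑ k ∈ S, ((wt (s - 1) k : ℝ) : ℂ) * A₁ k * chr k x‖ₑ ^ p) := by
  have hp1 : 1 < p := by linarith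
  have hp2 : 1 / p ≤ 1 / 2 := one_div_le_one_div_of_le (by norm_num) hp
  have hs0 : 0 ≤ s := by linarith
  obtain ⟨C1, hC1, h1⟩ := pos_av n hn hα hαβ hp hp4 hs
  obtain ⟨C2, hC2, h2⟩ := vel_av n hn hα hαβ hp hp4 hs
  have h2t : (2 : ℝ≥0∞) ^ (p - 1) ≠ ⊤ :=
    ENNReal.rpow_ne_top_of_nonneg (by linarith) (by norm_num)
  obtain ⟨C, hC⟩ : ∃ C : ℝ≥0∞, C = 2 ^ (p - 1) * (C1 + C2) := ⟨_, rfl⟩
  have hCt : C ≠ ⊤ := by
    rw [hC]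
    exact ENNReal.mul_ne_top h2t (ENNReal.add_ne_top.2 ⟨hC1, hC2⟩)
  refine ⟨C.toReal + 1, by positivity, fun B S A₀ A₁ => ?_⟩
  have hA := rot_transf (sym_pos hs0) (bW_c Rc_c s) hp1 h1 B S (fun k => ((wt s k : ℝ) : ℂ) * A₀ k)
  have hB := rot_transf (sym_vel hs0) (bW_c Ry_c (1 + s)) hp1 h2 B S
    (fun k => ((wt (s - 1) k : ℝ) : ℂ) * A₁ k)
  have hm := (wv_meas hs0 B S A₀ A₁).enorm.pow_const p
  have hmA := (part_meas (rW_meas B (sym_pos (n := n) hs0).meas) S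
    (fun k => ((wt s k : ℝ) : ℂ) * A₀ k)).enorm.pow_const p
  obtain ⟨F1, hF1⟩ : ∃ F, F = ∫⁻ x in cub n,
    ‖∑ k ∈ S, ((wt s k : ℝ) : ℂ) * A₀ k * chr k x‖ₑ ^ p := ⟨_, rfl⟩
  obtain ⟨F2, hF2⟩ : ∃ F, F = ∫⁻ x in cub n,
    ‖∑ k ∈ S, ((wt (s - 1) k : ℝ) : ℂ) * A₁ k * chr k x‖ₑ ^ p := ⟨_, rfl⟩
  rw [← hF1] at hA
  rw [← hF2] at hB
  rw [← hF1, ← hF2]
  have e1 : ∫⁻ a in (univ.pi fun _ : Fin n => Icc α β), ∫⁻ t in Icc (1 : ℝ) 2, ∫⁻ x in cub n,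
      ‖wvT B a S A₀ A₁ t x‖ₑ ^ p = ∫⁻ q, (∫⁻ x in cub n, ‖wvT B q.1 S A₀ A₁ q.2 x‖ₑ ^ p)
        ∂((nu n α β).prod (volume.restrict (Icc 1 2))) := by
    rw [lintegral_prod _ (hm.lintegral_prod_right'
      (ν := (volume : Measure (Fin n → ℝ)).restrict (cub n))).aemeasurable, nu_eq]
  rw [e1]
  calc ∫⁻ q, (∫⁻ x in cub n, ‖wvT B q.1 S A₀ A₁ q.2 x‖ₑ ^ p)
        ∂((nu n α β).prod (volume.restrict (Icc 1 2)))
      ≤ ∫⁻ q, 2 ^ (p - 1) * ((∫⁻ x in cub n,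
          ‖∑ k ∈ S, ((wt s k : ℝ) : ℂ) * A₀ k * rW B (bW s Rc) q (kap k) * chr k x‖ₑ ^ p) +
        ∫⁻ x in cub n, ‖∑ k ∈ S, ((wt (s - 1) k : ℝ) : ℂ) * A₁ k *
          rW B (bW (1 + s) Ry) q (kap k) * chr k x‖ₑ ^ p)
        ∂((nu n α β).prod (volume.restrict (Icc 1 2))) := by
        refine lintegral_mono fun q => ?_
        have hq : Measurable fun x : Fin n → ℝ =>
            ‖∑ k ∈ S, ((wt s k : ℝ) : ℂ) * A₀ k * rW B (bW s Rc) q (kap k) * chr k x‖ₑ ^ p := by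
          have h4 : Measurable fun x : Fin n → ℝ => (q, x) :=
            measurable_const.prodMk measurable_id
          have h5 := hmA.comp h4
          exact h5
        rw [← lintegral_add_left hq, ← lintegral_const_mul' _ _ h2t]
        refine lintegral_mono fun x => ?_
        rw [wv_split (s := s)]
        exact two_p hp1 _ _
    _ = 2 ^ (p - 1) * ((∫⁻ q, (∫⁻ x in cub n,
          ‖∑ k ∈ S, ((wt s k : ℝ) : ℂ) * A₀ k * rW B (bW s Rc) q (kap k) * chr k x‖ₑ ^ p)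
          ∂((nu n α β).prod (volume.restrict (Icc 1 2)))) +
        ∫⁻ q, (∫⁻ x in cub n, ‖∑ k ∈ S, ((wt (s - 1) k : ℝ) : ℂ) * A₁ k *
          rW B (bW (1 + s) Ry) q (kap k) * chr k x‖ₑ ^ p)
          ∂((nu n α β).prod (volume.restrict (Icc 1 2)))) := by
        rw [lintegral_const_mul' _ _ h2t, lintegral_add_left (hmA.lintegral_prod_right'
          (ν := (volume : Measure (Fin n → ℝ)).restrict (cub n)))]
    _ ≤ 2 ^ (p - 1) * (C1 * F1 + C2 * F2) := by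
        gcongr
    _ ≤ 2 ^ (p - 1) * ((C1 + C2) * F1 + (C1 + C2) * F2) := by
        gcongr
        · exact le_self_add
        · exact le_add_self
    _ = C * (F1 + F2) := by
        rw [hC]
        ring
    _ ≤ _ := by
        refine mul_le_mul_left ?_ _
        refine (le_of_eq (ENNReal.ofReal_toReal hCt).symm).trans ?_
        exact ENNReal.ofReal_le_ofReal (by linarith)

/-- summation of averaged estimates -/
theorem ae_sum {p : ℝ} (hp : 1 < p) {F : ℕ → (Fin n → ℝ) → ℝ≥0∞} {X : ℕ → ℝ≥0∞}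
    (hF : ∀ k, Measurable (F k))
    (h : ∀ α β : ℝ, 0 < α → α ≤ β → ∃ C : ℝ≥0∞, C ≠ ⊤ ∧ ∀ k,
      ∫⁻ a in (univ.pi fun _ : Fin n => Icc α β), F k a ≤ C * X k)
    (hX : ∑' k, X k ^ (1 / p) < ⊤) :
    ∀ᵐ a : Fin n → ℝ, (∀ j, 0 < a j) → ∑' k, F k a ^ (1 / p) < ⊤ := by
  have hp0 : 0 < p := by linarith
  refine ae_pos fun α β hα hαβ => ?_
  rw [nu_eq]
  obtain ⟨C, hC, h⟩ := h α β hα hαβ
  obtain ⟨μ, hμ⟩ : ∃ μ : Measure (Fin n → ℝ),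
    μ = volume.restrict (univ.pi fun _ : Fin n => Icc α β) := ⟨_, rfl⟩
  have hfin : μ univ ≠ ⊤ := by
    rw [hμ, Measure.restrict_apply_univ]
    exact (isCompact_univ_pi fun _ => isCompact_Icc).measure_lt_top.ne
  rw [← hμ] at h ⊢
  have hM : ∀ k, AEMeasurable (fun c => F k c ^ (1 / p)) μ := fun k =>
    ((hF k).pow_const _).aemeasurable
  have h1 : ∫⁻ c, ∑' k, F k c ^ (1 / p) ∂μ ≠ ⊤ := by
    rw [lintegral_tsum hM]
    have h2 : ∀ k, ∫⁻ c, F k c ^ (1 / p) ∂μ ≤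
        (C ^ (1 / p) * μ univ ^ (1 - 1 / p)) * X k ^ (1 / p) := by
      intro k
      refine (jensenF (hF k).aemeasurable hp).trans ?_
      have h5 := ENNReal.rpow_le_rpow (h k) (by positivity : 0 ≤ 1 / p)
      rw [ENNReal.mul_rpow_of_nonneg _ _ (by positivity)] at h5
      calc _ ≤ (C ^ (1 / p) * X k ^ (1 / p)) * μ univ ^ (1 - 1 / p) := mul_le_mul_left h5 _
        _ = _ := by ring
    refine ((ENNReal.tsum_le_tsum h2).trans_lt ?_).ne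
    rw [ENNReal.tsum_mul_left]
    refine ENNReal.mul_lt_top (ENNReal.mul_lt_top ?_ ?_) hX
    · exact ENNReal.rpow_lt_top_of_nonneg (by positivity) hC
    · refine ENNReal.rpow_lt_top_of_nonneg ?_ hfin
      have : 1 / p ≤ 1 := by
        rw [div_le_one hp0]
        exact hp.le
      linarith
  exact ae_lt_top' (AEMeasurable.tsum hM) h1

theorem tor_two (n : ℕ) (hn : 1 ≤ n) {p s : ℝ} (hp : 2 ≤ p) (hp4 : p ≤ 4)
    (hs : 1 / 2 - 1 / p < s) (B : E n ≃ₗᵢ[ℝ] E n) (S : ℕ → Finset (Fin n → ℤ))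
    (A₀ A₁ : ℕ → (Fin n → ℤ) → ℂ)
    (hu : ∑' i, ((∫⁻ x in cub n, ‖∑ k ∈ S i, ((wt s k : ℝ) : ℂ) * A₀ i k * chr k x‖ₑ ^ p) ^ (1 / p) +
        (∫⁻ x in cub n, ‖∑ k ∈ S i, ((wt (s - 1) k : ℝ) : ℂ) * A₁ i k * chr k x‖ₑ ^ p) ^ (1 / p)) < ⊤) :
    ∀ᵐ a : Fin n → ℝ, (∀ j, 0 < a j) →
      ∑' i, (∫⁻ t in Icc (1 : ℝ) 2, ∫⁻ x in cub n,
        ‖wvT B a (S i) (A₀ i) (A₁ i) t x‖ₑ ^ p) ^ (1 / p) < ⊤ := by
  have hp0 : 0 < p := by linarith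
  have hp1 : 1 < p := by linarith
  have hp2 : 1 / p ≤ 1 / 2 := one_div_le_one_div_of_le (by norm_num) hp
  have hs0 : 0 ≤ s := by linarith
  refine ae_sum hp1 (X := fun i => (∫⁻ x in cub n,
      ‖∑ k ∈ S i, ((wt s k : ℝ) : ℂ) * A₀ i k * chr k x‖ₑ ^ p) +
        ∫⁻ x in cub n, ‖∑ k ∈ S i, ((wt (s - 1) k : ℝ) : ℂ) * A₁ i k * chr k x‖ₑ ^ p)
    (fun i => ?_) (fun α β hα hαβ => ?_) ?_
  · have h1 := ((wv_meas hs0 B (S i) (A₀ i) (A₁ i)).enorm.pow_const p).lintegral_prod_right'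
      (ν := (volume : Measure (Fin n → ℝ)).restrict (cub n))
    exact h1.lintegral_prod_right' (ν := (volume : Measure ℝ).restrict (Icc 1 2))
  · obtain ⟨C, hC, h⟩ := tor_one n hn hp hp4 hs hα hαβ
    exact ⟨_, ENNReal.ofReal_ne_top, fun i => h B (S i) (A₀ i) (A₁ i)⟩
  · refine (ENNReal.tsum_le_tsum fun i => ?_).trans_lt hu
    exact ENNReal.rpow_add_le_add_rpow _ _ (by positivity) (by linarith)

end Pool.Agent.TH292.LS
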