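import Mathlib
import Pool.Agent.TH292.LS.Tor3
import Pool.Agent.TH292.LS.Sol
set_option autoImplicit false

/-! The Fourier series formula on the torus gives the solution of the wave equation. -/

namespace Pool.Agent.TH292.LS

open Complex MeasureTheory Set Filter Topology
open scoped ENNReal FourierTransform RealInnerProductSpace SchwartzMap ContDiff
open Pool.Agent.TH310.BZ

variable {n : ℕ}

lemma Deriv2.sum {ι : Type*} {S : Finset ι} {f : ι → ℝ → ℂ} {c : ι → ℂ} {r : ℝ}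
    (h : ∀ k ∈ S, Deriv2 (f k) (c k) r) :
    Deriv2 (fun s => ∑ k ∈ S, f k s) (∑ k ∈ S, c k) r := by
  unfold Deriv2 at h
  choose! f' hf using h
  exact ⟨fun s => ∑ k ∈ S, f' k s, fun s => HasDerivAt.fun_sum fun k hk => (hf k hk).1 s,
    HasDerivAt.fun_sum fun k hk => (hf k hk).2⟩

lemma exp_der (c r : ℝ) :
    HasDerivAt (fun r : ℝ => cexp (((2 * Real.pi * (r * c) : ℝ) : ℂ) * I))
      (cexp (((2 * Real.pi * (r * c) : ℝ) : ℂ) * I) * (((2 * Real.pi * c : ℝ) : ℂ) * I)) r := by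
  have h1 : HasDerivAt (fun r : ℝ => 2 * Real.pi * (r * c)) (2 * Real.pi * (1 * c)) r :=
    ((hasDerivAt_id r).mul_const c).const_mul (2 * Real.pi)
  have h2 := (h1.ofReal_comp.mul_const I).cexp
  refine h2.congr_deriv ?_
  rw [one_mul]

lemma D2_exp (G : ℂ) (c : ℝ) :
    Deriv2 (fun r => G * cexp (((2 * Real.pi * (r * c) : ℝ) : ℂ) * I))
      (((-(4 * Real.pi ^ 2) * c ^ 2 : ℝ) : ℂ) * G) 0 := by
  refine ⟨fun r => G * (cexp (((2 * Real.pi * (r * c) : ℝ) : ℂ) * I) *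
    (((2 * Real.pi * c : ℝ) : ℂ) * I)), fun r => (exp_der c r).const_mul G, ?_⟩
  have h1 := ((exp_der c 0).mul_const (((2 * Real.pi * c : ℝ) : ℂ) * I)).const_mul G
  refine h1.congr_deriv ?_
  have e : (((2 * Real.pi * (0 * c) : ℝ) : ℂ) * I) = 0 := by simp
  rw [e, Complex.exp_zero]
  have hI : I * I = -1 := Complex.I_mul_I
  push_cast
  linear_combination (4 * (Real.pi : ℂ) ^ 2 * (c : ℂ) ^ 2 * G) * hI

lemma chr_line (k : Fin n → ℤ) (x v : Fin n → ℝ) (r : ℝ) :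
    chr k (fun j => x j + r * v j) =
      chr k x * cexp (((2 * Real.pi * (r * ∑ j, v j * (k j : ℝ)) : ℝ) : ℂ) * I) := by
  unfold chr
  rw [← Complex.exp_add, ← add_mul, ← Complex.ofReal_add]
  congr 3
  rw [Finset.mul_sum, Finset.mul_sum, Finset.mul_sum, Finset.mul_sum, ← Finset.sum_add_distrib]
  refine Finset.sum_congr rfl fun j _ => ?_
  ring

lemma repr_kap (b : OrthonormalBasis (Fin n) ℝ (E n)) (k : Fin n → ℤ) (l : Fin n) :
    (b.repr (kap k)) l = ∑ j, b l j * (k j : ℝ) := by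
  rw [b.repr_apply_apply, inner_kap]
  exact Finset.sum_congr rfl fun j _ => mul_comm _ _

theorem tor_solves (b : OrthonormalBasis (Fin n) ℝ (E n)) {a : Fin n → ℝ} (ha : ∀ j, 0 ≤ a j)
    (S : Finset (Fin n → ℤ)) (A₀ A₁ : (Fin n → ℤ) → ℂ) (x : Fin n → ℝ) :
    wvT b.repr a S A₀ A₁ 0 x = ∑ k ∈ S, A₀ k * chr k x ∧
    HasDerivAt (fun t => wvT b.repr a S A₀ A₁ t x) (∑ k ∈ S, A₁ k * chr k x) 0 ∧
    ∀ t : ℝ, ∃ D : Fin n → ℂ,
      (∀ l, Deriv2 (fun r => wvT b.repr a S A₀ A₁ t (fun j => x j + r * b l j)) (D l) 0) ∧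
      Deriv2 (fun t => wvT b.repr a S A₀ A₁ t x) (∑ l, (a l : ℂ) * D l) t := by
  have hF : ∀ t x, wvT b.repr a S A₀ A₁ t x = ∑ k ∈ S,
      Fh a (fun _ => A₀ k) (fun _ => A₁ k) t (b.repr (kap k)) * chr k x := fun t x => rfl
  refine ⟨?_, ?_, fun t => ⟨fun l => ∑ k ∈ S, ((-(4 * Real.pi ^ 2) *
    (∑ j, b l j * (k j : ℝ)) ^ 2 : ℝ) : ℂ) *
    (Fh a (fun _ => A₀ k) (fun _ => A₁ k) t (b.repr (kap k)) * chr k x), fun l => ?_, ?_⟩⟩
  · rw [hF]
    refine Finset.sum_congr rfl fun k _ => ?_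
    unfold Fh
    simp
  · simp only [hF]
    refine HasDerivAt.fun_sum fun k _ => ?_
    have h1 := (Fh_t ha (fun _ => A₀ k) (fun _ => A₁ k) 0 (b.repr (kap k))).mul_const (chr k x)
    refine h1.congr_deriv ?_
    unfold Fh'
    simp
  · simp only [hF]
    refine Deriv2.sum fun k _ => ?_
    have h1 := D2_exp (Fh a (fun _ => A₀ k) (fun _ => A₁ k) t (b.repr (kap k)) * chr k x)
      (∑ j, b l j * (k j : ℝ))
    have e : (fun r => Fh a (fun _ => A₀ k) (fun _ => A₁ k) t (b.repr (kap k)) *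
        chr k (fun j => x j + r * b l j)) = fun r =>
        (Fh a (fun _ => A₀ k) (fun _ => A₁ k) t (b.repr (kap k)) * chr k x) *
        cexp (((2 * Real.pi * (r * ∑ j, b l j * (k j : ℝ)) : ℝ) : ℂ) * I) := by
      funext r
      rw [chr_line k x (fun j => b l j) r]
      ring
    rw [e]
    exact h1
  · simp only [hF]
    have h1 : Deriv2 (fun t => ∑ k ∈ S,
        Fh a (fun _ => A₀ k) (fun _ => A₁ k) t (b.repr (kap k)) * chr k x)
        (∑ k ∈ S, ((-(4 * Real.pi ^ 2) * QF a (b.repr (kap k)) : ℝ) : ℂ) *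
          Fh a (fun _ => A₀ k) (fun _ => A₁ k) t (b.repr (kap k)) * chr k x) t := by
      refine Deriv2.sum fun k _ => ?_
      exact ⟨fun t => Fh' a (fun _ => A₀ k) (fun _ => A₁ k) t (b.repr (kap k)) * chr k x,
        fun t => (Fh_t ha (fun _ => A₀ k) (fun _ => A₁ k) t (b.repr (kap k))).mul_const _,
        (Fh'_t ha (fun _ => A₀ k) (fun _ => A₁ k) t (b.repr (kap k))).mul_const _⟩
    have e : (∑ l, (a l : ℂ) * ∑ k ∈ S, ((-(4 * Real.pi ^ 2) *
        (∑ j, b l j * (k j : ℝ)) ^ 2 : ℝ) : ℂ) *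
        (Fh a (fun _ => A₀ k) (fun _ => A₁ k) t (b.repr (kap k)) * chr k x)) =
        ∑ k ∈ S, ((-(4 * Real.pi ^ 2) * QF a (b.repr (kap k)) : ℝ) : ℂ) *
          Fh a (fun _ => A₀ k) (fun _ => A₁ k) t (b.repr (kap k)) * chr k x := by
      simp only [Finset.mul_sum]
      rw [Finset.sum_comm]
      refine Finset.sum_congr rfl fun k _ => ?_
      unfold QF
      simp only [repr_kap]
      rw [Finset.mul_sum, Complex.ofReal_sum, Finset.sum_mul, Finset.sum_mul]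
      refine Finset.sum_congr rfl fun l _ => ?_
      push_cast
      ring
    rw [e]
    exact h1

end Pool.Agent.TH292.LS
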