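import Mathlib
import Pool.Agent.TH292.LS.Sol
import Pool.Agent.TH292.LS.Dil1
set_option autoImplicit false

/-! The formula for the Euclidean wave equation with dilated Schwartz data gives the solution. -/

namespace Pool.Agent.TH292.LS

open Complex MeasureTheory Set Filter Topology
open scoped ENNReal FourierTransform RealInnerProductSpace SchwartzMap
open Pool.Agent.TH310.BZ

variable {n : ℕ}

lemma Deriv2.scale {f : ℝ → ℂ} {c : ℂ} (h : Deriv2 f c 0) (k : ℝ) :
    Deriv2 (fun r => f (k * r)) (((k ^ 2 : ℝ) : ℂ) * c) 0 := by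
  obtain ⟨f', h1, h2⟩ := h
  refine ⟨fun r => (k : ℂ) * f' (k * r), fun r => ?_, ?_⟩
  · have h3 : HasDerivAt (fun r : ℝ => k * r) k r := by
      simpa using (hasDerivAt_id r).const_mul k
    have h4 := (h1 (k * r)).scomp r h3
    have h5 : (k • f' (k * r) : ℂ) = (k : ℂ) * f' (k * r) := Complex.real_smul
    rw [h5] at h4
    exact h4
  · have h3 : HasDerivAt (fun r : ℝ => k * r) k 0 := by
      simpa using (hasDerivAt_id (0 : ℝ)).const_mul k
    have h2' : HasDerivAt f' c (k * 0) := by rw [mul_zero]; exact h2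
    have h4 := (h2'.scomp (0 : ℝ) h3).const_mul (k : ℂ)
    have h5 : (k : ℂ) * (k • c) = ((k ^ 2 : ℝ) : ℂ) * c := by
      rw [Complex.real_smul]
      push_cast
      ring
    rw [h5] at h4
    exact h4

lemma dl_line (w : Fin n → ℝ) (x : E n) (j : Fin n) (r : ℝ) :
    dl w (x + r • EuclideanSpace.single j (1 : ℝ)) =
      dl w x + (w j * r) • EuclideanSpace.single j (1 : ℝ) := by
  ext i
  rw [dl_apply]
  simp only [PiLp.add_apply, PiLp.smul_apply, dl_apply, smul_eq_mul, PiLp.single_apply]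
  by_cases h : i = j
  · subst h
    simp
    ring
  · simp [h]

theorem wav_solves {w : Fin n → ℝ} (hw : ∀ j, 0 < w j) (u₀ u₁ : 𝓢(E n, ℂ)) (x : E n) :
    wav (fun x => u₀ (dl w x)) (fun x => u₁ (dl w x)) 0 x = u₀ (dl w x) ∧
    HasDerivAt (fun t => wav (fun x => u₀ (dl w x)) (fun x => u₁ (dl w x)) t x)
      (u₁ (dl w x)) 0 ∧
    ∀ t : ℝ, ∃ D : Fin n → ℂ,
      (∀ j, Deriv2 (fun r => wav (fun x => u₀ (dl w x)) (fun x => u₁ (dl w x)) t
        (x + r • EuclideanSpace.single j (1 : ℝ))) (D j) 0) ∧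
      Deriv2 (fun t => wav (fun x => u₀ (dl w x)) (fun x => u₁ (dl w x)) t x)
        (∑ j, D j) t := by
  obtain ⟨h1, h2, h3⟩ := solE_solves (a := fun j => w j ^ 2) (fun j => sq_nonneg _) u₀ u₁ (dl w x)
  simp only [wav_dl hw]
  refine ⟨h1, h2, fun t => ?_⟩
  obtain ⟨D, h4, h5⟩ := h3 t
  refine ⟨fun j => ((w j ^ 2 : ℝ) : ℂ) * D j, fun j => ?_, h5⟩
  simp only [dl_line]
  exact (h4 j).scale (w j)

end Pool.Agent.TH292.LS
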